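import Pool.Agent.Q192.PI.StmB

/-! Project PI (helper192), job SB1: cells are almost round (helper162). -/

set_option autoImplicit false

open Filter Topology Set Metric

namespace Pool.Agent.Q192.PI.B

open Pool.Agent.H721R2 Pool.Agent.H779R2.An Pool.Agent.Q130.UQ

universe u v

variable {X : Type u} {E : Type v} [MetricSpace X] [NormedAddCommGroup E] [NormedSpace ℝ E]

theorem URel_back {S : HypSys X E} {ε : ℝ} {a z : X} {j m : ℕ} (hjm : j ≤ m)
    (h : S.URel ε (S.g^[m] a) (S.g^[m] z)) : S.URel ε (S.g^[j] a) (S.g^[j] z) := by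
  have h1 := h.iter (m - j)
  rw [symm_iter_iter_le S (by omega), symm_iter_iter_le S (by omega)] at h1
  rwa [show m - (m - j) = j by omega] at h1

/-- iterated metric distortion -/
theorem Sc.md_iter {S : HypSys X E} {ε₀ Q α β K L : ℝ} (h : Sc S ε₀ Q α β K L) (a z z' : X) :
    ∀ j : ℕ, S.URel ε₀ (S.g^[j] a) (S.g^[j] z) → S.URel ε₀ (S.g^[j] a) (S.g^[j] z') →
      dist (S.g^[j] a) (S.g^[j] z) * dist a z' ≤
        K ^ j * (dist (S.g^[j] a) (S.g^[j] z') * dist a z) := by
  intro j
  induction j with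
  | zero =>
    intro _ _
    rw [pow_zero, one_mul]
    exact le_of_eq (mul_comm _ _)
  | succ j ih =>
    intro h1 h2
    have i1 := ih (URel_back (Nat.le_succ j) h1) (URel_back (Nat.le_succ j) h2)
    rw [Function.iterate_succ_apply', Function.iterate_succ_apply'] at h1 h2
    rw [Function.iterate_succ_apply', Function.iterate_succ_apply', Function.iterate_succ_apply']
    have i2 := h.md _ _ _ h1 h2
    have hK : 0 ≤ K := by linarith [h.K1]
    rcases eq_or_lt_of_le (dist_nonneg (x := S.g^[j] a) (y := S.g^[j] z)) with h3 | h3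
    · have h4 : S.g^[j] a = S.g^[j] z := dist_eq_zero.1 h3.symm
      rw [h4, dist_self, zero_mul]
      positivity
    rcases eq_or_lt_of_le (dist_nonneg (x := S.g^[j] a) (y := S.g^[j] z')) with h5 | h5
    · have h4 : S.g^[j] a = S.g^[j] z' := dist_eq_zero.1 h5.symm
      have h6 : a = z' := (S.g.injective.iterate j) h4
      rw [h6, dist_self, mul_zero]
      positivity
    have h7 := mul_le_mul i2 i1 (by positivity) (by positivity)
    have h8 : 0 < dist (S.g^[j] a) (S.g^[j] z) * dist (S.g^[j] a) (S.g^[j] z') := by positivity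
    refine le_of_mul_le_mul_right ?_ h8
    calc _ = _ := by ring
      _ ≤ _ := h7
      _ = _ := by ring

theorem sB1 : SB1.{u, v} := by
  intro X E _ _ _ S ε₀ Q α β K L h σ hσ
  have hε := h.geo.pos
  have hL := h.L1
  have hL0 : 0 < L := by linarith
  have hK0 : 0 < K := by linarith [h.K1]
  set σ' := min σ (ε₀ / L) with hσ'
  have hσ0 : 0 < σ' := lt_min hσ (by positivity)
  have hσL : L * σ' ≤ ε₀ := by
    have := min_le_right σ (ε₀ / L)
    rw [← hσ', le_div_iff₀ hL0] at this
    linarith
  have hσε : σ' ≤ ε₀ := by nlinarith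
  refine ⟨L * ε₀ / σ', by positivity, ?_⟩
  intro a z z' m haz hn haz'
  have hex : ∃ k, ¬ S.URel σ' (S.g^[k] a) (S.g^[k] z) :=
    ⟨m + 1, fun hc => hn (hc.mono (min_le_left _ _))⟩
  classical
  have hk1 := Nat.find_spec hex
  have hk2 : ∀ j, j < Nat.find hex → S.URel σ' (S.g^[j] a) (S.g^[j] z) := fun j hj =>
    not_not.1 (Nat.find_min hex hj)
  have hk3 : Nat.find hex ≤ m + 1 := Nat.find_min' hex
    (fun hc => hn (hc.mono (min_le_left _ _)))
  set k := Nat.find hex with hk
  clear_value k
  have key : ∃ j ≤ m, S.URel ε₀ (S.g^[j] a) (S.g^[j] z) ∧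
      σ' ≤ L * dist (S.g^[j] a) (S.g^[j] z) := by
    have hue : S.URel ε₀ (S.g^[k] a) (S.g^[k] z) := by
      rcases Nat.eq_zero_or_pos k with h0 | h0
      · rw [h0]; exact haz
      · obtain ⟨k', rfl⟩ : ∃ k', k = k' + 1 := ⟨k - 1, by omega⟩
        have h1 := hk2 k' (by omega)
        intro i
        rcases i with _ | i
        · rw [Function.iterate_zero_apply, Function.iterate_zero_apply,
            Function.iterate_succ_apply', Function.iterate_succ_apply']
          refine (h.lip _ _).trans (le_trans ?_ hσL)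
          exact mul_le_mul_of_nonneg_left h1.dist_le hL0.le
        · have e1 : S.g^[k' + 1] a = S.g (S.g^[k'] a) := Function.iterate_succ_apply' _ _ _
          have e2 : S.g^[k' + 1] z = S.g (S.g^[k'] z) := Function.iterate_succ_apply' _ _ _
          rw [e1, e2, Function.iterate_succ_apply, Function.iterate_succ_apply,
            Homeomorph.symm_apply_apply, Homeomorph.symm_apply_apply]
          exact (h1 i).trans hσε
    have hd : σ' < dist (S.g^[k] a) (S.g^[k] z) := by
      by_contra hc
      push Not at hc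
      exact hk1 ((h.geo.URel_dist hue).mono hc)
    rcases Nat.lt_or_ge m k with h1 | h1
    · have h2 : k = m + 1 := by omega
      refine ⟨m, le_rfl, URel_back (by omega) hue, ?_⟩
      rw [h2, Function.iterate_succ_apply', Function.iterate_succ_apply'] at hd
      exact hd.le.trans (h.lip _ _)
    · refine ⟨k, h1, hue, ?_⟩
      have h2 : 0 ≤ dist (S.g^[k] a) (S.g^[k] z) := dist_nonneg
      nlinarith
  obtain ⟨j, hjm, hj1, hj2⟩ := key
  have hj3 := URel_back hjm haz'
  have h1 := h.md_iter a z z' j hj1 hj3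
  have h2 := hj3.dist_le
  have h3 : K ^ j ≤ K ^ m := pow_le_pow_right₀ h.K1 hjm
  have h4 : K ^ j * (dist (S.g^[j] a) (S.g^[j] z') * dist a z) ≤ K ^ m * (ε₀ * dist a z) := by
    gcongr
  have h5 : σ' * dist a z' ≤ L * (K ^ m * (ε₀ * dist a z)) := by
    calc σ' * dist a z' ≤ (L * dist (S.g^[j] a) (S.g^[j] z)) * dist a z' :=
          mul_le_mul_of_nonneg_right hj2 dist_nonneg
      _ = L * (dist (S.g^[j] a) (S.g^[j] z) * dist a z') := by ring
      _ ≤ L * (K ^ m * (ε₀ * dist a z)) := mul_le_mul_of_nonneg_left (h1.trans h4) hL0.le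
  have h6 : L * ε₀ / σ' * K ^ m * dist a z = L * (K ^ m * (ε₀ * dist a z)) / σ' := by ring
  rw [h6, le_div_iff₀ hσ0]
  linarith
end Pool.Agent.Q192.PI.B
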