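import Pool.Agent.Q192.PI.StmB

/-!
# Transport of a ball along a subdivided stable leaf (SB10)
-/

set_option autoImplicit false

open Filter Topology Set Metric

namespace Pool.Agent.Q192.PI.B

open Pool.Agent.H721R2 Pool.Agent.H779R2.An Pool.Agent.Q130.UQ Pool.Agent.H789R2.AN
  Pool.Agent.H789R2.GP

universe u v

/-- Chains of a relation. -/
inductive Cn10 {X : Type u} (r : X → X → Prop) : ℕ → X → X → Prop
  | nil (x : X) : Cn10 r 0 x x
  | snoc {p : ℕ} {x y z : X} : Cn10 r p x y → r y z → Cn10 r (p + 1) x z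

theorem Cn10.of_fun {X : Type u} {r : X → X → Prop} {c : ℕ → X} (p : ℕ)
    (h : ∀ i < p, r (c i) (c (i + 1))) : Cn10 r p (c 0) (c p) := by
  induction p with
  | zero => exact Cn10.nil _
  | succ p ih => exact Cn10.snoc (ih fun i hi => h i (by omega)) (h p (by omega))

theorem Cn10.append {X : Type u} {r : X → X → Prop} {p p' : ℕ} {x y z : X} (h : Cn10 r p x y)
    (h' : Cn10 r p' y z) : Cn10 r (p + p') x z := by
  induction h' with
  | nil => exact h
  | snoc _ h2 ih => exact Cn10.snoc (ih h) h2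

theorem Cn10.subdiv {X : Type u} {r : X → X → Prop} {G : X → X} {ms : ℕ}
    (hr : ∀ x y, r x y → Cn10 r ms (G x) (G y)) {p : ℕ} {x y : X} (h : Cn10 r p x y) :
    Cn10 r (p * ms) (G x) (G y) := by
  induction h with
  | nil =>
    rw [Nat.zero_mul]
    exact Cn10.nil _
  | snoc _ h2 ih =>
    rw [Nat.succ_mul]
    exact ih.append (hr _ _ h2)

theorem Cn10.subdiv_iter {X : Type u} {r : X → X → Prop} {G : X → X} {ms : ℕ}
    (hr : ∀ x y, r x y → Cn10 r ms (G x) (G y)) (k : ℕ) {x y : X} (h : r x y) :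
    Cn10 r (ms ^ k) (G^[k] x) (G^[k] y) := by
  induction k with
  | zero =>
    exact Cn10.snoc (Cn10.nil _) h
  | succ k ih =>
    rw [pow_succ, Function.iterate_succ_apply', Function.iterate_succ_apply']
    exact ih.subdiv hr

theorem sB10 : SB10.{u, v} := by
  intro X E _ _ _ _ S D ε₀ Q α β K L R σ η b ψ U ms hSc hCht hScale hsub hgrow hWL
  obtain ⟨δ₁, hδ₁, hsub⟩ := hsub
  intro y hy P hyP r hr hrR hrU
  have hG := hSc.geo
  have hQ := hSc.Q1
  have hη := hScale.η0
  have hησ := hScale.ησ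
  have hσb := hScale.σb
  have hbε := hScale.bε
  have hL := hSc.L1
  have hε := hG.pos
  have hη64 : 64 * η ≤ σ := by nlinarith
  have hσ0 : 0 < σ := by linarith
  have hσb' : 64 * σ ≤ b := by
    have h1 : σ ≤ Q * L * σ := by
      have : 1 ≤ Q * L := by nlinarith
      nlinarith
    nlinarith
  -- constants
  set e₁ : ℝ := min (η / (8 * Q)) δ₁ with he₁
  have he₁0 : 0 < e₁ := lt_min (by positivity) hδ₁
  set e₂ : ℝ := 2 * Q * e₁ with he₂
  have he₂η : e₂ ≤ η / 4 := by
    have h1 : e₁ ≤ η / (8 * Q) := min_le_left _ _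
    have h2 : 2 * Q * e₁ ≤ 2 * Q * (η / (8 * Q)) :=
      mul_le_mul_of_nonneg_left h1 (by positivity)
    have h3 : 2 * Q * (η / (8 * Q)) = η / 4 := by
      field_simp
      ring
    linarith
  have he₁₂ : e₁ ≤ e₂ := by
    rw [he₂]
    nlinarith
  have he₂0 : 0 < e₂ := by linarith
  obtain ⟨C, hC, hWL⟩ := hWL e₁ he₁0
  obtain ⟨M, hM⟩ := hyP.eventually he₁0
  obtain ⟨n, T, hn1, hn2⟩ := hgrow (C + (ms : ℝ) ^ M * e₂ / η)
  have hα := hSc.α0
  have hβ := hSc.β0
  have hK : 0 < K := by linarith [hSc.K1]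
  have hCn : C * K ^ (2 * D * T) * β ^ n ≤ 1 := by
    refine le_trans ?_ hn2
    have : 0 ≤ (ms : ℝ) ^ M * e₂ / η := by positivity
    gcongr
    linarith
  set p : ℕ := ms ^ (n + M) with hp
  have hpn : (p : ℝ) * e₂ * α ^ (T + n) ≤ η := by
    have h1 : (ms : ℝ) ^ M * e₂ / η * (ms : ℝ) ^ n * α ^ (T + n) ≤ 1 := by
      refine le_trans ?_ hn1
      gcongr
      linarith
    have h2 : (p : ℝ) * e₂ * α ^ (T + n) =
        η * ((ms : ℝ) ^ M * e₂ / η * (ms : ℝ) ^ n * α ^ (T + n)) := by
      rw [hp]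
      push_cast
      rw [pow_add]
      field_simp
    rw [h2]
    nlinarith
  -- the chain
  have hch : Cn10 (S.SRel e₁) p (S.g.symm^[n] y) (S.g.symm^[n] P) := by
    have h1 : ∀ x y, S.SRel e₁ x y → Cn10 (S.SRel e₁) ms (S.g.symm x) (S.g.symm y) := by
      intro x y hxy
      obtain ⟨c, hc0, hcm, hc⟩ := hsub e₁ he₁0 (min_le_right _ _) x y hxy
      rw [← hc0, ← hcm]
      exact Cn10.of_fun ms hc
    have h2 := Cn10.subdiv_iter h1 (n + M) (hM M le_rfl)
    rw [Function.iterate_add_apply, Function.iterate_add_apply,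
      Pool.Agent.H779R2.An.iter_symm_iter, Pool.Agent.H779R2.An.iter_symm_iter] at h2
    exact h2
  -- the set
  set A : Set X := ψ y '' ball 0 r with hA
  have hyA : y ∈ A := ⟨0, mem_ball_self hr, hCht.zero y⟩
  have hR := hCht.pos
  have hAA : ∀ a ∈ A, ∀ a' ∈ A, UAsym S a a' := by
    rintro _ ⟨w, hw, rfl⟩ _ ⟨w', hw', rfl⟩
    rw [mem_ball_zero_iff] at hw hw'
    exact hG.uasym _ _ (hCht.rel y w w' (by linarith) (by linarith))
  -- the induction
  have key : ∀ (i : ℕ) (x z : X), Cn10 (S.SRel e₁) i x z → x = S.g.symm^[n] y → i ≤ p →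
      ∃ φ : X → X, HolT S σ η T A φ ∧ φ y = S.g^[n] z ∧
        ∀ k : ℕ, ∀ a ∈ A, dist (S.g^[k] (S.g.symm^[n] a)) (S.g^[k] (S.g.symm^[n] (φ a))) ≤
          i * e₂ * α ^ k := by
    intro i x z h
    induction h with
    | nil x =>
      rintro rfl _
      refine ⟨fun a => a, ⟨hAA, hAA, fun a _ a' _ h => h, fun a _ k => ?_, fun a _ a' _ h => ?_⟩,
        (Pool.Agent.H779R2.An.iter_iter_symm S n y).symm, fun k a _ => ?_⟩
      · rw [dist_self]
        exact hη.le
      · exact h.mono (by linarith)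
      · rw [dist_self]
        simp
    | @snoc i x u z hc hr1 ih =>
      intro hx hi
      obtain ⟨φ, hφ, hφy, hφd⟩ := ih hx (by omega)
      have hu : S.g.symm^[n] (φ y) = u := by
        rw [hφy, Pool.Agent.H779R2.An.iter_symm_iter]
      have hsm : ∀ a ∈ A, S.URel e₁ u (S.g.symm^[n] (φ a)) := by
        rintro _ ⟨w, hw, rfl⟩
        rw [mem_ball_zero_iff] at hw
        have h1 := hWL y r hr hrR hrU T φ hφ n hCn w hw
        rwa [hu] at h1
      have key : ∀ a : X, ∃ w, a ∈ A → S.URel e₂ z w ∧ S.SRel e₂ (S.g.symm^[n] (φ a)) w := by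
        intro a
        by_cases ha : a ∈ A
        · have h1 : dist (S.g.symm^[n] (φ a)) z ≤ 2 * e₁ := by
            have h2 := dist_triangle (S.g.symm^[n] (φ a)) u z
            have h3 := (hsm a ha).dist_le
            have h4 := hr1.dist_le
            rw [dist_comm] at h3
            linarith
          obtain ⟨w, h2, h3⟩ := hSc.br (S.g.symm^[n] (φ a)) z (by linarith)
          have h4 : Q * dist (S.g.symm^[n] (φ a)) z ≤ e₂ := by
            rw [he₂]
            nlinarith
          exact ⟨w, fun _ => ⟨(h3.mono h4).symm, h2.mono h4⟩⟩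
        · exact ⟨z, fun h => absurd h ha⟩
      choose W hW using key
      have hUW : ∀ a ∈ A, UAsym S z (W a) := fun a ha =>
        hG.uasym _ _ ((hW a ha).1.mono (by linarith))
      have hU' : ∀ a ∈ A, UAsym S (S.g^[n] z) (S.g^[n] (W a)) := fun a ha => (hUW a ha).iter n
      have hWy : W y = z := by
        have h1 := (hW y hyA).2
        rw [hu] at h1
        exact (hG.uniq _ _ ((hr1.symm.trans h1).mono (by linarith))
          ((hW y hyA).1.mono (by linarith))).symm
      have hd : ∀ k : ℕ, ∀ a ∈ A, dist (S.g^[k] (S.g.symm^[n] a)) (S.g^[k] (W a)) ≤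
          ((i + 1 : ℕ) : ℝ) * e₂ * α ^ k := by
        intro k a ha
        have h1 := hφd k a ha
        have h2 := hSc.sc _ _ ((hW a ha).2.mono (by linarith)) k
        have h3 := (hW a ha).2.dist_le
        have h4 := dist_triangle (S.g^[k] (S.g.symm^[n] a)) (S.g^[k] (S.g.symm^[n] (φ a)))
          (S.g^[k] (W a))
        have h5 : α ^ k * dist (S.g.symm^[n] (φ a)) (W a) ≤ α ^ k * e₂ :=
          mul_le_mul_of_nonneg_left h3 (by positivity)
        push_cast
        linarith
      have hrel : ∀ a ∈ A, S.SRel η (S.g^[T] a) (S.g^[T] (S.g^[n] (W a))) := by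
        intro a ha k
        have h1 := hd (k + T + n) a ha
        have h2 : S.g^[k + T + n] (S.g.symm^[n] a) = S.g^[k] (S.g^[T] a) := by
          rw [Function.iterate_add_apply, Function.iterate_add_apply,
            Pool.Agent.H779R2.An.iter_iter_symm]
        have h3 : S.g^[k + T + n] (W a) = S.g^[k] (S.g^[T] (S.g^[n] (W a))) := by
          rw [Function.iterate_add_apply, Function.iterate_add_apply]
        rw [h2, h3] at h1
        refine h1.trans (le_trans ?_ hpn)
        have h4 : ((i + 1 : ℕ) : ℝ) ≤ p := by exact_mod_cast hi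
        have h5 : α ^ (k + T + n) ≤ α ^ (T + n) :=
          pow_le_pow_of_le_one hα.le (by linarith [hSc.α1]) (by omega)
        gcongr
      refine ⟨fun a => S.g^[n] (W a), ⟨hAA, fun a ha a' ha' => (hU' a ha).symm.trans (hU' a' ha'),
        ?_, hrel, ?_⟩, ?_, fun k a ha => ?_⟩
      · intro a ha a' ha' he
        have h0 : W a = W a' := (S.g.injective.iterate n) he
        have h1 := (hW a ha).2
        have h2 := (hW a' ha').2
        rw [← h0] at h2
        have h3 : S.SRel (e₂ + e₂) (S.g.symm^[n] (φ a)) (S.g.symm^[n] (φ a')) := h1.trans h2.symm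
        have h4 : S.URel (e₁ + e₁) (S.g.symm^[n] (φ a)) (S.g.symm^[n] (φ a')) :=
          (hsm a ha).symm.trans (hsm a' ha')
        have h5 := hG.uniq _ _ (h3.mono (by linarith)) (h4.mono (by linarith))
        exact hφ.inj ha ha' ((S.g.symm.injective.iterate n) h5)
      · intro a ha a' ha' hU
        have h1 := hφ.loc a ha a' ha' hU
        have hWW : S.URel (2 * e₂) (W a) (W a') :=
          ((hW a ha).1.symm.trans (hW a' ha').1).mono (by linarith)
        have h2 := lp (hW a ha).2.symm (hW a' ha').2.symm hWW (T + n) (c := 2 * σ) (by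
          rw [Function.iterate_add_apply, Function.iterate_add_apply,
            Pool.Agent.H779R2.An.iter_iter_symm, Pool.Agent.H779R2.An.iter_iter_symm]
          exact h1)
        rw [Function.iterate_add_apply, Function.iterate_add_apply] at h2
        have h3 := hG.URel_dist (h2.mono (max_le (by linarith) (by linarith)))
        refine h3.mono ?_
        have e1 := (hrel a ha).dist_le
        have e2 := (hrel a' ha').dist_le
        have e3 := hU.dist_le
        have e4 := dist_triangle4 (S.g^[T] (S.g^[n] (W a))) (S.g^[T] a) (S.g^[T] a')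
          (S.g^[T] (S.g^[n] (W a')))
        rw [dist_comm (S.g^[T] (S.g^[n] (W a))) (S.g^[T] a)] at e4
        linarith
      · show S.g^[n] (W y) = S.g^[n] z
        rw [hWy]
      · show dist (S.g^[k] (S.g.symm^[n] a)) (S.g^[k] (S.g.symm^[n] (S.g^[n] (W a)))) ≤ _
        rw [Pool.Agent.H779R2.An.iter_symm_iter]
        exact hd k a ha
  obtain ⟨φ, hφ, hφy, -⟩ := key p _ _ hch rfl le_rfl
  refine ⟨T, φ, hφ, ?_⟩
  rw [hφy, Pool.Agent.H779R2.An.iter_iter_symm]

end Pool.Agent.Q192.PI.B
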