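import Pool.Agent.Q192.PI.StmB

/-!
# Job PI-SB11 (project PI of helper192; written by helper98): the stable set of a minimal set is
saturated by unstable leaves
-/

set_option autoImplicit false

open Filter Topology Set Metric

namespace Pool.Agent.Q192.PI.B

open Pool.Agent.H721R2 Pool.Agent.H779R2.An Pool.Agent.Q130.UQ Pool.Agent.H789R2.AN
  Pool.Agent.H789R2.GP
open Pool.Agent.Q182.UQ (USat.iter USat.symm_iter)

universe u v

section
variable {X : Type*} {E : Type*} [MetricSpace X] [CompactSpace X] [NormedAddCommGroup E]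
  [NormedSpace ℝ E]
variable {S : HypSys X E} {Λ : Set X} {ε₀ : ℝ}

theorem Ws_iter (h : USat S Λ) {y : X} (hy : y ∈ Ws S Λ) (n : ℕ) : S.g^[n] y ∈ Ws S Λ := by
  obtain ⟨x, hx, hxy⟩ := hy
  exact ⟨_, USat.iter h hx n, hxy.iter n⟩

theorem Ws_symm_iter (h : USat S Λ) {y : X} (hy : y ∈ Ws S Λ) (n : ℕ) :
    S.g.symm^[n] y ∈ Ws S Λ := by
  obtain ⟨x, hx, hxy⟩ := hy
  exact ⟨_, USat.symm_iter h hx n, hxy.symm_iter n⟩

/-- the stable set of a saturated set is open -/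
theorem Ws_open (hG : Geo S ε₀) (h : USat S Λ) : IsOpen (Ws S Λ) := by
  obtain ⟨δ, hδ, hb⟩ := exists_bracket S ε₀ hG.pos
  rw [isOpen_iff_mem_nhds]
  rintro y ⟨p, hp, hpy⟩
  obtain ⟨n, hn⟩ := hpy.eventually (half_pos hδ)
  have hc : ContinuousAt (S.g^[n]) y := (S.g.continuous.iterate n).continuousAt
  have h1 := hc (Metric.ball_mem_nhds _ (half_pos hδ))
  filter_upwards [h1] with w hw
  have hw' : dist (S.g^[n] w) (S.g^[n] y) < δ / 2 := hw
  have h2 := (hn n le_rfl).dist_le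
  have h3 : dist (S.g^[n] w) (S.g^[n] p) ≤ δ := by
    have := dist_triangle (S.g^[n] w) (S.g^[n] y) (S.g^[n] p)
    rw [dist_comm (S.g^[n] y) (S.g^[n] p)] at this
    linarith
  obtain ⟨v, h4, h5⟩ := hb _ _ h3
  have hv : v ∈ Λ := h.sat _ (USat.iter h hp n) v (hG.uasym _ _ h5).symm
  have h6 : S.g^[n] w ∈ Ws S Λ := ⟨v, hv, (hG.sasym _ _ h4).symm⟩
  have h7 := Ws_symm_iter h h6 n
  rwa [iter_symm_iter] at h7

end

theorem sB11 : SB11.{u, v} := by
  intro X E _ _ _ _ S D ε₀ R σ η ψ Λ hG hC hη hΛ hT y hy y' hyy'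
  have hR := hC.pos
  obtain ⟨k, hk⟩ := hyy'.eventually (show 0 < R / 32 by positivity)
  have hk1 := hk k le_rfl
  suffices h : S.g.symm^[k] y' ∈ Ws S Λ by
    have := Ws_iter hΛ.toUSat h k
    rwa [iter_iter_symm] at this
  have hy1 := Ws_symm_iter hΛ.toUSat hy k
  generalize S.g.symm^[k] y = y₁ at hk1 hy1
  generalize S.g.symm^[k] y' = y₂ at hk1
  by_contra hne
  obtain ⟨w', hw', hw2⟩ := hC.surj y₁ y₂ (hk1.mono (by linarith))
  have hw3 : ‖w'‖ ≤ R / 16 := by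
    have h1 := hC.ge y₁ w' 0 hw' (by rw [norm_zero]; exact hR.le)
    rw [sub_zero, hw2, hC.zero] at h1
    have h2 := hk1.dist_le
    rw [dist_comm] at h2
    linarith
  have hcont : ContinuousOn (ψ y₁) (closedBall 0 R) := by
    have : LipschitzOnWith 2 (ψ y₁) (closedBall 0 R) := by
      refine LipschitzOnWith.of_dist_le_mul fun a ha a' ha' => ?_
      rw [mem_closedBall_zero_iff] at ha ha'
      rw [dist_eq_norm a a']
      exact_mod_cast hC.le y₁ a a' ha ha'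
    exact this.continuousOn
  have hopen := Ws_open hG hΛ.toUSat
  have hcomp : IsCompact (closedBall (0 : V D) (R / 16) ∩ ψ y₁ ⁻¹' (Ws S Λ)ᶜ) := by
    have h1 : ContinuousOn (ψ y₁) (closedBall 0 (R / 16)) :=
      hcont.mono (closedBall_subset_closedBall (by linarith))
    exact (isCompact_closedBall _ _).of_isClosed_subset
      (h1.preimage_isClosed_of_isClosed isClosed_closedBall hopen.isClosed_compl) inter_subset_left
  obtain ⟨w₀, ⟨hw0, hw0'⟩, hmin⟩ := hcomp.exists_isMinOn (f := fun w => ‖w‖)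
    ⟨w', by rw [mem_closedBall_zero_iff]; exact hw3, by
      show ψ y₁ w' ∉ Ws S Λ
      rw [hw2]
      exact hne⟩ continuous_norm.continuousOn
  rw [mem_closedBall_zero_iff] at hw0
  have hw0' : ψ y₁ w₀ ∉ Ws S Λ := hw0'
  have hr : 0 < ‖w₀‖ := by
    rw [norm_pos_iff]
    rintro rfl
    rw [hC.zero] at hw0'
    exact hw0' hy1
  have hball : ∀ w, ‖w‖ < ‖w₀‖ → ψ y₁ w ∈ Ws S Λ := by
    intro w hw
    by_contra hc
    have := hmin (show w ∈ _ from ⟨by rw [mem_closedBall_zero_iff]; linarith, hc⟩)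
    exact absurd this (not_le.2 hw)
  obtain ⟨P, hP, hPy⟩ := id hy1
  obtain ⟨T, φ, hφ, hφy⟩ := hT y₁ hy1 P hPy.symm ‖w₀‖ hr (by linarith) hball
  have hy0 : y₁ ∈ ψ y₁ '' ball 0 ‖w₀‖ := ⟨0, by rw [mem_ball_zero_iff, norm_zero]; exact hr, hC.zero _⟩
  have hφΛ : ∀ a ∈ ψ y₁ '' ball 0 ‖w₀‖, φ a ∈ Λ := by
    intro a ha
    have := hφ.uu _ hy0 _ ha
    rw [hφy] at this
    exact hΛ.sat _ hP _ this
  -- a sequence
  set c : ℕ → V D := fun k => (1 - 1 / ((k : ℝ) + 2)) • w₀ with hc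
  have hcn : ∀ k, ‖c k‖ < ‖w₀‖ := by
    intro k
    have h1 : (0 : ℝ) < 1 / ((k : ℝ) + 2) := by positivity
    have h2 : 1 / ((k : ℝ) + 2) ≤ 1 := by
      rw [div_le_one (by positivity)]
      have : (0 : ℝ) ≤ k := Nat.cast_nonneg k
      linarith
    rw [hc]
    simp only
    rw [norm_smul, Real.norm_of_nonneg (by linarith)]
    nlinarith
  have hclim : Tendsto c atTop (𝓝 w₀) := by
    have h1 : Tendsto (fun k : ℕ => 1 / ((k : ℝ) + 2)) atTop (𝓝 0) := by
      have h2 := tendsto_one_div_add_atTop_nhds_zero_nat (𝕜 := ℝ)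
      have h3 := (tendsto_add_atTop_iff_nat 1).2 h2
      refine h3.congr fun k => ?_
      push_cast
      ring
    have h2 : Tendsto (fun k : ℕ => (1 - 1 / ((k : ℝ) + 2)) • w₀) atTop (𝓝 ((1 - 0 : ℝ) • w₀)) :=
      (tendsto_const_nhds.sub h1).smul_const w₀
    rw [sub_zero, one_smul] at h2
    exact h2
  have hzlim : Tendsto (fun k => ψ y₁ (c k)) atTop (𝓝 (ψ y₁ w₀)) := by
    have h1 : ContinuousWithinAt (ψ y₁) (closedBall 0 R) w₀ :=
      hcont w₀ (by rw [mem_closedBall_zero_iff]; linarith)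
    refine h1.tendsto.comp (tendsto_nhdsWithin_iff.2 ⟨hclim, Eventually.of_forall fun k => ?_⟩)
    rw [mem_closedBall_zero_iff]
    linarith [hcn k]
  obtain ⟨q, -, θ, hθ, hq⟩ := isCompact_univ.tendsto_subseq (x := fun k => φ (ψ y₁ (c k)))
    fun _ => mem_univ _
  have hmem : ∀ k, ψ y₁ (c k) ∈ ψ y₁ '' ball 0 ‖w₀‖ := fun k =>
    ⟨c k, by rw [mem_ball_zero_iff]; exact hcn k, rfl⟩
  have hqΛ : q ∈ Λ := hΛ.closed.mem_of_tendsto hq (Eventually.of_forall fun k => hφΛ _ (hmem _))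
  have hrel : S.SRel η (S.g^[T] (ψ y₁ w₀)) (S.g^[T] q) := by
    intro j
    have hcj : Continuous fun p : X × X => dist (S.g^[j] (S.g^[T] p.1)) (S.g^[j] (S.g^[T] p.2)) := by
      have h1 := (S.g.continuous.iterate j).comp (S.g.continuous.iterate T)
      exact (h1.comp continuous_fst).dist (h1.comp continuous_snd)
    have h2 : Tendsto (fun k => (ψ y₁ (c (θ k)), φ (ψ y₁ (c (θ k))))) atTop
        (𝓝 (ψ y₁ w₀, q)) := (hzlim.comp hθ.tendsto_atTop).prodMk_nhds hq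
    refine le_of_tendsto ((hcj.tendsto _).comp h2) (Eventually.of_forall fun k => ?_)
    exact hφ.rel _ (hmem _) j
  have h1 : SAsym S (ψ y₁ w₀) q := SAsym.of_iter T (hG.sasym _ _ (hrel.mono hη))
  exact hw0' ⟨q, hqΛ, h1.symm⟩

end Pool.Agent.Q192.PI.B
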