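import Pool.Agent.Q192.PI.A2

/-!
# Job PI-SA3 (project PI of helper192; written by helper98): many pushes
-/

set_option autoImplicit false

open Filter Topology Set Metric unitInterval

namespace Pool.Agent.Q192.PI

open Pool.Agent.H721R2 Pool.Agent.H789R2.AN Pool.Agent.H789R2.GP Pool.Agent.Y330.H
open Pool.Agent.TH289.K

universe u

section
variable {X : Type*} [MetricSpace X] [CompactSpace X] {g : X ≃ₜ X} {c : ℝ}

/-- strips over a path which is constant after `a` are constant after `a` -/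
theorem strip_after (hg : LP g c) (Γ : C(I, Pr g)) (a : I) (h : ∀ t, a ≤ t → (Γ t).x = (Γ a).x) :
    (Γ a).y = (Γ 1).y := by
  let A : C(I, Pr g) := ⟨fun t => Γ (max t a), Γ.continuous.comp (by fun_prop)⟩
  let B : C(I, Pr g) := ⟨fun _ => Γ 1, continuous_const⟩
  have ha : a ≤ 1 := unitInterval.le_one'
  have h1 : ∀ t, (A t).x = (B t).x := by
    intro t
    show (Γ (max t a)).x = (Γ 1).x
    rw [h _ (le_max_right _ _), h 1 ha]
  have h2 : (A 1).y = (B 1).y := by
    show (Γ (max 1 a)).y = (Γ 1).y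
    rw [max_eq_left ha]
  have h3 := strip_unique hg A B h1 (t₀ := 1) h2 0
  have h4 : (Γ (max 0 a)).y = (Γ 1).y := h3
  rwa [max_eq_right (unitInterval.nonneg' (t := a))] at h4

/-- strips over a path which is constant before `a` are constant before `a` -/
theorem strip_before (hg : LP g c) (Γ : C(I, Pr g)) (a : I) (h : ∀ t, t ≤ a → (Γ t).x = (Γ a).x) :
    (Γ a).y = (Γ 0).y := by
  let A : C(I, Pr g) := ⟨fun t => Γ (min t a), Γ.continuous.comp (by fun_prop)⟩
  let B : C(I, Pr g) := ⟨fun _ => Γ 0, continuous_const⟩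
  have ha : 0 ≤ a := unitInterval.nonneg'
  have h1 : ∀ t, (A t).x = (B t).x := by
    intro t
    show (Γ (min t a)).x = (Γ 0).x
    rw [h _ (min_le_right _ _), h 0 ha]
  have h2 : (A 0).y = (B 0).y := by
    show (Γ (min 0 a)).y = (Γ 0).y
    rw [min_eq_left ha]
  have h3 := strip_unique hg A B h1 (t₀ := 0) h2 1
  have h4 : (Γ (min 1 a)).y = (Γ 0).y := h3
  rwa [min_eq_right unitInterval.le_one'] at h4

/-- gluing of strips -/
theorem strip_glue (hg : LP g c) (Γ Γ' : C(I, Pr g)) (a : I)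
    (h : ∀ t, a ≤ t → (Γ t).x = (Γ a).x) (h' : ∀ t, t ≤ a → (Γ' t).x = (Γ' a).x)
    (hx : (Γ a).x = (Γ' a).x) (hy : (Γ 1).y = (Γ' 0).y) :
    ∃ Γ₂ : C(I, Pr g), (∀ t, t ≤ a → Γ₂ t = Γ t) ∧ ∀ t, a ≤ t → Γ₂ t = Γ' t := by
  have hm : Γ a = Γ' a := by
    refine Pr.ext hx ?_
    rw [strip_after hg Γ a h, strip_before hg Γ' a h', hy]
  have hcont : Continuous fun t : I => if t ≤ a then Γ t else Γ' t := by
    refine Continuous.if_le Γ.continuous Γ'.continuous continuous_id continuous_const ?_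
    intro t ht
    have : t = a := ht
    rw [this, hm]
  refine ⟨⟨_, hcont⟩, fun t ht => if_pos ht, fun t ht => ?_⟩
  show (if t ≤ a then Γ t else Γ' t) = Γ' t
  split_ifs with h1
  · rw [le_antisymm h1 ht, hm]
  · rfl

end

theorem sA3 (h : SA2.{u}) : SA3.{u} := by
  intro X _ _ g c hg εs α β δ r ρ n N J hα hα1 hβ hβ1 hr hρ hε hcs hcu hLR hN hJ p hp v hv0 hv
  obtain ⟨θ, hm, e0, e1, hθ⟩ := hv
  have hpos : 0 ≤ β ^ n * r := by positivity
  have key : ∀ i ≤ J, ∃ (pi : C(I, SM g)), g^[n] (pi 0).val = (v (θ i)).val ∧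
      Pieces g (ρ + 2 * (i * (β ^ n * r))) N (fun t => (pi t).val) ∧
      ∀ s, ∃ Γ : C(I, Pr g), (Γ 0).y = g^[n] (p s).val ∧ (∀ t, (Γ t).x = (v (min t (θ i))).val) ∧
        (Γ 1).y = g^[n] (pi s).val := by
    intro i
    induction i with
    | zero =>
      intro _
      refine ⟨p, by rw [e0, hv0], ?_, fun s => ?_⟩
      · simpa using hp
      · have hws : WS g (v 0).val (g^[n] (p s).val) := by
          rw [hv0, WS.iter]
          obtain ⟨C, hC⟩ := path_contr hg p
          exact WS.of_SR fun m => hC m s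
        let Γ : C(I, Pr g) := ⟨fun _ => ⟨(v 0).val, g^[n] (p s).val, hws⟩, continuous_const⟩
        refine ⟨Γ, rfl, fun t => ?_, rfl⟩
        show (v 0).val = (v (min t (θ 0))).val
        rw [e0, min_eq_right unitInterval.nonneg']
    | succ i ih =>
      intro hi
      obtain ⟨pi, a1, a2, a3⟩ := ih (by omega)
      have hii : θ i ≤ θ (i + 1) := hm (Nat.le_succ i)
      let w : C(I, SM g.symm) := ⟨fun t => v (max (θ i) (min t (θ (i + 1)))),
        v.continuous.comp (by fun_prop)⟩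
      have hwv : ∀ t, w t = v (max (θ i) (min t (θ (i + 1)))) := fun t => rfl
      have hw0 : w 0 = v (θ i) := by
        rw [hwv, min_eq_left unitInterval.nonneg', max_eq_left unitInterval.nonneg']
      have hwb : ∀ t, t ≤ θ i → w t = v (θ i) := by
        intro t ht
        rw [hwv, min_eq_left (ht.trans hii), max_eq_left ht]
      have hwa : ∀ t, θ i ≤ t → w t = v (min t (θ (i + 1))) := by
        intro t ht
        rw [hwv, max_eq_right (le_min ht hii)]
      have hw1 : w 1 = v (θ (i + 1)) := by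
        rw [hwa 1 unitInterval.le_one', min_eq_right unitInterval.le_one']
      have hiJ : ((i : ℝ) + 1) ≤ J := by exact_mod_cast hi
      have hsmall : 2 * ((i : ℝ) * (β ^ n * r)) ≤ ρ := by
        have := mul_le_mul_of_nonneg_right hiJ hpos
        nlinarith
      have hi0 : 0 ≤ 2 * ((i : ℝ) * (β ^ n * r)) := by positivity
      have hαρ : (N : ℝ) * (α ^ n * (ρ + 2 * (i * (β ^ n * r)))) ≤ δ := by
        refine le_trans ?_ hN
        refine mul_le_mul_of_nonneg_left ?_ (Nat.cast_nonneg _)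
        refine mul_le_mul_of_nonneg_left ?_ (pow_nonneg hα _)
        linarith
      obtain ⟨R, hR, b1, b2, p', b3, b4⟩ := h X g εs α β δ r (ρ + 2 * (i * (β ^ n * r))) n N hα hα1
        hβ hβ1 hr (by linarith) (by linarith) hcs hcu hLR hαρ pi a2 w (by rw [hw0, a1])
        (fun t => by
          rw [hw0]
          refine hθ i (by omega) (θ i) _ le_rfl hii (le_max_left _ _) (max_le hii (min_le_right _ _)))
      refine ⟨p', ?_, ?_, fun s => ?_⟩
      · rw [b3, b2, hw1]
      · have e : ρ + 2 * (((i + 1 : ℕ) : ℝ) * (β ^ n * r)) =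
            ρ + 2 * (i * (β ^ n * r)) + 2 * (β ^ n * r) := by
          push_cast
          ring
        rw [e]
        exact b4
      · obtain ⟨Γ, c1, c2, c3⟩ := a3 s
        obtain ⟨Γ', d1, d2⟩ := hR.strip 0 s
        obtain ⟨Γ₂, f1, f2⟩ := strip_glue hg Γ Γ' (θ i)
          (fun t ht => by rw [c2, c2, min_eq_right ht, min_self])
          (fun t ht => by rw [d1, d1, b2, b2, hwb t ht, hwb _ le_rfl])
          (by rw [c2, d1, b2, hwb _ le_rfl, min_self])
          (by rw [c3, d2, b1])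
        refine ⟨Γ₂, ?_, fun t => ?_, ?_⟩
        · rw [f1 0 unitInterval.nonneg', c1]
        · rcases le_total t (θ i) with ht | ht
          · rw [f1 t ht, c2, min_eq_left ht, min_eq_left (ht.trans hii)]
          · rw [f2 t ht, d1, b2, hwa t ht]
        · rw [f2 1 unitInterval.le_one', d2, b3]
  obtain ⟨pJ, -, -, a3⟩ := key J le_rfl
  obtain ⟨q, hq⟩ := pathS_iter n p
  obtain ⟨c₁, hc₁, hs⟩ := exists_sl hg
  obtain ⟨R, hR, b1, b2⟩ := rc_of_strips hg hc₁ hs q v (by rw [hq, hv0]) (fun s => by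
    obtain ⟨Γ, c1, c2, -⟩ := a3 s
    refine ⟨Γ, by rw [c1, hq], fun t => ?_⟩
    rw [c2, e1, min_eq_left unitInterval.le_one'])
  exact ⟨R, hR, fun s => by rw [b1, hq], b2⟩

end Pool.Agent.Q192.PI
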