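import Pool.Agent.Q192.PI.StmB
import Pool.Agent.Q192.PI.A3

/-!
# Job PI-SB12 (project PI of helper192; written by helper98): all unstable paths lift
-/

set_option autoImplicit false

open Filter Topology Set Metric unitInterval

namespace Pool.Agent.Q192.PI.B

open Pool.Agent.H721R2 Pool.Agent.H779R2.An Pool.Agent.Q130.UQ Pool.Agent.H789R2.AN
  Pool.Agent.H789R2.GP

universe u v

namespace J12

section
variable {X : Type*} {E : Type*} [MetricSpace X] [NormedAddCommGroup E]
  [NormedSpace ℝ E]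
variable {S : HypSys X E} {ε₀ sg η : ℝ} {T : ℕ} {A : Set X} {φ : X → X}

/-- the local bound at later times -/
theorem loc' (h : HolT S sg η T A φ) (hη : 2 * η ≤ sg) {N : ℕ} (hN : T ≤ N) {a a' : X}
    (ha : a ∈ A) (ha' : a' ∈ A) (hu : S.URel sg (S.g^[N] a) (S.g^[N] a')) :
    S.URel (2 * sg) (S.g^[N] (φ a)) (S.g^[N] (φ a')) := by
  obtain ⟨k, rfl⟩ : ∃ k, N = k + T := ⟨N - T, by omega⟩
  rw [Function.iterate_add_apply, Function.iterate_add_apply] at hu ⊢
  have h1 := h.loc a ha a' ha' (URel_of_iter k hu)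
  have h2 := lp (h.rel a ha).symm (h.rel a' ha').symm h1 k hu
  refine h2.mono (max_le le_rfl ?_)
  linarith

variable [CompactSpace X]

/-- holonomies are continuous for the leaf topology -/
theorem cont (hG : Geo S ε₀) (h : HolT S sg η T A φ) (hη : 2 * η ≤ sg) (hsg0 : 0 < sg)
    (hsg : 2 * sg ≤ ε₀) {e : ℝ} (he : 0 < e) : ∃ δ > 0, ∀ a ∈ A, ∀ a' ∈ A, S.URel δ a a' →
      S.URel e (φ a) (φ a') := by
  obtain ⟨n₀, hn⟩ := exists_pow_lt (2 * sg) he
  set N := max n₀ T with hN
  obtain ⟨δ, hδ, hd⟩ := uc_map_iter (g := S.g.symm) (φ := S.g)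
    (fun x => by rw [Homeomorph.symm_apply_apply, Homeomorph.apply_symm_apply]) N sg hsg0
  refine ⟨δ, hδ, fun a ha a' ha' hu => ?_⟩
  have h1 : S.URel sg (S.g^[N] a) (S.g^[N] a') := hd a a' hu
  have h2 := loc' h hη (le_max_right _ _) ha ha' h1
  have h3 := URel_decay hG hsg h2 N
  rw [iter_symm_iter, iter_symm_iter] at h3
  exact h3.mono (hn N (le_max_left _ _))

end

end J12

theorem sB12 : SB12.{u, v} := by
  intro X E _ _ _ _ S D ε₀ Q α β K L R sg η b c ψ hg hSc hC hs hT
  have hG := hSc.geo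
  have hR := hC.pos
  have hη0 := hs.η0
  have hb1 := hs.2
  have hb2 := hs.3
  have hb3 := hs.bε
  have hQ1 := hSc.Q1
  have hL1 := hSc.L1
  have hηsg : 64 * η ≤ sg := by nlinarith
  have hsg0 : 0 < sg := by linarith
  have hsgb : 65536 * sg ≤ b := by
    have : (1 : ℝ) ≤ Q * L := by nlinarith
    nlinarith
  have hsgε : 2 * sg ≤ ε₀ := by linarith
  have hηε : η ≤ ε₀ := by linarith
  -- local lifts
  have hloc : ∀ (υ : C(I, SM S.g.symm)) (a s : X), WS S.g a s → (υ 0).val = a →
      (∀ t, S.URel (R / 32) a (υ t).val) →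
      ∃ Γ : C(I, Pr S.g), (Γ 0).y = s ∧ ∀ t, (Γ t).x = (υ t).val := by
    intro υ a s has h0 hυ
    obtain ⟨T, φ, hφ, hφa⟩ := hT a (mem_univ _) s has (R / 8) (by positivity) le_rfl
      (fun w _ => mem_univ _)
    have hmem : ∀ t, (υ t).val ∈ ψ a '' ball 0 (R / 8) := by
      intro t
      obtain ⟨w, hw, hw2⟩ := hC.surj a (υ t).val ((hυ t).mono (by linarith))
      refine ⟨w, ?_, hw2⟩
      rw [mem_ball_zero_iff]
      have h1 := hC.ge a w 0 hw (by rw [norm_zero]; exact hR.le)
      rw [sub_zero, hw2, hC.zero] at h1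
      have h2 := (hυ t).dist_le
      rw [dist_comm] at h2
      linarith
    have hws : ∀ t, WS S.g (υ t).val (φ (υ t).val) := fun t =>
      SAsym.of_iter T (hG.sasym _ _ ((hφ.rel _ (hmem t)).mono hηε))
    have hcont : Continuous fun t : I => (⟨(υ t).val, φ (υ t).val, hws t⟩ : Pr S.g) := by
      rw [Pr.continuous_iff]
      refine ⟨υ.continuous, ?_, fun t ε hε => ?_⟩
      · rw [Metric.continuous_iff']
        intro t ε hε
        obtain ⟨δ, hδ, hd⟩ := J12.cont hG hφ (by linarith) hsg0 hsgε (half_pos hε)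
        have h1 := (Metric.continuous_iff'.1 υ.continuous) t δ hδ
        filter_upwards [h1] with t' ht'
        have h2 : S.URel δ (υ t').val (υ t).val := (SM.dist_le _ _ hδ.le).1 ht'.le
        have h3 := hd _ (hmem t') _ (hmem t) h2
        have h4 : dist (⟨φ (υ t').val⟩ : SM S.g.symm) ⟨φ (υ t).val⟩ ≤ ε / 2 :=
          (SM.dist_le _ _ (half_pos hε).le).2 h3
        exact lt_of_le_of_lt h4 (half_lt_self hε)
      · obtain ⟨n, hn⟩ := exists_pow_lt η hε
        refine ⟨n + T, Eventually.of_forall fun t' k hk => ?_⟩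
        obtain ⟨j, rfl⟩ : ∃ j, k = j + T := ⟨k - T, by omega⟩
        have h1 := (SRel_decay hG hηε (hφ.rel _ (hmem t')) j).dist_le
        rw [← Function.iterate_add_apply, ← Function.iterate_add_apply] at h1
        exact h1.trans (hn j (by omega))
    refine ⟨⟨_, hcont⟩, ?_, fun t => rfl⟩
    show φ (υ 0).val = s
    rw [h0, hφa]
  -- the partition
  intro a s has υ h0
  have hu : UniformContinuous υ := CompactSpace.uniformContinuous_of_continuous υ.continuous
  rw [Metric.uniformContinuous_iff] at hu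
  obtain ⟨κ, hκ, hu⟩ := hu (R / 32) (by positivity)
  obtain ⟨n, hn⟩ := exists_nat_gt (1 / κ)
  have hn0 : (0 : ℝ) < n := lt_trans (by positivity) hn
  set θ : ℕ → I := fun i => Set.projIcc 0 1 zero_le_one ((i : ℝ) / n) with hθ
  have hθm : Monotone θ := by
    intro i j hij
    refine Set.monotone_projIcc _ ?_
    exact div_le_div_of_nonneg_right (by exact_mod_cast hij) hn0.le
  have hθ0 : θ 0 = 0 := by
    rw [hθ]
    simp
  have hθn : θ n = 1 := by
    rw [hθ]
    simp only
    rw [div_self hn0.ne']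
    exact Set.projIcc_right _
  have hθd : ∀ i, dist (θ i) (θ (i + 1)) < κ := by
    intro i
    have h1 := (LipschitzWith.projIcc (zero_le_one (α := ℝ))).dist_le_mul ((i : ℝ) / n)
      (((i + 1 : ℕ) : ℝ) / n)
    rw [NNReal.coe_one, one_mul] at h1
    refine lt_of_le_of_lt h1 ?_
    rw [Real.dist_eq]
    have e : (i : ℝ) / n - ((i + 1 : ℕ) : ℝ) / n = -(1 / n) := by
      push_cast
      ring
    rw [e, abs_neg, abs_of_pos (by positivity), one_div_lt hn0 hκ]
    exact hn
  have key : ∀ i : ℕ, ∃ Γ : C(I, Pr S.g), (Γ 0).y = s ∧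
      ∀ t, (Γ t).x = (υ (min t (θ i))).val := by
    intro i
    induction i with
    | zero =>
      let Γ : C(I, Pr S.g) := ⟨fun _ => ⟨a, s, has⟩, continuous_const⟩
      refine ⟨Γ, rfl, fun t => ?_⟩
      show a = (υ (min t (θ 0))).val
      rw [hθ0, min_eq_right unitInterval.nonneg', h0]
    | succ i ih =>
      obtain ⟨Γ, c1, c2⟩ := ih
      have hii : θ i ≤ θ (i + 1) := hθm (Nat.le_succ i)
      let w : C(I, SM S.g.symm) := ⟨fun t => υ (max (θ i) (min t (θ (i + 1)))),
        υ.continuous.comp (by fun_prop)⟩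
      have hwv : ∀ t, w t = υ (max (θ i) (min t (θ (i + 1)))) := fun t => rfl
      have hw0 : w 0 = υ (θ i) := by
        rw [hwv, min_eq_left unitInterval.nonneg', max_eq_left unitInterval.nonneg']
      have hwb : ∀ t, t ≤ θ i → w t = υ (θ i) := by
        intro t ht
        rw [hwv, min_eq_left (ht.trans hii), max_eq_left ht]
      have hwa : ∀ t, θ i ≤ t → w t = υ (min t (θ (i + 1))) := by
        intro t ht
        rw [hwv, max_eq_right (le_min ht hii)]
      have hx1 : (Γ 1).x = (υ (θ i)).val := by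
        rw [c2, min_eq_right unitInterval.le_one']
      have hws : WS S.g (υ (θ i)).val (Γ 1).y := by
        rw [← hx1]
        exact (Γ 1).h
      obtain ⟨Γ', d1, d2⟩ := hloc w (υ (θ i)).val (Γ 1).y hws (by rw [hw0]) (fun t => by
        rw [hwv]
        have h1 : dist (θ i) (max (θ i) (min t (θ (i + 1)))) < κ := by
          refine lt_of_le_of_lt ?_ (hθd i)
          have h2 : θ i ≤ max (θ i) (min t (θ (i + 1))) := le_max_left _ _
          have h3 : max (θ i) (min t (θ (i + 1))) ≤ θ (i + 1) := max_le hii (min_le_right _ _)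
          rw [Subtype.dist_eq, Subtype.dist_eq, Real.dist_eq, Real.dist_eq, abs_sub_comm,
            abs_sub_comm (θ i : ℝ), abs_of_nonneg (sub_nonneg.2 (Subtype.coe_le_coe.2 h2)),
            abs_of_nonneg (sub_nonneg.2 (Subtype.coe_le_coe.2 hii))]
          have h4 : ((max (θ i) (min t (θ (i + 1))) : I) : ℝ) ≤ (θ (i + 1) : ℝ) := h3
          linarith
        exact (SM.dist_le _ _ (by positivity)).1 (hu h1).le)
      obtain ⟨Γ₂, f1, f2⟩ := strip_glue hg Γ Γ' (θ i)
        (fun t ht => by rw [c2, c2, min_eq_right ht, min_self])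
        (fun t ht => by rw [d2, d2, hwb t ht, hwb _ le_rfl])
        (by rw [c2, d2, hwb _ le_rfl, min_self])
        (by rw [d1])
      refine ⟨Γ₂, ?_, fun t => ?_⟩
      · rw [f1 0 unitInterval.nonneg', c1]
      · rcases le_total t (θ i) with ht | ht
        · rw [f1 t ht, c2, min_eq_left ht, min_eq_left (ht.trans hii)]
        · rw [f2 t ht, d2, hwa t ht]
  obtain ⟨Γ, c1, c2⟩ := key n
  refine ⟨(Γ 1).y, Γ, c1, rfl, fun t => ?_⟩
  rw [c2, hθn, min_eq_left unitInterval.le_one']

end Pool.Agent.Q192.PI.B
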