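import Pool.Agent.Q192.PI.StmB
import Pool.Agent.H779R2.An.CChart

/-!
# Project PI, job SB13: quantitative data of a hyperbolic system
-/

set_option autoImplicit false

open Filter Topology Set Metric

namespace Pool.Agent.Q192.PI.B

open Pool.Agent.H721R2 Pool.Agent.H779R2.An Pool.Agent.Q130.UQ Pool.Agent.H789R2.AN
  Pool.Agent.H789R2.GP

universe u v

/-- a global Lipschitz constant -/
lemma b13_lip {X : Type u} {E : Type v} [MetricSpace X] [CompactSpace X] [NormedAddCommGroup E]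
    [NormedSpace ℝ E] (S : HypSys X E) : ∃ L : ℝ, 1 ≤ L ∧ ∀ x y, dist (S.g x) (S.g y) ≤ L * dist x y := by
  obtain ⟨r, hr, Λ, hΛ, h⟩ := S.local_lip
  have hb : Bornology.IsBounded (Set.univ : Set X) := isCompact_univ.isBounded
  refine ⟨max Λ (diam (Set.univ : Set X) / r), hΛ.trans (le_max_left _ _), fun x y => ?_⟩
  by_cases hxy : dist x y < r
  · exact (h x y hxy).trans (mul_le_mul_of_nonneg_right (le_max_left _ _) dist_nonneg)
  · push Not at hxy
    have h1 : dist (S.g x) (S.g y) ≤ diam (Set.univ : Set X) :=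
      dist_le_diam_of_mem hb (mem_univ _) (mem_univ _)
    have h2 : 0 ≤ diam (Set.univ : Set X) := diam_nonneg
    calc dist (S.g x) (S.g y) ≤ diam (Set.univ : Set X) := h1
      _ = diam (Set.univ : Set X) / r * r := by field_simp
      _ ≤ diam (Set.univ : Set X) / r * dist x y :=
        mul_le_mul_of_nonneg_left hxy (by positivity)
      _ ≤ _ := mul_le_mul_of_nonneg_right (le_max_right _ _) dist_nonneg

/-- the linear approximation along unstable plaques -/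
lemma b13_lin {X : Type u} {E : Type v} [MetricSpace X] [NormedAddCommGroup E]
    [NormedSpace ℝ E] (S : HypSys X E) (κ : ℝ) (hκ : 0 < κ) (hκ1 : κ ≤ 1) :
    ∃ ε₁ > 0, ∀ x z : X, S.URel ε₁ x z → ∃ u ∈ S.Vu x,
      ‖S.e z - S.e x - u‖ ≤ κ * dist x z ∧
      ‖S.e (S.g z) - S.e (S.g x) - S.D x u‖ ≤ κ * dist x z := by
  have hK := S.one_le_K
  have hLu := S.one_le_Lu
  have ha := S.a_nonneg
  set C : ℝ := 1 + 3 * S.K * (S.a + S.Lu) with hC
  have hK0 : 0 < S.K := by linarith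
  have hC2 : 2 ≤ C := by
    have : 1 ≤ S.K * (S.a + S.Lu) := by nlinarith
    rw [hC]; nlinarith
  set η : ℝ := κ / C with hη
  have hη0 : 0 < η := by positivity
  have hηC : C * η = κ := by rw [hη]; field_simp
  have hη2 : 2 * η ≤ κ := by nlinarith
  obtain ⟨ε₁, hε₁, cu⟩ := S.symm.coneS' η hη0 (by linarith)
  obtain ⟨r, hr, A1⟩ := S.A1 η hη0
  refine ⟨min ε₁ (r / 2), lt_min hε₁ (by positivity), fun x z hxz => ?_⟩
  have hd0 : 0 ≤ dist x z := dist_nonneg
  obtain ⟨u, hu, hu1⟩ := cu x z (fun k => (hxz k).trans (min_le_left _ _))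
  have hxz0 : dist x z < r := by
    have := hxz 0
    simp only [Function.iterate_zero, id_eq] at this
    have h2 := min_le_right ε₁ (r / 2)
    linarith
  obtain ⟨s, hs, u₁, hu₁, h1, h2⟩ := A1 x z hxz0
  have hu' : u ∈ S.Vu x := hu
  have hu1' : ‖S.e z - S.e x - u‖ ≤ 2 * η * dist x z := hu1
  refine ⟨u, hu', ?_, ?_⟩
  · refine hu1'.trans (mul_le_mul_of_nonneg_right hη2 hd0)
  · have h3 : ‖s + (u₁ - u)‖ ≤ 3 * η * dist x z := by
      have e1 : s + (u₁ - u) = (S.e z - S.e x - u) - (S.e z - S.e x - (s + u₁)) := by abel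
      rw [e1]
      refine (norm_sub_le _ _).trans ?_
      linarith
    obtain ⟨h4, h5⟩ := S.angle x s hs (u₁ - u) ((S.Vu x).sub_mem hu₁ hu')
    have h6 : ‖s‖ ≤ S.K * (3 * η * dist x z) := h4.trans (mul_le_mul_of_nonneg_left h3 hK0.le)
    have h7 : ‖u₁ - u‖ ≤ S.K * (3 * η * dist x z) := h5.trans (mul_le_mul_of_nonneg_left h3 hK0.le)
    have h8 : ‖S.D x s‖ ≤ S.a * (S.K * (3 * η * dist x z)) :=
      (S.contrS x s hs).trans (mul_le_mul_of_nonneg_left h6 ha)
    have h9 : ‖S.D x (u₁ - u)‖ ≤ S.Lu * (S.K * (3 * η * dist x z)) :=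
      (S.boundU x _ ((S.Vu x).sub_mem hu₁ hu')).trans (mul_le_mul_of_nonneg_left h7 (by linarith))
    have e2 : S.e (S.g z) - S.e (S.g x) - S.D x u =
        (S.e (S.g z) - S.e (S.g x) - S.D x (s + u₁)) + S.D x s + S.D x (u₁ - u) := by
      rw [map_add, map_sub]
      abel
    rw [e2]
    refine (norm_add₃_le).trans ?_
    have e3 : κ * dist x z = η * dist x z + S.a * (S.K * (3 * η * dist x z)) +
        S.Lu * (S.K * (3 * η * dist x z)) := by
      rw [← hηC, hC]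
      ring
    rw [e3]
    linarith

/-- the metric distortion -/
lemma b13_md {X : Type u} {E : Type v} [MetricSpace X] [NormedAddCommGroup E]
    [NormedSpace ℝ E] (S : HypSys X E) (K₁ K : ℝ) (hK₁ : 1 ≤ K₁) (hK : K₁ < K)
    (hD : ∀ x, ∀ v ∈ S.Vu x, ∀ w ∈ S.Vu x, ‖S.D x v‖ * ‖w‖ ≤ K₁ * (‖S.D x w‖ * ‖v‖)) :
    ∃ ε₁ > 0, ∀ x z z' : X, S.URel ε₁ x z → S.URel ε₁ x z' →
      dist (S.g x) (S.g z) * dist x z' ≤ K * (dist (S.g x) (S.g z') * dist x z) := by
  set κ : ℝ := (K - K₁) / (5 * K) with hκ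
  have hK0 : 0 < K := by linarith
  have hκ0 : 0 < κ := by
    rw [hκ]
    have : 0 < K - K₁ := by linarith
    positivity
  have hκ5 : κ ≤ 1 / 5 := by
    rw [hκ, div_le_div_iff₀ (by positivity) (by norm_num)]
    nlinarith
  have hκK : κ * (5 * K) = K - K₁ := by rw [hκ]; field_simp
  have hkey : (1 + κ) ^ 2 * K₁ ≤ K * (1 - κ) ^ 2 := by
    have h1 : κ * (3 * K₁ + 2 * K) ≤ K - K₁ := by rw [← hκK]; nlinarith
    have h2 : (1 + κ) ^ 2 ≤ 1 + 3 * κ := by nlinarith
    have h3 : 1 - 2 * κ ≤ (1 - κ) ^ 2 := by nlinarith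
    calc (1 + κ) ^ 2 * K₁ ≤ (1 + 3 * κ) * K₁ := mul_le_mul_of_nonneg_right h2 (by linarith)
      _ ≤ K * (1 - 2 * κ) := by nlinarith
      _ ≤ _ := mul_le_mul_of_nonneg_left h3 hK0.le
  obtain ⟨ε₁, hε₁, h⟩ := b13_lin S κ hκ0 (by linarith)
  refine ⟨ε₁, hε₁, fun x z z' hz hz' => ?_⟩
  obtain ⟨u, hu, h1, h2⟩ := h x z hz
  obtain ⟨u', hu', h1', h2'⟩ := h x z' hz'
  have hd0 : 0 ≤ dist x z := dist_nonneg
  have hd0' : 0 ≤ dist x z' := dist_nonneg
  have ed : dist x z = ‖S.e z - S.e x‖ := by rw [dist_comm, S.isom]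
  have ed' : dist x z' = ‖S.e z' - S.e x‖ := by rw [dist_comm, S.isom]
  have eG : dist (S.g x) (S.g z) = ‖S.e (S.g z) - S.e (S.g x)‖ := by rw [dist_comm, S.isom]
  have eG' : dist (S.g x) (S.g z') = ‖S.e (S.g z') - S.e (S.g x)‖ := by rw [dist_comm, S.isom]
  -- bounds
  have b1 : ‖u‖ ≤ (1 + κ) * dist x z := by
    have h3 := norm_sub_le (S.e z - S.e x) (S.e z - S.e x - u)
    rw [sub_sub_cancel, ← ed] at h3
    linarith
  have b2 : (1 - κ) * dist x z ≤ ‖u‖ := by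
    have h3 := norm_add_le (S.e z - S.e x - u) u
    rw [sub_add_cancel, ← ed] at h3
    linarith
  have b2' : (1 - κ) * dist x z' ≤ ‖u'‖ := by
    have h3 := norm_add_le (S.e z' - S.e x - u') u'
    rw [sub_add_cancel, ← ed'] at h3
    linarith
  have expand : ∀ w ∈ S.Vu x, 2 * ‖w‖ ≤ ‖S.D x w‖ := by
    intro w hw
    have h3 := S.contrU (S.g x) (S.D x w) (S.mapU x w hw)
    rw [S.invU x w hw] at h3
    have h4 := S.b_le
    have h5 : S.b * ‖S.D x w‖ ≤ 1 / 16 * ‖S.D x w‖ :=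
      mul_le_mul_of_nonneg_right h4 (norm_nonneg _)
    have h6 := norm_nonneg (S.D x w)
    linarith
  have c1 : dist (S.g x) (S.g z) ≤ (1 + κ) * ‖S.D x u‖ := by
    have h3 := norm_add_le (S.e (S.g z) - S.e (S.g x) - S.D x u) (S.D x u)
    rw [sub_add_cancel, ← eG] at h3
    have h4 := expand u hu
    have h5 : dist x z ≤ ‖S.D x u‖ := by nlinarith
    have h6 : κ * dist x z ≤ κ * ‖S.D x u‖ := mul_le_mul_of_nonneg_left h5 hκ0.le
    linarith
  have c1' : (1 - κ) * ‖S.D x u'‖ ≤ dist (S.g x) (S.g z') := by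
    have h3 := norm_sub_le (S.e (S.g z') - S.e (S.g x))
      (S.e (S.g z') - S.e (S.g x) - S.D x u')
    rw [sub_sub_cancel, ← eG'] at h3
    have h4 := expand u' hu'
    have h5 : dist x z' ≤ ‖S.D x u'‖ := by nlinarith
    have h6 : κ * dist x z' ≤ κ * ‖S.D x u'‖ := mul_le_mul_of_nonneg_left h5 hκ0.le
    linarith
  have hDu := hD x u hu u' hu'
  have hP := norm_nonneg (S.D x u)
  have hP' := norm_nonneg (S.D x u')
  -- conclusion, multiplied by `(1 - κ) ^ 2`
  have hfin : (1 - κ) ^ 2 * (dist (S.g x) (S.g z) * dist x z') ≤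
      (1 - κ) ^ 2 * (K * (dist (S.g x) (S.g z') * dist x z)) := by
    have hk1 : 0 ≤ 1 - κ := by linarith
    calc (1 - κ) ^ 2 * (dist (S.g x) (S.g z) * dist x z')
        = (1 - κ) * (dist (S.g x) (S.g z) * ((1 - κ) * dist x z')) := by ring
      _ ≤ (1 - κ) * (((1 + κ) * ‖S.D x u‖) * ‖u'‖) := by
          refine mul_le_mul_of_nonneg_left ?_ hk1
          exact mul_le_mul c1 b2' (by positivity) (by positivity)
      _ = (1 - κ) * (1 + κ) * (‖S.D x u‖ * ‖u'‖) := by ring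
      _ ≤ (1 - κ) * (1 + κ) * (K₁ * (‖S.D x u'‖ * ‖u‖)) :=
          mul_le_mul_of_nonneg_left hDu (by positivity)
      _ = (1 + κ) * K₁ * (((1 - κ) * ‖S.D x u'‖) * ‖u‖) := by ring
      _ ≤ (1 + κ) * K₁ * (dist (S.g x) (S.g z') * ((1 + κ) * dist x z)) := by
          refine mul_le_mul_of_nonneg_left ?_ (by positivity)
          exact mul_le_mul c1' b1 (norm_nonneg _) dist_nonneg
      _ = ((1 + κ) ^ 2 * K₁) * (dist (S.g x) (S.g z') * dist x z) := by ring
      _ ≤ (K * (1 - κ) ^ 2) * (dist (S.g x) (S.g z') * dist x z) :=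
          mul_le_mul_of_nonneg_right hkey (by positivity)
      _ = _ := by ring
  have hpos : 0 < (1 - κ) ^ 2 := by
    have : 0 < 1 - κ := by linarith
    positivity
  exact le_of_mul_le_mul_left hfin hpos

theorem sB13 : SB13.{u, v} := by
  intro X E _ _ _ _ _ S D α β K₁ K hfr hα hβ hα1 hβ1 hK₁ hK hD
  obtain ⟨εg, hg⟩ := exists_geo S
  obtain ⟨εl, hεl, lp⟩ := S.local_product
  obtain ⟨εa, hεa, ca⟩ := S.contraction_iter α hα
  obtain ⟨εb, hεb, cb⟩ := S.symm.contraction_iter β hβ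
  obtain ⟨εm, hεm, cm⟩ := b13_md S K₁ K hK₁ hK hD
  obtain ⟨L, hL1, hL⟩ := b13_lip S
  set ε₀ : ℝ := min (min εg εl) (min (min εa εb) εm) with hε₀
  have hε₀p : 0 < ε₀ := by
    simp only [hε₀, lt_min_iff]
    exact ⟨⟨hg.pos, hεl⟩, ⟨hεa, hεb⟩, hεm⟩
  have h1 : ε₀ ≤ εg := (min_le_left _ _).trans (min_le_left _ _)
  have h2 : ε₀ ≤ εl := (min_le_left _ _).trans (min_le_right _ _)
  have h3 : ε₀ ≤ εa := (min_le_right _ _).trans ((min_le_left _ _).trans (min_le_left _ _))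
  have h4 : ε₀ ≤ εb := (min_le_right _ _).trans ((min_le_left _ _).trans (min_le_right _ _))
  have h5 : ε₀ ≤ εm := (min_le_right _ _).trans (min_le_right _ _)
  have hfr' : ∀ x, Module.finrank ℝ (S.symm.Vs x) = D := hfr
  obtain ⟨ρ₁, hρ₁, ρ', hρ', hch⟩ := chart_prop S.symm D hfr' (ε₀ / 2) (by positivity)
  choose ψ hψ hψ' using hch
  refine ⟨ε₀, 9 * S.K, L, min ρ₁ ρ', ψ, ?_, ?_⟩
  · refine ⟨hg.mono hε₀p h1, by linarith [S.one_le_K], lt_of_le_of_lt S.a_nonneg hα, hα1,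
      lt_of_le_of_lt S.b_nonneg hβ, hβ1, by linarith, hL1, ?_, ?_, ?_, hL, ?_⟩
    · intro x y hxy
      exact lp x y (hxy.trans h2)
    · intro x y hxy k
      exact ca x y (hxy.mono h3) k
    · intro x y hxy k
      exact cb x y (fun k => (hxy k).trans h4) k
    · intro x z z' hz hz'
      refine cm x z z' (fun k => ?_) (fun k => ?_)
      · have := hz (k + 1)
        rw [Function.iterate_succ_apply, Function.iterate_succ_apply, S.g.symm_apply_apply,
          S.g.symm_apply_apply] at this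
        exact this.trans h5
      · have := hz' (k + 1)
        rw [Function.iterate_succ_apply, Function.iterate_succ_apply, S.g.symm_apply_apply,
          S.g.symm_apply_apply] at this
        exact this.trans h5
  · have hR1 : min ρ₁ ρ' ≤ ρ₁ := min_le_left _ _
    have hR2 : min ρ₁ ρ' ≤ ρ' := min_le_right _ _
    refine ⟨lt_min hρ₁ hρ', fun x => (hψ x).zero, ?_, ?_, ?_, ?_⟩
    · intro x a a' ha ha' k
      have e1 : dist (S.g.symm^[k] x) (S.g.symm^[k] (ψ x a)) ≤ ε₀ / 2 :=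
        (hψ x).rel a (ha.trans hR1) k
      have e2 : dist (S.g.symm^[k] x) (S.g.symm^[k] (ψ x a')) ≤ ε₀ / 2 :=
        (hψ x).rel a' (ha'.trans hR1) k
      have e3 := dist_triangle_left (S.g.symm^[k] (ψ x a)) (S.g.symm^[k] (ψ x a'))
        (S.g.symm^[k] x)
      linarith
    · intro x a a' ha ha'
      exact (hψ x).le a a' (ha.trans hR1) (ha'.trans hR1)
    · intro x a a' ha ha'
      exact (hψ x).ge a a' (ha.trans hR1) (ha'.trans hR1)
    · intro x z hz
      have hR0 : 0 < min ρ₁ ρ' := lt_min hρ₁ hρ'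
      obtain ⟨b, hb, hbz⟩ := hψ' x z (fun k => (hz k).trans (by linarith))
      refine ⟨b, ?_, hbz⟩
      have h6 := (hψ x).ge b 0 (by linarith) (by rw [norm_zero]; exact hρ₁.le)
      rw [sub_zero, (hψ x).zero, hbz] at h6
      have h7 := hz 0
      simp only [Function.iterate_zero, id_eq] at h7
      rw [dist_comm] at h7
      linarith

end Pool.Agent.Q192.PI.B
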