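import Pool.Agent.Q192.PI.StmB

/-! Project PI (helper192), job SB14: numerical (helper162). -/

set_option autoImplicit false

open Filter Topology Set Metric

namespace Pool.Agent.Q192.PI.B

open Pool.Agent.H721R2 Pool.Agent.H779R2.An Pool.Agent.Q130.UQ

universe u v

theorem sB14 : SB14 := by
  intro α β K ms D hα0 hα1 hβ0 hβ1 hK hms h C
  have ha : 0 < Real.log α⁻¹ := Real.log_pos ((one_lt_inv₀ hα0).2 hα1)
  have hb : 0 < Real.log β⁻¹ := Real.log_pos ((one_lt_inv₀ hβ0).2 hβ1)
  have hms0 : (0 : ℝ) < ms := by exact_mod_cast hms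
  have hs : 0 ≤ Real.log ms := Real.log_natCast_nonneg ms
  have hK0 : 0 < K := by linarith
  set C' := max C 1 with hC'
  have hC1 : 1 ≤ C' := le_max_right _ _
  have hC0 : 0 < C' := by linarith
  have hc : 0 ≤ Real.log C' := Real.log_nonneg hC1
  set a := Real.log α⁻¹ with ha'
  set b := Real.log β⁻¹ with hb'
  set s := Real.log ms with hs'
  set c := Real.log C' with hc'
  set k := 2 * D * Real.log K with hk'
  have hk : 0 ≤ k := by
    have := Real.log_nonneg hK
    positivity
  set δ := b - max 0 (k * (s - a) / a) with hδ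
  have hδ0 : 0 < δ := by
    have : k * (s - a) / a < b := by rw [div_lt_iff₀ ha]; linarith
    have := max_lt hb this
    linarith
  obtain ⟨n, hn⟩ := exists_nat_ge ((c + k + k * c / a) / δ)
  rw [div_le_iff₀ hδ0] at hn
  set T := ⌈(n * (s - a) + c) / a⌉₊ with hT
  have hT1 : (n * (s - a) + c) / a ≤ T := Nat.le_ceil _
  have hT2 : (T : ℝ) ≤ max 0 ((n * (s - a) + c) / a) + 1 := by
    rcases le_or_gt 0 ((n * (s - a) + c) / a) with h0 | h0
    · rw [max_eq_right h0]
      exact (Nat.ceil_lt_add_one h0).le
    · rw [max_eq_left h0.le]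
      have : T = 0 := Nat.ceil_eq_zero.2 h0.le
      rw [this]
      simp
  refine ⟨n, T, ?_, ?_⟩
  · have e1 : C' * (ms : ℝ) ^ n * α ^ (T + n) ≤ 1 := by
      have e2 : Real.log (C' * (ms : ℝ) ^ n * α ^ (T + n)) ≤ 0 := by
        rw [Real.log_mul (by positivity) (by positivity), Real.log_mul (by positivity)
          (by positivity), Real.log_pow, Real.log_pow]
        have e3 : Real.log α = -a := by rw [ha', Real.log_inv, neg_neg]
        rw [e3]
        rw [div_le_iff₀ ha] at hT1
        push_cast
        nlinarith
      exact (Real.log_nonpos_iff (by positivity)).1 e2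
    refine le_trans ?_ e1
    gcongr
    exact le_max_left _ _
  · have e1 : C' * K ^ (2 * D * T) * β ^ n ≤ 1 := by
      have e2 : Real.log (C' * K ^ (2 * D * T) * β ^ n) ≤ 0 := by
        rw [Real.log_mul (by positivity) (by positivity), Real.log_mul (by positivity)
          (by positivity), Real.log_pow, Real.log_pow]
        have e3 : Real.log β = -b := by rw [hb', Real.log_inv, neg_neg]
        rw [e3]
        push_cast
        have e4 : 2 * (D : ℝ) * T * Real.log K = k * T := by rw [hk']; ring
        rw [e4]
        have e5 : k * T ≤ k * (max 0 ((n * (s - a) + c) / a) + 1) :=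
          mul_le_mul_of_nonneg_left hT2 hk
        have e6 : k * max 0 ((n * (s - a) + c) / a) ≤ n * max 0 (k * (s - a) / a) + k * c / a := by
          rcases le_or_gt 0 ((n * (s - a) + c) / a) with h0 | h0
          · rw [max_eq_right h0]
            have e7 : k * (s - a) / a ≤ max 0 (k * (s - a) / a) := le_max_right _ _
            have e8 : (n : ℝ) * (k * (s - a) / a) ≤ n * max 0 (k * (s - a) / a) :=
              mul_le_mul_of_nonneg_left e7 (Nat.cast_nonneg n)
            have e9 : k * ((n * (s - a) + c) / a) = n * (k * (s - a) / a) + k * c / a := by ring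
            linarith
          · rw [max_eq_left h0.le, mul_zero]
            have : 0 ≤ max 0 (k * (s - a) / a) := le_max_left _ _
            positivity
        have e7 : (n : ℝ) * δ = n * b - n * max 0 (k * (s - a) / a) := by rw [hδ]; ring
        linarith
      exact (Real.log_nonpos_iff (by positivity)).1 e2
    refine le_trans ?_ e1
    gcongr
    exact le_max_left _ _
end Pool.Agent.Q192.PI.B
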