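import Pool.Agent.Q192.PI.StmB

/-! Project PI (helper192), job SB2: the Loewner inequality for functions with local Lipschitz bounds (helper162). -/

set_option autoImplicit false

open Filter Topology Set Metric MeasureTheory
open scoped Convolution

namespace Pool.Agent.Q192.PI.B

open Pool.Agent.H721R2 Pool.Agent.H779R2.An Pool.Agent.Q130.UQ

universe u v

/-- a pointwise Lipschitz bound on a convex set gives a Lipschitz bound -/
lemma lip_conv {D : ℕ} {s : Set (V D)} (hs : Convex ℝ s) {u : V D → ℝ} {Λ : ℝ}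
    (h : ∀ w ∈ s, ∀ᶠ w' in 𝓝 w, |u w' - u w| ≤ Λ * ‖w' - w‖) {x y : V D} (hx : x ∈ s)
    (hy : y ∈ s) : |u y - u x| ≤ Λ * ‖y - x‖ := by
  set M := Λ * ‖y - x‖ with hM
  set p : ℝ → V D := fun t => x + t • (y - x) with hp
  have hpc : Continuous p := by fun_prop
  have hps : ∀ t ∈ Icc (0 : ℝ) 1, p t ∈ s := by
    intro t ht
    exact hs.add_smul_sub_mem hx hy ht
  have hpd : ∀ t t' : ℝ, ‖p t' - p t‖ = |t' - t| * ‖y - x‖ := by
    intro t t'
    have : p t' - p t = (t' - t) • (y - x) := by
      simp only [hp, sub_smul]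
      abel
    rw [this, norm_smul, Real.norm_eq_abs]
  have hloc : ∀ t ∈ Icc (0 : ℝ) 1, ∀ᶠ t' in 𝓝 t, |u (p t') - u (p t)| ≤ M * |t' - t| := by
    intro t ht
    have h1 := hpc.continuousAt.eventually (h (p t) (hps t ht))
    filter_upwards [h1] with t' ht'
    rw [hpd] at ht'
    calc _ ≤ _ := ht'
      _ = _ := by rw [hM]; ring
  have hcont : ContinuousOn (fun t => u (p t)) (Icc (0 : ℝ) 1) := by
    intro t ht
    apply ContinuousAt.continuousWithinAt
    rw [ContinuousAt, tendsto_iff_dist_tendsto_zero]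
    have h1 : Tendsto (fun t' => M * |t' - t|) (𝓝 t) (𝓝 0) := by
      have : Continuous (fun t' => M * |t' - t|) := by fun_prop
      have h2 := this.tendsto t
      simpa using h2
    refine squeeze_zero' (Eventually.of_forall fun _ => dist_nonneg) ?_ h1
    filter_upwards [hloc t ht] with t' ht'
    rw [Real.dist_eq]
    exact ht'
  have hsub : Icc (0 : ℝ) 1 ⊆ {t | |u (p t) - u (p 0)| ≤ M * t} := by
    refine IsClosed.Icc_subset_of_forall_mem_nhdsWithin ?_ ?_ ?_
    · have h1 : {t | |u (p t) - u (p 0)| ≤ M * t} ∩ Icc (0 : ℝ) 1 =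
          Icc (0 : ℝ) 1 ∩ {t | |u (p t) - u (p 0)| - M * t ≤ 0} := by
        ext t
        constructor
        · rintro ⟨a, b⟩
          refine ⟨b, ?_⟩
          have a' : |u (p t) - u (p 0)| ≤ M * t := a
          show |u (p t) - u (p 0)| - M * t ≤ 0
          linarith
        · rintro ⟨a, b⟩
          refine ⟨?_, a⟩
          have b' : |u (p t) - u (p 0)| - M * t ≤ 0 := b
          show |u (p t) - u (p 0)| ≤ M * t
          linarith
      rw [h1]
      refine ContinuousOn.preimage_isClosed_of_isClosed (f := fun t => |u (p t) - u (p 0)| - M * t)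
        ?_ isClosed_Icc isClosed_Iic
      exact ((hcont.sub continuousOn_const).abs).sub (by fun_prop)
    · show |u (p 0) - u (p 0)| ≤ M * 0
      simp
    · rintro t ⟨ht, ht1, ht2⟩
      have ht' : |u (p t) - u (p 0)| ≤ M * t := ht
      have h1 := hloc t ⟨ht1, ht2.le⟩
      have h2 : ∀ᶠ t' in 𝓝[>] t, |u (p t') - u (p t)| ≤ M * |t' - t| := nhdsWithin_le_nhds h1
      filter_upwards [h2, self_mem_nhdsWithin] with t' h3 h4
      have h4' : t < t' := h4
      rw [abs_of_pos (show 0 < t' - t by linarith)] at h3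
      show |u (p t') - u (p 0)| ≤ M * t'
      have h5 := abs_sub_le (u (p t')) (u (p t)) (u (p 0))
      linarith
  have h1 := hsub (show (1 : ℝ) ∈ Icc (0 : ℝ) 1 from ⟨zero_le_one, le_rfl⟩)
  have h2 : |u (p 1) - u (p 0)| ≤ M * 1 := h1
  have e1 : p 1 = y := by simp [hp]
  have e0 : p 0 = x := by simp [hp]
  rw [e1, e0, mul_one] at h2
  exact h2

/-- a smooth step -/
lemma step : ∃ (F : ℝ → ℝ) (C : NNReal), ContDiff ℝ 1 F ∧ LipschitzWith C F ∧
    (∀ x ≤ 1 / 4, F x = 0) ∧ (∀ x, 3 / 4 ≤ x → F x = 1) := by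
  have hc : ContDiff ℝ 1 Real.smoothTransition := Real.smoothTransition.contDiff
  have hd : Continuous (deriv Real.smoothTransition) := hc.continuous_deriv le_rfl
  obtain ⟨C, hC⟩ := isCompact_Icc.exists_bound_of_continuousOn (s := Icc (0 : ℝ) 1) hd.continuousOn
  have hC0 : 0 ≤ C := (norm_nonneg _).trans (hC 0 ⟨le_rfl, zero_le_one⟩)
  have hbd : ∀ x, ‖deriv Real.smoothTransition x‖ ≤ C := by
    intro x
    rcases lt_or_ge x 0 with h | h
    · have : deriv Real.smoothTransition x = 0 := by
        have h1 : Real.smoothTransition =ᶠ[𝓝 x] fun _ => (0 : ℝ) := by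
          filter_upwards [Iio_mem_nhds h] with y hy
          exact Real.smoothTransition.zero_of_nonpos (le_of_lt hy)
        rw [h1.deriv_eq, deriv_const]
      rw [this, norm_zero]
      exact hC0
    rcases lt_or_ge 1 x with h' | h'
    · have : deriv Real.smoothTransition x = 0 := by
        have h1 : Real.smoothTransition =ᶠ[𝓝 x] fun _ => (1 : ℝ) := by
          filter_upwards [Ioi_mem_nhds h'] with y hy
          exact Real.smoothTransition.one_of_one_le (le_of_lt hy)
        rw [h1.deriv_eq, deriv_const]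
      rw [this, norm_zero]
      exact hC0
    · exact hC x ⟨h, h'⟩
  have hL : LipschitzWith ⟨C, hC0⟩ Real.smoothTransition :=
    lipschitzWith_of_nnnorm_deriv_le (hc.differentiable one_ne_zero) (fun x => hbd x)
  refine ⟨fun x => Real.smoothTransition (2 * x - 1 / 2), ⟨C, hC0⟩ * 2, ?_, ?_, ?_, ?_⟩
  · exact hc.comp (by fun_prop)
  · refine hL.comp (Kg := 2) (g := fun x : ℝ => 2 * x - 1 / 2) ?_
    refine LipschitzWith.of_dist_le_mul fun x y => ?_
    rw [Real.dist_eq, Real.dist_eq]
    have : 2 * x - 1 / 2 - (2 * y - 1 / 2) = 2 * (x - y) := by ring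
    rw [this, abs_mul]
    simp
  · intro x hx
    exact Real.smoothTransition.zero_of_nonpos (by linarith)
  · intro x hx
    exact Real.smoothTransition.one_of_one_le (by linarith)

/-- mollification with local Lipschitz bounds -/
lemma moll {D : ℕ} {u : V D → ℝ} {K : NNReal} (hu : LipschitzWith K u) {ε : ℝ} (hε : 0 < ε) :
    ∃ v : V D → ℝ, ContDiff ℝ 1 v ∧ (∀ x, |v x - u x| ≤ K * ε) ∧
      ∀ (w : V D) (Λ : ℝ), 0 ≤ Λ → (∀ w₁ ∈ ball w (2 * ε), ∀ w₂ ∈ ball w (2 * ε),
        |u w₁ - u w₂| ≤ Λ * ‖w₁ - w₂‖) → ∀ᶠ w' in 𝓝 w, |v w' - v w| ≤ Λ * ‖w' - w‖ := by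
  set φ : ContDiffBump (0 : V D) := ⟨ε / 2, ε, by positivity, by linarith⟩ with hφ
  set f := φ.normed volume with hf
  have hfc : HasCompactSupport f := φ.hasCompactSupport_normed
  have hfcd : ContDiff ℝ 1 f := φ.contDiff_normed
  have hex : ConvolutionExists f u (ContinuousLinearMap.lsmul ℝ ℝ) volume :=
    hfc.convolutionExists_left_of_continuous_right _ hfcd.continuous.locallyIntegrable
      hu.continuous
  refine ⟨(f ⋆[ContinuousLinearMap.lsmul ℝ ℝ, volume] u), ?_, ?_, ?_⟩
  · exact hfc.contDiff_convolution_left _ hfcd hu.continuous.locallyIntegrable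
  · intro x
    have h1 : dist ((f ⋆[ContinuousLinearMap.lsmul ℝ ℝ, volume] u) x) (u x) ≤ K * ε := by
      refine φ.dist_normed_convolution_le hu.continuous.aestronglyMeasurable ?_
      intro y hy
      refine (hu.dist_le_mul y x).trans ?_
      rw [mem_ball] at hy
      exact mul_le_mul_of_nonneg_left (le_of_lt hy) K.2
    rwa [Real.dist_eq] at h1
  · intro w Λ hΛ hloc
    filter_upwards [ball_mem_nhds w hε] with w' hw'
    have e1 : (f ⋆[ContinuousLinearMap.lsmul ℝ ℝ, volume] u) w' -
        (f ⋆[ContinuousLinearMap.lsmul ℝ ℝ, volume] u) w =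
        ∫ t, f t • (u (w' - t) - u (w - t)) := by
      rw [convolution_def, convolution_def, ← integral_sub (hex w') (hex w)]
      refine integral_congr_ae (Eventually.of_forall fun t => ?_)
      simp only [ContinuousLinearMap.lsmul_apply, smul_sub]
    rw [e1, ← Real.norm_eq_abs]
    have h2 : ‖∫ t, f t • (u (w' - t) - u (w - t))‖ ≤ ∫ t, f t * (Λ * ‖w' - w‖) := by
      refine norm_integral_le_of_norm_le ?_ (Eventually.of_forall fun t => ?_)
      · exact (φ.integrable_normed).mul_const _
      · rw [norm_smul, Real.norm_eq_abs, Real.norm_eq_abs, abs_of_nonneg (φ.nonneg_normed t)]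
        by_cases ht : t ∈ ball (0 : V D) ε
        · refine mul_le_mul_of_nonneg_left ?_ (φ.nonneg_normed t)
          have ht' : ‖t‖ < ε := by simpa using ht
          rw [mem_ball, dist_eq_norm] at hw'
          have h3 := hloc (w' - t) (by
            rw [mem_ball, dist_eq_norm]
            have : w' - t - w = (w' - w) - t := by abel
            rw [this]
            have := norm_sub_le (w' - w) t
            linarith) (w - t) (by
            rw [mem_ball, dist_eq_norm]
            have : w - t - w = -t := by abel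
            rw [this, norm_neg]
            linarith)
          have e2 : w' - t - (w - t) = w' - w := by abel
          rwa [e2] at h3
        · have h0 : f t = 0 := by
            have h3 : Function.support f = ball 0 ε := φ.support_normed_eq
            by_contra hc
            exact ht (h3 ▸ (Function.mem_support.2 hc))
          have h0' : φ.normed volume t = 0 := h0
          rw [h0, h0']
          simp
    refine h2.trans ?_
    rw [integral_mul_const, φ.integral_normed, one_mul]

theorem sB2 : SB2 := by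
  intro D hD hSL
  obtain ⟨η₀, hη₀, hSL⟩ := hSL
  obtain ⟨F, CF, hF, hFL, hF0, hF1⟩ := step
  have hD0 : D ≠ 0 := by omega
  have : Nonempty (Fin D) := ⟨⟨0, by omega⟩⟩
  set ω := volume (ball (0 : V D) 1) with hω
  have hω0 : 0 < ω := measure_ball_pos _ _ one_pos
  have hωt : ω < ⊤ := measure_ball_lt_top
  set ω' := ω.toReal with hω'
  have hω'0 : 0 < ω' := ENNReal.toReal_pos hω0.ne' hωt.ne
  set η₁ := (min η₀ 1).toReal with hη₁
  have hη₁0 : 0 < η₁ := by
    refine ENNReal.toReal_pos (lt_min hη₀ one_pos).ne' ?_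
    exact ne_top_of_le_ne_top ENNReal.one_ne_top (min_le_right _ _)
  refine ⟨η₁ / (ω' * (CF + 1) ^ D), by positivity, ?_⟩
  intro n c ρ l u hρ hl hu hlow
  -- Lipschitz on the ball of radius five
  set Λ := ∑ i, l i with hΛ
  have hΛ0 : 0 ≤ Λ := Finset.sum_nonneg fun i _ => hl i
  have hLip : LipschitzOnWith ⟨Λ, hΛ0⟩ u (ball 0 5) := by
    refine LipschitzOnWith.of_dist_le_mul fun x hx y hy => ?_
    rw [Real.dist_eq, dist_eq_norm]
    refine lip_conv (convex_ball (0 : V D) 5) (Λ := Λ) ?_ hy hx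
    intro w hw
    rcases hu w (by simpa using hw) with h | ⟨i, _, h⟩
    · filter_upwards [h] with w' hw'
      rw [hw', sub_self, abs_zero]
      positivity
    · filter_upwards [h] with w' hw'
      refine hw'.trans (mul_le_mul_of_nonneg_right ?_ (norm_nonneg _))
      exact Finset.single_le_sum (fun i _ => hl i) (Finset.mem_univ i)
  obtain ⟨U, hUL, hUe⟩ := hLip.extend_real
  -- the estimate for small ε
  have main : ∀ ε : ℝ, 0 < ε → ε ≤ 1 / 4 → Λ * ε ≤ 1 / 4 →
      η₁ ≤ ω' * ∑ i, (((CF : ℝ) + 1) * l i * (ρ i + 2 * ε)) ^ D := by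
    intro ε hε hε1 hε2
    obtain ⟨v, hvc, hvu, hvl⟩ := moll hUL hε
    have h1 := hSL (fun x => F (v x)) (hF.comp hvc) (by
      intro t ht
      obtain ⟨⟨a, ha, ha'⟩, ⟨b, hb, hb'⟩⟩ := hlow t ht
      refine ⟨⟨a, ha, ?_⟩, ⟨b, hb, ?_⟩⟩
      · have h2 := hvu a
        have h3 : U a = 0 := by
          rw [← hUe (show a ∈ ball (0 : V D) 5 by rw [mem_ball_zero_iff, ha]; linarith [ht.2]), ha']
        rw [h3, sub_zero] at h2
        refine hF0 _ ((le_abs_self _).trans (h2.trans hε2))
      · have h2 := hvu b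
        have h3 : U b = 1 := by
          rw [← hUe (show b ∈ ball (0 : V D) 5 by rw [mem_ball_zero_iff, hb]; linarith [ht.2]), hb']
        rw [h3] at h2
        have h4 := (abs_le.1 (h2.trans hε2)).1
        exact hF1 _ (by linarith))
    have hbound : ∀ w ∈ {w : V D | 1 / 2 < ‖w‖ ∧ ‖w‖ < 4},
        ENNReal.ofReal (‖fderiv ℝ (fun x => F (v x)) w‖ ^ D) ≤
        ∑ i, (closedBall (c i) (ρ i + 2 * ε)).indicator
          (fun _ => ENNReal.ofReal ((((CF : ℝ) + 1) * l i) ^ D)) w := by
      intro w hw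
      have hw4 : ‖w‖ < 4 := hw.2
      classical
      set I := Finset.univ.filter (fun i => w ∈ closedBall (c i) (ρ i + 2 * ε)) with hI
      set A := ∑ i ∈ I, l i ^ D with hA
      have hA0 : 0 ≤ A := Finset.sum_nonneg fun i _ => pow_nonneg (hl i) _
      set Lw := A ^ ((D : ℝ)⁻¹) with hLw
      have hLw0 : 0 ≤ Lw := Real.rpow_nonneg hA0 _
      have hLwD : Lw ^ D = A := Real.rpow_inv_natCast_pow hA0 hD0
      have hle : ∀ i ∈ I, l i ≤ Lw := by
        intro i hi
        have h2 : l i ^ D ≤ Lw ^ D := by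
          rw [hLwD]
          exact Finset.single_le_sum (f := fun i => l i ^ D) (fun i _ => pow_nonneg (hl i) _) hi
        exact (pow_le_pow_iff_left₀ (hl i) hLw0 hD0).1 h2
      have hball : ∀ w₁ ∈ ball w (2 * ε), ‖w₁‖ < 5 := by
        intro w₁ hw₁
        rw [mem_ball, dist_eq_norm] at hw₁
        have := norm_le_insert' w₁ w
        linarith
      have hloc : ∀ w₁ ∈ ball w (2 * ε), ∀ w₂ ∈ ball w (2 * ε),
          |U w₁ - U w₂| ≤ Lw * ‖w₁ - w₂‖ := by
        intro w₁ hw₁ w₂ hw₂
        rw [← hUe (mem_ball_zero_iff.2 (hball w₁ hw₁)), ← hUe (mem_ball_zero_iff.2 (hball w₂ hw₂))]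
        refine lip_conv (convex_ball w (2 * ε)) ?_ hw₂ hw₁
        intro w' hw'
        rcases hu w' (hball w' hw') with h | ⟨i, h3, h⟩
        · filter_upwards [h] with w'' hw''
          rw [hw'', sub_self, abs_zero]
          positivity
        · filter_upwards [h] with w'' hw''
          refine hw''.trans (mul_le_mul_of_nonneg_right (hle i ?_) (norm_nonneg _))
          rw [hI, Finset.mem_filter]
          refine ⟨Finset.mem_univ _, ?_⟩
          rw [mem_closedBall, dist_eq_norm]
          rw [mem_ball, dist_eq_norm] at hw'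
          have e1 : w - c i = (w' - c i) - (w' - w) := by abel
          rw [e1]
          have := norm_sub_le (w' - c i) (w' - w)
          linarith
      have h2 := hvl w Lw hLw0 hloc
      have h3 : ‖fderiv ℝ (fun x => F (v x)) w‖ ≤ ((CF : ℝ) + 1) * Lw := by
        refine norm_fderiv_le_of_lip' ℝ (by positivity) ?_
        filter_upwards [h2] with w' hw'
        have h4 := hFL.dist_le_mul (v w') (v w)
        rw [dist_eq_norm, Real.dist_eq] at h4
        refine h4.trans ?_
        calc (CF : ℝ) * |v w' - v w| ≤ ((CF : ℝ) + 1) * (Lw * ‖w' - w‖) := by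
              refine mul_le_mul (by linarith) hw' (abs_nonneg _) (by positivity)
          _ = _ := by ring
      have h4 : ‖fderiv ℝ (fun x => F (v x)) w‖ ^ D ≤ ∑ i ∈ I, (((CF : ℝ) + 1) * l i) ^ D := by
        calc _ ≤ (((CF : ℝ) + 1) * Lw) ^ D := pow_le_pow_left₀ (norm_nonneg _) h3 D
          _ = ((CF : ℝ) + 1) ^ D * A := by rw [mul_pow, hLwD]
          _ = _ := by rw [hA, Finset.mul_sum]; exact Finset.sum_congr rfl fun i _ => by rw [mul_pow]
      refine (ENNReal.ofReal_le_ofReal h4).trans ?_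
      rw [ENNReal.ofReal_sum_of_nonneg (fun i _ => pow_nonneg (mul_nonneg (by positivity) (hl i)) _),
        hI, Finset.sum_filter]
      refine Finset.sum_le_sum fun i _ => ?_
      rw [Set.indicator_apply]
    have h2 : ∫⁻ w in {w : V D | 1 / 2 < ‖w‖ ∧ ‖w‖ < 4},
        ENNReal.ofReal (‖fderiv ℝ (fun x => F (v x)) w‖ ^ D) ≤
        ∑ i, ENNReal.ofReal ((((CF : ℝ) + 1) * l i * (ρ i + 2 * ε)) ^ D) * ω := by
      calc _ ≤ ∫⁻ w in {w : V D | 1 / 2 < ‖w‖ ∧ ‖w‖ < 4},
            ∑ i, (closedBall (c i) (ρ i + 2 * ε)).indicator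
              (fun _ => ENNReal.ofReal ((((CF : ℝ) + 1) * l i) ^ D)) w := by
              refine setLIntegral_mono' ?_ hbound
              have m1 : MeasurableSet {w : V D | 1 / 2 < ‖w‖} :=
                (isOpen_lt continuous_const continuous_norm).measurableSet
              have m2 : MeasurableSet {w : V D | ‖w‖ < 4} :=
                (isOpen_lt continuous_norm continuous_const).measurableSet
              exact m1.inter m2
        _ ≤ ∫⁻ w, ∑ i, (closedBall (c i) (ρ i + 2 * ε)).indicator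
              (fun _ => ENNReal.ofReal ((((CF : ℝ) + 1) * l i) ^ D)) w :=
              setLIntegral_le_lintegral _ _
        _ = ∑ i, ∫⁻ w, (closedBall (c i) (ρ i + 2 * ε)).indicator
              (fun _ => ENNReal.ofReal ((((CF : ℝ) + 1) * l i) ^ D)) w := by
              rw [lintegral_finsetSum]
              intro i _
              exact measurable_const.indicator isClosed_closedBall.measurableSet
        _ ≤ _ := by
              refine Finset.sum_le_sum fun i _ => ?_
              rw [lintegral_indicator_const isClosed_closedBall.measurableSet,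
                Measure.addHaar_closedBall _ _ (by linarith [hρ i]), finrank_euclideanSpace,
                Fintype.card_fin, mul_pow (((CF : ℝ) + 1) * l i), ENNReal.ofReal_mul
                (pow_nonneg (mul_nonneg (by positivity) (hl i)) _), mul_assoc]
    have h3 : (min η₀ 1) ≤ ∑ i, ENNReal.ofReal ((((CF : ℝ) + 1) * l i * (ρ i + 2 * ε)) ^ D) * ω :=
      (min_le_left _ _).trans (h1.trans h2)
    have hnn : ∀ i, 0 ≤ (((CF : ℝ) + 1) * l i * (ρ i + 2 * ε)) ^ D := fun i =>
      pow_nonneg (mul_nonneg (mul_nonneg (by positivity) (hl i)) (by linarith [hρ i])) _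
    have h4 : (∑ i, ENNReal.ofReal ((((CF : ℝ) + 1) * l i * (ρ i + 2 * ε)) ^ D) * ω) =
        ENNReal.ofReal (∑ i, (((CF : ℝ) + 1) * l i * (ρ i + 2 * ε)) ^ D) * ω := by
      rw [ENNReal.ofReal_sum_of_nonneg (fun i _ => hnn i), Finset.sum_mul]
    rw [h4] at h3
    have h5 := ENNReal.toReal_mono (ENNReal.mul_ne_top ENNReal.ofReal_ne_top hωt.ne) h3
    rw [ENNReal.toReal_mul, ENNReal.toReal_ofReal (Finset.sum_nonneg fun i _ => hnn i)] at h5
    rw [mul_comm]
    exact h5
  -- the limit
  have hlim : Tendsto (fun ε : ℝ => ω' * ∑ i, (((CF : ℝ) + 1) * l i * (ρ i + 2 * ε)) ^ D)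
      (𝓝[>] 0) (𝓝 (ω' * ∑ i, (((CF : ℝ) + 1) * l i * (ρ i + 2 * 0)) ^ D)) := by
    apply Tendsto.mono_left _ nhdsWithin_le_nhds
    apply Continuous.tendsto
    fun_prop
  have hfin : η₁ ≤ ω' * ∑ i, (((CF : ℝ) + 1) * l i * (ρ i + 2 * 0)) ^ D := by
    refine ge_of_tendsto hlim ?_
    have e1 : ∀ᶠ ε : ℝ in 𝓝[>] 0, ε ≤ 1 / 4 :=
      nhdsWithin_le_nhds (Iic_mem_nhds (by norm_num))
    have e2 : ∀ᶠ ε : ℝ in 𝓝[>] 0, Λ * ε ≤ 1 / 4 := by
      apply nhdsWithin_le_nhds
      have : Tendsto (fun ε : ℝ => Λ * ε) (𝓝 0) (𝓝 (Λ * 0)) := by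
        apply Continuous.tendsto
        fun_prop
      rw [mul_zero] at this
      exact this.eventually (Iic_mem_nhds (by norm_num))
    filter_upwards [e1, e2, self_mem_nhdsWithin] with ε h1 h2 h3
    exact main ε h3 h1 h2
  rw [div_le_iff₀ (by positivity)]
  refine hfin.trans (le_of_eq ?_)
  rw [Finset.sum_mul, Finset.mul_sum]
  refine Finset.sum_congr rfl fun i _ => ?_
  rw [mul_zero, add_zero, mul_pow, mul_pow, mul_pow]
  ring
end Pool.Agent.Q192.PI.B
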