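import Pool.Agent.Q192.PI.StmB

/-! Project PI (helper192), job SB3: compactness (helper162). -/

set_option autoImplicit false

open Filter Topology Set Metric

namespace Pool.Agent.Q192.PI.B

open Pool.Agent.H721R2 Pool.Agent.H779R2.An Pool.Agent.Q130.UQ

universe u v

theorem sB3 : SB3.{u, v} := by
  intro X E _ _ _ _ S ε₀ hG Λ hΛ b hb e he
  have key : ∃ t₁ : ℕ, ∀ t, t₁ ≤ t → ∀ z ∈ (Set.univ : Set X), ∀ x,
      (∀ z, S.URel b x z → z ∈ Ws S Λ) → S.URel (b / 2) x z → ∃ q ∈ Λ, S.SRel e (S.g^[t] z) q := by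
    refine isCompact_univ.induction_on (p := fun s => ∃ t₁ : ℕ, ∀ t, t₁ ≤ t → ∀ z ∈ s, ∀ x,
      (∀ z, S.URel b x z → z ∈ Ws S Λ) → S.URel (b / 2) x z → ∃ q ∈ Λ, S.SRel e (S.g^[t] z) q)
      ?_ ?_ ?_ ?_
    · exact ⟨0, fun t _ z hz => absurd hz (Set.notMem_empty z)⟩
    · rintro s s' hst ⟨t₁, h⟩
      exact ⟨t₁, fun t ht z hz => h t ht z (hst hz)⟩
    · rintro s s' ⟨t₁, h⟩ ⟨t₂, h'⟩
      refine ⟨max t₁ t₂, ?_⟩
      rintro t ht z (hz | hz)
      · exact h t ((le_max_left _ _).trans ht) z hz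
      · exact h' t ((le_max_right _ _).trans ht) z hz
    · intro z₀ _
      by_cases hz₀ : z₀ ∈ Ws S Λ
      · obtain ⟨p, hp, hpz⟩ := hz₀
        obtain ⟨δ, hδ, hb'⟩ := exists_bracket S (min e ε₀) (lt_min he hG.pos)
        obtain ⟨N, hN⟩ := hpz.eventually (half_pos hδ)
        have h1 := (hN N le_rfl).dist_le
        have h2 : Tendsto (fun z => dist (S.g^[N] z) (S.g^[N] z₀)) (𝓝 z₀) (𝓝 0) := by
          have : Continuous (fun z => dist (S.g^[N] z) (S.g^[N] z₀)) :=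
            (S.g.continuous.iterate N).dist continuous_const
          have h3 := this.tendsto z₀
          rwa [dist_self] at h3
        have h3 : ∀ᶠ z in 𝓝 z₀, dist (S.g^[N] z) (S.g^[N] z₀) < δ / 2 :=
          h2.eventually (Iio_mem_nhds (half_pos hδ))
        refine ⟨{z | dist (S.g^[N] z) (S.g^[N] z₀) < δ / 2}, mem_nhdsWithin_of_mem_nhds h3, N, ?_⟩
        intro t ht z hz x _ _
        have hz' : dist (S.g^[N] z) (S.g^[N] z₀) < δ / 2 := hz
        have h4 : dist (S.g^[N] z) (S.g^[N] p) ≤ δ := by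
          have := dist_triangle (S.g^[N] z) (S.g^[N] z₀) (S.g^[N] p)
          rw [dist_comm (S.g^[N] z₀)] at this
          linarith
        obtain ⟨q, hq1, hq2⟩ := hb' _ _ h4
        have hqΛ : q ∈ Λ := hΛ.sat _ (Pool.Agent.Q182.UQ.USat.iter hΛ.toUSat hp N) _
          (hG.uasym _ _ (hq2.mono (min_le_right _ _))).symm
        refine ⟨S.g^[t - N] q, Pool.Agent.Q182.UQ.USat.iter hΛ.toUSat hqΛ _, ?_⟩
        have h5 := (hq1.iter (t - N)).mono (min_le_left _ _)
        rwa [← Function.iterate_add_apply, show t - N + N = t by omega] at h5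
      · obtain ⟨δ, hδ, hb'⟩ := exists_bracket S (min (b / 4) ε₀) (lt_min (by positivity) hG.pos)
        refine ⟨Metric.ball z₀ δ, mem_nhdsWithin_of_mem_nhds (Metric.ball_mem_nhds _ hδ), 0, ?_⟩
        intro t _ z hz x hx hxz
        exfalso
        rw [Metric.mem_ball, dist_comm] at hz
        obtain ⟨w, hw1, hw2⟩ := hb' _ _ hz.le
        have h1 : S.URel b x w := by
          refine (hxz.trans (hw2.mono (min_le_left _ _)).symm).mono ?_
          linarith
        obtain ⟨p, hp, hpw⟩ := hx w h1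
        exact hz₀ ⟨p, hp, hpw.trans (hG.sasym _ _ (hw1.mono (min_le_right _ _))).symm⟩
  obtain ⟨t₁, ht₁⟩ := key
  exact ⟨t₁, fun x hx z hz => ht₁ t₁ le_rfl z (Set.mem_univ z) x hx hz⟩
end Pool.Agent.Q192.PI.B
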