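import Pool.Agent.Q192.PI.StmB
import Pool.Agent.Q6.UQ.ClaimB

/-! # Project PI, SB4: the counting argument -/

set_option autoImplicit false

open Filter Topology Set Metric

namespace Pool.Agent.Q192.PI.B

open Pool.Agent.H721R2 Pool.Agent.H779R2.An Pool.Agent.Q130.UQ Pool.Agent.Q6.UQ

universe u v

section

variable {X : Type u} {E : Type v} [MetricSpace X] [NormedAddCommGroup E] [NormedSpace ℝ E]

/-- the images stay close after the time of the holonomy -/
theorem b4_later {S : HypSys X E} {σ η : ℝ} {T : ℕ} {A : Set X} {φ : X → X}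
    (h : HolT S σ η T A φ) (hη : 2 * η ≤ σ) {N : ℕ} (hN : T ≤ N) {a a' : X} (ha : a ∈ A)
    (ha' : a' ∈ A) (hu : S.URel σ (S.g^[N] a) (S.g^[N] a')) :
    S.URel (2 * σ) (S.g^[N] (φ a)) (S.g^[N] (φ a')) := by
  have h1 := h.loc a ha a' ha' (URel_le hN hu)
  intro k
  rcases le_total k (N - T) with hk | hk
  · -- times later than `T`
    have h2 := hu k
    rw [symm_iter_iter_le S (by omega : k ≤ N), symm_iter_iter_le S (by omega : k ≤ N)] at h2 ⊢
    have h3 := h.rel a ha (N - k - T)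
    have h4 := h.rel a' ha' (N - k - T)
    rw [← Function.iterate_add_apply, ← Function.iterate_add_apply,
      Nat.sub_add_cancel (by omega : T ≤ N - k)] at h3 h4
    have h5 := dist_triangle4 (S.g^[N - k] (φ a)) (S.g^[N - k] a) (S.g^[N - k] a')
      (S.g^[N - k] (φ a'))
    rw [dist_comm (S.g^[N - k] (φ a)) (S.g^[N - k] a)] at h5
    linarith
  · have h2 := h1 (k - (N - T))
    have e : ∀ z : X, S.g.symm^[k] (S.g^[N] z) = S.g.symm^[k - (N - T)] (S.g^[T] z) := by
      intro z
      have e1 : S.g^[N] z = S.g^[N - T] (S.g^[T] z) := by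
        rw [← Function.iterate_add_apply, Nat.sub_add_cancel hN]
      rw [e1, symm_iter_iter_ge S hk]
    rw [e, e]
    exact h2

theorem b4_sasym {S : HypSys X E} {ε₀ σ η : ℝ} (hG : Geo S ε₀) (hη : η ≤ ε₀) {T : ℕ} {A : Set X}
    {φ : X → X} (h : HolT S σ η T A φ) {a : X} (ha : a ∈ A) : SAsym S a (φ a) :=
  SAsym.of_iter T (hG.sasym _ _ ((h.rel a ha).mono hη))

/-- a positive lower bound for the distances of finitely many points -/
theorem b4_sep_pts {ι : Type u} [Finite ι] (x : ι → X) (hx : Function.Injective x) :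
    ∃ s > 0, ∀ i j, i ≠ j → s ≤ dist (x i) (x j) := by
  classical
  rcases isEmpty_or_nonempty ι with h | h
  · exact ⟨1, one_pos, fun i => h.elim i⟩
  · obtain ⟨p, hp⟩ := Finite.exists_min
      (fun p : ι × ι => if p.1 = p.2 then (1 : ℝ) else dist (x p.1) (x p.2))
    refine ⟨if p.1 = p.2 then (1 : ℝ) else dist (x p.1) (x p.2), ?_, fun i j hij => ?_⟩
    · split_ifs with h1
      · exact one_pos
      · exact dist_pos.2 fun h2 => h1 (hx h2)
    · have := hp (i, j)
      simp only [if_neg hij] at this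
      exact this

end

theorem sB4 (h3 : SB3.{u, v}) : SB4.{u, v} := by
  intro X E _ _ _ _ S ε₀ σ η b hG hinf hη hησ hσε hb hbε Λ hΛ
  classical
  have hε₀ := hG.pos
  have hσ : 0 < σ := by linarith
  have h5σ : 5 * σ ≤ ε₀ := by linarith
  have hEnter : SEnter S := Pool.Agent.Q182.UQ.enter S hG (Pool.Agent.Q182.UQ.minEx S)
  have hReach : SReach S := Pool.Agent.Q182.UQ.reach S hG
  obtain ⟨x₀, hx₀⟩ := hΛ.nonempty
  -- first scale
  obtain ⟨δ₃, hδ₃, hbr₃⟩ := exists_bracket S (σ / 2) (by positivity)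
  set r : ℝ := min (δ₃ / 2) (5 * σ / 2) with hr
  have hr0 : 0 < r := lt_min (by positivity) (by positivity)
  have hr1 : r ≤ δ₃ / 2 := min_le_left _ _
  have hr2 : 2 * r ≤ 5 * σ := by
    have : r ≤ 5 * σ / 2 := min_le_right _ _
    linarith
  obtain ⟨t₀, ht₀⟩ := hEnter Λ hΛ x₀ hx₀ (σ / 2) (by positivity) (δ₃ / 2) (by positivity)
  -- second scale
  obtain ⟨δ₄, hδ₄, hbr₄⟩ := exists_bracket S (σ / 8) (by positivity)
  set e₄ : ℝ := min (δ₄ / 4) (σ / 8) with he₄
  have he0 : 0 < e₄ := lt_min (by positivity) (by positivity)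
  have he1 : e₄ ≤ δ₄ / 4 := min_le_left _ _
  have he2 : e₄ ≤ σ / 8 := min_le_right _ _
  obtain ⟨t₁, ht₁⟩ := h3 X E S ε₀ hG Λ hΛ b hb e₄ he0
  obtain ⟨δ₅, hδ₅, hun⟩ := unif_iter S e₄ he0 t₁
  -- the cover
  obtain ⟨cv, hcvf, hcov⟩ := Metric.totallyBounded_iff.mp
    (isCompact_univ (X := X)).totallyBounded (δ₅ / 2) (by positivity)
  have hclass : ∀ z : X, ∃ y : {y // y ∈ hcvf.toFinset}, dist z y < δ₅ / 2 := by
    intro z
    have := hcov (Set.mem_univ z)
    simp only [Set.mem_iUnion, Metric.mem_ball] at this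
    obtain ⟨y, hy, hd⟩ := this
    exact ⟨⟨y, hcvf.mem_toFinset.mpr hy⟩, hd⟩
  choose cl hcl using hclass
  -- the points `xk`
  obtain ⟨pts, hpts, hcard⟩ := (hinf x₀ (r / 2) (by positivity)).exists_subset_card_eq
    (hcvf.toFinset.card)
  let eqv : {y // y ∈ hcvf.toFinset} ≃ {y // y ∈ pts} := Finset.equivOfCardEq hcard.symm
  set xk : {y // y ∈ hcvf.toFinset} → X := fun κ => (eqv κ : X) with hxk
  have hxkinj : Function.Injective xk := fun κ κ' h => eqv.injective (Subtype.ext h)
  have hxku : ∀ κ, S.URel (r / 2) x₀ (xk κ) := fun κ => hpts (eqv κ).2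
  have hr3 : r ≤ ε₀ := by linarith
  have hxkΛ : ∀ κ, xk κ ∈ Λ := fun κ =>
    hΛ.sat _ hx₀ _ (hG.uasym _ _ ((hxku κ).mono (by linarith)))
  obtain ⟨s, hs, hsep⟩ := b4_sep_pts xk hxkinj
  obtain ⟨p, hp⟩ := exists_pow_lt (σ / 8) (e := min (s / 8) (r / 4)) (lt_min (by positivity) (by positivity))
  have hp1 : (1 / 8 : ℝ) ^ p * (σ / 8) ≤ s / 8 := (hp p le_rfl).trans (min_le_left _ _)
  have hp2 : (1 / 8 : ℝ) ^ p * (σ / 8) ≤ r / 4 := (hp p le_rfl).trans (min_le_right _ _)
  obtain ⟨δ₇, hδ₇, hun7⟩ := unif_iter S (δ₄ / 4) (by positivity) p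
  set ε : ℝ := min (s / 8) (r / 4) with hε
  have hε0 : 0 < ε := lt_min (by positivity) (by positivity)
  have hε1 : ε ≤ s / 8 := min_le_left _ _
  have hε2 : ε ≤ r / 4 := min_le_right _ _
  have hR : ∀ κ, ∃ s₀ : ℕ, ∀ x ∈ Λ, ∃ z, ∃ s ≤ s₀, S.URel ε (xk κ) z ∧
      dist (S.g^[s] z) x ≤ δ₇ / 2 := fun κ => hReach Λ hΛ (xk κ) (hxkΛ κ) ε hε0 (δ₇ / 2) (by positivity)
  choose sκ hsκ using hR
  set s₀ : ℕ := Finset.univ.sup sκ with hs₀
  have hs₀' : ∀ κ, sκ κ ≤ s₀ := fun κ => Finset.le_sup (Finset.mem_univ κ)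
  set k₀ : ℕ := t₀ + s₀ + p + 3 with hk₀
  refine ⟨k₀, fun x hx T φ hφ a₀ ha₀ => ?_⟩
  by_contra hcon
  push Not at hcon
  set A : Set X := {z | S.URel (b / 2) x z} with hA
  have hmap : ∀ (n : ℕ) (y : X), y ∈ Λ → S.g.symm^[n] y ∈ Λ := by
    intro n
    induction n with
    | zero => intro y hy; exact hy
    | succ n ih =>
      intro y hy
      rw [Function.iterate_succ_apply']
      exact hΛ.map' _ (ih y hy)
  set y₀ : X := S.g.symm^[k₀] (φ a₀) with hy₀
  -- discs about `y₀` are in the image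
  have hdisc : ∀ z, S.URel σ y₀ z → ∃ a ∈ A, φ a = S.g^[k₀] z := by
    intro z hz
    have h5 := hcon (S.g^[k₀] z) (by rw [iter_symm_iter]; exact hz)
    obtain ⟨a, ha, hφa⟩ := h5
    exact ⟨a, ha, hφa⟩
  have hAU : ∀ a ∈ A, a ∈ Ws S Λ := fun a ha => hx a (ha.mono (by linarith))
  have hws : ∀ z, S.URel (σ / 2) y₀ z → z ∈ Ws S Λ := by
    intro z hz
    obtain ⟨a, ha, hφa⟩ := hdisc z (hz.mono (by linarith))
    obtain ⟨l, hl, hla⟩ := hAU a ha
    refine ⟨S.g.symm^[k₀] l, hmap k₀ l hl, ?_⟩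
    have h4 := (hla.trans (b4_sasym hG (by linarith) hφ ha)).symm_iter k₀
    rwa [hφa, iter_symm_iter] at h4
  obtain ⟨z, t, htt, hz1, hz2⟩ := ht₀ y₀ hws
  -- large times
  obtain ⟨n₂, hn₂⟩ := exists_pow_lt (5 * σ) (e := s / 4) (by positivity)
  set N₁ : ℕ := T + k₀ + t₁ + n₂ + 1 with hN₁
  -- the key step
  have key : ∀ N m, N₁ ≤ N → PP S σ r x₀ N m → PP S σ r x₀ (N - 1) m := by
    intro N m hN hP
    obtain ⟨f, hf, hfsep⟩ := hP
    have hbk : ∀ i, ∃ w, S.SRel (σ / 2) (f i) w ∧ S.URel (σ / 2) w (S.g^[t] z) := by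
      intro i
      refine hbr₃ _ _ ?_
      have h3 := (hf i).dist_le
      have h4 := dist_triangle (f i) x₀ (S.g^[t] z)
      rw [dist_comm (f i) x₀, dist_comm x₀ (S.g^[t] z)] at h4
      linarith
    choose w hw1 hw2 using hbk
    have hwsep : ∀ i i', i ≠ i' → ¬ S.URel (2 * σ) (S.g^[N] (w i)) (S.g^[N] (w i')) := by
      intro i i' hii
      exact LP' N (hw1 i) (hw1 i') ((hf i).symm.trans (hf i')) (by linarith) (by linarith)
        (hfsep i i' hii)
    have hw' : ∀ i, ∃ a ∈ A, φ a = S.g^[k₀] (S.g.symm^[t] (w i)) := by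
      intro i
      refine hdisc _ ?_
      have h3 := ((hw2 i).iter t).symm
      rw [iter_symm_iter] at h3
      exact (hz1.trans h3).mono (by linarith)
    choose a ha hφa using hw'
    set N' : ℕ := N + t - k₀ with hN'
    have hNw : ∀ i, S.g^[N'] (φ (a i)) = S.g^[N] (w i) := by
      intro i
      rw [hφa, ← Function.iterate_add_apply]
      have h3 : N' + k₀ = N + t := by omega
      rw [h3, Function.iterate_add_apply, iter_iter_symm]
    have hasep : ∀ i i', i ≠ i' → ¬ S.URel σ (S.g^[N'] (a i)) (S.g^[N'] (a i')) := by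
      intro i i' hii hc
      have h3 := b4_later hφ (by linarith) (by omega : T ≤ N') (ha i) (ha i') hc
      rw [hNw, hNw] at h3
      exact hwsep i i' hii h3
    -- the points of `Λ`
    have hq : ∀ i, ∃ q ∈ Λ, S.SRel e₄ (S.g^[t₁] (a i)) q := fun i => ht₁ x hx (a i) (ha i)
    choose q hqΛ hq1 using hq
    -- the classes
    have hrep : ∀ κ : {y // y ∈ hcvf.toFinset}, ∃ l ∈ Λ, ∀ i, cl (a i) = κ →
        dist (S.g^[t₁] (a i)) l ≤ δ₄ / 2 := by
      intro κ
      by_cases hne : ∃ i₀, cl (a i₀) = κ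
      · obtain ⟨i₀, hi₀⟩ := hne
        refine ⟨q i₀, hqΛ i₀, fun i hi => ?_⟩
        have h4 : dist (a i) (a i₀) < δ₅ := by
          have h5 := hcl (a i)
          have h6 := hcl (a i₀)
          rw [hi] at h5
          rw [hi₀] at h6
          have := dist_triangle_right (a i) (a i₀) (κ : X)
          linarith
        have h5 := hun _ _ h4 t₁ le_rfl
        have h6 := (hq1 i₀).dist_le
        have := dist_triangle (S.g^[t₁] (a i)) (S.g^[t₁] (a i₀)) (q i₀)
        linarith
      · exact ⟨x₀, hx₀, fun i hi => absurd ⟨i, hi⟩ hne⟩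
    choose l hlΛ hl using hrep
    have hret : ∀ κ, ∃ z, ∃ s' ≤ sκ κ, S.URel ε (xk κ) z ∧
        dist (S.g^[s'] z) (S.g.symm^[p] (l κ)) ≤ δ₇ / 2 := fun κ =>
      hsκ κ _ (hmap p _ (hlΛ κ))
    choose zk sk hsk hzk1 hzk2 using hret
    have hzl : ∀ κ, dist (S.g^[sk κ + p] (zk κ)) (l κ) ≤ δ₄ / 4 := by
      intro κ
      have h4 := hun7 _ _ (lt_of_le_of_lt (hzk2 κ) (by linarith)) p le_rfl
      rw [iter_iter_symm, ← Function.iterate_add_apply, Nat.add_comm p (sk κ)] at h4
      exact h4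
    have hbk2 : ∀ i, ∃ v, S.SRel (σ / 8) (S.g^[t₁] (a i)) v ∧
        S.URel (σ / 8) v (S.g^[sk (cl (a i)) + p] (zk (cl (a i)))) := by
      intro i
      refine hbr₄ _ _ ?_
      have h4 := hl _ i rfl
      have h5 := hzl (cl (a i))
      have := dist_triangle_right (S.g^[t₁] (a i)) (S.g^[sk (cl (a i)) + p] (zk (cl (a i))))
        (l (cl (a i)))
      linarith
    choose v hv1 hv2 using hbk2
    -- the new points
    have hf' : ∀ i, S.URel ((1 / 8) ^ p * (σ / 8))
        (S.g.symm^[sk (cl (a i)) + p] (v i)) (zk (cl (a i))) := by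
      intro i
      have h4 := URel_contr hG (by linarith) (hv2 i) (sk (cl (a i)) + p)
      rw [iter_symm_iter] at h4
      refine h4.mono ?_
      apply mul_le_mul_of_nonneg_right _ (by positivity)
      exact pow_le_pow_of_le_one (by norm_num) (by norm_num) (by omega)
    refine ⟨fun i => S.g.symm^[sk (cl (a i)) + p] (v i), fun i => ?_, fun i i' hii hc => ?_⟩
    · exact (((hxku (cl (a i))).trans (hzk1 (cl (a i)))).trans (hf' i).symm).mono (by linarith)
    · by_cases hcc : cl (a i) = cl (a i')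
      · -- same class
        have h4 : dist (a i) (a i') < δ₅ := by
          have h5 := hcl (a i)
          have h6 := hcl (a i')
          rw [← hcc] at h6
          have := dist_triangle_right (a i) (a i') ((cl (a i) : {y // y ∈ hcvf.toFinset}) : X)
          linarith
        have hab : S.URel (b / 2 + b / 2) (a i) (a i') := (ha i).symm.trans (ha i')
        have h5 : S.URel (σ / 8) (a i) (a i') := by
          refine (hG.URel_dist (hab.mono (by linarith))).mono ?_
          have := hun _ _ h4 0 (Nat.zero_le _)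
          exact this.trans he2
        have h6 : S.URel (σ / 8) (S.g^[t₁] (a i)) (S.g^[t₁] (a i')) := by
          intro k
          rcases le_total k t₁ with hk | hk
          · rw [symm_iter_iter_le S hk, symm_iter_iter_le S hk]
            exact (hun _ _ h4 _ (by omega)).trans he2
          · rw [symm_iter_iter_ge S hk, symm_iter_iter_ge S hk]
            exact h5 _
        have h7 : ¬ S.URel (3 * σ / 4) (S.g^[N' - t₁] (v i)) (S.g^[N' - t₁] (v i')) := by
          refine LP' (N' - t₁) (hv1 i) (hv1 i') h6 (d := σ) (by linarith) (by linarith) ?_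
          rw [← Function.iterate_add_apply, ← Function.iterate_add_apply,
            Nat.sub_add_cancel (by omega : t₁ ≤ N')]
          exact hasep i i' hii
        apply h7
        set Sk : ℕ := sk (cl (a i)) + p with hSk
        have hSk' : sk (cl (a i')) + p = Sk := by rw [← hcc]
        simp only [hSk'] at hc
        have hM : N' - t₁ + Sk + 2 ≤ N - 1 := by
          have h8 := hsk (cl (a i))
          have h9 := hs₀' (cl (a i))
          omega
        have h8 := URel_contr hG h5σ (URel_le hM hc) 2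
        have h9 : ∀ v' : X, S.g.symm^[2] (S.g^[N' - t₁ + Sk + 2] (S.g.symm^[Sk] v')) =
            S.g^[N' - t₁] v' := by
          intro v'
          rw [symm_iter_iter_le S (by omega : 2 ≤ N' - t₁ + Sk + 2)]
          have h10 : N' - t₁ + Sk + 2 - 2 = N' - t₁ + Sk := by omega
          rw [h10, Function.iterate_add_apply _ _ Sk, iter_iter_symm]
        rw [h9, h9] at h8
        refine h8.mono ?_
        norm_num
        linarith
      · -- different classes
        have h4 := hsep _ _ hcc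
        have h5 := (hf' i).dist_le
        have h6 := (hf' i').dist_le
        have h7 := (hzk1 (cl (a i))).dist_le
        have h8 := (hzk1 (cl (a i'))).dist_le
        have h9 := hG.ucontr _ _ (hc.mono h5σ) (N - 1)
        rw [iter_symm_iter, iter_symm_iter] at h9
        have h10 := hc.dist_le
        have h11 := hn₂ (N - 1) (by omega)
        have h12 : (1 / 8 : ℝ) ^ (N - 1) * dist (S.g^[N - 1] (S.g.symm^[sk (cl (a i)) + p] (v i)))
            (S.g^[N - 1] (S.g.symm^[sk (cl (a i')) + p] (v i'))) ≤ (1 / 8 : ℝ) ^ (N - 1) * (5 * σ) :=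
          mul_le_mul_of_nonneg_left h10 (by positivity)
        have h13 := dist_triangle4 (xk (cl (a i))) (zk (cl (a i)))
          (S.g.symm^[sk (cl (a i)) + p] (v i)) (S.g.symm^[sk (cl (a i')) + p] (v i'))
        have h14 := dist_triangle4 (xk (cl (a i))) (S.g.symm^[sk (cl (a i')) + p] (v i'))
          (zk (cl (a i'))) (xk (cl (a i')))
        rw [dist_comm (zk (cl (a i))) _] at h13
        rw [dist_comm (zk (cl (a i'))) _] at h14
        linarith
  -- descend
  have hdesc : ∀ N m, N₁ ≤ N → PP S σ r x₀ N m → PP S σ r x₀ N₁ m := by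
    intro N m hN
    induction N, hN using Nat.le_induction with
    | base => exact fun h => h
    | succ N hN ih =>
      intro h
      exact ih (key (N + 1) m (by omega) h)
  obtain ⟨M, hM⟩ := PP.bounded (S := S) hσ hr2 x₀ N₁
  obtain ⟨N, hN⟩ := PP.exists_time hG h5σ (hinf x₀ r hr0) (M + 1)
  have h3 := hdesc (N + N₁) (M + 1) (by omega) (hN.mono (by omega))
  have h4 := hM _ h3
  omega

end Pool.Agent.Q192.PI.B
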