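import Pool.Agent.Q192.PI.StmB
import Pool.Agent.Q6.UQ.ClaimB
import Pool.Agent.Q210.UQ.Top

/-! # Project PI, SB6: long images cross many disjoint boxes -/

set_option autoImplicit false

open Filter Topology Set Metric

namespace Pool.Agent.Q192.PI.B

open Pool.Agent.H721R2 Pool.Agent.H779R2.An Pool.Agent.Q130.UQ Pool.Agent.Q6.UQ
  Pool.Agent.H789R2.AN Pool.Agent.H789R2.GP

universe u v

section hol

variable {X : Type u} {E : Type v} [MetricSpace X] [NormedAddCommGroup E] [NormedSpace ℝ E]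

theorem b6_lip {S : HypSys X E} {L : ℝ} (hL : 1 ≤ L)
    (hlip : ∀ x y, dist (S.g x) (S.g y) ≤ L * dist x y) (n : ℕ) (x y : X) :
    dist (S.g^[n] x) (S.g^[n] y) ≤ L ^ n * dist x y := by
  induction n with
  | zero => simp
  | succ n ih =>
    rw [Function.iterate_succ_apply', Function.iterate_succ_apply', pow_succ]
    have h1 := hlip (S.g^[n] x) (S.g^[n] y)
    have h2 : L * dist (S.g^[n] x) (S.g^[n] y) ≤ L * (L ^ n * dist x y) :=
      mul_le_mul_of_nonneg_left ih (by linarith)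
    linarith

theorem b6_liprel {S : HypSys X E} {L : ℝ} (hL : 1 ≤ L)
    (hlip : ∀ x y, dist (S.g x) (S.g y) ≤ L * dist x y) (n : ℕ) {x y : X} {c : ℝ} (hc : 0 ≤ c)
    (h : S.URel c x y) : S.URel (L ^ n * c) (S.g^[n] x) (S.g^[n] y) := by
  intro k
  have hLn : 1 ≤ L ^ n := one_le_pow₀ hL
  rcases le_total k n with hk | hk
  · rw [symm_iter_iter_le S hk, symm_iter_iter_le S hk]
    refine (b6_lip hL hlip _ x y).trans ?_
    have h1 : L ^ (n - k) ≤ L ^ n := pow_le_pow_right₀ hL (by omega)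
    exact mul_le_mul h1 h.dist_le dist_nonneg (by positivity)
  · rw [symm_iter_iter_ge S hk, symm_iter_iter_ge S hk]
    refine (h _).trans ?_
    nlinarith

theorem b6_later {S : HypSys X E} {σ η : ℝ} {T : ℕ} {A : Set X} {φ : X → X}
    (h : HolT S σ η T A φ) (hη : 2 * η ≤ σ) {N : ℕ} (hN : T ≤ N) {a a' : X} (ha : a ∈ A)
    (ha' : a' ∈ A) (hu : S.URel σ (S.g^[N] a) (S.g^[N] a')) :
    S.URel (2 * σ) (S.g^[N] (φ a)) (S.g^[N] (φ a')) := by
  have h1 := h.loc a ha a' ha' (URel_le hN hu)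
  intro k
  rcases le_total k (N - T) with hk | hk
  · have h2 := hu k
    rw [symm_iter_iter_le S (by omega : k ≤ N), symm_iter_iter_le S (by omega : k ≤ N)] at h2 ⊢
    have h3 := h.rel a ha (N - k - T)
    have h4 := h.rel a' ha' (N - k - T)
    rw [← Function.iterate_add_apply, ← Function.iterate_add_apply,
      Nat.sub_add_cancel (by omega : T ≤ N - k)] at h3 h4
    have h5 := dist_triangle4 (S.g^[N - k] (φ a)) (S.g^[N - k] a) (S.g^[N - k] a')
      (S.g^[N - k] (φ a'))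
    rw [dist_comm (S.g^[N - k] (φ a)) (S.g^[N - k] a)] at h5
    linarith
  · have h2 := h1 (k - (N - T))
    have e : ∀ z : X, S.g.symm^[k] (S.g^[N] z) = S.g.symm^[k - (N - T)] (S.g^[T] z) := by
      intro z
      have e1 : S.g^[N] z = S.g^[N - T] (S.g^[T] z) := by
        rw [← Function.iterate_add_apply, Nat.sub_add_cancel hN]
      rw [e1, symm_iter_iter_ge S hk]
    rw [e, e]
    exact h2

/-- the stable distance at late times -/
theorem b6_rel {S : HypSys X E} {ε₀ σ η : ℝ} (hG : Geo S ε₀) (hη : η ≤ ε₀) {T : ℕ} {A : Set X}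
    {φ : X → X} (h : HolT S σ η T A φ) {a : X} (ha : a ∈ A) {N : ℕ} (hN : T ≤ N) :
    S.SRel ((1 / 8) ^ (N - T) * η) (S.g^[N] a) (S.g^[N] (φ a)) := by
  have h1 := SRel_decay hG hη (h.rel a ha) (N - T)
  rw [← Function.iterate_add_apply, ← Function.iterate_add_apply, Nat.sub_add_cancel hN] at h1
  exact h1

/-- holonomies are continuous for the leaf metric -/
theorem b6_cont {S : HypSys X E} {ε₀ σ η L : ℝ} (hG : Geo S ε₀) (hL : 1 ≤ L)
    (hlip : ∀ x y, dist (S.g x) (S.g y) ≤ L * dist x y) (hη0 : 0 < η) (hη : 2 * η ≤ σ)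
    (hσ : 2 * σ ≤ ε₀) {T : ℕ} {A : Set X} {φ : X → X} (h : HolT S σ η T A φ) {a : X} (ha : a ∈ A)
    {ε : ℝ} (hε : 0 < ε) :
    ∃ δ > 0, ∀ a' ∈ A, S.URel δ a a' → S.URel ε (φ a) (φ a') := by
  obtain ⟨n, hn⟩ := exists_pow_lt η (e := ε / 4) (by positivity)
  set N : ℕ := T + n with hN
  have hLN : 0 < L ^ N := by positivity
  refine ⟨min σ (ε / 2) / L ^ N, by
    apply div_pos (lt_min (by linarith) (by positivity)) hLN, fun a' ha' hu => ?_⟩
  have h1 : S.URel (min σ (ε / 2)) (S.g^[N] a) (S.g^[N] a') := by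
    have := b6_liprel hL hlip N (div_nonneg (le_min (by linarith) (by positivity)) hLN.le) hu
    rwa [mul_div_cancel₀ _ hLN.ne'] at this
  have h2 := b6_later h hη (by omega : T ≤ N) ha ha' (h1.mono (min_le_left _ _))
  have h3 := (b6_rel hG (by linarith) h ha (by omega : T ≤ N)).dist_le
  have h4 := (b6_rel hG (by linarith) h ha' (by omega : T ≤ N)).dist_le
  have h5 := hn (N - T) (by omega)
  have h6 := h1.dist_le.trans (min_le_right _ _)
  have h7 : dist (S.g^[N] (φ a)) (S.g^[N] (φ a')) ≤ ε := by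
    have h8 := dist_triangle4 (S.g^[N] (φ a)) (S.g^[N] a) (S.g^[N] a') (S.g^[N] (φ a'))
    rw [dist_comm (S.g^[N] (φ a)) (S.g^[N] a)] at h8
    linarith
  exact URel_of_iter N ((hG.URel_dist (h2.mono hσ)).mono h7)

/-- holonomies are open for the leaf metric -/
theorem b6_open {S : HypSys X E} {ε₀ σ η L Q : ℝ} (hG : Geo S ε₀) (hL : 1 ≤ L) (hQ : 1 ≤ Q)
    (hlip : ∀ x y, dist (S.g x) (S.g y) ≤ L * dist x y)
    (hbr : ∀ x y, dist x y ≤ ε₀ → ∃ w, S.SRel (Q * dist x y) x w ∧ S.URel (Q * dist x y) w y)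
    (hη0 : 0 < η) (hη : 16 * Q * η ≤ σ)
    (hσ : 4 * σ ≤ ε₀) {T : ℕ} {A : Set X} {φ : X → X} (h : HolT S σ η T A φ) {a : X} (ha : a ∈ A)
    {ρ : ℝ} (hρ : 0 < ρ) (hρA : ∀ z, S.URel ρ a z → z ∈ A) {δ : ℝ} (hδ : 0 < δ) :
    ∃ ε > 0, ∀ p, S.URel ε (φ a) p → ∃ a' ∈ A, S.URel δ a a' ∧ φ a' = p := by
  have hQη : η ≤ Q * η := by nlinarith
  have hη2 : 2 * η ≤ σ := by linarith
  have hηε : η ≤ ε₀ := by linarith
  obtain ⟨n, hn⟩ := exists_pow_lt (2 * Q * η) (e := min ρ δ) (lt_min hρ hδ)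
  set N : ℕ := T + n with hN
  have hLN : 0 < L ^ N := by positivity
  have hp0 : 0 < (1 / 8 : ℝ) ^ n * η := by positivity
  have hp1 : (1 / 8 : ℝ) ^ n ≤ 1 := pow_le_one₀ (by norm_num) (by norm_num)
  refine ⟨(1 / 8 : ℝ) ^ n * η / L ^ N, div_pos hp0 hLN, fun p hp => ?_⟩
  have h1 : S.URel ((1 / 8 : ℝ) ^ n * η) (S.g^[N] (φ a)) (S.g^[N] p) := by
    have := b6_liprel hL hlip N (div_nonneg hp0.le hLN.le) hp
    rwa [mul_div_cancel₀ _ hLN.ne'] at this
  have h2 := b6_rel hG hηε h ha (by omega : T ≤ N)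
  rw [show N - T = n by omega] at h2
  have h3 : dist (S.g^[N] p) (S.g^[N] a) ≤ 2 * ((1 / 8 : ℝ) ^ n * η) := by
    have h4 := dist_triangle (S.g^[N] p) (S.g^[N] (φ a)) (S.g^[N] a)
    have h5 := h1.dist_le
    have h6 := h2.dist_le
    rw [dist_comm] at h5 h6
    linarith
  have h3' : Q * dist (S.g^[N] p) (S.g^[N] a) ≤ (1 / 8 : ℝ) ^ n * (2 * Q * η) := by
    have := mul_le_mul_of_nonneg_left h3 (by linarith : (0 : ℝ) ≤ Q)
    linarith
  have h3'' : (1 / 8 : ℝ) ^ n * (2 * Q * η) ≤ 2 * Q * η := by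
    have : 0 < 2 * Q * η := by positivity
    nlinarith
  obtain ⟨w, hw1, hw2⟩ := hbr (S.g^[N] p) (S.g^[N] a) (by nlinarith)
  have hw1' : S.SRel (2 * Q * η) (S.g^[N] p) w := hw1.mono (h3'.trans h3'')
  have hw2' : S.URel ((1 / 8 : ℝ) ^ n * (2 * Q * η)) w (S.g^[N] a) := hw2.mono h3'
  -- the point `a'`
  have h7 : S.URel ((1 / 8 : ℝ) ^ n * (2 * Q * η)) (S.g.symm^[N] w) a := by
    apply URel_of_iter N
    rw [iter_iter_symm]
    exact hw2'
  have h8 := hn n le_rfl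
  have ha' : S.g.symm^[N] w ∈ A := hρA _ (h7.symm.mono (h8.trans (min_le_left _ _)))
  refine ⟨S.g.symm^[N] w, ha', h7.symm.mono (h8.trans (min_le_right _ _)), ?_⟩
  -- uniqueness
  have h9 := b6_rel hG hηε h ha' (by omega : T ≤ N)
  rw [iter_iter_symm, show N - T = n by omega] at h9
  have h10 : S.SRel ε₀ (S.g^[N] (φ (S.g.symm^[N] w))) (S.g^[N] p) := by
    refine (h9.symm.trans hw1'.symm).mono ?_
    nlinarith
  have h11 : S.URel σ (S.g^[N] (S.g.symm^[N] w)) (S.g^[N] a) := by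
    rw [iter_iter_symm]
    exact hw2'.mono (by linarith)
  have h12 := b6_later h hη2 (by omega : T ≤ N) ha' ha h11
  have h13 : S.URel ε₀ (S.g^[N] (φ (S.g.symm^[N] w))) (S.g^[N] p) := by
    refine (h12.trans h1).mono ?_
    nlinarith
  exact (S.g.injective.iterate N) (hG.uniq _ _ h10 h13)

end hol

section top

variable {X : Type u} {E : Type v} [MetricSpace X] [NormedAddCommGroup E] [NormedSpace ℝ E]

theorem b6_frontier {Y : Type u} [TopologicalSpace Y] [T2Space Y] {D : ℕ} {f : V D → Y} {s : ℝ}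
    (hf : ContinuousOn f (closedBall 0 s)) (ho : IsOpen (f '' ball 0 s)) :
    frontier (f '' ball 0 s) ⊆ f '' sphere 0 s := by
  intro y hy
  rw [ho.frontier_eq] at hy
  have h1 : closure (f '' ball 0 s) ⊆ f '' closedBall 0 s :=
    closure_minimal (image_mono ball_subset_closedBall)
      ((isCompact_closedBall (0 : V D) s).image_of_continuousOn hf).isClosed
  obtain ⟨w, hw, rfl⟩ := h1 hy.1
  refine ⟨w, ?_, rfl⟩
  rw [mem_closedBall_zero_iff] at hw
  rw [mem_sphere_zero_iff_norm]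
  by_contra hne
  exact hy.2 ⟨w, by rw [mem_ball_zero_iff]; exact lt_of_le_of_ne hw hne, rfl⟩

variable [CompactSpace X] {S : HypSys X E} {D : ℕ} {ε₀ R : ℝ} {ψ : X → V D → X}

theorem b6_dist {p q : X} {c : ℝ} (hc : 0 ≤ c) :
    dist (⟨p⟩ : SM S.g.symm) ⟨q⟩ ≤ c ↔ S.URel c p q := SM.dist_le _ _ hc

theorem b6_chart (hG : Geo S ε₀) (hC : Cht S D ε₀ R ψ) (x : X) {w w' : V D} (hw : ‖w‖ ≤ R)
    (hw' : ‖w'‖ ≤ R) : S.URel (2 * ‖w - w'‖) (ψ x w) (ψ x w') :=
  (hG.URel_dist (hC.rel x w w' hw hw')).mono (hC.le x w w' hw hw')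

theorem b6_chart0 (hG : Geo S ε₀) (hC : Cht S D ε₀ R ψ) (x : X) {w : V D} (hw : ‖w‖ ≤ R) :
    S.URel (2 * ‖w‖) x (ψ x w) := by
  have h := b6_chart hG hC x (w := w) (w' := 0) hw (by rw [norm_zero]; exact hC.pos.le)
  rw [hC.zero, sub_zero] at h
  exact h.symm

theorem b6_surj (hC : Cht S D ε₀ R ψ) (x z : X) (h : S.URel (R / 2) x z) :
    ∃ w : V D, ‖w‖ ≤ R ∧ ψ x w = z ∧ ‖w‖ ≤ 2 * dist x z := by
  obtain ⟨a, ha, hz⟩ := hC.surj x z h
  refine ⟨a, ha, hz, ?_⟩
  have h1 := hC.ge x a 0 ha (by rw [norm_zero]; exact hC.pos.le)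
  rwa [sub_zero, hz, hC.zero, dist_comm] at h1

theorem b6_box_cont (hG : Geo S ε₀) (hC : Cht S D ε₀ R ψ) (x : X) {s : ℝ} (hs : s ≤ R) :
    ContinuousOn (fun w : V D => (⟨ψ x w⟩ : SM S.g.symm)) (closedBall 0 s) := by
  rw [Metric.continuousOn_iff]
  intro w hw ε hε
  rw [mem_closedBall_zero_iff] at hw
  refine ⟨ε / 4, by positivity, fun w' hw' hd => ?_⟩
  rw [mem_closedBall_zero_iff] at hw'
  rw [dist_eq_norm] at hd
  have h1 := b6_chart hG hC x (hw'.trans hs) (hw.trans hs)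
  have h2 := (b6_dist (by positivity)).2 h1
  linarith

theorem b6_box_open (hG : Geo S ε₀) (hC : Cht S D ε₀ R ψ) (x : X) {s : ℝ} (hs : s ≤ R / 8) :
    IsOpen ((fun w : V D => (⟨ψ x w⟩ : SM S.g.symm)) '' ball 0 s) := by
  have hR := hC.pos
  rw [Metric.isOpen_iff]
  rintro _ ⟨w, hw, rfl⟩
  rw [mem_ball_zero_iff] at hw
  have hws : 0 < s - ‖w‖ := by linarith
  refine ⟨min (R / 8) ((s - ‖w‖) / 4), lt_min (by positivity) (by positivity), ?_⟩
  rintro ⟨p⟩ hp
  rw [mem_ball, dist_comm] at hp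
  have h1 : S.URel (min (R / 8) ((s - ‖w‖) / 4)) (ψ x w) p :=
    (b6_dist (le_min (by positivity) (by positivity))).1 hp.le
  have h2 := b6_chart0 hG hC x (w := w) (by linarith)
  have hm1 : min (R / 8) ((s - ‖w‖) / 4) ≤ R / 8 := min_le_left _ _
  have hm2 : min (R / 8) ((s - ‖w‖) / 4) ≤ (s - ‖w‖) / 4 := min_le_right _ _
  obtain ⟨w', hw', hz', -⟩ := b6_surj hC x p ((h2.trans h1).mono (by linarith))
  refine ⟨w', ?_, by simp only [hz']⟩
  have h3 := hC.ge x w w' (by linarith) hw'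
  rw [hz'] at h3
  have h4 := h1.dist_le
  have h5 := norm_le_insert w w'
  rw [mem_ball_zero_iff]
  linarith [norm_nonneg (w - w')]

end top

set_option maxHeartbeats 1000000 in
theorem sB6 : SB6.{u, v} := by
  intro X E _ _ _ _ S D ε₀ Q α β K L R σ η b ψ U hD hSc hC hSca hCB
  classical
  have hG := hSc.geo
  have hε₀ := hG.pos
  have hη0 := hSca.η0
  have hQ := hSc.Q1
  have hL := hSc.L1
  have hβ0 := hSc.β0
  have hβ1 : β ≤ 1 := by linarith [hSc.β1]
  have hησ := hSca.ησ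
  have hQη : η ≤ Q * η := by nlinarith
  have hσ : 0 < σ := by nlinarith
  have hη2 : 2 * η ≤ σ := by linarith
  have hσb : 65536 * σ ≤ b := by
    have h1 := hSca.σb
    have h2 : σ ≤ Q * L * σ := by
      have : 1 ≤ Q * L := one_le_mul_of_one_le_of_one_le hQ hL
      nlinarith
    nlinarith
  have hb : 0 < b := by linarith
  have hbR := hSca.bR
  have hbε := hSca.bε
  obtain ⟨k₁, hk₁⟩ := hCB
  set τ : ℝ := b / 4096 with hτ
  have hτ0 : 0 < τ := by positivity
  have hbτ : b = 4096 * τ := by rw [hτ]; ring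
  refine ⟨k₁, τ, hτ0, by linarith, by linarith, by linarith, β ^ k₁, pow_pos hβ0 _, ?_⟩
  intro x hx T φ hφ z hz n hn
  by_cases hnk : n < k₁
  · refine ⟨0, fun i => i.elim0, ?_, fun i => i.elim0, fun j => j.elim0⟩
    simp only [CharP.cast_eq_zero, zero_add, one_mul]
    exact pow_le_pow_of_le_one hβ0.le hβ1 hnk.le
  push Not at hnk
  set A : Set X := {z | S.URel (b / 2) x z} with hA
  -- the maps
  have hchart : ∀ w : V D, ‖w‖ ≤ 3 * b / 16 → ψ x w ∈ A := by
    intro w hw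
    exact (b6_chart0 hG hC x (by linarith)).mono (by linarith)
  have hcont : ∀ m : ℕ, ContinuousOn
      (fun w : V D => (⟨S.g.symm^[m] (φ (ψ x w))⟩ : SM S.g.symm)) (closedBall 0 (3 * b / 16)) := by
    intro m
    rw [Metric.continuousOn_iff]
    intro w hw ε hε
    rw [mem_closedBall_zero_iff] at hw
    obtain ⟨δ, hδ, h1⟩ := b6_cont hG hL hSc.lip hη0 hη2 (by linarith) hφ (hchart w hw)
      (ε := ε / 2) (by positivity)
    refine ⟨δ / 2, by positivity, fun w' hw' hd => ?_⟩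
    rw [mem_closedBall_zero_iff] at hw'
    rw [dist_eq_norm, norm_sub_rev] at hd
    have h2 := h1 _ (hchart w' hw') ((b6_chart hG hC x (by linarith) (by linarith)).mono
      (by linarith))
    have h3 := (b6_dist (S := S) (by positivity)).2 (h2.iter m)
    rw [dist_comm]
    linarith
  have hopen : IsOpen ((fun w : V D => (⟨S.g.symm^[k₁] (φ (ψ x w))⟩ : SM S.g.symm)) ''
      ball 0 (3 * b / 16)) := by
    rw [Metric.isOpen_iff]
    rintro _ ⟨w, hw, rfl⟩
    rw [mem_ball_zero_iff] at hw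
    have hgap : 0 < 3 * b / 16 - ‖w‖ := by linarith
    have hwa : S.URel (3 * b / 8) x (ψ x w) :=
      (b6_chart0 hG hC x (by linarith)).mono (by linarith)
    obtain ⟨ε, hε, h1⟩ := b6_open hG hL hQ hSc.lip hSc.br hη0 (by linarith) (by linarith) hφ
      (hchart w hw.le) (ρ := b / 8) (by positivity)
      (fun z' hz' => (hwa.trans hz').mono (by linarith))
      (δ := (3 * b / 16 - ‖w‖) / 4) (by positivity)
    have hLk : 0 < L ^ k₁ := by positivity
    refine ⟨ε / L ^ k₁, div_pos hε hLk, ?_⟩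
    rintro ⟨p⟩ hp
    rw [mem_ball, dist_comm] at hp
    have h2 : S.URel (ε / L ^ k₁) (S.g.symm^[k₁] (φ (ψ x w))) p :=
      (b6_dist (div_pos hε hLk).le).1 hp.le
    have h3 := b6_liprel hL hSc.lip k₁ (div_pos hε hLk).le h2
    rw [mul_div_cancel₀ _ hLk.ne', iter_iter_symm] at h3
    obtain ⟨a', ha', h4, h5⟩ := h1 _ h3
    obtain ⟨w', hw', hz', -⟩ := b6_surj hC x a' ((hwa.trans h4).mono
      (by linarith [norm_nonneg w]))
    refine ⟨w', ?_, ?_⟩
    · have h6 := hC.ge x w w' (by linarith) hw'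
      rw [hz'] at h6
      have h7 := h4.dist_le
      have h8 := norm_le_insert w w'
      rw [mem_ball_zero_iff]
      linarith [norm_nonneg (w - w')]
    · simp only [hz', h5, iter_symm_iter]
  -- the path
  obtain ⟨w₁, hw₁R, hw₁z, hw₁⟩ := b6_surj hC x z (hz.mono (by linarith))
  have hw₁' : ‖w₁‖ ≤ b / 128 := by
    have := hz.dist_le
    linarith
  have hpath : ∀ t ∈ Icc (0 : ℝ) 1, ‖t • w₁‖ ≤ b / 128 := by
    intro t ht
    rw [norm_smul, Real.norm_eq_abs, abs_of_nonneg ht.1]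
    have := ht.2
    nlinarith [norm_nonneg w₁]
  have hpa : ∀ t ∈ Icc (0 : ℝ) 1, S.URel (b / 64) x (ψ x (t • w₁)) := fun t ht =>
    (b6_chart0 hG hC x (by linarith [hpath t ht])).mono (by linarith [hpath t ht])
  have hpc : ∀ m : ℕ, ContinuousOn
      (fun t : ℝ => (⟨S.g.symm^[m] (φ (ψ x (t • w₁)))⟩ : SM S.g.symm)) (Icc 0 1) := by
    intro m
    refine (hcont m).comp (f := fun t : ℝ => t • w₁) (by fun_prop) (fun t ht => ?_)
    rw [mem_closedBall_zero_iff]
    linarith [hpath t ht]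
  set κ : ℝ := 40 * τ * β ^ (n - k₁) with hκ
  have hβn : 0 < β ^ (n - k₁) := pow_pos hβ0 _
  have hβn1 : β ^ (n - k₁) ≤ 1 := pow_le_one₀ hβ0.le hβ1
  have hκ0 : 0 < κ := by positivity
  have hκb : 2 * κ ≤ b := by
    rw [hκ, hbτ]
    nlinarith
  set J : ℕ := ⌊b / κ⌋₊ with hJ
  have hJ2 : 2 ≤ J := by
    rw [hJ]
    apply Nat.le_floor
    rw [le_div_iff₀ hκ0]
    exact_mod_cast hκb
  have hJle : (J : ℝ) ≤ b / κ := Nat.floor_le (by positivity)
  have hJlt : b / κ < J + 1 := Nat.lt_floor_add_one _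
  -- the function
  set Fd : ℝ → ℝ := fun t => dist (⟨S.g.symm^[n] (φ (ψ x ((0 : ℝ) • w₁)))⟩ : SM S.g.symm)
    ⟨S.g.symm^[n] (φ (ψ x (t • w₁)))⟩ with hFd
  have hFc : ContinuousOn Fd (Icc 0 1) := by
    have hcd : Continuous (fun y : SM S.g.symm =>
        dist (⟨S.g.symm^[n] (φ (ψ x ((0 : ℝ) • w₁)))⟩ : SM S.g.symm) y) :=
      continuous_const.dist continuous_id
    exact hcd.comp_continuousOn (hpc n)
  have hF0 : Fd 0 = 0 := by simp only [hFd, dist_self]
  have hF1 : b < Fd 1 := by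
    by_contra hle
    push Not at hle
    apply hn
    simp only [hFd, zero_smul, one_smul, hC.zero, hw₁z] at hle
    exact (b6_dist hb.le).1 hle
  have hlev : ∀ j : Fin J, ∃ t ∈ Icc (0 : ℝ) 1, Fd t = (j : ℕ) * κ := by
    intro j
    have h1 : ((j : ℕ) : ℝ) * κ ≤ b := by
      have h2 : ((j : ℕ) : ℝ) ≤ J := by exact_mod_cast j.2.le
      have h3 := h2.trans hJle
      rwa [le_div_iff₀ hκ0] at h3
    have h4 := intermediate_value_Icc (zero_le_one (α := ℝ)) hFc
    have h5 : ((j : ℕ) : ℝ) * κ ∈ Icc (Fd 0) (Fd 1) :=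
      ⟨by rw [hF0]; positivity, by linarith⟩
    obtain ⟨t, ht, he⟩ := h4 h5
    exact ⟨t, ht, he⟩
  choose tj htj hFj using hlev
  set d : Fin J → X := fun j => S.g.symm^[k₁] (φ (ψ x (tj j • w₁))) with hd
  have hτε : 21 * τ ≤ ε₀ := by linarith
  have h5τR : 5 * τ ≤ R := by linarith
  -- separation
  have hsep : ∀ i j, i ≠ j → ∀ w w' : V D, ‖w‖ ≤ 5 * τ → ‖w'‖ ≤ 5 * τ →
      ¬ S.URel τ (ψ (d i) w) (ψ (d j) w') := by
    intro i j hij w w' hw hw' hu
    have h1 : S.URel (21 * τ) (d i) (d j) := by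
      have h2 := b6_chart0 hG hC (d i) (hw.trans h5τR)
      have h3 := b6_chart0 hG hC (d j) (hw'.trans h5τR)
      exact ((h2.trans hu).trans h3.symm).mono (by linarith)
    have h4 : S.URel (21 * τ * β ^ (n - k₁)) (S.g.symm^[n - k₁] (d i))
        (S.g.symm^[n - k₁] (d j)) := by
      intro k
      have e1 : ∀ p : X, S.g.symm^[k] (S.g.symm^[n - k₁] p) = S.g.symm^[k + (n - k₁)] p :=
        fun p => (Function.iterate_add_apply _ _ _ _).symm
      rw [e1, e1]
      have h5 := hSc.uc _ _ (h1.mono hτε) (k + (n - k₁))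
      refine h5.trans ?_
      have h6 : β ^ (k + (n - k₁)) ≤ β ^ (n - k₁) := pow_le_pow_of_le_one hβ0.le hβ1 (by omega)
      have h7 := h1.dist_le
      calc _ ≤ β ^ (n - k₁) * (21 * τ) := mul_le_mul h6 h7 dist_nonneg hβn.le
        _ = _ := by ring
    have h8 : ∀ i : Fin J, S.g.symm^[n - k₁] (d i) = S.g.symm^[n] (φ (ψ x (tj i • w₁))) := by
      intro i
      simp only [hd]
      rw [← Function.iterate_add_apply, Nat.sub_add_cancel hnk]
    rw [h8, h8] at h4
    have h9 := (b6_dist (S := S) (by positivity)).2 h4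
    have h10 := abs_dist_sub_le (⟨S.g.symm^[n] (φ (ψ x (tj i • w₁)))⟩ : SM S.g.symm)
      ⟨S.g.symm^[n] (φ (ψ x (tj j • w₁)))⟩ ⟨S.g.symm^[n] (φ (ψ x ((0 : ℝ) • w₁)))⟩
    rw [dist_comm _ (⟨S.g.symm^[n] (φ (ψ x ((0 : ℝ) • w₁)))⟩ : SM S.g.symm),
      dist_comm (⟨S.g.symm^[n] (φ (ψ x (tj j • w₁)))⟩ : SM S.g.symm)
        (⟨S.g.symm^[n] (φ (ψ x ((0 : ℝ) • w₁)))⟩ : SM S.g.symm)] at h10
    have h11 : |Fd (tj i) - Fd (tj j)| ≤ 21 * τ * β ^ (n - k₁) := h10.trans h9
    rw [hFj, hFj, ← sub_mul, abs_mul, abs_of_pos hκ0] at h11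
    have h12 : (1 : ℝ) ≤ |((i : ℕ) : ℝ) - ((j : ℕ) : ℝ)| := by
      have h13 : (i : ℕ) ≠ (j : ℕ) := fun h => hij (Fin.ext h)
      rcases lt_or_gt_of_ne h13 with h14 | h14
      · have h15 : ((i : ℕ) : ℝ) + 1 ≤ (j : ℕ) := by exact_mod_cast h14
        rw [abs_sub_comm, abs_of_nonneg (by linarith)]
        linarith
      · have h15 : ((j : ℕ) : ℝ) + 1 ≤ (i : ℕ) := by exact_mod_cast h14
        rw [abs_of_nonneg (by linarith)]
        linarith
    have h16 : κ ≤ |((i : ℕ) : ℝ) - ((j : ℕ) : ℝ)| * κ := by nlinarith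
    have h17 : 21 * τ * β ^ (n - k₁) < κ := by
      rw [hκ]
      have : 0 < τ * β ^ (n - k₁) := by positivity
      linarith
    linarith
  have hself : ∀ p : X, S.URel τ p p := fun p k => by rw [dist_self]; exact hτ0.le
  -- another index
  have hother : ∀ j : Fin J, ∃ i : Fin J, i ≠ j := by
    intro j
    by_contra hcon
    push Not at hcon
    have h1 := hcon ⟨0, by omega⟩
    have h2 := hcon ⟨1, by omega⟩
    rw [← h2] at h1
    simp at h1
  refine ⟨J, d, ?_, hsep, ?_⟩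
  · -- the number of boxes
    have h1 : b ≤ (J + 1) * κ := by
      have := hJlt.le
      rwa [div_le_iff₀ hκ0] at this
    have h2 : β ^ n = β ^ (n - k₁) * β ^ k₁ := by rw [← pow_add, Nat.sub_add_cancel hnk]
    have hβk : 0 < β ^ k₁ := pow_pos hβ0 _
    rw [h2]
    rw [hκ, hbτ] at h1
    have h3 : (1 : ℝ) ≤ (J + 1) * β ^ (n - k₁) := by
      have h4 : 4096 * τ ≤ ((J : ℝ) + 1) * β ^ (n - k₁) * (40 * τ) := by linarith
      by_contra hlt
      push Not at hlt
      nlinarith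
    nlinarith
  · intro j s hs
    have hs0 : 0 < s := by linarith [hs.1]
    have hsR : s ≤ R / 8 := by linarith [hs.2]
    have hsR' : s ≤ R := by linarith
    set f : V D → SM S.g.symm := fun w => ⟨ψ (d j) w⟩ with hf
    have hVo : IsOpen (f '' ball 0 s) := b6_box_open hG hC (d j) hsR
    have hfr : frontier (f '' ball 0 s) ⊆ f '' sphere 0 s :=
      b6_frontier (b6_box_cont hG hC (d j) hsR') hVo
    have hnot : ∀ (i : Fin J), i ≠ j → ∀ u : V D, ‖u‖ ≤ 5 * τ →
        (⟨ψ (d i) u⟩ : SM S.g.symm) ∉ f '' ball 0 s := by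
      rintro i hij u hu ⟨w, hw, he⟩
      rw [mem_ball_zero_iff] at hw
      have h1 : ψ (d j) w = ψ (d i) u := congrArg SM.val he
      exact hsep i j hij u w hu (by linarith [hs.2]) (by rw [h1]; exact hself _)
    obtain ⟨i, hij⟩ := hother j
    constructor
    · -- the path crosses the sphere
      have hP : IsPreconnected ((fun t : ℝ => (⟨S.g.symm^[k₁] (φ (ψ x (t • w₁)))⟩ : SM S.g.symm)) ''
          Icc 0 1) := isPreconnected_Icc.image _ (hpc k₁)
      obtain ⟨y, ⟨t, ht, hty⟩, hy⟩ := Pool.Agent.Q210.UQ.meets_frontier (T := f '' ball 0 s) hP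
        ⟨⟨d j⟩, ⟨tj j, htj j, rfl⟩, ⟨0, mem_ball_self hs0, by simp only [hf, hC.zero]⟩⟩
        ⟨⟨d i⟩, ⟨tj i, htj i, rfl⟩, by
          have := hnot i hij 0 (by rw [norm_zero]; positivity)
          rwa [hC.zero] at this⟩
      obtain ⟨w, hw, hwy⟩ := hfr hy
      rw [mem_sphere_zero_iff_norm] at hw
      refine ⟨w, hw, ψ x (t • w₁), hpa t ht, ?_⟩
      have h1 : S.g.symm^[k₁] (φ (ψ x (t • w₁))) = ψ (d j) w := by
        have := congrArg SM.val (hty.trans hwy.symm)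
        exact this
      rw [← h1, iter_iter_symm]
    · -- the frontier of the image
      set Φ : V D → SM S.g.symm := fun w => ⟨S.g.symm^[k₁] (φ (ψ x w))⟩ with hΦ
      have hΩfr : frontier (Φ '' ball 0 (3 * b / 16)) ⊆ Φ '' sphere 0 (3 * b / 16) :=
        b6_frontier (hcont k₁) hopen
      have hcross : ∀ i : Fin J, ∃ u : V D, ‖u‖ < τ ∧
          (⟨ψ (d i) u⟩ : SM S.g.symm) ∈ Φ '' sphere 0 (3 * b / 16) := by
        intro i
        obtain ⟨w, hw1, hw2⟩ := hk₁ x hx T φ hφ (ψ x (tj i • w₁))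
          ((hpa _ (htj i)).mono (by linarith))
        have hw1' : S.URel σ (d i) (S.g.symm^[k₁] w) := hw1
        obtain ⟨v, hvR, hv, hvn⟩ := b6_surj hC (d i) _ (hw1'.mono (by linarith))
        have hvτ : ‖v‖ < τ := by
          have := hw1'.dist_le
          linarith
        have hcn : ContinuousOn (fun u : V D => (⟨ψ (d i) u⟩ : SM S.g.symm)) (segment ℝ 0 v) := by
          refine (b6_box_cont hG hC (d i) (le_refl R)).mono ?_
          refine (convex_closedBall (0 : V D) R).segment_subset ?_ ?_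
          · rw [mem_closedBall_zero_iff, norm_zero]; exact hC.pos.le
          · rw [mem_closedBall_zero_iff]; exact hvR
        have hseg : IsPreconnected ((fun u : V D => (⟨ψ (d i) u⟩ : SM S.g.symm)) ''
            segment ℝ 0 v) := (convex_segment (𝕜 := ℝ) (0 : V D) v).isPreconnected.image _ hcn
        obtain ⟨y, ⟨u, hu, huy⟩, hy⟩ := Pool.Agent.Q210.UQ.meets_frontier
          (T := Φ '' ball 0 (3 * b / 16)) hseg
          ⟨⟨d i⟩, ⟨0, left_mem_segment _ _ _, by simp only [hC.zero]⟩,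
            ⟨tj i • w₁, by rw [mem_ball_zero_iff]; linarith [hpath _ (htj i)], rfl⟩⟩
          ⟨⟨ψ (d i) v⟩, ⟨v, right_mem_segment _ _ _, rfl⟩, by
            rintro ⟨w', hw', he⟩
            rw [mem_ball_zero_iff] at hw'
            have h1 : S.g.symm^[k₁] (φ (ψ x w')) = S.g.symm^[k₁] w := by
              have := congrArg SM.val he
              simp only [hΦ] at this
              rw [this, hv]
            have h2 := (S.g.symm.injective.iterate k₁) h1
            exact hw2 ⟨_, hchart w' hw'.le, h2⟩⟩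
        refine ⟨u, ?_, ?_⟩
        · obtain ⟨a, c, ha, hc, hac, rfl⟩ := hu
          rw [smul_zero, zero_add, norm_smul, Real.norm_eq_abs, abs_of_nonneg hc]
          have h9 : c ≤ 1 := by linarith
          exact lt_of_le_of_lt (mul_le_of_le_one_left (norm_nonneg v) h9) hvτ
        · have := hΩfr hy
          rw [← huy] at this
          exact this
      have hsph : IsPreconnected (Φ '' sphere 0 (3 * b / 16)) := by
        refine (isPreconnected_sphere ?_ (0 : V D) _).image _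
          ((hcont k₁).mono sphere_subset_closedBall)
        rw [rank_eq_card_basis (EuclideanSpace.basisFun (Fin D) ℝ).toBasis, Fintype.card_fin]
        exact_mod_cast hD
      obtain ⟨u, hu, hu2⟩ := hcross i
      obtain ⟨u', hu', hu2'⟩ := hcross j
      obtain ⟨y, hy1, hy2⟩ := Pool.Agent.Q210.UQ.meets_frontier (T := f '' ball 0 s) hsph
        ⟨⟨ψ (d j) u'⟩, hu2', ⟨u', by rw [mem_ball_zero_iff]; linarith [hs.1], rfl⟩⟩
        ⟨⟨ψ (d i) u⟩, hu2, hnot i hij u (by linarith)⟩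
      obtain ⟨w₀, hw₀, hwy0⟩ := hy1
      obtain ⟨w, hw, hwy⟩ := hfr hy2
      rw [mem_sphere_zero_iff_norm] at hw hw₀
      refine ⟨w, hw, fun a ha he => ?_⟩
      have h1 : S.g.symm^[k₁] (φ (ψ x w₀)) = ψ (d j) w := congrArg SM.val (hwy0.trans hwy.symm)
      have h2 : φ a = φ (ψ x w₀) := by
        rw [he, ← h1, iter_iter_symm]
      have h3 : a = ψ x w₀ := hφ.inj (ha.mono (by linarith)) (hchart w₀ hw₀.le) h2
      have h4 := hC.ge x w₀ 0 (by linarith) (by rw [norm_zero]; exact hC.pos.le)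
      rw [sub_zero, hC.zero, ← h3, dist_comm] at h4
      have h5 := ha.dist_le
      linarith

end Pool.Agent.Q192.PI.B
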