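import Pool.Agent.Q192.PI.HolT

/-!
# Project PI, part B: the transported cut-off function (job SB7, by helper149)
-/

set_option autoImplicit false
set_option linter.unusedSectionVars false
set_option linter.unusedVariables false

open Filter Topology Set Metric MeasureTheory

namespace Pool.Agent.Q192.PI.B

open Pool.Agent.H721R2 Pool.Agent.H779R2.An Pool.Agent.Q130.UQ Pool.Agent.H789R2.AN
  Pool.Agent.H789R2.GP

universe u v

namespace S7

/-! ### Nets in compact spaces -/

section gen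

variable {X : Type u} [MetricSpace X] [CompactSpace X]

theorem sep_card {ε : ℝ} (hε : 0 < ε) : ∃ N : ℕ, ∀ s : Finset X,
    (∀ y ∈ s, ∀ z ∈ s, y ≠ z → ε < dist y z) → s.card ≤ N := by
  classical
  obtain ⟨t, -, ht, hcov⟩ := finite_cover_balls_of_compact (isCompact_univ (X := X))
    (show 0 < ε / 2 by positivity)
  refine ⟨ht.toFinset.card, fun s hs => ?_⟩
  have h1 : ∀ y : X, ∃ c ∈ t, y ∈ ball c (ε / 2) := by
    intro y
    have := hcov (mem_univ y)
    simpa using this
  choose c hc hyc using h1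
  refine Finset.card_le_card_of_injOn c (fun y _ => by simpa using hc y) ?_
  intro y hy z hz hyz
  by_contra hne
  have h2 := hs y hy z hz hne
  have h3 := hyc y
  have h4 := hyc z
  change c y = c z at hyz
  rw [← hyz] at h4
  rw [mem_ball] at h3 h4
  have h5 := dist_triangle_right y z (c y)
  linarith

theorem exists_net (A : Set X) (r : X → X → Prop) (hr : ∀ y, r y y) (hs : ∀ y z, r y z → r z y)
    (N : ℕ) (hN : ∀ s : Finset X, (∀ y ∈ s, y ∈ A) → (∀ y ∈ s, ∀ z ∈ s, y ≠ z → ¬ r y z) →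
      s.card ≤ N) : ∃ (m : ℕ) (a : Fin m → X), (∀ i, a i ∈ A) ∧ (∀ i j, i ≠ j → ¬ r (a i) (a j)) ∧
      ∀ z ∈ A, ∃ i, r z (a i) := by
  classical
  let P : ℕ → Prop := fun n => ∃ s : Finset X, (∀ y ∈ s, y ∈ A) ∧
    (∀ y ∈ s, ∀ z ∈ s, y ≠ z → ¬ r y z) ∧ s.card = n
  have h0 : P 0 := ⟨∅, by simp, by simp, rfl⟩
  have hg : P (Nat.findGreatest P N) := Nat.findGreatest_spec (Nat.zero_le N) h0
  obtain ⟨s, hsA, hss, hcard⟩ := hg
  refine ⟨s.card, fun i => (s.equivFin.symm i : X), fun i => hsA _ (s.equivFin.symm i).2,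
    fun i j hij => hss _ (s.equivFin.symm i).2 _ (s.equivFin.symm j).2 fun h => hij ?_, ?_⟩
  · exact s.equivFin.symm.injective (Subtype.ext h)
  · intro z hz
    by_contra hcon
    push Not at hcon
    have hcon' : ∀ y ∈ s, ¬ r z y := by
      intro y hy
      have := hcon (s.equivFin ⟨y, hy⟩)
      rwa [Equiv.symm_apply_apply] at this
    have hzs : z ∉ s := fun h => hcon' z h (hr z)
    have h1 : P (s.card + 1) := by
      refine ⟨insert z s, ?_, ?_, Finset.card_insert_of_notMem hzs⟩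
      · intro y hy
        rcases Finset.mem_insert.1 hy with rfl | hy
        · exact hz
        · exact hsA y hy
      · intro y hy w hw hyw
        rcases Finset.mem_insert.1 hy with hy1 | hy1
        · rcases Finset.mem_insert.1 hw with hw1 | hw1
          · exact (hyw (hy1.trans hw1.symm)).elim
          · rw [hy1]
            exact hcon' w hw1
        · rcases Finset.mem_insert.1 hw with hw1 | hw1
          · rw [hw1]
            exact fun h => hcon' y hy1 (hs _ _ h)
          · exact hss y hy1 w hw1 hyw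
    have h2 : s.card + 1 ≤ N := by
      obtain ⟨s', h3, h4, h5⟩ := h1
      rw [← h5]
      exact hN s' h3 h4
    have h3 := Nat.le_findGreatest h2 h1
    omega

end gen

/-! ### The clamp -/

/-- the clamp to the unit interval -/
noncomputable def cl (t : ℝ) : ℝ := min 1 (max 0 t)

theorem cl_nonneg (t : ℝ) : 0 ≤ cl t := le_min zero_le_one (le_max_left _ _)

theorem cl_le (t : ℝ) : cl t ≤ 1 := min_le_left _ _

theorem cl_one {t : ℝ} (h : 1 ≤ t) : cl t = 1 := by
  unfold cl
  rw [max_eq_right (by linarith), min_eq_left h]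

theorem cl_pos {t : ℝ} (h : cl t ≠ 0) : 0 < t := by
  by_contra hcon
  push Not at hcon
  apply h
  unfold cl
  rw [max_eq_left hcon, min_eq_right zero_le_one]

theorem cl_lip (s t : ℝ) : |cl s - cl t| ≤ |s - t| := by
  have h1 := le_abs_self (s - t)
  have h2 := neg_abs_le (s - t)
  have h3 := abs_nonneg (s - t)
  rw [abs_le]
  simp only [cl, min_def, max_def]
  split_ifs <;> constructor <;> linarith

/-! ### The leaf distance -/

variable {X : Type u} {E : Type v} [MetricSpace X] [CompactSpace X] [NormedAddCommGroup E]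
  [NormedSpace ℝ E]

/-- the leaf distance -/
noncomputable def ld (S : HypSys X E) (p q : X) : ℝ := dist (⟨p⟩ : SM S.g.symm) ⟨q⟩

theorem ld_le (S : HypSys X E) {p q : X} {c : ℝ} (hc : 0 ≤ c) : ld S p q ≤ c ↔ S.URel c p q :=
  SM.dist_le _ _ hc

theorem ld_nonneg (S : HypSys X E) (p q : X) : 0 ≤ ld S p q := dist_nonneg

theorem ld_comm (S : HypSys X E) (p q : X) : ld S p q = ld S q p := dist_comm _ _

theorem ld_tri (S : HypSys X E) (p q r : X) : ld S p r ≤ ld S p q + ld S q r :=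
  dist_triangle _ _ _

theorem ld_sub (S : HypSys X E) (p p' q : X) : |ld S p' q - ld S p q| ≤ ld S p p' := by
  have h1 := ld_tri S p' p q
  have h2 := ld_tri S p p' q
  rw [ld_comm S p' p] at h1
  rw [abs_le]
  constructor <;> linarith

/-! ### The data -/

/-- the standing assumptions -/
structure Dat (S : HypSys X E) (D : ℕ) (ε₀ Q α β K L R σ η b : ℝ) (ψ : X → V D → X) (x : X) (T : ℕ)
    (φ : X → X) (m : ℕ) (a : Fin m → X) : Prop where
  sc : Sc S ε₀ Q α β K L
  ch : Cht S D ε₀ R ψ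
  sl : Scale ε₀ R Q L σ η b
  ho : HolT S σ η T {z | S.URel (b / 2) x z} φ
  mem : ∀ i, S.URel (b / 20) x (a i)
  sep : ∀ i j, i ≠ j → ¬ S.URel σ (S.g^[T] (a i)) (S.g^[T] (a j))
  net : ∀ z, S.URel (b / 20) x z → ∃ i, S.URel σ (S.g^[T] z) (S.g^[T] (a i))

variable {S : HypSys X E} {D : ℕ} {ε₀ Q α β K L R σ η b : ℝ} {ψ : X → V D → X} {x : X} {T : ℕ}
  {φ : X → X} {m : ℕ} {a : Fin m → X}

/-- existence of the net -/
theorem exists_dat (hS : Sc S ε₀ Q α β K L) (hC : Cht S D ε₀ R ψ) (hsc : Scale ε₀ R Q L σ η b)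
    (x : X) (T : ℕ) (φ : X → X) (h : HolT S σ η T {z | S.URel (b / 2) x z} φ) :
    ∃ (m : ℕ) (a : Fin m → X), Dat S D ε₀ Q α β K L R σ η b ψ x T φ m a := by
  obtain ⟨hσ0, hb0, f1, f2, f3, f4⟩ := hsc.facts hS.Q1 hS.L1
  have hbε := hsc.bε
  have hL := hS.L1
  have hLT : (0 : ℝ) < L ^ T := by positivity
  obtain ⟨N, hN⟩ := sep_card (X := X) (show 0 < σ / L ^ T by positivity)
  obtain ⟨m, a, h1, h2, h3⟩ := exists_net {z | S.URel (b / 20) x z}
    (fun y z => S.URel σ (S.g^[T] y) (S.g^[T] z)) (fun y k => by rw [dist_self]; exact hσ0.le)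
    (fun y z h => h.symm) N (fun s hs1 hs2 => hN s fun y hy z hz hyz => by
      by_contra hcon
      push Not at hcon
      apply hs2 y hy z hz hyz
      have h4 : S.URel (b / 20 + b / 20) y z := (hs1 y hy).symm.trans (hs1 z hz)
      have h5 := hS.geo.URel_dist (h4.mono (by linarith))
      have h6 := URel_fwd hS T (h5.mono hcon)
      rwa [mul_div_cancel₀ _ hLT.ne'] at h6)
  exact ⟨m, a, hS, hC, hsc, h, h1, h2, h3⟩

namespace Dat

/-- the images of the net -/
def q (h : Dat S D ε₀ Q α β K L R σ η b ψ x T φ m a) (i : Fin m) : X := S.g^[T] (φ (a i))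

/-- cut-off at the source -/
noncomputable def zt (h : Dat S D ε₀ Q α β K L R σ η b ψ x T φ m a) (i : Fin m) : ℝ :=
  cl (3 - 96 / b * dist x (a i))

/-- cut-off at the target -/
noncomputable def ch' (h : Dat S D ε₀ Q α β K L R σ η b ψ x T φ m a) (i : Fin m) (p : X) : ℝ :=
  cl (3 - ld S p (h.q i) / σ)

/-- the sum of the cut-offs -/
noncomputable def W (h : Dat S D ε₀ Q α β K L R σ η b ψ x T φ m a) (p : X) : ℝ := ∑ i, h.ch' i p

/-- the function -/
noncomputable def f (h : Dat S D ε₀ Q α β K L R σ η b ψ x T φ m a) (p : X) : ℝ :=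
  (∑ i, h.zt i * h.ch' i p) / max 1 (h.W p)

variable (h : Dat S D ε₀ Q α β K L R σ η b ψ x T φ m a)

include h

theorem facts : 0 < σ ∧ 0 < b ∧ 64 * η ≤ σ ∧ 65536 * σ ≤ b ∧ 65536 * (Q * σ) ≤ b ∧
    64 * (Q * η) ≤ σ := h.sl.facts h.sc.Q1 h.sc.L1

theorem ch_nonneg (i : Fin m) (p : X) : 0 ≤ h.ch' i p := cl_nonneg _

theorem ch_le (i : Fin m) (p : X) : h.ch' i p ≤ 1 := cl_le _

theorem zt_nonneg (i : Fin m) : 0 ≤ h.zt i := cl_nonneg _

theorem W_nonneg (p : X) : 0 ≤ h.W p := Finset.sum_nonneg fun i _ => h.ch_nonneg i p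

/-- a positive cut-off at the target -/
theorem of_ch {i : Fin m} {p : X} (hne : h.ch' i p ≠ 0) : ld S p (h.q i) ≤ 3 * σ := by
  have hσ := h.facts.1
  have h1 := cl_pos hne
  have h2 : ld S p (h.q i) / σ < 3 := by linarith
  rw [div_lt_iff₀ hσ] at h2
  exact h2.le

theorem urel_of_ch {i : Fin m} {p : X} (hne : h.ch' i p ≠ 0) : S.URel (3 * σ) (h.q i) p := by
  have hσ := h.facts.1
  rw [← ld_le S (by positivity), ld_comm]
  exact h.of_ch hne

/-- close points have cut-off one -/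
theorem ch_one {i : Fin m} {p : X} (hr : S.URel (2 * σ) p (h.q i)) : h.ch' i p = 1 := by
  have hσ := h.facts.1
  have h1 : ld S p (h.q i) ≤ 2 * σ := (ld_le S (by positivity)).2 hr
  refine cl_one ?_
  have h2 : ld S p (h.q i) / σ ≤ 2 := by
    rw [div_le_iff₀ hσ]
    exact h1
  linarith

theorem W_ge {i : Fin m} {p : X} (hr : S.URel (2 * σ) p (h.q i)) : 1 ≤ h.W p := by
  rw [← h.ch_one hr]
  exact Finset.single_le_sum (f := fun i => h.ch' i p) (fun j _ => h.ch_nonneg j p)
    (Finset.mem_univ i)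

theorem mem' (i : Fin m) : a i ∈ {z | S.URel (b / 2) x z} :=
  (h.mem i).mono (by linarith [h.facts.2.1])

/-- (a), first part -/
theorem preimage {i : Fin m} {p : X} (hr : S.URel (6 * σ) (h.q i) p) :
    ∃ z, S.URel (b / 2) x z ∧ S.g^[T] (φ z) = p ∧
      S.URel (8 * (Q * σ)) (S.g^[T] (a i)) (S.g^[T] z) := by
  obtain ⟨hσ, hb, f1, f2, f3, f4⟩ := h.facts
  have hQ := h.sc.Q1
  have hη := h.sl.η0
  have hR := h.sl.bR
  have hε := h.sl.bε
  have hQσ : 0 < Q * σ := by positivity
  have hσQ : σ ≤ Q * σ := by nlinarith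
  have e1 : Q * (6 * σ + η) = 6 * (Q * σ) + Q * η := by ring
  have e2 : Q * η ≤ Q * σ := by nlinarith
  obtain ⟨z, hz, h1, h2⟩ := h.ho.surj h.sc h.ch hη.le hσ (h.mem' i) (c := 6 * σ) (by positivity)
    (by rw [e1]; linarith) (by rw [e1]; linarith) (by
      intro z hz
      have h3 := URel_of_iter T hz
      refine ((h.mem i).trans h3).mono ?_
      rw [e1]
      linarith) hr
  refine ⟨z, hz, h1, h2.mono ?_⟩
  rw [e1]
  linarith

/-- the preimage is close to `a i` -/
theorem close {i : Fin m} {z : X} (hr : S.URel (8 * (Q * σ)) (S.g^[T] (a i)) (S.g^[T] z)) :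
    S.URel (8 * (Q * σ)) (a i) z := URel_of_iter T hr

/-- uniqueness of the preimage -/
theorem preimage_unique {z z' : X} (hz : S.URel (b / 2) x z) (hz' : S.URel (b / 2) x z')
    (he : S.g^[T] (φ z) = S.g^[T] (φ z')) : z = z' :=
  h.ho.inj hz hz' ((S.g.injective.iterate T) he)

/-- a net point near a point of the disc -/
theorem W_ge' {z : X} (hz : S.URel (b / 20) x z) : 1 ≤ h.W (S.g^[T] (φ z)) := by
  have hb := h.facts.2.1
  obtain ⟨j, hj⟩ := h.net z hz
  exact h.W_ge (i := j) (h.ho.loc z (hz.mono (by linarith)) (a j) (h.mem' j) hj)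

/-- (a), second part -/
theorem preimage' {i : Fin m} {p : X} (hr : S.URel (6 * σ) (h.q i) p) (hz : h.zt i ≠ 0) :
    ∃ z, S.URel (b / 20) x z ∧ S.g^[T] (φ z) = p ∧
      S.URel (8 * (Q * σ)) (S.g^[T] (a i)) (S.g^[T] z) := by
  obtain ⟨hσ, hb, f1, f2, f3, f4⟩ := h.facts
  have hε := h.sl.bε
  obtain ⟨z, h1, h2, h3⟩ := h.preimage hr
  refine ⟨z, ?_, h2, h3⟩
  have h4 := (h.close h3).dist_le
  have h5 := cl_pos hz
  have h6 : dist x (a i) < b / 32 := by
    have h7 : 96 / b * dist x (a i) < 3 := by linarith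
    rw [div_mul_eq_mul_div, div_lt_iff₀ hb] at h7
    linarith
  have h7 := dist_triangle x (a i) z
  have h8 := h.sc.geo.URel_dist (h1.mono (by linarith))
  exact h8.mono (by linarith)

/-- (b) -/
theorem near {i j : Fin m} {p : X} (hi : S.URel (6 * σ) (h.q i) p) (hj : S.URel (6 * σ) (h.q j) p) :
    S.URel (16 * (Q * σ)) (S.g^[T] (a i)) (S.g^[T] (a j)) := by
  obtain ⟨z, h1, h2, h3⟩ := h.preimage hi
  obtain ⟨z', h1', h2', h3'⟩ := h.preimage hj
  have h4 : z = z' := h.preimage_unique h1 h1' (h2.trans h2'.symm)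
  rw [← h4] at h3'
  exact (h3.trans h3'.symm).mono (by linarith)

/-- (c) -/
theorem count {N₀ : ℕ} (hN : ∀ s : Finset X, (∀ y ∈ s, ∀ z ∈ s, y ≠ z → σ < dist y z) → s.card ≤ N₀)
    (J : Finset (Fin m)) (p : X) (hJ : ∀ j ∈ J, S.URel (6 * σ) (h.q j) p) : J.card ≤ N₀ := by
  classical
  obtain ⟨hσ, hb, f1, f2, f3, f4⟩ := h.facts
  have hε := h.sl.bε
  have key : ∀ i ∈ J, ∀ j ∈ J, i ≠ j → σ < dist (S.g^[T] (a i)) (S.g^[T] (a j)) := by
    intro i hi j hj hij
    by_contra hcon
    push Not at hcon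
    apply h.sep i j hij
    have h1 := h.sc.geo.URel_dist ((h.near (hJ i hi) (hJ j hj)).mono (by linarith))
    exact h1.mono hcon
  have hinj : Set.InjOn (fun i => S.g^[T] (a i)) (J : Set (Fin m)) := by
    intro i hi j hj hij
    by_contra hne
    have h1 := key i hi j hj hne
    change S.g^[T] (a i) = S.g^[T] (a j) at hij
    rw [hij, dist_self] at h1
    linarith
  rw [← Finset.card_image_of_injOn hinj]
  apply hN
  intro y hy z hz hyz
  obtain ⟨i, hi, rfl⟩ := Finset.mem_image.1 hy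
  obtain ⟨j, hj, rfl⟩ := Finset.mem_image.1 hz
  exact key i hi j hj fun hij => hyz (by rw [hij])

/-- (d) -/
theorem f_one {z : X} (hz : S.URel (b / 64) x z) : h.f (S.g^[T] (φ z)) = 1 := by
  obtain ⟨hσ, hb, f1, f2, f3, f4⟩ := h.facts
  have hε := h.sl.bε
  have hW := h.W_ge' (hz.mono (by linarith))
  have h1 : ∀ i, h.zt i * h.ch' i (S.g^[T] (φ z)) = h.ch' i (S.g^[T] (φ z)) := by
    intro i
    by_cases hc : h.ch' i (S.g^[T] (φ z)) = 0
    · rw [hc, mul_zero]
    · have h2 := (h.urel_of_ch hc).mono (show 3 * σ ≤ 6 * σ by linarith)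
      obtain ⟨z', h3, h4, h5⟩ := h.preimage h2
      have h6 : z' = z := h.preimage_unique h3 (hz.mono (by linarith)) h4
      rw [h6] at h5
      have h7 := (h.close h5).dist_le
      have h8 := hz.dist_le
      have h9 := dist_triangle_right x (a i) z
      have h10 : h.zt i = 1 := by
        refine cl_one ?_
        have h11 : 96 / b * dist x (a i) ≤ 2 := by
          rw [div_mul_eq_mul_div, div_le_iff₀ hb]
          linarith
        linarith
      rw [h10, one_mul]
  unfold f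
  rw [Finset.sum_congr rfl fun i _ => h1 i, max_eq_right hW]
  exact div_self (zero_lt_one.trans_le hW).ne'

theorem f_zero {p : X} (hp : ∀ z, S.URel (b / 16) x z → S.g^[T] (φ z) ≠ p) : h.f p = 0 := by
  obtain ⟨hσ, hb, f1, f2, f3, f4⟩ := h.facts
  unfold f
  rw [Finset.sum_eq_zero, zero_div]
  intro i _
  by_contra hne
  have h1 : h.zt i ≠ 0 := left_ne_zero_of_mul hne
  have h2 : h.ch' i p ≠ 0 := right_ne_zero_of_mul hne
  obtain ⟨z, h3, h4, h5⟩ := h.preimage' ((h.urel_of_ch h2).mono (by linarith)) h1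
  exact hp z (h3.mono (by linarith)) h4

theorem exists_max (i : Fin m) : ∃ j, S.URel (16 * (Q * σ)) (S.g^[T] (a i)) (S.g^[T] (a j)) ∧
    ∀ j', S.URel (16 * (Q * σ)) (S.g^[T] (a i)) (S.g^[T] (a j')) →
      dist (a i) (a j') ≤ dist (a i) (a j) := by
  classical
  obtain ⟨hσ, hb, f1, f2, f3, f4⟩ := h.facts
  have hQ := h.sc.Q1
  have h0 : i ∈ Finset.univ.filter (fun j => S.URel (16 * (Q * σ)) (S.g^[T] (a i)) (S.g^[T] (a j))) := by
    rw [Finset.mem_filter]
    refine ⟨Finset.mem_univ _, fun k => ?_⟩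
    rw [dist_self]
    positivity
  obtain ⟨j, hj, hmax⟩ := Finset.exists_max_image _ (fun j => dist (a i) (a j)) ⟨i, h0⟩
  exact ⟨j, (Finset.mem_filter.1 hj).2, fun j' hj' =>
    hmax j' (Finset.mem_filter.2 ⟨Finset.mem_univ _, hj'⟩)⟩

/-- the size of the cell of `a i` -/
noncomputable def lam (h : Dat S D ε₀ Q α β K L R σ η b ψ x T φ m a) (i : Fin m) : ℝ :=
  dist (a i) (a (Classical.choose (h.exists_max i)))

theorem lam_nonneg (i : Fin m) : 0 ≤ h.lam i := dist_nonneg

theorem lam_le {i j : Fin m} (hr : S.URel (16 * (Q * σ)) (S.g^[T] (a i)) (S.g^[T] (a j))) :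
    dist (a i) (a j) ≤ h.lam i := (Classical.choose_spec (h.exists_max i)).2 j hr

theorem lam_spec (i : Fin m) : ∃ j, S.URel (16 * (Q * σ)) (S.g^[T] (a i)) (S.g^[T] (a j)) ∧
    h.lam i = dist (a i) (a j) := ⟨_, (Classical.choose_spec (h.exists_max i)).1, rfl⟩

theorem ch_lip (j : Fin m) (p p' : X) : |h.ch' j p' - h.ch' j p| ≤ ld S p p' / σ := by
  have hσ := h.facts.1
  unfold ch'
  refine (cl_lip _ _).trans ?_
  have h1 : 3 - ld S p' (h.q j) / σ - (3 - ld S p (h.q j) / σ) =
      -((ld S p' (h.q j) - ld S p (h.q j)) / σ) := by ring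
  rw [h1, abs_neg, abs_div, abs_of_pos hσ]
  exact div_le_div_of_nonneg_right (ld_sub S p p' _) hσ.le

theorem zt_lip (i j : Fin m) : |h.zt j - h.zt i| ≤ 96 / b * dist (a i) (a j) := by
  have hb := h.facts.2.1
  unfold zt
  refine (cl_lip _ _).trans ?_
  have h1 : 3 - 96 / b * dist x (a j) - (3 - 96 / b * dist x (a i)) =
      96 / b * (dist x (a i) - dist x (a j)) := by ring
  rw [h1, abs_mul, abs_of_pos (by positivity)]
  refine mul_le_mul_of_nonneg_left ?_ (by positivity)
  have h2 := dist_triangle x (a j) (a i)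
  have h3 := dist_triangle x (a i) (a j)
  rw [dist_comm (a j) (a i)] at h2
  rw [abs_le]
  constructor <;> linarith

/-- (e) -/
theorem local_bd {N₀ : ℕ} (hN : ∀ s : Finset X, (∀ y ∈ s, ∀ z ∈ s, y ≠ z → σ < dist y z) →
    s.card ≤ N₀) (p : X) : (∀ p', S.URel σ p p' → h.f p' = h.f p) ∨
    ∃ i, S.URel (4 * σ) (h.q i) p ∧ ∀ p', S.URel σ p p' →
      |h.f p' - h.f p| ≤ N₀ * (N₀ + 1) / σ * (96 / b) * h.lam i * dist p p' := by
  classical
  obtain ⟨hσ, hb, f1, f2, f3, f4⟩ := h.facts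
  have hε := h.sl.bε
  by_cases hex : ∃ i, h.zt i ≠ 0 ∧ S.URel (4 * σ) (h.q i) p
  · right
    obtain ⟨i, hi, hip⟩ := hex
    refine ⟨i, hip, fun p' hpp => ?_⟩
    have hW : 1 ≤ h.W p := by
      obtain ⟨z, h1, h2, -⟩ := h.preimage' (hip.mono (by linarith)) hi
      rw [← h2]
      exact h.W_ge' h1
    have hW' : 1 ≤ h.W p' := by
      obtain ⟨z, h1, h2, -⟩ := h.preimage' ((hip.trans hpp).mono (by linarith)) hi
      rw [← h2]
      exact h.W_ge' h1
    set δ := ld S p p' with hδ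
    have hδ0 : 0 ≤ δ := ld_nonneg S p p'
    have hδd : δ ≤ dist p p' := by
      rw [hδ, ld_le S dist_nonneg]
      exact h.sc.geo.URel_dist (hpp.mono (by linarith))
    set J := Finset.univ.filter (fun j => S.URel (4 * σ) (h.q j) p) with hJ
    have hJc : J.card ≤ N₀ := h.count hN J p fun j hj =>
      ((Finset.mem_filter.1 hj).2).mono (by linarith)
    have hJc' : (J.card : ℝ) ≤ N₀ := by exact_mod_cast hJc
    have hout : ∀ j, j ∉ J → h.ch' j p = 0 ∧ h.ch' j p' = 0 := by
      intro j hj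
      rw [hJ, Finset.mem_filter, not_and] at hj
      have hj' := hj (Finset.mem_univ _)
      constructor
      · by_contra hne
        exact hj' ((h.urel_of_ch hne).mono (by linarith))
      · by_contra hne
        exact hj' (((h.urel_of_ch hne).trans hpp.symm).mono (by linarith))
    have hWd : |h.W p - h.W p'| ≤ N₀ * (δ / σ) := by
      unfold W
      rw [← Finset.sum_sub_distrib]
      have h1 : ∑ j, (h.ch' j p - h.ch' j p') = ∑ j ∈ J, (h.ch' j p - h.ch' j p') := by
        symm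
        refine Finset.sum_subset (Finset.subset_univ _) fun j _ hj => ?_
        rw [(hout j hj).1, (hout j hj).2, sub_zero]
      rw [h1]
      refine (Finset.abs_sum_le_sum_abs _ _).trans ?_
      calc ∑ j ∈ J, |h.ch' j p - h.ch' j p'| ≤ ∑ j ∈ J, δ / σ := by
            refine Finset.sum_le_sum fun j _ => ?_
            rw [abs_sub_comm]
            exact h.ch_lip j p p'
        _ = J.card * (δ / σ) := by rw [Finset.sum_const, nsmul_eq_mul]
        _ ≤ N₀ * (δ / σ) := mul_le_mul_of_nonneg_right hJc' (by positivity)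
    have hW0 : 0 < h.W p := by linarith
    have hW0' : 0 < h.W p' := by linarith
    have hterm : ∀ j, |h.ch' j p' / h.W p' - h.ch' j p / h.W p| ≤ (N₀ + 1) / σ * δ := by
      intro j
      have e1 : h.ch' j p' / h.W p' - h.ch' j p / h.W p =
          (h.ch' j p' - h.ch' j p) / h.W p' +
            h.ch' j p * ((h.W p - h.W p') / (h.W p * h.W p')) := by
        field_simp
        ring
      rw [e1]
      refine (abs_add_le _ _).trans ?_
      have e2 : |(h.ch' j p' - h.ch' j p) / h.W p'| ≤ δ / σ := by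
        rw [abs_div, abs_of_pos hW0']
        exact (div_le_self (abs_nonneg _) hW').trans (h.ch_lip j p p')
      have e3 : |h.ch' j p * ((h.W p - h.W p') / (h.W p * h.W p'))| ≤ N₀ * (δ / σ) := by
        rw [abs_mul, abs_of_nonneg (h.ch_nonneg j p), abs_div, abs_of_pos (mul_pos hW0 hW0')]
        have e4 : |h.W p - h.W p'| / (h.W p * h.W p') ≤ N₀ * (δ / σ) :=
          (div_le_self (abs_nonneg _) (by nlinarith)).trans hWd
        have e5 : 0 ≤ |h.W p - h.W p'| / (h.W p * h.W p') := by positivity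
        calc _ ≤ 1 * (|h.W p - h.W p'| / (h.W p * h.W p')) :=
              mul_le_mul_of_nonneg_right (h.ch_le j p) e5
          _ ≤ _ := by rw [one_mul]; exact e4
      calc _ ≤ δ / σ + N₀ * (δ / σ) := add_le_add e2 e3
        _ = (N₀ + 1) / σ * δ := by ring
    have hf : ∀ p'', 1 ≤ h.W p'' → h.f p'' = ∑ j, h.zt j * (h.ch' j p'' / h.W p'') := by
      intro p'' hW''
      unfold f
      rw [max_eq_right hW'', Finset.sum_div]
      exact Finset.sum_congr rfl fun j _ => mul_div_assoc _ _ _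
    have hs : ∀ p'', 1 ≤ h.W p'' → ∑ j, h.ch' j p'' / h.W p'' = 1 := by
      intro p'' hW''
      rw [← Finset.sum_div]
      exact div_self (zero_lt_one.trans_le hW'').ne'
    have hdiff : h.f p' - h.f p = ∑ j ∈ J, (h.zt j - h.zt i) *
        (h.ch' j p' / h.W p' - h.ch' j p / h.W p) := by
      have h1 : ∑ j, (h.zt j - h.zt i) * (h.ch' j p' / h.W p' - h.ch' j p / h.W p) =
          ∑ j ∈ J, (h.zt j - h.zt i) * (h.ch' j p' / h.W p' - h.ch' j p / h.W p) := by
        symm
        refine Finset.sum_subset (Finset.subset_univ _) fun j _ hj => ?_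
        rw [(hout j hj).1, (hout j hj).2, zero_div, zero_div, sub_zero, mul_zero]
      rw [← h1, hf p' hW', hf p hW]
      have h2 : ∀ j, (h.zt j - h.zt i) * (h.ch' j p' / h.W p' - h.ch' j p / h.W p) =
          h.zt j * (h.ch' j p' / h.W p') - h.zt j * (h.ch' j p / h.W p) -
            h.zt i * (h.ch' j p' / h.W p') + h.zt i * (h.ch' j p / h.W p) := fun j => by ring
      rw [Finset.sum_congr rfl fun j _ => h2 j, Finset.sum_add_distrib, Finset.sum_sub_distrib,
        Finset.sum_sub_distrib, ← Finset.mul_sum, ← Finset.mul_sum, hs p' hW', hs p hW]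
      ring
    rw [hdiff]
    refine (Finset.abs_sum_le_sum_abs _ _).trans ?_
    have hb1 : ∀ j ∈ J, |(h.zt j - h.zt i) * (h.ch' j p' / h.W p' - h.ch' j p / h.W p)| ≤
        96 / b * h.lam i * ((N₀ + 1) / σ * δ) := by
      intro j hj
      rw [abs_mul]
      refine mul_le_mul ?_ (hterm j) (abs_nonneg _) (mul_nonneg (by positivity) (h.lam_nonneg i))
      refine (h.zt_lip i j).trans (mul_le_mul_of_nonneg_left ?_ (by positivity))
      exact h.lam_le (h.near (hip.mono (by linarith))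
        (((Finset.mem_filter.1 hj).2).mono (by linarith)))
    have hl0 := h.lam_nonneg i
    calc _ ≤ ∑ j ∈ J, 96 / b * h.lam i * ((N₀ + 1) / σ * δ) := Finset.sum_le_sum hb1
      _ = J.card * (96 / b * h.lam i * ((N₀ + 1) / σ * δ)) := by
        rw [Finset.sum_const, nsmul_eq_mul]
      _ ≤ N₀ * (96 / b * h.lam i * ((N₀ + 1) / σ * δ)) :=
        mul_le_mul_of_nonneg_right hJc' (by positivity)
      _ ≤ N₀ * (96 / b * h.lam i * ((N₀ + 1) / σ * dist p p')) := by
        refine mul_le_mul_of_nonneg_left ?_ (by positivity)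
        refine mul_le_mul_of_nonneg_left ?_ (by positivity)
        exact mul_le_mul_of_nonneg_left hδd (by positivity)
      _ = _ := by ring
  · left
    push Not at hex
    have h1 : ∀ p', S.URel σ p p' → h.f p' = 0 := by
      intro p' hpp
      unfold f
      rw [Finset.sum_eq_zero, zero_div]
      intro i _
      by_contra hne
      have h2 : h.zt i ≠ 0 := left_ne_zero_of_mul hne
      have h3 : h.ch' i p' ≠ 0 := right_ne_zero_of_mul hne
      exact hex i h2 (((h.urel_of_ch h3).trans hpp.symm).mono (by linarith))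
    intro p' hpp
    rw [h1 p' hpp, h1 p fun k => by rw [dist_self]; exact hσ.le]

/-- (f) -/
theorem pack (hD : 1 ≤ D) {C₁ : ℝ} (hC₁ : 1 ≤ C₁) (hcell : ∀ (a z z' : X) (m : ℕ), S.URel ε₀ a z →
    ¬ S.URel (σ / 3) (S.g^[m + 1] a) (S.g^[m + 1] z) → S.URel ε₀ (S.g^[m] a) (S.g^[m] z') →
    dist a z' ≤ C₁ * K ^ m * dist a z) :
    ∑ i, h.lam i ^ D ≤ (4 * C₁ * b) ^ D * K ^ (D * T) := by
  obtain ⟨hσ, hb, f1, f2, f3, f4⟩ := h.facts
  have hε := h.sl.bε
  have hR := h.sl.bR
  have hG := h.sc.geo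
  have hK1 := h.sc.K1
  have hKT : (1 : ℝ) ≤ K ^ T := one_le_pow₀ hK1
  have hch : ∀ i, ∃ v, ‖v‖ ≤ 2 * dist x (a i) ∧ ‖v‖ ≤ R ∧ ψ x v = a i := fun i =>
    h.ch.pt (by linarith) (h.mem i)
  choose w hw1 hw2 hw3 using hch
  have hwb : ∀ i, ‖w i‖ ≤ b / 10 := fun i => (hw1 i).trans (by linarith [(h.mem i).dist_le])
  have hCK : 0 < 4 * C₁ * K ^ T := by positivity
  set r : Fin m → ℝ := fun i => h.lam i / (4 * C₁ * K ^ T) with hr
  have hr0 : ∀ i, 0 ≤ r i := fun i => div_nonneg (h.lam_nonneg i) hCK.le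
  have hlb : ∀ i, h.lam i ≤ b / 10 := by
    intro i
    obtain ⟨j, -, hj⟩ := h.lam_spec i
    rw [hj]
    exact ((h.mem i).symm.trans (h.mem j)).dist_le.trans (by linarith)
  have hrb : ∀ i, r i ≤ b / 10 := by
    intro i
    refine (div_le_self (h.lam_nonneg i) ?_).trans (hlb i)
    nlinarith
  -- points in the ball of `i` have the same future
  have hkey : ∀ i, ∀ v ∈ ball (w i) (r i),
      S.URel (σ / 3) (S.g^[T] (a i)) (S.g^[T] (ψ x v)) ∧ ‖v‖ ≤ R := by
    intro i v hv
    rw [mem_ball, dist_eq_norm] at hv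
    have hvR : ‖v‖ ≤ R := by
      have h1 := norm_sub_norm_le v (w i)
      have h2 := hwb i
      have h3 := hrb i
      linarith
    refine ⟨?_, hvR⟩
    obtain ⟨j, hj1, hj2⟩ := h.lam_spec i
    have hd : dist (a i) (ψ x v) ≤ 2 * ‖w i - v‖ := by
      rw [← hw3 i]
      exact h.ch.le x _ _ (hw2 i) hvR
    have hu : S.URel ε₀ (a i) (ψ x v) := by
      rw [← hw3 i]
      exact h.ch.rel x _ _ (hw2 i) hvR
    have h1 : S.URel (σ / 3) (S.g^[T + 1] (a i)) (S.g^[T + 1] (ψ x v)) := by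
      by_contra hcon
      have h2 := hcell (a i) (ψ x v) (a j) T hu hcon (hj1.mono (by linarith))
      rw [← hj2] at h2
      rw [norm_sub_rev] at hv
      have h3 : C₁ * K ^ T * dist (a i) (ψ x v) < h.lam i := by
        have h4 : 2 * ‖w i - v‖ < 2 * r i := by linarith
        have h5 : C₁ * K ^ T * (2 * r i) = h.lam i / 2 := by
          rw [hr]
          field_simp
          ring
        have h6 : 0 < C₁ * K ^ T := by positivity
        have h7 : C₁ * K ^ T * dist (a i) (ψ x v) < C₁ * K ^ T * (2 * r i) :=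
          mul_lt_mul_of_pos_left (lt_of_le_of_lt hd h4) h6
        have h8 := h.lam_nonneg i
        linarith
      linarith
    exact URel_earlier (Nat.le_succ T) h1
  have hdisj : ∀ i j, i ≠ j → Disjoint (ball (w i) (r i)) (ball (w j) (r j)) := by
    intro i j hij
    rw [Set.disjoint_left]
    intro v hv hv'
    apply h.sep i j hij
    exact ((hkey i v hv).1.trans (hkey j v hv').1.symm).mono (by linarith)
  have hsub : (⋃ i ∈ (Finset.univ : Finset (Fin m)), ball (w i) (r i)) ⊆ ball (0 : V D) b := by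
    intro v hv
    simp only [mem_iUnion] at hv
    obtain ⟨i, -, hv⟩ := hv
    rw [mem_ball, dist_eq_norm] at hv
    rw [mem_ball_zero_iff]
    have h1 := norm_sub_norm_le v (w i)
    have h2 := hwb i
    have h3 := hrb i
    linarith
  have hfin : Module.finrank ℝ (V D) = D := by simp
  have hvol : ∀ (c : V D) (ρ : ℝ), 0 ≤ ρ → (volume : Measure (V D)).real (ball c ρ) =
      ρ ^ D * (volume : Measure (V D)).real (ball 0 1) := by
    intro c ρ hρ
    haveI : Nontrivial (V D) := by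
      haveI : Nonempty (Fin D) := ⟨⟨0, hD⟩⟩
      infer_instance
    rw [Measure.real, Measure.addHaar_ball volume c hρ, hfin, ENNReal.toReal_mul,
      ENNReal.toReal_ofReal (by positivity)]
    rfl
  have hv1 : 0 < (volume : Measure (V D)).real (ball 0 1) := by
    rw [Measure.real]
    exact ENNReal.toReal_pos (measure_ball_pos _ _ one_pos).ne' measure_ball_lt_top.ne
  have hsum : ∑ i, (volume : Measure (V D)).real (ball (w i) (r i)) ≤
      (volume : Measure (V D)).real (ball 0 b) := by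
    rw [← measureReal_biUnion_finset (fun i _ j _ hij => hdisj i j hij)
      (fun i _ => measurableSet_ball) (fun i _ => measure_ball_lt_top.ne)]
    exact measureReal_mono hsub measure_ball_lt_top.ne
  rw [hvol 0 b hb.le, Finset.sum_congr rfl fun i _ => hvol (w i) (r i) (hr0 i), ← Finset.sum_mul] at hsum
  have h1 := le_of_mul_le_mul_right hsum hv1
  have h2 : ∀ i, h.lam i ^ D = (4 * C₁ * K ^ T) ^ D * r i ^ D := by
    intro i
    rw [← mul_pow, hr]
    congr 1
    field_simp
  rw [Finset.sum_congr rfl fun i _ => h2 i, ← Finset.mul_sum]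
  calc (4 * C₁ * K ^ T) ^ D * ∑ i, r i ^ D ≤ (4 * C₁ * K ^ T) ^ D * b ^ D :=
        mul_le_mul_of_nonneg_left h1 (by positivity)
    _ = _ := by
      rw [← mul_pow, mul_comm D T, pow_mul, ← mul_pow]
      ring

end Dat

end S7

open S7 in
/-- **the transported cut-off function** -/
theorem sB7 : SB7.{u, v} := by
  intro X E _ _ _ _ S D ε₀ Q α β K L R σ η b ψ hD hS hC hsc hcell
  obtain ⟨hσ0, hb0, f1, f2, f3, f4⟩ := hsc.facts hS.Q1 hS.L1
  have hK1 := hS.K1
  obtain ⟨N₀, hN⟩ := sep_card (X := X) hσ0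
  obtain ⟨C₀, hC₀, hcell⟩ := hcell (σ / 3) (by positivity)
  set C₁ := max C₀ 1 with hC₁
  have hcell' : ∀ (a z z' : X) (m : ℕ), S.URel ε₀ a z →
      ¬ S.URel (σ / 3) (S.g^[m + 1] a) (S.g^[m + 1] z) → S.URel ε₀ (S.g^[m] a) (S.g^[m] z') →
      dist a z' ≤ C₁ * K ^ m * dist a z := by
    intro a z z' m h1 h2 h3
    refine (hcell a z z' m h1 h2 h3).trans ?_
    refine mul_le_mul_of_nonneg_right ?_ dist_nonneg
    exact mul_le_mul_of_nonneg_right (le_max_left _ _) (by positivity)
  set A : ℝ := (N₀ * (N₀ + 1) / σ * (96 / b)) with hA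
  have hA0 : 0 ≤ A := by positivity
  have hC10 : 0 < C₁ := lt_of_lt_of_le zero_lt_one (le_max_right _ _)
  refine ⟨A ^ D * (4 * C₁ * b) ^ D + 1, by positivity, fun x T φ hφ => ?_⟩
  obtain ⟨m, a, h⟩ := exists_dat hS hC hsc x T φ hφ
  refine ⟨h.f, m, h.q, fun i => A * h.lam i, fun i => mul_nonneg hA0 (h.lam_nonneg i), ?_,
    fun z hz => h.f_one hz, fun p hp => h.f_zero hp, fun p => ?_⟩
  · have h1 := h.pack hD (le_max_right _ _) hcell'
    have hKT : (0 : ℝ) < K ^ (D * T) := by positivity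
    calc ∑ i, (A * h.lam i) ^ D = A ^ D * ∑ i, h.lam i ^ D := by
          rw [Finset.mul_sum]
          exact Finset.sum_congr rfl fun i _ => mul_pow _ _ _
      _ ≤ A ^ D * ((4 * C₁ * b) ^ D * K ^ (D * T)) := mul_le_mul_of_nonneg_left h1 (by positivity)
      _ ≤ _ := by nlinarith
  · exact h.local_bd hN p

end Pool.Agent.Q192.PI.B
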