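import Pool.Agent.Q192.PI.B1

/-! Project PI (helper192), job SB8: the tentacle lemma (helper162). -/

set_option autoImplicit false

open Filter Topology Set Metric

namespace Pool.Agent.Q192.PI.B

open Pool.Agent.H721R2 Pool.Agent.H779R2.An Pool.Agent.Q130.UQ

universe u v

lemma sup_half {A : Set ℝ} (hb : BddAbove A) {a : ℝ} (ha : a ∈ A) (ha0 : 0 < a) :
    ∃ ρ > 0, (∀ x ∈ A, x ≤ ρ) ∧ ∃ x ∈ A, ρ / 2 < x := by
  have h1 : a ≤ sSup A := le_csSup hb ha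
  refine ⟨sSup A, by linarith, fun x hx => le_csSup hb hx, ?_⟩
  exact exists_lt_of_lt_csSup ⟨a, ha⟩ (half_lt_self (by linarith))

section

variable {X : Type u} {E : Type v} [MetricSpace X] [NormedAddCommGroup E] [NormedSpace ℝ E]

theorem URel_fwd8 {S : HypSys X E} {ε₀ Q α β K L : ℝ} (h : Sc S ε₀ Q α β K L) {a z : X}
    (haz : S.URel ε₀ a z) (M : ℕ) : S.URel (L ^ M * dist a z) (S.g^[M] a) (S.g^[M] z) := by
  have hL := h.L1
  have hfw : ∀ i : ℕ, dist (S.g^[i] a) (S.g^[i] z) ≤ L ^ i * dist a z := by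
    intro i
    induction i with
    | zero => simp
    | succ i ih =>
      rw [Function.iterate_succ_apply', Function.iterate_succ_apply', pow_succ]
      calc _ ≤ L * dist (S.g^[i] a) (S.g^[i] z) := h.lip _ _
        _ ≤ L * (L ^ i * dist a z) := mul_le_mul_of_nonneg_left ih (by linarith)
        _ = _ := by ring
  intro i
  rcases le_total i M with hi | hi
  · rw [symm_iter_iter_le S hi, symm_iter_iter_le S hi]
    refine (hfw _).trans (mul_le_mul_of_nonneg_right ?_ dist_nonneg)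
    exact pow_le_pow_right₀ hL (by omega)
  · rw [symm_iter_iter_ge S hi, symm_iter_iter_ge S hi]
    refine ((h.geo.URel_dist haz) _).trans ?_
    have : 1 ≤ L ^ M := one_le_pow₀ hL
    have h0 : 0 ≤ dist a z := dist_nonneg
    nlinarith

/-- the estimate in one box -/
theorem box_est {S : HypSys X E} {D : ℕ} {ε₀ Q α β K L R σ τ : ℝ} {ψ : X → V D → X}
    (hD : 1 ≤ D) (hS : Sc S ε₀ Q α β K L) (hψ : Cht S D ε₀ R ψ) (hσ : 0 < σ) (hσε : 9 * σ ≤ ε₀)
    (hτ : 0 < τ) (hτR : 5 * τ ≤ R) {η₀ : ℝ}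
    (hLB : ∀ (n : ℕ) (c : Fin n → V D) (ρ l : Fin n → ℝ) (u : V D → ℝ), (∀ i, 0 ≤ ρ i) →
      (∀ i, 0 ≤ l i) →
      (∀ w, ‖w‖ < 5 → (∀ᶠ w' in 𝓝 w, u w' = u w) ∨
        ∃ i, ‖w - c i‖ ≤ ρ i ∧ ∀ᶠ w' in 𝓝 w, |u w' - u w| ≤ l i * ‖w' - w‖) →
      (∀ t ∈ Icc (1 : ℝ) 2, (∃ a, ‖a‖ = t ∧ u a = 0) ∧ ∃ b, ‖b‖ = t ∧ u b = 1) →
      η₀ ≤ ∑ i, (l i * ρ i) ^ D)
    (M : ℕ) (d : X) (f : X → ℝ) {m : ℕ} (q : Fin m → X) (l : Fin m → ℝ) (hl : ∀ i, 0 ≤ l i)
    (hf : ∀ p, (∀ p', S.URel σ p p' → f p' = f p) ∨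
      ∃ i, S.URel (4 * σ) (q i) p ∧ ∀ p', S.URel σ p p' → |f p' - f p| ≤ l i * dist p p')
    (h01 : ∀ t ∈ Icc (1 : ℝ) 2, (∃ w : V D, ‖w‖ = t ∧ f (S.g^[M] (ψ d (τ • w))) = 1) ∧
      ∃ w : V D, ‖w‖ = t ∧ f (S.g^[M] (ψ d (τ • w))) = 0)
    (I : Finset (Fin m))
    (hI : ∀ i, i ∈ I ↔ ∃ w : V D, ‖w‖ < 5 ∧ S.URel (4 * σ) (q i) (S.g^[M] (ψ d (τ • w)))) :
    η₀ ≤ ∑ i ∈ I, (144 * σ * K ^ M * l i) ^ D := by
  classical
  have hL0 : 0 < L := by linarith [hS.L1]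
  have hK0 : 0 < K := by linarith [hS.K1]
  set P : V D → X := fun w => S.g^[M] (ψ d (τ • w)) with hP
  have hin : ∀ w : V D, ‖w‖ < 5 → ‖τ • w‖ ≤ R := by
    intro w hw
    rw [norm_smul, Real.norm_eq_abs, abs_of_pos hτ]
    nlinarith
  have hsub : ∀ w w' : V D, ‖τ • w - τ • w'‖ = τ * ‖w - w'‖ := by
    intro w w'
    rw [← smul_sub, norm_smul, Real.norm_eq_abs, abs_of_pos hτ]
  have hrel0 : ∀ w w' : V D, ‖w‖ < 5 → ‖w'‖ < 5 → S.URel ε₀ (ψ d (τ • w)) (ψ d (τ • w')) :=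
    fun w w' hw hw' => hψ.rel _ _ _ (hin w hw) (hin w' hw')
  -- continuity
  have hcont : ∀ w : V D, ‖w‖ < 5 → ∀ᶠ w' in 𝓝 w, ‖w'‖ < 5 ∧ S.URel σ (P w) (P w') := by
    intro w hw
    have h1 : ∀ᶠ w' in 𝓝 w, ‖w'‖ < 5 :=
      continuous_norm.continuousAt.eventually (Iio_mem_nhds hw)
    have h2 : ∀ᶠ w' in 𝓝 w, L ^ M * (2 * (τ * ‖w - w'‖)) < σ := by
      have h3 : Continuous fun w' : V D => L ^ M * (2 * (τ * ‖w - w'‖)) := by fun_prop
      have h4 := h3.tendsto w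
      simp only [sub_self, norm_zero, mul_zero] at h4
      exact h4.eventually (Iio_mem_nhds hσ)
    filter_upwards [h1, h2] with w' h3 h4
    refine ⟨h3, (URel_fwd8 hS (hrel0 w w' hw h3) M).mono ?_⟩
    refine le_trans ?_ h4.le
    refine mul_le_mul_of_nonneg_left ?_ (by positivity)
    rw [← hsub]
    exact hψ.le _ _ _ (hin w hw) (hin w' h3)
  -- the centres and the radii
  have hch : ∀ i : Fin m, ∃ (c : V D) (ρ : ℝ), 0 ≤ ρ ∧ (i ∈ I → 0 < ρ ∧ ‖c‖ < 5 ∧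
      S.URel (4 * σ) (q i) (P c) ∧
      (∀ w, ‖w‖ < 5 → S.URel (5 * σ) (q i) (P w) → ‖w - c‖ ≤ ρ) ∧
      ∃ w, ‖w‖ < 5 ∧ S.URel (5 * σ) (q i) (P w) ∧ ρ / 2 < ‖w - c‖) := by
    intro i
    by_cases hi : i ∈ I
    · obtain ⟨c, hc, hqc⟩ := (hI i).1 hi
      set A : Set ℝ := {x | ∃ w, ‖w‖ < 5 ∧ S.URel (5 * σ) (q i) (P w) ∧ ‖w - c‖ = x} with hA
      have hbd : BddAbove A := by
        refine ⟨10, ?_⟩
        rintro x ⟨w, hw, -, rfl⟩
        have := norm_sub_le w c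
        linarith
      have hne : ∃ w, ‖w‖ < 5 ∧ S.URel (5 * σ) (q i) (P w) ∧ w ≠ c := by
        have : Nonempty (Fin D) := ⟨⟨0, by omega⟩⟩
        have h1 : ∀ᶠ w' in 𝓝[≠] c, ‖w'‖ < 5 ∧ S.URel σ (P c) (P w') :=
          nhdsWithin_le_nhds (hcont c hc)
        obtain ⟨w, hw, hw'⟩ := (h1.and self_mem_nhdsWithin).exists
        refine ⟨w, hw.1, ?_, hw'⟩
        refine (hqc.trans hw.2).mono ?_
        linarith
      obtain ⟨w, hw, hqw, hwc⟩ := hne
      obtain ⟨ρ, hρ, h1, x, ⟨w', hw', hqw', rfl⟩, h2⟩ := sup_half (A := A) hbd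
        ⟨w, hw, hqw, rfl⟩ (norm_pos_iff.2 (sub_ne_zero.2 hwc))
      exact ⟨c, ρ, hρ.le, fun _ => ⟨hρ, hc, hqc, fun v hv hqv => h1 _ ⟨v, hv, hqv, rfl⟩,
        w', hw', hqw', h2⟩⟩
    · exact ⟨0, 0, le_rfl, fun h => absurd h hi⟩
  choose c ρ hρ0 hch using hch
  have key := hLB m c ρ (fun i => if i ∈ I then 144 * σ * K ^ M * l i / ρ i else 0)
    (fun w => 1 - f (P w)) hρ0 (by
      intro i
      split_ifs with hi
      · have := (hch i hi).1
        have := hl i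
        positivity
      · exact le_rfl) (by
      intro w hw
      rcases hf (P w) with h | ⟨i, hi, h⟩
      · left
        filter_upwards [hcont w hw] with w' hw'
        rw [h _ hw'.2]
      · right
        have hiI : i ∈ I := (hI i).2 ⟨w, hw, hi⟩
        obtain ⟨hρ, hc, hqc, hup, w₂, hw₂, hqw₂, hlow⟩ := hch i hiI
        refine ⟨i, hup w hw (hi.mono (by linarith)), ?_⟩
        -- the far point
        have hfar : ∃ w₁, ‖w₁‖ < 5 ∧ S.URel (5 * σ) (q i) (P w₁) ∧ ρ i / 4 ≤ ‖w - w₁‖ := by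
          rcases le_or_gt (ρ i / 4) ‖w - c i‖ with h1 | h1
          · exact ⟨c i, hc, hqc.mono (by linarith), h1⟩
          · refine ⟨w₂, hw₂, hqw₂, ?_⟩
            have h2 : w₂ - c i = (w - c i) - (w - w₂) := by abel
            rw [h2] at hlow
            have := norm_sub_le (w - c i) (w - w₂)
            linarith
        obtain ⟨w₁, hw₁, hqw₁, hfar⟩ := hfar
        filter_upwards [hcont w hw] with w' hw'
        rw [if_pos hiI]
        have h1 := h _ hw'.2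
        have h2 : S.URel ε₀ (P w) (P w') := hw'.2.mono (by linarith)
        have h3 : S.URel (9 * σ) (P w) (P w₁) := (hi.symm.trans hqw₁).mono (by linarith)
        have h4 := hS.md_iter (ψ d (τ • w)) (ψ d (τ • w')) (ψ d (τ • w₁)) M h2 (h3.mono hσε)
        have h5 : τ * ‖w - w₁‖ ≤ 2 * dist (ψ d (τ • w)) (ψ d (τ • w₁)) := by
          rw [← hsub]
          exact hψ.ge _ _ _ (hin w hw) (hin w₁ hw₁)
        have h6 : dist (ψ d (τ • w)) (ψ d (τ • w')) ≤ 2 * (τ * ‖w - w'‖) := by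
          rw [← hsub]
          exact hψ.le _ _ _ (hin w hw) (hin w' hw'.1)
        have h7 : dist (P w) (P w') * dist (ψ d (τ • w)) (ψ d (τ • w₁)) ≤
            K ^ M * ((9 * σ) * (2 * (τ * ‖w - w'‖))) := by
          refine h4.trans (mul_le_mul_of_nonneg_left ?_ (by positivity))
          exact mul_le_mul h3.dist_le h6 dist_nonneg (by positivity)
        have h8 : dist (P w) (P w') * (τ * (ρ i / 8)) ≤ K ^ M * ((9 * σ) * (2 * (τ * ‖w - w'‖))) := by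
          refine le_trans (mul_le_mul_of_nonneg_left ?_ dist_nonneg) h7
          nlinarith
        have h9 : dist (P w) (P w') ≤ 144 * σ * K ^ M / ρ i * ‖w' - w‖ := by
          rw [norm_sub_rev w' w]
          have h10 : dist (P w) (P w') * ρ i ≤ 144 * σ * K ^ M * ‖w - w'‖ := by
            have h11 : τ * (dist (P w) (P w') * ρ i) ≤ τ * (144 * σ * K ^ M * ‖w - w'‖) := by
              linarith
            exact le_of_mul_le_mul_left h11 hτ
          rw [div_mul_eq_mul_div, le_div_iff₀ hρ]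
          exact h10
        have h10 : (1 - f (P w')) - (1 - f (P w)) = -(f (P w') - f (P w)) := by ring
        rw [h10, abs_neg]
        calc |f (P w') - f (P w)| ≤ l i * dist (P w) (P w') := h1
          _ ≤ l i * (144 * σ * K ^ M / ρ i * ‖w' - w‖) := mul_le_mul_of_nonneg_left h9 (hl i)
          _ = _ := by ring) (by
      intro t ht
      obtain ⟨⟨w, hw, h1⟩, ⟨w', hw', h2⟩⟩ := h01 t ht
      refine ⟨⟨w, hw, ?_⟩, ⟨w', hw', ?_⟩⟩
      · have : f (P w) = 1 := h1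
        rw [this, sub_self]
      · have : f (P w') = 0 := h2
        rw [this, sub_zero])
  refine key.trans (le_of_eq ?_)
  rw [← Finset.sum_subset (Finset.subset_univ I)]
  · refine Finset.sum_congr rfl fun i hi => ?_
    rw [if_pos hi, div_mul_cancel₀ _ (hch i hi).1.ne']
  · intro i _ hi
    rw [if_neg hi, zero_mul, zero_pow (by omega)]

end

theorem sB8 : SB8.{u, v} := by
  intro X E _ _ _ _ S D ε₀ Q α β K L R σ η b ψ U hD hS hψ hsc hBx hFn hLB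
  classical
  obtain ⟨k₁, τ, hτ, hστ, hτR, hτb, c, hc, hBx⟩ := hBx
  obtain ⟨C, hC, hFn⟩ := hFn
  obtain ⟨η₀, hη₀, hLB⟩ := hLB
  have hK0 : 0 < K := by linarith [hS.K1]
  have hQ := hS.Q1
  have hL := hS.L1
  have hη := hsc.η0
  have hσ : 0 < σ := by
    have h1 := hsc.ησ
    have : 0 < 64 * Q * η := by positivity
    linarith
  have hσε : 9 * σ ≤ ε₀ := by
    have h1 := hsc.σb
    have h2 := hsc.bε
    have h3 : 1 ≤ Q * L := one_le_mul_of_one_le_of_one_le hQ hL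
    nlinarith
  set C' := (144 * σ) ^ D * K ^ (D * k₁) * C with hC'
  have hC'0 : 0 < C' := by positivity
  refine ⟨(C' / η₀ + 1) / c, by positivity, ?_⟩
  intro x hx T φ hφ z hz n hn
  obtain ⟨J, d, hJ, hsep, hbox⟩ := hBx x hx T φ hφ z hz n hn
  obtain ⟨f, m, q, l, hl, hsum, hf1, hf0, hf⟩ := hFn x T φ hφ
  set M := T + k₁ with hM
  have hgM : ∀ p, S.g^[M] p = S.g^[T] (S.g^[k₁] p) := fun p => Function.iterate_add_apply _ _ _ _
  set I : Fin J → Finset (Fin m) := fun j => Finset.univ.filter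
    (fun i => ∃ w : V D, ‖w‖ < 5 ∧ S.URel (4 * σ) (q i) (S.g^[M] (ψ (d j) (τ • w)))) with hI
  have hIm : ∀ j i, i ∈ I j ↔
      ∃ w : V D, ‖w‖ < 5 ∧ S.URel (4 * σ) (q i) (S.g^[M] (ψ (d j) (τ • w))) := by
    intro j i
    rw [hI, Finset.mem_filter]
    exact ⟨fun h => h.2, fun h => ⟨Finset.mem_univ _, h⟩⟩
  have hest : ∀ j, η₀ ≤ ∑ i ∈ I j, (144 * σ * K ^ M * l i) ^ D := by
    intro j
    refine box_est (by omega) hS hψ hσ hσε hτ (by linarith) hLB M (d j) f q l hl hf ?_ (I j)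
      (hIm j)
    intro t ht
    have ht' : τ * t ∈ Icc τ (2 * τ) := by
      constructor
      · nlinarith [ht.1]
      · nlinarith [ht.2]
    obtain ⟨⟨w, hw, a, ha, hφa⟩, ⟨w', hw', hno⟩⟩ := hbox j _ ht'
    have hsc' : ∀ v : V D, ‖v‖ = τ * t → ‖τ⁻¹ • v‖ = t ∧ τ • (τ⁻¹ • v) = v := by
      intro v hv
      constructor
      · rw [norm_smul, hv, norm_inv, Real.norm_eq_abs, abs_of_pos hτ]
        field_simp
      · rw [smul_smul, mul_inv_cancel₀ hτ.ne', one_smul]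
    refine ⟨⟨τ⁻¹ • w, (hsc' w hw).1, ?_⟩, ⟨τ⁻¹ • w', (hsc' w' hw').1, ?_⟩⟩
    · rw [(hsc' w hw).2, hgM, ← hφa]
      exact hf1 a ha
    · rw [(hsc' w' hw').2, hgM]
      refine hf0 _ fun a ha he => ?_
      exact hno a ha ((S.g.injective.iterate T) he)
  -- disjointness
  have hdis : ∀ i ∈ (Finset.univ : Finset (Fin J)), ∀ j ∈ (Finset.univ : Finset (Fin J)), i ≠ j →
      Disjoint (I i) (I j) := by
    intro i _ j _ hij
    rw [Finset.disjoint_left]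
    intro k hk hk'
    obtain ⟨w, hw, h1⟩ := (hIm i k).1 hk
    obtain ⟨w', hw', h2⟩ := (hIm j k).1 hk'
    have h3 := ((h1.symm.trans h2).iter M)
    rw [iter_symm_iter, iter_symm_iter] at h3
    have hin : ∀ w : V D, ‖w‖ < 5 → ‖τ • w‖ ≤ 5 * τ := by
      intro w hw
      rw [norm_smul, Real.norm_eq_abs, abs_of_pos hτ]
      nlinarith
    exact hsep i j hij _ _ (hin w hw) (hin w' hw') (h3.mono (by linarith))
  have htot : (J : ℝ) * η₀ ≤ C' * K ^ (2 * D * T) := by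
    have h1 : ∑ j : Fin J, η₀ ≤ ∑ j, ∑ i ∈ I j, (144 * σ * K ^ M * l i) ^ D :=
      Finset.sum_le_sum fun j _ => hest j
    rw [Finset.sum_const, Finset.card_univ, Fintype.card_fin, nsmul_eq_mul,
      ← Finset.sum_biUnion hdis] at h1
    have h2 : ∑ i ∈ Finset.univ.biUnion I, (144 * σ * K ^ M * l i) ^ D ≤
        ∑ i, (144 * σ * K ^ M * l i) ^ D :=
      Finset.sum_le_sum_of_subset_of_nonneg (Finset.subset_univ _)
        (fun i _ _ => pow_nonneg (mul_nonneg (by positivity) (hl i)) _)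
    have h3 : ∑ i, (144 * σ * K ^ M * l i) ^ D = (144 * σ * K ^ M) ^ D * ∑ i, l i ^ D := by
      rw [Finset.mul_sum]
      exact Finset.sum_congr rfl fun i _ => mul_pow _ _ _
    have h4 : (144 * σ * K ^ M) ^ D * ∑ i, l i ^ D ≤ (144 * σ * K ^ M) ^ D * (C * K ^ (D * T)) :=
      mul_le_mul_of_nonneg_left hsum (by positivity)
    have h5 : (144 * σ * K ^ M) ^ D * (C * K ^ (D * T)) = C' * K ^ (2 * D * T) := by
      rw [hC', hM, mul_pow, ← pow_mul]
      have : K ^ ((T + k₁) * D) * K ^ (D * T) = K ^ (D * k₁) * K ^ (2 * D * T) := by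
        rw [← pow_add, ← pow_add]
        congr 1
        ring
      linear_combination (144 * σ) ^ D * C * this
    linarith
  have hβn : 0 ≤ β ^ n := pow_nonneg hS.β0.le _
  have hK1 : 1 ≤ K ^ (2 * D * T) := one_le_pow₀ hS.K1
  have h1 : (J : ℝ) + 1 ≤ (C' / η₀ + 1) * K ^ (2 * D * T) := by
    have h2 : (J : ℝ) ≤ C' / η₀ * K ^ (2 * D * T) := by
      rw [div_mul_eq_mul_div, le_div_iff₀ hη₀]
      exact htot
    linarith
  have h2 : c ≤ (C' / η₀ + 1) * K ^ (2 * D * T) * β ^ n :=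
    hJ.trans (mul_le_mul_of_nonneg_right h1 hβn)
  have h3 : (C' / η₀ + 1) / c * K ^ (2 * D * T) * β ^ n =
      ((C' / η₀ + 1) * K ^ (2 * D * T) * β ^ n) / c := by ring
  rw [h3, le_div_iff₀ hc, one_mul]
  exact h2

end Pool.Agent.Q192.PI.B
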