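import Pool.Agent.Q192.PI.HolT

/-!
# Project PI, part B: the Whitney chain (job SB9, by helper149)
-/

set_option autoImplicit false
set_option linter.unusedSectionVars false
set_option linter.unusedVariables false

open Filter Topology Set Metric

namespace Pool.Agent.Q192.PI.B

open Pool.Agent.H721R2 Pool.Agent.H779R2.An Pool.Agent.Q130.UQ Pool.Agent.H789R2.AN
  Pool.Agent.H789R2.GP

universe u v

namespace S9

variable {X : Type u} {E : Type v} [MetricSpace X] [NormedAddCommGroup E]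
  [NormedSpace ℝ E] {S : HypSys X E} {ε₀ Q α β K L R σ η b : ℝ} {D T : ℕ} {ψ : X → V D → X}
  {U : Set X} {φ : X → X}

/-- the plaque of size `b` at the time `j` is contained in the ball of radius `c` -/
def Inn (S : HypSys X E) (b : ℝ) (a : X) (c : ℝ) (j : ℕ) : Prop :=
  ∀ z, S.URel b (S.g^[j] a) (S.g^[j] z) → dist a z ≤ c

/-- the level of a point -/
structure Lev (S : HypSys X E) (b : ℝ) (T : ℕ) (a : X) (c : ℝ) (j : ℕ) : Prop where
  le : j ≤ T
  up : j = T ∨ Inn S b a c j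
  low : ∀ i < j, ¬ Inn S b a c i

theorem exists_lev (S : HypSys X E) (b : ℝ) (T : ℕ) (a : X) (c : ℝ) : ∃ j, Lev S b T a c j := by
  classical
  have h : ∃ j, j = T ∨ Inn S b a c j := ⟨T, Or.inl rfl⟩
  exact ⟨Nat.find h, Nat.find_min' h (Or.inl rfl), Nat.find_spec h,
    fun i hi hin => Nat.find_min h hi (Or.inr hin)⟩

theorem lip_iter (hS : Sc S ε₀ Q α β K L) (j : ℕ) (x y : X) :
    dist (S.g^[j] x) (S.g^[j] y) ≤ L ^ j * dist x y := by
  have hL := hS.L1
  induction j with
  | zero => simp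
  | succ j ih =>
    rw [Function.iterate_succ_apply', Function.iterate_succ_apply']
    calc _ ≤ L * dist (S.g^[j] x) (S.g^[j] y) := hS.lip _ _
      _ ≤ L * (L ^ j * dist x y) := mul_le_mul_of_nonneg_left ih (by linarith)
      _ = _ := by ring

theorem far (hS : Sc S ε₀ Q α β K L) (hC : Cht S D ε₀ R ψ) (hD : 1 ≤ D) (hb : 0 < b)
    (hbR : b / 2 ≤ R) (a : X) (j : ℕ) :
    ∃ z, S.URel b (S.g^[j] a) (S.g^[j] z) ∧ b / (4 * L ^ j) ≤ dist a z := by
  have hL := hS.L1
  obtain ⟨v, hv⟩ : ∃ v : V D, ‖v‖ = b / 2 := by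
    refine ⟨EuclideanSpace.single ⟨0, hD⟩ (b / 2), ?_⟩
    rw [EuclideanSpace.single, PiLp.norm_single, Real.norm_eq_abs, abs_of_pos (by positivity)]
  refine ⟨S.g.symm^[j] (ψ (S.g^[j] a) v), ?_, ?_⟩
  · rw [iter_iter_symm]
    exact (hC.urel0 hS.geo (by rw [hv]; exact hbR)).mono (by rw [hv]; linarith)
  · have h1 := lip_iter hS j a (S.g.symm^[j] (ψ (S.g^[j] a) v))
    rw [iter_iter_symm] at h1
    have h2 := hC.ge (S.g^[j] a) v 0 (by rw [hv]; exact hbR) (by rw [norm_zero]; exact hC.pos.le)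
    rw [hC.zero, sub_zero, dist_comm, hv] at h2
    have hLj : (0 : ℝ) < L ^ j := by positivity
    rw [div_le_iff₀ (by positivity)]
    nlinarith

/-- the size of the Whitney cell -/
theorem size (hS : Sc S ε₀ Q α β K L) (hC : Cht S D ε₀ R ψ) (hD : 1 ≤ D) (hb : 0 < b)
    (hbR : b / 2 ≤ R) {a : X} {d : ℝ} (hd : 0 < d) {j : ℕ} (h : Lev S b T a (d / 4) j) :
    b / (8 * L ^ j) ≤ d + b / (8 * L ^ T) := by
  have hL := hS.L1
  rcases h.up with h0 | h1
  · rw [h0]
    linarith
  · obtain ⟨z, hz1, hz2⟩ := far hS hC hD hb hbR a j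
    have h2 := h1 z hz1
    have e : b / (8 * L ^ j) = b / (4 * L ^ j) / 2 := by
      have hLj : (0 : ℝ) < L ^ j := by positivity
      field_simp
      ring
    have h3 : 0 < b / (8 * L ^ T) := by positivity
    rw [e]
    linarith

theorem stepB (hS : Sc S ε₀ Q α β K L) (hC : Cht S D ε₀ R ψ) (hD : 1 ≤ D)
    (hsc : Scale ε₀ R Q L σ η b) {C₁ C₂ : ℝ} (hC₁ : 0 < C₁)
    (hcell : ∀ (a z z' : X) (m : ℕ), S.URel ε₀ a z →
      ¬ S.URel (b / 256) (S.g^[m + 1] a) (S.g^[m + 1] z) → S.URel ε₀ (S.g^[m] a) (S.g^[m] z') →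
      dist a z' ≤ C₁ * K ^ m * dist a z) (hC₂ : 17 * C₁ ≤ C₂) (hC₂' : 64 * R ≤ C₂ * b) {a z : X}
    {d : ℝ} (hd : 0 < d) (hdR : d ≤ R / 8) {j : ℕ} (h : Lev S b T a (d / 4) j)
    (hz : S.URel ε₀ a z) (hdz : C₂ * K ^ j * dist a z ≤ d + b / (8 * L ^ T)) :
    S.URel (b / 256) (S.g^[j] a) (S.g^[j] z) := by
  have hG := hS.geo
  have hL := hS.L1
  have hK := hS.K1
  obtain ⟨hσ0, hb0, f1, f2, f3, f4⟩ := hsc.facts hS.Q1 hS.L1
  have hbR := hsc.bR
  have hbε := hsc.bε
  have hC₂0 : 0 < C₂ := by linarith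
  have hTi : ∀ i ≤ T, b / (8 * L ^ T) ≤ b / (4 * L ^ i) / 2 := by
    intro i hi
    have hLi : (0 : ℝ) < L ^ i := by positivity
    have hLT : L ^ i ≤ L ^ T := pow_le_pow_right₀ hL hi
    rw [div_div, div_le_div_iff₀ (by positivity) (by positivity)]
    nlinarith
  cases j with
  | zero =>
    have h1 := hG.URel_dist hz
    have h2 := hTi 0 (Nat.zero_le _)
    rw [pow_zero, mul_one] at h2
    rw [pow_zero, mul_one] at hdz
    have h3 : C₂ * dist a z ≤ C₂ * (b / 256) := by nlinarith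
    have h4 := le_of_mul_le_mul_left h3 hC₂0
    exact h1.mono h4
  | succ i =>
    by_contra hcon
    have h1 := h.low i (Nat.lt_succ_self i)
    unfold Inn at h1
    push Not at h1
    obtain ⟨z', hz', hz'd⟩ := h1
    obtain ⟨z2, hz2, hz2d⟩ := far hS hC hD hb0 (by linarith) a i
    have h3 := hcell a z z' i hz hcon (hz'.mono (by linarith))
    have h4 := hcell a z z2 i hz hcon (hz2.mono (by linarith))
    have h5 := hTi i (by have := h.le; omega)
    set u := C₁ * K ^ i * dist a z with hu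
    have hu0 : 0 < u := by linarith
    have h6 : 17 * u ≤ C₂ * K ^ (i + 1) * dist a z := by
      have e1 : 17 * u = (17 * C₁) * (K ^ i * dist a z) := by rw [hu]; ring
      have e2 : C₂ * K ^ (i + 1) * dist a z = C₂ * (K * (K ^ i * dist a z)) := by ring
      rw [e1, e2]
      have h7 : 0 ≤ K ^ i * dist a z := by positivity
      have h8 : K ^ i * dist a z ≤ K * (K ^ i * dist a z) := by nlinarith
      exact mul_le_mul hC₂ h8 h7 hC₂0.le
    linarith

theorem URel_uc (hS : Sc S ε₀ Q α β K L) {c : ℝ} (hc : c ≤ ε₀) {x y : X} (h : S.URel c x y)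
    (k : ℕ) : S.URel (β ^ k * c) (S.g.symm^[k] x) (S.g.symm^[k] y) := by
  intro i
  rw [← Function.iterate_add_apply, ← Function.iterate_add_apply]
  have h1 := hS.uc x y (h.mono hc) (i + k)
  have hβ0 := hS.β0
  have hβ1 := hS.β1
  have h2 : β ^ (i + k) ≤ β ^ k := pow_le_pow_of_le_one hβ0.le (by linarith) (by omega)
  have h3 := h.dist_le
  have hc0 : 0 ≤ c := dist_nonneg.trans h3
  calc _ ≤ β ^ (i + k) * dist x y := h1
    _ ≤ β ^ k * c := mul_le_mul h2 h3 dist_nonneg (by positivity)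

theorem stepC (hS : Sc S ε₀ Q α β K L) (hC : Cht S D ε₀ R ψ) (hD : 1 ≤ D)
    (hsc : Scale ε₀ R Q L σ η b) (hU : ∀ z ∈ U, S.g z ∈ U) {C₀ : ℝ} (hC₀ : 0 < C₀)
    (htl : ∀ x, (∀ z, S.URel b x z → z ∈ U) → ∀ (T : ℕ) (φ : X → X),
      HolT S σ η T {z | S.URel (b / 2) x z} φ → ∀ z, S.URel (b / 256) x z → ∀ n : ℕ,
      ¬ S.URel b (S.g.symm^[n] (φ x)) (S.g.symm^[n] (φ z)) → 1 ≤ C₀ * K ^ (2 * D * T) * β ^ n)
    {y : X} {r : ℝ} (hr : 0 < r) (hrR : r ≤ R / 8) (hyU : ∀ w, ‖w‖ < r → ψ y w ∈ U)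
    (h : HolT S σ η T (ψ y '' ball 0 r) φ) {n : ℕ} (hn : (C₀ + 1) * K ^ (2 * D * T) * β ^ n ≤ 1)
    {w w' : V D} (hw : ‖w‖ < r) (hw' : ‖w'‖ < r) {j : ℕ}
    (hj : Lev S b T (ψ y w) ((r - ‖w‖) / 4) j)
    (hs : ∀ s ∈ Icc (0 : ℝ) 1,
      S.URel (b / 256) (S.g^[j] (ψ y w)) (S.g^[j] (ψ y (w + s • (w' - w))))) :
    S.URel (b * (C₀ + 1) / β * (K ^ (2 * D * T) * β ^ n) * (β / K ^ (2 * D)) ^ j)
      (S.g.symm^[n] (φ (ψ y w))) (S.g.symm^[n] (φ (ψ y w'))) := by
  have hG := hS.geo
  have hL := hS.L1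
  have hK := hS.K1
  have hβ0 := hS.β0
  have hβ1 := hS.β1
  have hR := hC.pos
  have hη0 := hsc.η0
  obtain ⟨hσ0, hb0, f1, f2, f3, f4⟩ := hsc.facts hS.Q1 hS.L1
  have hbR := hsc.bR
  have hbε := hsc.bε
  have hK0 : (0 : ℝ) < K ^ (2 * D) := by positivity
  have hwB : w ∈ ball (0 : V D) r := by simpa using hw
  have hwB' : w' ∈ ball (0 : V D) r := by simpa using hw'
  have hcv : ∀ s ∈ Icc (0 : ℝ) 1, w + s • (w' - w) ∈ ball (0 : V D) r := fun s hs =>
    (convex_ball (0 : V D) r).add_smul_sub_mem hwB hwB' hs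
  rcases Nat.eq_or_lt_of_le hj.le with hjT | hjT
  · -- the bottom level
    subst hjT
    obtain ⟨m₀, hm₀⟩ := exists_nat_gt (L ^ j * (2 * ‖w' - w‖) / σ)
    set m := m₀ + 1 with hm
    have hm0 : (0 : ℝ) < m := by rw [hm]; positivity
    have hmσ : L ^ j * (2 * ‖w' - w‖) / m ≤ σ := by
      rw [div_le_iff₀ hm0]
      rw [div_lt_iff₀ hσ0] at hm₀
      rw [hm]
      push_cast
      nlinarith
    have hIcc : ∀ i ≤ m, ((i : ℝ) / m) ∈ Icc (0 : ℝ) 1 := by
      intro i hi
      have h1 : (i : ℝ) ≤ m := by exact_mod_cast hi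
      exact ⟨by positivity, div_le_one_of_le₀ h1 hm0.le⟩
    have hnr : ∀ i ≤ m, ‖w + ((i : ℝ) / m) • (w' - w)‖ ≤ R := by
      intro i hi
      have h1 := hcv _ (hIcc i hi)
      rw [mem_ball_zero_iff] at h1
      linarith
    have h1 := h.chain hG (e := b / 256) (by positivity) hη0.le (by linarith) (m := m)
      (c := fun i => ψ y (w + ((i : ℝ) / m) • (w' - w)))
      (fun i hi => mem_image_of_mem _ (hcv _ (hIcc i hi)))
      (by
        intro i hi
        have h2 := URel_fwd hS j (hC.urel hG (x := y) (hnr i hi.le) (hnr (i + 1) hi))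
        refine h2.mono ?_
        have e1 : w + ((i : ℝ) / m) • (w' - w) - (w + (((i + 1 : ℕ) : ℝ) / m) • (w' - w)) =
            (-(1 / (m : ℝ))) • (w' - w) := by
          rw [add_sub_add_left_eq_sub, ← sub_smul]
          congr 1
          push_cast
          ring
        rw [e1, norm_smul, Real.norm_eq_abs, abs_neg, abs_of_nonneg (by positivity)]
        calc L ^ j * (2 * (1 / (m : ℝ) * ‖w' - w‖)) = L ^ j * (2 * ‖w' - w‖) / m := by ring
          _ ≤ σ := hmσ)
      (by
        intro i hi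
        have h2 := (hs _ (hIcc i hi)).dist_le
        simpa using h2)
    have e2 : w + (((m : ℕ) : ℝ) / m) • (w' - w) = w' := by
      rw [div_self hm0.ne', one_smul, add_sub_cancel]
    simp only [e2] at h1
    simp only [Nat.cast_zero, zero_div, zero_smul, add_zero] at h1
    have h2 := URel_uc hS (show b / 256 + 2 * η ≤ ε₀ by linarith) h1 (n + j)
    rw [Function.iterate_add_apply, Function.iterate_add_apply, iter_symm_iter,
      iter_symm_iter] at h2
    refine h2.mono ?_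
    have e3 : b * (C₀ + 1) / β * (K ^ (2 * D * j) * β ^ n) * (β / K ^ (2 * D)) ^ j =
        β ^ (n + j) * (b * (C₀ + 1) / β) := by
      rw [div_pow, ← pow_mul, pow_add]
      have : (0 : ℝ) < K ^ (2 * D * j) := by positivity
      field_simp
    rw [e3]
    apply mul_le_mul_of_nonneg_left _ (by positivity)
    rw [le_div_iff₀ hβ0]
    have h3 : (b / 256 + 2 * η) * β ≤ b / 256 + 2 * η := by
      have : 0 ≤ b / 256 + 2 * η := by positivity
      nlinarith
    nlinarith
  · -- an interior level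
    have hin : Inn S b (ψ y w) ((r - ‖w‖) / 4) j := by
      rcases hj.up with h1 | h1
      · omega
      · exact h1
    have hball : ∀ z, S.URel b (S.g^[j] (ψ y w)) (S.g^[j] z) → z ∈ ψ y '' ball 0 r := by
      intro z hz
      have h1 := hin z hz
      have h2 : S.URel b (ψ y w) z := by
        have := URel_earlier (Nat.zero_le j) hz
        simpa using this
      have h3 : S.URel (R / 2) y z :=
        ((hC.urel0 hG (x := y) (v := w) (by linarith)).trans h2).mono (by linarith)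
      obtain ⟨w'', hw'', rfl⟩ := hC.surj y z h3
      refine mem_image_of_mem _ ?_
      rw [mem_ball_zero_iff]
      have h4 := hC.ge y w w'' (by linarith) hw''
      have h5 : ‖w''‖ ≤ ‖w‖ + ‖w - w''‖ := by
        have := norm_sub_norm_le w'' w
        rw [norm_sub_rev] at this
        linarith
      linarith
    have hUj : ∀ (i : ℕ) z, z ∈ U → S.g^[i] z ∈ U := by
      intro i
      induction i with
      | zero => intro z hz; exact hz
      | succ i ih =>
        intro z hz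
        rw [Function.iterate_succ_apply']
        exact hU _ (ih z hz)
    have hxU : ∀ z, S.URel b (S.g^[j] (ψ y w)) z → z ∈ U := by
      intro z hz
      have h1 : S.URel b (S.g^[j] (ψ y w)) (S.g^[j] (S.g.symm^[j] z)) := by
        rwa [iter_iter_symm]
      obtain ⟨w'', hw'', h2⟩ := hball _ h1
      have h3 := hUj j _ (hyU w'' (by simpa using hw''))
      rwa [h2, iter_iter_symm] at h3
    have hT := (h.shift hG (show 2 * σ ≤ ε₀ by linarith) (by linarith) j).mono
      (B := {z | S.URel (b / 2) (S.g^[j] (ψ y w)) z}) (by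
        intro z hz
        have h1 : S.URel b (S.g^[j] (ψ y w)) (S.g^[j] (S.g.symm^[j] z)) := by
          rw [iter_iter_symm]
          exact hz.mono (by linarith)
        exact ⟨_, hball _ h1, iter_iter_symm S j z⟩)
    have hend := hs 1 ⟨zero_le_one, le_rfl⟩
    rw [one_smul, add_sub_cancel] at hend
    have htl' := htl _ hxU (T - j) _ hT _ hend
    simp only [iter_symm_iter] at htl'
    -- the smallest admissible time
    have hKle : K ^ (2 * D * (T - j)) ≤ K ^ (2 * D * T) :=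
      pow_le_pow_right₀ hK (Nat.mul_le_mul_left _ (Nat.sub_le _ _))
    have hex : ∃ n' : ℕ, C₀ * K ^ (2 * D * (T - j)) * β ^ n' < 1 := by
      refine ⟨n, lt_of_lt_of_le ?_ hn⟩
      have h1 : (0 : ℝ) < K ^ (2 * D * (T - j)) := by positivity
      have h2 : (0 : ℝ) < β ^ n := by positivity
      apply mul_lt_mul_of_pos_right _ h2
      nlinarith
    classical
    set n' := Nat.find hex with hn'
    have hn'1 : C₀ * K ^ (2 * D * (T - j)) * β ^ n' < 1 := Nat.find_spec hex
    have hn'n : n' ≤ n := by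
      apply Nat.find_min' hex
      refine lt_of_lt_of_le ?_ hn
      have h1 : (0 : ℝ) < K ^ (2 * D * (T - j)) := by positivity
      have h2 : (0 : ℝ) < β ^ n := by positivity
      apply mul_lt_mul_of_pos_right _ h2
      nlinarith
    have hn'2 : β ≤ (C₀ + 1) * K ^ (2 * D * (T - j)) * β ^ n' := by
      have hK1 : (1 : ℝ) ≤ K ^ (2 * D * (T - j)) := one_le_pow₀ hK
      rcases Nat.eq_zero_or_pos n' with h0 | h0
      · rw [h0, pow_zero, mul_one]
        nlinarith
      · have h1 := Nat.find_min hex (m := n' - 1) (by omega)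
        push Not at h1
        have e1 : β ^ n' = β ^ (n' - 1) * β := by
          rw [← pow_succ, Nat.sub_add_cancel h0]
        rw [e1]
        have h2 : (0 : ℝ) < β ^ (n' - 1) := by positivity
        have h3 : (1 : ℝ) ≤ (C₀ + 1) * K ^ (2 * D * (T - j)) * β ^ (n' - 1) := by
          refine h1.trans ?_
          apply mul_le_mul_of_nonneg_right _ h2.le
          apply mul_le_mul_of_nonneg_right _ (by positivity)
          linarith
        nlinarith
    have hrel : S.URel b (S.g.symm^[n'] (S.g^[j] (φ (ψ y w))))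
        (S.g.symm^[n'] (S.g^[j] (φ (ψ y w')))) := by
      by_contra hcon
      have := htl' n' hcon
      linarith
    have h2 := URel_uc hS (show b ≤ ε₀ by linarith) hrel (n + j - n')
    rw [← Function.iterate_add_apply, ← Function.iterate_add_apply,
      show n + j - n' + n' = n + j by omega, Function.iterate_add_apply,
      Function.iterate_add_apply, iter_symm_iter, iter_symm_iter] at h2
    refine h2.mono ?_
    have e1 : β ^ (n + j - n') * β ^ n' = β ^ (n + j) := by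
      rw [← pow_add, show n + j - n' + n' = n + j by omega]
    have e2 : K ^ (2 * D * (T - j)) * K ^ (2 * D * j) = K ^ (2 * D * T) := by
      rw [← pow_add, ← Nat.mul_add, Nat.sub_add_cancel hjT.le]
    have hKj : (0 : ℝ) < K ^ (2 * D * j) := by positivity
    have e3 : b * (C₀ + 1) / β * (K ^ (2 * D * T) * β ^ n) * (β / K ^ (2 * D)) ^ j =
        β ^ (n + j) * ((C₀ + 1) * K ^ (2 * D * (T - j))) * b / β := by
      rw [div_pow, ← pow_mul, pow_add, ← e2]
      field_simp
    rw [e3, le_div_iff₀ hβ0, ← e1]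
    have h4 : (0 : ℝ) < β ^ (n + j - n') := by positivity
    have h5 : β ^ (n + j - n') * b * β ≤
        β ^ (n + j - n') * b * ((C₀ + 1) * K ^ (2 * D * (T - j)) * β ^ n') :=
      mul_le_mul_of_nonneg_left hn'2 (by positivity)
    calc _ ≤ β ^ (n + j - n') * b * ((C₀ + 1) * K ^ (2 * D * (T - j)) * β ^ n') := h5
      _ = _ := by ring

/-- tangent line inequality -/
theorem rpow_step {x h κ : ℝ} (hx : 0 < x) (h0 : 0 ≤ h) (h1 : h ≤ 1) (k0 : 0 ≤ κ) (k1 : κ ≤ 1) :
    κ * (h * x ^ κ) ≤ x ^ κ - (x - h * x) ^ κ := by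
  have e : x - h * x = x * (1 + -h) := by ring
  rw [e, Real.mul_rpow hx.le (by linarith)]
  have h2 := rpow_one_add_le_one_add_mul_self (s := -h) (by linarith) k0 k1
  have h3 : 0 < x ^ κ := Real.rpow_pos_of_pos hx κ
  nlinarith

theorem rpow_lev {m₀ : ℕ} (hm₀ : m₀ ≠ 0) (hL : 1 ≤ L) (hLm : L ≤ 2 ^ m₀) (hb : 0 < b) {x : ℝ}
    {j : ℕ} (hx : b / (8 * L ^ j) ≤ x) :
    (1 / 2 : ℝ) ^ j ≤ (8 / b) ^ ((m₀ : ℝ)⁻¹) * x ^ ((m₀ : ℝ)⁻¹) := by
  have hLj : (0 : ℝ) < L ^ j := by positivity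
  have hx0 : 0 < x := lt_of_lt_of_le (by positivity) hx
  rw [← Real.mul_rpow (by positivity) hx0.le]
  have h1 : ((1 / 2 : ℝ) ^ j) ^ m₀ ≤ 8 / b * x := by
    have h2 : (1 / 2 : ℝ) ^ m₀ ≤ 1 / L := by
      rw [div_pow, one_pow]
      exact one_div_le_one_div_of_le (by linarith) hLm
    have h3 : ((1 / 2 : ℝ) ^ j) ^ m₀ ≤ (1 / L) ^ j := by
      rw [← pow_mul, mul_comm, pow_mul]
      exact pow_le_pow_left₀ (by positivity) h2 j
    refine h3.trans ?_
    have h4 : 8 / b * (b / (8 * L ^ j)) ≤ 8 / b * x := mul_le_mul_of_nonneg_left hx (by positivity)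
    refine le_trans (le_of_eq ?_) h4
    rw [div_pow, one_pow]
    field_simp
  calc (1 / 2 : ℝ) ^ j = (((1 / 2 : ℝ) ^ j) ^ m₀) ^ ((m₀ : ℝ)⁻¹) :=
        (Real.pow_rpow_inv_natCast (by positivity) hm₀).symm
    _ ≤ _ := Real.rpow_le_rpow (by positivity) h1 (by positivity)

/-- an elementary exhaustion argument -/
theorem exhaust (G : ℝ → Prop) (st : ℝ → ℝ) {M μ : ℝ} (hμ : 0 < μ)
    (hst : ∀ t, 0 ≤ t → t ≤ M → G t → μ ≤ st t)
    (hG : ∀ t, 0 ≤ t → t ≤ M → G t → t + st t ≤ M → G (t + st t)) (h0 : G 0) (hM : 0 ≤ M) :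
    ∃ t, 0 ≤ t ∧ t ≤ M ∧ G t ∧ M < t + st t := by
  have key : ∀ N : ℕ, ∀ t, 0 ≤ t → t ≤ M → G t → M - t ≤ N * μ →
      ∃ t, 0 ≤ t ∧ t ≤ M ∧ G t ∧ M < t + st t := by
    intro N
    induction N with
    | zero =>
      intro t ht htM hGt h
      refine ⟨t, ht, htM, hGt, ?_⟩
      have := hst t ht htM hGt
      rw [Nat.cast_zero, zero_mul] at h
      linarith
    | succ N ih =>
      intro t ht htM hGt h
      rcases lt_or_ge M (t + st t) with h1 | h1
      · exact ⟨t, ht, htM, hGt, h1⟩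
      · have h2 := hst t ht htM hGt
        push_cast at h
        exact ih (t + st t) (by linarith) h1 (hG t ht htM hGt h1) (by linarith)
  obtain ⟨N, hN⟩ := exists_nat_ge (M / μ)
  rw [div_le_iff₀ hμ] at hN
  exact key N 0 le_rfl hM h0 (by linarith)

end S9

open S9 in
/-- **SB9** -/
theorem sB9 : SB9.{u, v} := by
  intro X E _ _ _ _ S D ε₀ Q α β K L R σ η b ψ U hD2 hS hC hsc hU hcell hTL e he
  have hG := hS.geo
  have hL := hS.L1
  have hK := hS.K1
  have hβ0 := hS.β0
  have hβ1 := hS.β1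
  have hR := hC.pos
  have hη0 := hsc.η0
  obtain ⟨hσ0, hb0, f1, f2, f3, f4⟩ := hsc.facts hS.Q1 hS.L1
  have hbR := hsc.bR
  have hbε := hsc.bε
  have hD : 1 ≤ D := by omega
  obtain ⟨C₀, hC₀, htl⟩ := hTL
  obtain ⟨C₁, hC₁, hcell⟩ := hcell (b / 256) (by positivity)
  set C₂ := 17 * C₁ + 64 * R / b + 1 with hC₂
  have hq1 : 0 < 64 * R / b := by positivity
  have hC₂a : 17 * C₁ ≤ C₂ := by linarith
  have hC₂b : 64 * R ≤ C₂ * b := by
    have h1 : 64 * R / b ≤ C₂ := by linarith
    rwa [div_le_iff₀ hb0] at h1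
  have hC₂c : 1 ≤ C₂ := by linarith
  have hC₂0 : 0 < C₂ := by linarith
  obtain ⟨m₁, hm₁⟩ := pow_unbounded_of_one_lt L (one_lt_two)
  set m₀ := m₁ + 1 with hm₀
  have hLm : L ≤ 2 ^ m₀ := by
    rw [hm₀, pow_succ]
    have : (0 : ℝ) < 2 ^ m₁ := by positivity
    linarith
  have hm₀0 : m₀ ≠ 0 := by omega
  have hm₀R : (0 : ℝ) < m₀ := by rw [hm₀]; positivity
  set κ : ℝ := (m₀ : ℝ)⁻¹ with hκ
  have hκ0 : 0 < κ := by positivity
  have hκ1 : κ ≤ 1 := by
    rw [hκ]
    apply inv_le_one_of_one_le₀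
    rw [hm₀]
    push_cast
    linarith [(Nat.cast_nonneg m₁ : (0 : ℝ) ≤ m₁)]
  set C₃ := b * (C₀ + 1) / β with hC₃
  have hC₃0 : 0 < C₃ := by positivity
  set B := (8 / b) ^ κ * (2 * C₂) * m₀ with hB
  have hB0 : 0 < B := by positivity
  set C₅ := C₃ * (1 + B * R ^ κ) / e with hC₅
  have hRκ : 0 < R ^ κ := Real.rpow_pos_of_pos hR κ
  have hC₅0 : 0 < C₅ := by positivity
  refine ⟨C₀ + 1 + C₅, by positivity, fun y r hr hrR hyU T φ hφ n hn w hw => ?_⟩
  have hKT : (0 : ℝ) < K ^ (2 * D * T) := by positivity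
  have hβn : (0 : ℝ) < β ^ n := by positivity
  set P := K ^ (2 * D * T) * β ^ n with hP
  have hP0 : 0 < P := by positivity
  have hn' : (C₀ + 1 + C₅) * P ≤ 1 := by rw [hP, ← mul_assoc]; exact hn
  have hn1 : (C₀ + 1) * K ^ (2 * D * T) * β ^ n ≤ 1 := by
    rw [mul_assoc, ← hP]
    nlinarith
  have hn2 : C₃ * P * (1 + B * R ^ κ) ≤ e := by
    have h1 : C₅ * P ≤ 1 := by nlinarith
    have h2 : C₅ * P = C₃ * P * (1 + B * R ^ κ) / e := by rw [hC₅]; ring
    rw [h2, div_le_iff₀ he, one_mul] at h1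
    exact h1
  rcases eq_or_ne w 0 with rfl | hw0
  · rw [hC.zero]
    intro i
    rw [dist_self]
    exact he.le
  have hw0' : 0 < ‖w‖ := norm_pos_iff.2 hw0
  obtain ⟨u, hu⟩ : ∃ u : V D, u = ‖w‖⁻¹ • w := ⟨_, rfl⟩
  have hun : ‖u‖ = 1 := by
    rw [hu, norm_smul, norm_inv, norm_norm, inv_mul_cancel₀ hw0'.ne']
  have huw : ‖w‖ • u = w := by rw [hu, smul_smul, mul_inv_cancel₀ hw0'.ne', one_smul]
  have hnt : ∀ t : ℝ, 0 ≤ t → ‖t • u‖ = t := fun t ht => by
    rw [norm_smul, hun, mul_one, Real.norm_eq_abs, abs_of_nonneg ht]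
  set δ := b / (8 * L ^ T) with hδ
  have hδ0 : 0 < δ := by positivity
  have hδb : δ ≤ b / 8 := by
    rw [hδ]
    apply div_le_div_of_nonneg_left hb0.le (by norm_num)
    have : (1 : ℝ) ≤ L ^ T := one_le_pow₀ hL
    linarith
  have hlev : ∀ t : ℝ, ∃ j, Lev S b T (ψ y (t • u)) ((r - t) / 4) j := fun t =>
    exists_lev S b T _ _
  choose j hj using hlev
  set st : ℝ → ℝ := fun t => (r - t + δ) / (2 * C₂ * K ^ (j t)) with hst
  set F : ℝ → X := fun t => S.g.symm^[n] (φ (ψ y (t • u))) with hF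
  -- one step
  have step : ∀ t t', 0 ≤ t → t ≤ t' → t' ≤ ‖w‖ → t' ≤ t + st t →
      S.URel (C₃ * P * (β / K ^ (2 * D)) ^ (j t)) (F t) (F t') := by
    intro t t' ht htt' ht'w ht'
    have ht'0 : 0 ≤ t' := ht.trans htt'
    have hLj := hj t
    have hKj : (0 : ℝ) < K ^ (j t) := by positivity
    have hLj' : Lev S b T (ψ y (t • u)) ((r - ‖t • u‖) / 4) (j t) := by rwa [hnt t ht]
    have hres := stepC hS hC hD hsc hU hC₀ htl hr hrR hyU hφ hn1 (w := t • u) (w' := t' • u)
      (by rw [hnt t ht]; linarith) (by rw [hnt t' ht'0]; linarith) hLj' (by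
        intro s hs
        have e1 : t • u + s • (t' • u - t • u) = (t + s * (t' - t)) • u := by
          rw [← sub_smul, smul_smul, ← add_smul]
        rw [e1]
        have hs0 : 0 ≤ s * (t' - t) := mul_nonneg hs.1 (by linarith)
        have hs1 : s * (t' - t) ≤ t' - t := mul_le_of_le_one_left (by linarith) hs.2
        have hn3 : ‖t • u‖ ≤ R := by rw [hnt t ht]; linarith
        have hn4 : ‖(t + s * (t' - t)) • u‖ ≤ R := by
          rw [hnt _ (by linarith)]
          linarith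
        refine stepB hS hC hD hsc hC₁ hcell hC₂a hC₂b (d := r - t) (by linarith) (by linarith)
          hLj (hC.rel y _ _ hn3 hn4) ?_
        have h5 := hC.le y _ _ hn3 hn4
        have h6 : ‖t • u - (t + s * (t' - t)) • u‖ = s * (t' - t) := by
          rw [← sub_smul, norm_smul, hun, mul_one, Real.norm_eq_abs,
            show t - (t + s * (t' - t)) = -(s * (t' - t)) by ring, abs_neg, abs_of_nonneg hs0]
        rw [h6] at h5
        have h7 : 2 * (s * (t' - t)) ≤ 2 * st t := by linarith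
        have h8 : C₂ * K ^ (j t) * (2 * st t) = r - t + δ := by
          simp only [hst]
          field_simp
        rw [← hδ]
        calc _ ≤ C₂ * K ^ (j t) * (2 * st t) :=
              mul_le_mul_of_nonneg_left (h5.trans h7) (by positivity)
          _ = _ := h8)
    exact hres
  have hDD : ∀ i : ℕ, (β / K ^ (2 * D)) ^ i ≤ (1 / 2) ^ i * (1 / K ^ i) := by
    intro i
    have h1 : β / K ^ (2 * D) ≤ 1 / 2 * (1 / K) := by
      have h2 : K ≤ K ^ (2 * D) := le_self_pow₀ hK (by omega)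
      rw [mul_one_div]
      exact div_le_div₀ (by norm_num) hβ1 (by positivity) h2
    have h3 := pow_le_pow_left₀ (by positivity) h1 i
    rw [mul_pow] at h3
    refine h3.trans (le_of_eq ?_)
    rw [one_div_pow (K)]
  set A := C₃ * P * B with hA
  have hA0 : 0 < A := by positivity
  set D0 := r + δ with hD0
  have hD0R : D0 ≤ R := by rw [hD0]; linarith
  obtain ⟨t, ht0, htw, htG, htf⟩ := exhaust
    (fun t => S.URel (A * (D0 ^ κ - (D0 - t) ^ κ)) (F 0) (F t)) st (M := ‖w‖)
    (μ := δ / (2 * C₂ * K ^ T)) (by positivity)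
    (by
      intro t ht htM _
      have h1 : K ^ (j t) ≤ K ^ T := pow_le_pow_right₀ hK (hj t).le
      simp only [hst]
      exact div_le_div₀ (by linarith) (by linarith) (by positivity) (by
        apply mul_le_mul_of_nonneg_left h1 (by positivity)))
    (by
      intro t ht htw hGt htM
      have hx0 : 0 < r - t + δ := by linarith
      have hst0 : 0 < st t := by
        simp only [hst]
        positivity
      have h1 := step t (t + st t) ht (by linarith) htM le_rfl
      refine (hGt.trans h1).mono ?_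
      have hKj : (0 : ℝ) < K ^ (j t) := by positivity
      set h := 1 / (2 * C₂ * K ^ (j t)) with hh
      have hh0 : 0 < h := by positivity
      have hh1 : h ≤ 1 := by
        rw [hh, div_le_one (by positivity)]
        have : (1 : ℝ) ≤ K ^ (j t) := one_le_pow₀ hK
        nlinarith
      have e1 : D0 - (t + st t) = (r - t + δ) - h * (r - t + δ) := by
        simp only [hst, hD0, hh]
        ring
      have e2 : D0 - t = r - t + δ := by rw [hD0]; ring
      rw [e1, e2]
      have h2 := rpow_step hx0 hh0.le hh1 hκ0.le hκ1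
      have h3 := rpow_lev hm₀0 hL hLm hb0 (size hS hC hD hb0 (by linarith) (by linarith) (hj t))
      rw [← hδ] at h3
      have h4 := hDD (j t)
      have h5 : 1 / K ^ (j t) = 2 * C₂ * h := by
        rw [hh]
        field_simp
      have h6 : (β / K ^ (2 * D)) ^ (j t) ≤
          ((8 / b) ^ κ * (r - t + δ) ^ κ) * (2 * C₂ * h) := by
        refine h4.trans ?_
        rw [h5]
        exact mul_le_mul_of_nonneg_right h3 (by positivity)
      have h7 : h * (r - t + δ) ^ κ ≤
          m₀ * ((r - t + δ) ^ κ - (r - t + δ - h * (r - t + δ)) ^ κ) := by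
        have h8 := mul_le_mul_of_nonneg_left h2 hm₀R.le
        rwa [← mul_assoc, hκ, mul_inv_cancel₀ hm₀R.ne', one_mul] at h8
      have h9 : (β / K ^ (2 * D)) ^ (j t) ≤
          B * ((r - t + δ) ^ κ - (r - t + δ - h * (r - t + δ)) ^ κ) := by
        refine h6.trans ?_
        calc _ = (8 / b) ^ κ * (2 * C₂) * (h * (r - t + δ) ^ κ) := by ring
          _ ≤ (8 / b) ^ κ * (2 * C₂) *
              (m₀ * ((r - t + δ) ^ κ - (r - t + δ - h * (r - t + δ)) ^ κ)) :=
            mul_le_mul_of_nonneg_left h7 (by positivity)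
          _ = _ := by rw [hB]; ring
      have h10 := mul_le_mul_of_nonneg_left h9 (show 0 ≤ C₃ * P by positivity)
      rw [hA]
      linarith)
    (by
      rw [sub_zero, sub_self, mul_zero]
      intro i
      rw [dist_self])
    hw0'.le
  have hlast := step t ‖w‖ ht0 htw le_rfl htf.le
  have hfin := htG.trans hlast
  have eF0 : F 0 = S.g.symm^[n] (φ y) := by simp only [hF, zero_smul, hC.zero]
  have eFw : F ‖w‖ = S.g.symm^[n] (φ (ψ y w)) := by simp only [hF, huw]
  rw [eF0, eFw] at hfin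
  refine hfin.mono ?_
  have h1 : (β / K ^ (2 * D)) ^ (j t) ≤ 1 := by
    apply pow_le_one₀ (by positivity)
    rw [div_le_one (by positivity)]
    have : (1 : ℝ) ≤ K ^ (2 * D) := one_le_pow₀ hK
    linarith
  have h2 : D0 ^ κ ≤ R ^ κ := Real.rpow_le_rpow (by positivity) hD0R hκ0.le
  have h3 : 0 ≤ (D0 - t) ^ κ := Real.rpow_nonneg (by rw [hD0]; linarith) κ
  calc A * (D0 ^ κ - (D0 - t) ^ κ) + C₃ * P * (β / K ^ (2 * D)) ^ (j t)
      ≤ A * R ^ κ + C₃ * P * 1 := by
        apply add_le_add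
        · exact mul_le_mul_of_nonneg_left (by linarith) hA0.le
        · exact mul_le_mul_of_nonneg_left h1 (by positivity)
    _ = C₃ * P * (1 + B * R ^ κ) := by rw [hA]; ring
    _ ≤ e := hn2

end Pool.Agent.Q192.PI.B
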