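import Pool.Agent.Q192.PI.BMan
import Pool.Agent.Q192.PI.B1
import Pool.Agent.Q192.PI.B2
import Pool.Agent.Q192.PI.B3
import Pool.Agent.Q192.PI.B4
import Pool.Agent.Q192.PI.B6
import Pool.Agent.Q192.PI.B7
import Pool.Agent.Q192.PI.B8
import Pool.Agent.Q192.PI.B9
import Pool.Agent.Q192.PI.B10
import Pool.Agent.Q192.PI.B11
import Pool.Agent.Q192.PI.B12
import Pool.Agent.Q192.PI.B13
import Pool.Agent.Q192.PI.B14

/-!
# Project PI, part B: the final form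
-/

set_option autoImplicit false
set_option linter.unusedSectionVars false

open Filter Topology Set Metric
open scoped Manifold ContDiff

namespace Pool.Agent.Q192.PI.B

open Pool.Agent.H721R2 Pool.Agent.H779R2.An Pool.Agent.Q130.UQ Pool.Agent.H789R2.AN
  Pool.Agent.H789R2.GP Pool.Agent.TH304.K289 Pool.Agent.TH289.L Pool.Agent.TH289
  Pool.Agent.TH289.K
open Pool.Agent.W740.TU (anosov_symm)

universe u v

/-- All lemmas are proved. -/
theorem lem : Lem.{u, v} where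
  h1 := sB1
  h2 := sB2
  h4 := sB4 sB3
  h6 := sB6
  h7 := sB7
  h8 := sB8
  h9 := sB9
  h10 := sB10
  h11 := sB11
  h12 := sB12
  h13 := sB13
  h14 := sB14

variable {E : Type*} [NormedAddCommGroup E] [NormedSpace ℝ E] [FiniteDimensional ℝ E]
  {M : Type*} [TopologicalSpace M] [T2Space M] [CompactSpace M] [ConnectedSpace M]
  [ChartedSpace E M] [IsManifold 𝓘(ℝ, E) ∞ M]

/-- The iterates of `f` have subexponential distortion on the bundle `V` of rank at least 2. -/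
def SubexpDistortion (f : M → M) (N : TangentBundle 𝓘(ℝ, E) M → ℝ)
    (V : ∀ x : M, Submodule ℝ (TangentSpace 𝓘(ℝ, E) x)) : Prop :=
  ∀ κ : ℝ, 1 < κ → ∃ C : ℝ, DistortionOn f N V C κ

/-- **Subexponential distortion on one bundle.** -/
theorem man_sub2 (f : Diffeomorph 𝓘(ℝ, E) 𝓘(ℝ, E) M M 1)
    (Es Eu : ∀ x : M, Submodule ℝ (TangentSpace 𝓘(ℝ, E) x)) (hA : IsAnosov f Es Eu)
    (N : TangentBundle 𝓘(ℝ, E) M → ℝ) (hN : IsTangentNorm N)
    (h : ((∀ x, 2 ≤ Module.finrank ℝ (Eu x)) ∧ SubexpDistortion f N Eu) ∨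
      ((∀ x, 2 ≤ Module.finrank ℝ (Es x)) ∧ SubexpDistortion f.symm N Es)) :
    TopTransitive f ∧ GPS f.toHomeomorph ∧ ∃ π : E → M, IsCoveringMap π ∧
      Function.Surjective π := by
  have hG : GPS f.toHomeomorph := by
    rcases h with ⟨h1, h2⟩ | ⟨h1, h2⟩
    · exact man_sub lem f Es Eu hA N hN h1 h2
    · exact (man_sub lem f.symm Eu Es (anosov_symm f Es Eu hA) N hN h1 h2).symm
  obtain ⟨k1, k2⟩ := man_self f Es Eu hA hG
  exact ⟨k1, hG, k2⟩

/-- **Small exponential distortion.** -/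
theorem man_quant2 (f : Diffeomorph 𝓘(ℝ, E) 𝓘(ℝ, E) M M 1)
    (Es Eu : ∀ x : M, Submodule ℝ (TangentSpace 𝓘(ℝ, E) x)) (hA : IsAnosov f Es Eu)
    (N : TangentBundle 𝓘(ℝ, E) M → ℝ) (hN : IsTangentNorm N) (C μ₁ μ₂ l₁ l₂ C₁ κ : ℝ)
    (hf : AnosovRates f N Es Eu C μ₁ μ₂ l₁ l₂) (D : ℕ) (hD : 2 ≤ D)
    (hrk : ∀ x, Module.finrank ℝ (Eu x) = D) (hκ : 1 ≤ κ) (hd : DistortionOn f N Eu C₁ κ)
    (hp : 2 * D * Real.log κ * (Real.log μ₂ - Real.log μ₁) <
      -Real.log μ₂ * Real.log l₁) :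
    TopTransitive f ∧ GPS f.toHomeomorph ∧ ∃ π : E → M, IsCoveringMap π ∧
      Function.Surjective π := by
  have hG := man_quant lem f Es Eu N hN C μ₁ μ₂ l₁ l₂ C₁ κ hf D hD hrk hκ hd hp
  obtain ⟨k1, k2⟩ := man_self f Es Eu hA hG
  exact ⟨k1, hG, k2⟩

end Pool.Agent.Q192.PI.B
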