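import Pool.Agent.Q192.PI.Stm

/-!
# Job PI-SA2 (project PI of helper192; written by helper98): one push
-/

set_option autoImplicit false

open Filter Topology Set Metric unitInterval

namespace Pool.Agent.Q192.PI

open Pool.Agent.H721R2 Pool.Agent.H789R2.AN Pool.Agent.H789R2.GP Pool.Agent.Y330.H
open Pool.Agent.TH289.K

universe u

/-- iterates of stable paths are stable paths -/
theorem pathS_iter {X : Type*} [MetricSpace X] [CompactSpace X] {g : X ≃ₜ X} (n : ℕ)
    (p : C(I, SM g)) : ∃ q : C(I, SM g), ∀ t, (q t).val = g^[n] (p t).val :=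
  Pool.Agent.TH289.L.path_iter (g := g.symm) n p

theorem pathS_iter' {X : Type*} [MetricSpace X] [CompactSpace X] {g : X ≃ₜ X} (n : ℕ)
    (p : C(I, SM g.symm)) : ∃ q : C(I, SM g.symm), ∀ t, (q t).val = g.symm^[n] (p t).val :=
  Pool.Agent.TH289.L.path_iter (g := g) n p

/-- long chains of small steps are contracted -/
theorem pieces_con {X : Type*} [MetricSpace X] {g : X ≃ₜ X} {εs α ρ : ℝ} {N : ℕ} (hα : 0 ≤ α)
    (hρ : 0 ≤ ρ) (hρε : ρ ≤ εs) (hc : Cn g εs α) {p : I → X} (hp : Pieces g ρ N p) (m : ℕ) :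
    ∀ t, dist (g^[m] (p 0)) (g^[m] (p t)) ≤ N * (α ^ m * ρ) := by
  obtain ⟨θ, hm, h0, h1, hθ⟩ := hp
  have key : ∀ i ≤ N, ∀ t, t ≤ θ i → dist (g^[m] (p 0)) (g^[m] (p t)) ≤ i * (α ^ m * ρ) := by
    intro i
    induction i with
    | zero =>
      intro _ t ht
      rw [h0] at ht
      have : t = 0 := le_antisymm ht (unitInterval.nonneg' (t := t))
      rw [this, dist_self]
      positivity
    | succ i ih =>
      intro hi t ht
      have hpos : 0 ≤ α ^ m * ρ := by positivity
      rcases le_total t (θ i) with h | h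
      · refine (ih (by omega) t h).trans ?_
        push_cast
        nlinarith
      · have a1 := ih (by omega) (θ i) le_rfl
        have a2 := hθ i (by omega) (θ i) t le_rfl (hm (Nat.le_succ i)) h ht
        have a3 := hc _ _ (a2.mono hρε) m
        have a4 : dist (p (θ i)) (p t) ≤ ρ := a2 0
        have a5 := mul_le_mul_of_nonneg_left a4 (pow_nonneg hα m)
        have a6 := dist_triangle (g^[m] (p 0)) (g^[m] (p (θ i))) (g^[m] (p t))
        push_cast
        linarith
  intro t
  exact key N le_rfl t (by rw [h1]; exact unitInterval.le_one')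

theorem sA2 : SA2.{u} := by
  intro X _ _ g εs α β δ r ρ n N hα hα1 hβ hβ1 hr hρ hε hcs hcu hLR hN p hp v hv0 hv
  have hrε : r ≤ εs := by linarith
  have hρε : ρ ≤ εs := by linarith
  obtain ⟨q, hq⟩ := pathS_iter n p
  -- the stable path is small at time n
  have h1 : ∀ s, SR g δ (q 0).val (q s).val := by
    intro s k
    rw [hq, hq, ← Function.iterate_add_apply, ← Function.iterate_add_apply]
    refine (pieces_con hα hρ.le hρε hcs hp (k + n) s).trans (le_trans ?_ hN)
    refine mul_le_mul_of_nonneg_left ?_ (Nat.cast_nonneg _)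
    refine mul_le_mul_of_nonneg_right ?_ hρ.le
    exact pow_le_pow_of_le_one hα hα1 (by omega)
  obtain ⟨R, hR, b1, b2, b3, b4⟩ := hLR q v (by rw [hq, hv0]) h1 hv
  obtain ⟨p', hp'⟩ := (hR.iter' n).pathS 1
  refine ⟨R, hR, fun s => by rw [b1, hq], b2, p', fun s => by rw [hp', iterR], ?_⟩
  obtain ⟨θ, hm, e0, e1, hθ⟩ := hp
  refine ⟨θ, hm, e0, e1, fun i hi t t' c1 c2 c3 c4 => ?_⟩
  have hpt := hθ i hi t t' c1 c2 c3 c4
  -- displacement between `p'` and `p`
  have h2 : ∀ s, ∀ k ≤ n, dist (g^[k] (p' s).val) (g^[k] (p s).val) ≤ β ^ (n - k) * r := by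
    intro s k hk
    obtain ⟨d, rfl⟩ : ∃ d, n = k + d := ⟨n - k, by omega⟩
    have f1 : g^[k] (p' s).val = g.symm^[d] (R s 1) := by
      rw [hp', Function.iterate_add_apply, iterR]
    have f2 : g^[k] (p s).val = g.symm^[d] (R s 0) := by
      rw [b1, hq, Nat.add_comm k d, Function.iterate_add_apply, iterL]
    rw [f1, f2, dist_comm, Nat.add_sub_cancel_left]
    have f3 := hcu _ _ ((b4 s 1).mono hrε) d
    have f4 : dist (R s 0) (R s 1) ≤ r := b4 s 1 0
    exact f3.trans (mul_le_mul_of_nonneg_left f4 (pow_nonneg hβ _))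
  have h3 : ∀ k ≤ n, dist (g^[k] (p' t).val) (g^[k] (p' t').val) ≤ ρ + 2 * (β ^ (n - k) * r) := by
    intro k hk
    have f1 := h2 t k hk
    have f2 := h2 t' k hk
    have f3 := hpt k
    have f4 := dist_triangle (g^[k] (p' t).val) (g^[k] (p t).val) (g^[k] (p' t').val)
    have f5 := dist_triangle (g^[k] (p t).val) (g^[k] (p t').val) (g^[k] (p' t').val)
    rw [dist_comm] at f2
    linarith
  have h4 : SR g εs (p' t).val (p' t').val := by
    intro k
    rcases le_total k n with hk | hk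
    · have f1 := h3 k hk
      have f2 : β ^ (n - k) ≤ 1 := pow_le_one₀ hβ hβ1
      nlinarith
    · obtain ⟨d, rfl⟩ : ∃ d, k = d + n := ⟨k - n, by omega⟩
      have f1 : ∀ s, g^[d + n] (p' s).val = g^[d] (R s 1) := by
        intro s
        rw [hp', Function.iterate_add_apply, iterR]
      rw [f1, f1]
      have f2 := b3 t 1 d
      have f3 := b3 t' 1 d
      have f4 := dist_triangle_left (g^[d] (R t 1)) (g^[d] (R t' 1)) (g^[d] (R 0 1))
      linarith
  intro k
  have f1 := hcs _ _ h4 k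
  have f2 := h3 0 (Nat.zero_le _)
  simp only [Function.iterate_zero, id, Nat.sub_zero] at f2
  have f3 : α ^ k ≤ 1 := pow_le_one₀ hα hα1
  have f4 := mul_le_mul_of_nonneg_right f3 (dist_nonneg (x := (p' t).val) (y := (p' t').val))
  linarith

end Pool.Agent.Q192.PI
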