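import Pool.Agent.Q192.PI.StmB

/-!
# Project PI, part B: stable holonomies with explicit time
-/

set_option autoImplicit false

namespace Pool.Agent.Q192.PI.B

open Pool.Agent.H721R2 Pool.Agent.H779R2.An Pool.Agent.Q130.UQ Filter Topology Metric

variable {X E : Type*} [MetricSpace X] [NormedAddCommGroup E] [NormedSpace ℝ E]
  {S : HypSys X E} {ε₀ Q α β K L R σ η b : ℝ} {A B : Set X} {φ : X → X} {T D : ℕ}
  {ψ : X → V D → X}

/-- Numerical consequences of the hierarchy of scales. -/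
theorem Scale.facts (h : Scale ε₀ R Q L σ η b) (hQ : 1 ≤ Q) (hL : 1 ≤ L) :
    0 < σ ∧ 0 < b ∧ 64 * η ≤ σ ∧ 65536 * σ ≤ b ∧ 65536 * (Q * σ) ≤ b ∧ 64 * (Q * η) ≤ σ := by
  have h1 := h.η0
  have h2 := h.ησ
  have h3 := h.σb
  have e1 : 64 * Q * η = 64 * (Q * η) := by ring
  have e2 : η ≤ Q * η := by nlinarith
  have hσ : 0 < σ := by nlinarith
  have e3 : Q * σ ≤ Q * L * σ := by
    have : 0 < Q * σ := by positivity
    have : Q * L * σ = Q * σ * L := by ring
    nlinarith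
  have e4 : σ ≤ Q * σ := by nlinarith
  have e5 : 65536 * Q * L * σ = 65536 * (Q * L * σ) := by ring
  refine ⟨hσ, by nlinarith, by nlinarith, by nlinarith, by nlinarith, by nlinarith⟩

/-- Unstable closeness from closeness in the past and recent distances. -/
theorem URel_of_dist {c : ℝ} {x y : X} (n : ℕ) (h : S.URel c (S.g.symm^[n] x) (S.g.symm^[n] y))
    (h' : ∀ j < n, dist (S.g.symm^[j] x) (S.g.symm^[j] y) ≤ c) : S.URel c x y := by
  intro k
  rcases Nat.lt_or_ge k n with hk | hk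
  · exact h' k hk
  · have h1 := h (k - n)
    rw [← Function.iterate_add_apply, ← Function.iterate_add_apply,
      Nat.sub_add_cancel hk] at h1
    exact h1

/-- Unstable closeness after `n` steps, from the Lipschitz bound. -/
theorem URel_fwd (hS : Sc S ε₀ Q α β K L) {c : ℝ} {x y : X} (n : ℕ) (h : S.URel c x y) :
    S.URel (L ^ n * c) (S.g^[n] x) (S.g^[n] y) := by
  have hL := hS.L1
  have hc : 0 ≤ c := dist_nonneg.trans h.dist_le
  have hl : ∀ j : ℕ, dist (S.g^[j] x) (S.g^[j] y) ≤ L ^ j * c := by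
    intro j
    induction j with
    | zero => simpa using h.dist_le
    | succ j ih =>
      rw [Function.iterate_succ_apply', Function.iterate_succ_apply']
      calc _ ≤ L * dist (S.g^[j] x) (S.g^[j] y) := hS.lip _ _
        _ ≤ L * (L ^ j * c) := mul_le_mul_of_nonneg_left ih (by linarith)
        _ = _ := by ring
  apply URel_of_dist n
  · rw [iter_symm_iter, iter_symm_iter]
    exact h.mono (le_mul_of_one_le_left hc (one_le_pow₀ hL))
  · intro j hj
    rw [symm_iter_iter_le S hj.le, symm_iter_iter_le S hj.le]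
    exact (hl _).trans (mul_le_mul_of_nonneg_right (pow_le_pow_right₀ hL (by omega)) hc)

/-- Unstable closeness at an earlier time. -/
theorem URel_earlier {c : ℝ} {x y : X} {m n : ℕ} (hmn : m ≤ n)
    (h : S.URel c (S.g^[n] x) (S.g^[n] y)) : S.URel c (S.g^[m] x) (S.g^[m] y) := by
  have h1 := h.iter (n - m)
  rwa [symm_iter_iter_le S (Nat.sub_le _ _), symm_iter_iter_le S (Nat.sub_le _ _),
    Nat.sub_sub_self hmn] at h1

theorem HolT.mono (h : HolT S σ η T A φ) (hB : B ⊆ A) : HolT S σ η T B φ where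
  ua := fun a ha a' ha' => h.ua a (hB ha) a' (hB ha')
  uu := fun a ha a' ha' => h.uu a (hB ha) a' (hB ha')
  inj := h.inj.mono hB
  rel := fun a ha => h.rel a (hB ha)
  loc := fun a ha a' ha' => h.loc a (hB ha) a' (hB ha')

/-- Distances of the images at times `≥ T`. -/
theorem HolT.dist_near (h : HolT S σ η T A φ) {a : X} (ha : a ∈ A) {N : ℕ} (hN : T ≤ N) :
    dist (S.g^[N] a) (S.g^[N] (φ a)) ≤ η := by
  have h1 := h.rel a ha (N - T)
  rwa [← Function.iterate_add_apply, ← Function.iterate_add_apply, Nat.sub_add_cancel hN] at h1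

theorem HolT.dist_image (h : HolT S σ η T A φ) {a a' : X} (ha : a ∈ A) (ha' : a' ∈ A) {N : ℕ}
    (hN : T ≤ N) : dist (S.g^[N] (φ a)) (S.g^[N] (φ a')) ≤
      dist (S.g^[N] a) (S.g^[N] a') + 2 * η := by
  have h1 := h.dist_near ha hN
  have h2 := h.dist_near ha' hN
  have h3 := dist_triangle4 (S.g^[N] (φ a)) (S.g^[N] a) (S.g^[N] a') (S.g^[N] (φ a'))
  rw [dist_comm (S.g^[N] (φ a)) (S.g^[N] a)] at h3
  linarith

/-- Locality at later times, with a precise constant. -/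
theorem HolT.loc' (hG : Geo S ε₀) (hσ : 2 * σ ≤ ε₀) (h : HolT S σ η T A φ) {N : ℕ} (hN : T ≤ N)
    {a a' : X} (ha : a ∈ A) (ha' : a' ∈ A) {c : ℝ} (hc : c ≤ σ)
    (hr : S.URel c (S.g^[N] a) (S.g^[N] a')) :
    S.URel (c + 2 * η) (S.g^[N] (φ a)) (S.g^[N] (φ a')) := by
  have h1 : S.URel c (S.g^[T] a) (S.g^[T] a') := URel_earlier hN hr
  have h2 := hG.URel_dist ((h.loc a ha a' ha' (h1.mono hc)).mono hσ)
  have h3 := h.dist_image ha ha' le_rfl
  have h4 := h1.dist_le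
  apply URel_of_dist (N - T)
  · rw [symm_iter_iter_le S (Nat.sub_le _ _), symm_iter_iter_le S (Nat.sub_le _ _),
      Nat.sub_sub_self hN]
    exact h2.mono (by linarith)
  · intro j hj
    rw [symm_iter_iter_le S (by omega), symm_iter_iter_le S (by omega)]
    have h5 := h.dist_image ha ha' (N := N - j) (by omega)
    have h6 := hr j
    rw [symm_iter_iter_le S (by omega), symm_iter_iter_le S (by omega)] at h6
    linarith

theorem HolT.later (hG : Geo S ε₀) (hσ : 2 * σ ≤ ε₀) (hη : 2 * η ≤ σ) (h : HolT S σ η T A φ)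
    {N : ℕ} (hN : T ≤ N) : HolT S σ η N A φ where
  ua := h.ua
  uu := h.uu
  inj := h.inj
  rel := fun a ha => by
    have h1 := (h.rel a ha).iter (N - T)
    rwa [← Function.iterate_add_apply, ← Function.iterate_add_apply,
      Nat.sub_add_cancel hN] at h1
  loc := fun a ha a' ha' hr => (h.loc' hG hσ hN ha ha' le_rfl hr).mono (by linarith)

/-- The holonomy seen at the time `j`. -/
theorem HolT.shift (hG : Geo S ε₀) (hσ : 2 * σ ≤ ε₀) (hη : 2 * η ≤ σ) (h : HolT S σ η T A φ)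
    (j : ℕ) : HolT S σ η (T - j) (S.g^[j] '' A) (fun z => S.g^[j] (φ (S.g.symm^[j] z))) := by
  have h0 : HolT S σ η (T - j + j) A φ := h.later hG hσ hη (by omega)
  refine ⟨?_, ?_, ?_, ?_, ?_⟩
  · rintro _ ⟨a, ha, rfl⟩ _ ⟨a', ha', rfl⟩
    exact (h.ua a ha a' ha').iter j
  · rintro _ ⟨a, ha, rfl⟩ _ ⟨a', ha', rfl⟩
    simp only [iter_symm_iter]
    exact (h.uu a ha a' ha').iter j
  · rintro _ ⟨a, ha, rfl⟩ _ ⟨a', ha', rfl⟩ he
    simp only [iter_symm_iter] at he
    have := (S.g.injective.iterate j) he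
    rw [h.inj ha ha' this]
  · rintro _ ⟨a, ha, rfl⟩
    simp only [iter_symm_iter, ← Function.iterate_add_apply]
    exact h0.rel a ha
  · rintro _ ⟨a, ha, rfl⟩ _ ⟨a', ha', rfl⟩ h2
    simp only [iter_symm_iter, ← Function.iterate_add_apply] at h2 ⊢
    exact h0.loc a ha a' ha' h2

/-- Locality along chains. -/
theorem HolT.chain (hG : Geo S ε₀) (h : HolT S σ η T A φ) {e : ℝ} (he0 : 0 ≤ e) (hη : 0 ≤ η)
    (he : e + 2 * η + 2 * σ ≤ ε₀) {m : ℕ} {c : ℕ → X} (hc : ∀ i ≤ m, c i ∈ A)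
    (hs : ∀ i < m, S.URel σ (S.g^[T] (c i)) (S.g^[T] (c (i + 1))))
    (hd : ∀ i ≤ m, dist (S.g^[T] (c 0)) (S.g^[T] (c i)) ≤ e) :
    S.URel (e + 2 * η) (S.g^[T] (φ (c 0))) (S.g^[T] (φ (c m))) := by
  have key : ∀ i ≤ m, S.URel (e + 2 * η) (S.g^[T] (φ (c 0))) (S.g^[T] (φ (c i))) := by
    intro i
    induction i with
    | zero =>
      intro _ k
      rw [dist_self]
      positivity
    | succ i ih =>
      intro hi
      have h1 := ih (by omega)
      have h2 := h.loc _ (hc i (by omega)) _ (hc (i + 1) hi) (hs i (by omega))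
      have h3 := hG.URel_dist ((h1.trans h2).mono he)
      have h4 := h.dist_image (hc 0 (by omega)) (hc (i + 1) hi) le_rfl
      have h5 := hd (i + 1) hi
      exact h3.mono (by linarith)
  exact key m le_rfl

/-- Points of a small unstable disc and its chart. -/
theorem Cht.pt (hC : Cht S D ε₀ R ψ) {x z : X} {c : ℝ} (hc : c ≤ R / 2)
    (h : S.URel c x z) : ∃ v, ‖v‖ ≤ 2 * dist x z ∧ ‖v‖ ≤ R ∧ ψ x v = z := by
  obtain ⟨v, hv, rfl⟩ := hC.surj x z (h.mono hc)
  have hR := hC.pos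
  refine ⟨v, ?_, hv, rfl⟩
  have h1 := hC.ge x v 0 hv (by rw [norm_zero]; exact hR.le)
  rw [hC.zero, sub_zero, dist_comm] at h1
  exact h1

theorem Cht.urel (hG : Geo S ε₀) (hC : Cht S D ε₀ R ψ) {x : X} {v w : V D} (hv : ‖v‖ ≤ R)
    (hw : ‖w‖ ≤ R) : S.URel (2 * ‖v - w‖) (ψ x v) (ψ x w) :=
  (hG.URel_dist (hC.rel x v w hv hw)).mono (hC.le x v w hv hw)

theorem Cht.urel0 (hG : Geo S ε₀) (hC : Cht S D ε₀ R ψ) {x : X} {v : V D} (hv : ‖v‖ ≤ R) :
    S.URel (2 * ‖v‖) x (ψ x v) := by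
  have h := hC.urel hG (x := x) (v := 0) (w := v) (by rw [norm_zero]; exact hC.pos.le) hv
  rwa [hC.zero, zero_sub, norm_neg] at h

/-- Local surjectivity. -/
theorem HolT.surj (hS : Sc S ε₀ Q α β K L) (hC : Cht S D ε₀ R ψ) (h : HolT S σ η T A φ)
    (hη : 0 ≤ η) (hσ : 0 < σ) {a p : X} (ha : a ∈ A) {c : ℝ} (hc0 : 0 ≤ c)
    (hcR : 8 * (Q * (c + η)) ≤ R) (hcε : 8 * (Q * (c + η)) + 2 * σ ≤ ε₀)
    (hA : ∀ z, S.URel (4 * (Q * (c + η))) (S.g^[T] a) (S.g^[T] z) → z ∈ A)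
    (hp : S.URel c (S.g^[T] (φ a)) p) :
    ∃ z ∈ A, S.g^[T] (φ z) = p ∧ S.URel (Q * (c + η)) (S.g^[T] a) (S.g^[T] z) := by
  have hG := hS.geo
  have hQ := hS.Q1
  set c' := Q * (c + η) with hc'
  have hc'0 : 0 ≤ c' := by positivity
  have hcc : c + η ≤ c' := by
    have : 0 ≤ c + η := by positivity
    nlinarith
  have hd : dist p (S.g^[T] a) ≤ c + η := by
    have h1 := hp.dist_le
    have h2 := h.dist_near ha le_rfl
    have h3 := dist_triangle p (S.g^[T] (φ a)) (S.g^[T] a)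
    rw [dist_comm p (S.g^[T] (φ a)), dist_comm (S.g^[T] (φ a)) (S.g^[T] a)] at h3
    linarith
  obtain ⟨w, hw1, hw2⟩ := hS.br p (S.g^[T] a) (by linarith)
  have hQd : Q * dist p (S.g^[T] a) ≤ c' := mul_le_mul_of_nonneg_left hd (by linarith)
  have hw1' : S.SRel c' p w := hw1.mono hQd
  have hw2' : S.URel c' (S.g^[T] a) w := (hw2.mono hQd).symm
  obtain ⟨v, hv1, hv2, hv3⟩ := hC.pt (by linarith) hw2'
  have hv4 : ‖v‖ ≤ 2 * c' := hv1.trans (by linarith [hw2'.dist_le])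
  obtain ⟨m₀, hm₀⟩ := exists_nat_gt (2 * ‖v‖ / σ)
  set m := m₀ + 1 with hm
  have hm0 : (0 : ℝ) < m := by rw [hm]; positivity
  have hmσ : 2 * ‖v‖ / m ≤ σ := by
    rw [div_le_iff₀ hm0]
    rw [div_lt_iff₀ hσ] at hm₀
    rw [hm]
    push_cast
    nlinarith
  have hfr : ∀ i ≤ m, ‖((i : ℝ) / m) • v‖ ≤ ‖v‖ := by
    intro i hi
    have h1 : (i : ℝ) ≤ m := by exact_mod_cast hi
    rw [norm_smul, Real.norm_eq_abs, abs_of_nonneg (by positivity)]
    exact mul_le_of_le_one_left (norm_nonneg _) (div_le_one_of_le₀ h1 hm0.le)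
  set y : ℕ → X := fun i => ψ (S.g^[T] a) (((i : ℝ) / m) • v) with hy
  have hy0 : y 0 = S.g^[T] a := by
    simp only [hy, Nat.cast_zero, zero_div, zero_smul, hC.zero]
  have hym : y m = w := by
    simp only [hy]
    rw [div_self hm0.ne', one_smul, hv3]
  have hyu : ∀ i ≤ m, S.URel (4 * c') (S.g^[T] a) (y i) := by
    intro i hi
    refine (hC.urel0 hG ((hfr i hi).trans hv2)).mono ?_
    linarith [hfr i hi]
  have hback : ∀ z, S.g^[T] (S.g.symm^[T] z) = z := fun z => iter_iter_symm S T z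
  have hyA : ∀ i ≤ m, S.g.symm^[T] (y i) ∈ A := by
    intro i hi
    apply hA
    rw [hback]
    exact hyu i hi
  have h1 := h.chain hG (e := 4 * c') (by positivity) hη (by nlinarith) (m := m)
    (c := fun i => S.g.symm^[T] (y i)) hyA
    (by
      intro i hi
      simp only [hback]
      have h2 := hC.urel hG (x := S.g^[T] a) ((hfr i hi.le).trans hv2) ((hfr (i + 1) hi).trans hv2)
      refine h2.mono ?_
      rw [← sub_smul, norm_smul, Real.norm_eq_abs]
      have e1 : (i : ℝ) / m - ((i + 1 : ℕ) : ℝ) / m = -(1 / m) := by push_cast; ring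
      rw [e1, abs_neg, abs_of_nonneg (by positivity)]
      calc 2 * (1 / (m : ℝ) * ‖v‖) = 2 * ‖v‖ / m := by ring
        _ ≤ σ := hmσ)
    (by
      intro i hi
      simp only [hback, hy0]
      exact (hyu i hi).dist_le)
  simp only [hy0, hym, iter_symm_iter] at h1
  set z := S.g.symm^[T] w with hz
  have hzA : z ∈ A := by
    have := hyA m le_rfl
    rwa [hym] at this
  have hgz : S.g^[T] z = w := hback w
  refine ⟨z, hzA, ?_, by rw [hgz]; exact hw2'⟩
  have h2 : S.SRel (c' + η) p (S.g^[T] (φ z)) := by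
    have h3 := h.rel z hzA
    rw [hgz] at h3
    exact hw1'.trans h3
  have h3 : S.URel (c + (4 * c' + 2 * η)) p (S.g^[T] (φ z)) := hp.symm.trans h1
  exact (hG.uniq _ _ (h2.mono (by nlinarith)) (h3.mono (by nlinarith))).symm

/-- Continuity for the leaf metrics. -/
theorem HolT.cont (hS : Sc S ε₀ Q α β K L) (h : HolT S σ η T A φ) (hσ0 : 0 < σ)
    (hσ : 2 * σ ≤ ε₀) (hη : 2 * η ≤ σ) {ε : ℝ} (hε : 0 < ε) :
    ∃ δ > 0, ∀ a ∈ A, ∀ a' ∈ A, S.URel δ a a' → S.URel ε (φ a) (φ a') := by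
  have hG := hS.geo
  have hL := hS.L1
  obtain ⟨n₀, hn₀⟩ := exists_pow_lt (2 * σ) hε
  set N := T + n₀ with hN
  have hLN : (0 : ℝ) < L ^ N := by positivity
  refine ⟨σ / L ^ N, by positivity, fun a ha a' ha' hr => ?_⟩
  have h1 := URel_fwd hS N hr
  rw [mul_div_cancel₀ _ hLN.ne'] at h1
  have h2 := (h.loc' hG hσ (N := N) (by omega) ha ha' le_rfl h1).mono (by linarith : σ + 2 * η ≤ 2 * σ)
  have h3 := URel_decay hG hσ h2 N
  rw [iter_symm_iter, iter_symm_iter] at h3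
  exact h3.mono (hn₀ N (by omega))

/-- Openness for the leaf metrics. -/
theorem HolT.open (hS : Sc S ε₀ Q α β K L) (hC : Cht S D ε₀ R ψ) (h : HolT S σ η T A φ)
    (hsc : Scale ε₀ R Q L σ η b) {a : X} {ε : ℝ} (hε : 0 < ε)
    (hA : ∀ z, S.URel ε a z → z ∈ A) :
    ∃ δ > 0, ∀ p, S.URel δ (φ a) p → ∃ z, S.URel ε a z ∧ φ z = p := by
  have hG := hS.geo
  have hL := hS.L1
  have hQ := hS.Q1
  obtain ⟨hσ0, hb0, f1, f2, f3, f4⟩ := hsc.facts hQ hL
  have hη0 := hsc.η0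
  have hbR := hsc.bR
  have hbε := hsc.bε
  have ha : a ∈ A := hA a fun k => by rw [dist_self]; exact hε.le
  have hc' : Q * (σ + η) ≤ 2 * (Q * σ) := by nlinarith
  have hc'0 : 0 ≤ Q * (σ + η) := by positivity
  obtain ⟨n₀, hn₀⟩ := exists_pow_lt (4 * (Q * (σ + η))) hε
  set N := T + n₀ with hN
  have hLN : (0 : ℝ) < L ^ N := by positivity
  have hT : HolT S σ η N A φ := h.later hG (by linarith) (by linarith) (by omega)
  have hA' : ∀ z, S.URel (4 * (Q * (σ + η))) (S.g^[N] a) (S.g^[N] z) → S.URel ε a z := by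
    intro z hz
    have h3 := URel_decay hG (by linarith) hz N
    rw [iter_symm_iter, iter_symm_iter] at h3
    exact h3.mono (hn₀ N (by omega))
  refine ⟨σ / L ^ N, by positivity, fun p hp => ?_⟩
  have h1 := URel_fwd hS N hp
  rw [mul_div_cancel₀ _ hLN.ne'] at h1
  obtain ⟨z, hz, hz1, hz2⟩ := hT.surj hS hC hη0.le hσ0 ha hσ0.le (by linarith) (by linarith)
    (fun z hz => hA z (hA' z hz)) h1
  exact ⟨z, hA' z (hz2.mono (by linarith)), (S.g.injective.iterate N) hz1⟩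

end Pool.Agent.Q192.PI.B
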