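import Pool.Agent.Q192.PI.A2

/-!
# Job PI-SA4 (project PI of helper192; written by helper98): rectangles over nice paths
-/

set_option autoImplicit false

open Filter Topology Set Metric unitInterval

namespace Pool.Agent.Q192.PI

open Pool.Agent.H721R2 Pool.Agent.H789R2.AN Pool.Agent.H789R2.GP Pool.Agent.Y330.H
open Pool.Agent.TH289.K

universe u

/-- backward iterates of stable paths are stable paths -/
theorem path_back {X : Type*} [MetricSpace X] [CompactSpace X] {g : X ≃ₜ X} (n : ℕ)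
    (v : C(I, SM g.symm)) : ∃ q : C(I, SM g.symm), ∀ t, (q t).val = g^[n] (v t).val := by
  induction n with
  | zero => exact ⟨v, fun t => rfl⟩
  | succ j ih =>
    obtain ⟨v', h1⟩ := ih
    obtain ⟨v'', h2⟩ := lift_map_path (g := g) (φ := g) (fun x => rfl) v'
    refine ⟨v'', fun t => ?_⟩
    rw [h2, h1, ← Function.iterate_succ_apply' g]

theorem path_back' {X : Type*} [MetricSpace X] [CompactSpace X] {g : X ≃ₜ X} (n : ℕ)
    (p : C(I, SM g)) : ∃ q : C(I, SM g), ∀ t, (q t).val = g.symm^[n] (p t).val :=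
  path_back (g := g.symm) n p

theorem sA4 (h : SA3.{u}) : SA4.{u} := by
  intro X _ _ g c hg εs α β δ r ρ ms mu hα hα1 hβ hβ1 hr hρ hε hcs hcu hLR hgr
  intro N J τ v h0 hτ hv
  obtain ⟨k, n, hkn, g1, g2⟩ := hgr N J
  obtain ⟨d, rfl⟩ : ∃ d, n = d + k := ⟨n - k, by omega⟩
  rw [Nat.add_sub_cancel] at g2
  obtain ⟨p, hp⟩ := path_back' k τ
  obtain ⟨w, hw⟩ := path_back d v
  have hpP : Pieces g ρ (ms ^ k * N) (fun t => (p t).val) := by
    have := hτ k
    simpa only [hp] using this
  have hwP : Pieces g.symm δ (mu ^ d * J) (fun t => (w t).val) := by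
    have := hv d
    have e : (fun t => (w t).val) = fun t => g.symm.symm^[d] (v t).val := by
      funext t
      rw [hw]
      rfl
    rw [e]
    exact this
  have hgp : ∀ s, g^[d + k] (p s).val = g^[d] (τ s).val := by
    intro s
    rw [hp, Function.iterate_add_apply, iterR]
  obtain ⟨R, hR, b1, b2⟩ := h X g c hg εs α β δ r ρ (d + k) (ms ^ k * N) (mu ^ d * J) hα hα1 hβ hβ1
    hr hρ hε hcs hcu hLR g1 g2 p hpP w (by rw [hw, hgp, h0]) hwP
  refine ⟨fun s t => g.symm^[d] (R s t), hR.iter' d, fun s => ?_, fun t => ?_⟩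
  · show g.symm^[d] (R s 0) = _
    rw [b1, hgp, iterL]
  · show g.symm^[d] (R 0 t) = _
    rw [b2, hw, iterL]

end Pool.Agent.Q192.PI
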