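import Pool.Agent.Q192.PI.Stm

/-!
# Project PI, `SA6`: all unstable paths lift
-/

set_option autoImplicit false
set_option linter.unusedSectionVars false

open Filter Topology Set Metric unitInterval

namespace Pool.Agent.Q192.PI

open Pool.Agent.H721R2 Pool.Agent.H789R2.AN Pool.Agent.H789R2.GP Pool.Agent.Y330.H
open Pool.Agent.TH289.K Pool.Agent.TH289.L Pool.Agent.TH304.K289

universe u

section

variable {X : Type u} [MetricSpace X] [CompactSpace X] {g : X ≃ₜ X} {c : ℝ}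

theorem a6_path_back (j : ℕ) (v : C(I, SM g)) : ∃ v' : C(I, SM g),
    ∀ t, (v' t).val = g.symm^[j] (v t).val := by
  have hc : ∀ x, g.symm (g x) = g (g.symm x) := fun x => by
    rw [g.symm_apply_apply, g.apply_symm_apply]
  induction j with
  | zero => exact ⟨v, fun t => rfl⟩
  | succ j ih =>
    obtain ⟨v', h1⟩ := ih
    refine ⟨(SM.map hc).comp v', fun t => ?_⟩
    show g.symm (v' t).val = _
    rw [h1, Function.iterate_succ_apply']

/-- `SA6`, part (a) -/
theorem sA6_a {ρ : ℝ} {ms : ℕ} (hR : Rad g ρ ms) {a s : X} (h : WS g a s) :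
    ∃ (τ : C(I, SM g)) (N : ℕ), (τ 0).val = a ∧ (τ 1).val = s ∧
      Nice g ρ ms N (fun r => (τ r).val) := by
  obtain ⟨δ', hδ', hH⟩ := hR
  obtain ⟨m, hm⟩ := h.eventually_lt hδ'
  obtain ⟨H, h0, h1, -, h3⟩ := hH (g^[m] a) (ContinuousMap.const I ⟨g^[m] s⟩) (fun t k => by
    show dist (g^[k] (g^[m] a)) (g^[k] (g^[m] s)) ≤ δ'
    rw [← Function.iterate_add_apply, ← Function.iterate_add_apply]
    exact (hm (k + m) (by omega)).le)
  let τ' : C(I, SM g) := ⟨fun r => H (r, 0), by fun_prop⟩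
  obtain ⟨τ, hτ⟩ := a6_path_back m τ'
  have hτ2 : ∀ r, (τ r).val = g.symm^[m] (H (r, 0)).val := hτ
  refine ⟨τ, ms ^ m, ?_, ?_, ?_⟩
  · rw [hτ2, h0, iterL]
  · rw [hτ2, h1]
    exact iterL g m s
  · intro k
    have h4 := h3 0 (k + m)
    rw [mul_one, pow_add] at h4
    simp only [hτ2]
    simpa only [Function.iterate_add_apply] using h4

/-- `SA6`, part (b): small paths -/
theorem sA6_b (hg : LP g c) {ρ δ δ' : ℝ} {ms mu : ℕ} (hR : Rad g ρ ms)
    (hU : ∀ (a : X) (υ : C(I, SM g.symm)), (∀ t, SR g.symm δ' a (υ t).val) →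
      ∃ H : C(I × I, SM g.symm), (∀ t, (H (0, t)).val = a) ∧ (∀ t, (H (1, t)).val = (υ t).val) ∧
        (∀ r t, (υ t).val = a → (H (r, t)).val = a) ∧
        ∀ t, Nice g.symm δ mu 1 (fun r => (H (r, t)).val))
    (hRect : Rect g ρ δ ms mu) {a s : X} (h : WS g a s) (υ : C(I, SM g.symm))
    (h0 : (υ 0).val = a) (hs : ∀ t, SR g.symm δ' a (υ t).val) :
    ∃ Γ : C(I, Pr g), (Γ 0).y = s ∧ ∀ t, (Γ t).x = (υ t).val := by
  obtain ⟨τ, N, hτ0, hτ1, hτN⟩ := sA6_a hR h
  obtain ⟨H, b0, b1, b2, b3⟩ := hU a υ hs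
  let w : I → C(I, SM g.symm) := fun t => ⟨fun r => H (r, t), by fun_prop⟩
  have key : ∀ t : I, ∃ Γ : C(I, Pr g), (∀ r, (Γ r).x = (H (r, t)).val) ∧ (Γ 0).y = s := by
    intro t
    obtain ⟨R, hRc, c1, c2⟩ := hRect N 1 τ (w t)
      (by rw [hτ0]; exact (b0 t).symm) hτN (b3 t)
    obtain ⟨Γ, d1, d2⟩ := hRc.strip 0 1
    refine ⟨Γ, fun r => ?_, ?_⟩
    · rw [d1, c2]
      rfl
    · rw [d2, c1, hτ1]
  choose Γ e1 e2 using key
  have hl : IsLocalHomeomorph (Pr.fst : Pr g → SM g.symm) := fst_isLocalHomeomorph hg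
  have hcont : Continuous (fun p : I × I => Γ p.2 p.1) := by
    refine hl.continuous_lift (T2Space.isSeparatedMap (Pr.fst : Pr g → SM g.symm)) H ?_ ?_ ?_
    · funext p
      exact SM.ext (e1 p.2 p.1)
    · have : (fun t : I => Γ t 0) = fun _ => (⟨a, s, h⟩ : Pr g) := by
        funext t
        refine Pr.ext ?_ (e2 t)
        rw [e1, b0]
      show Continuous fun t : I => Γ t 0
      rw [this]
      exact continuous_const
    · intro t
      exact (Γ t).continuous
  let Γ' : C(I, Pr g) := ⟨fun t => Γ t 1, hcont.comp (by fun_prop : Continuous fun t : I => ((1 : I), t))⟩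
  refine ⟨Γ', ?_, fun t => ?_⟩
  · show (Γ 0 1).y = s
    have h5 := strip_unique hg (Γ 0) (ContinuousMap.const I (⟨a, s, h⟩ : Pr g))
      (fun r => by rw [e1, b2 r 0 h0]; rfl) (t₀ := 0) (by rw [e2]; rfl) 1
    rw [h5]
    rfl
  · show (Γ t 1).x = _
    rw [e1, b1]

theorem const_hi (hg : LP g c) (Γ : C(I, Pr g)) (r : I) (h : ∀ t ≥ r, (Γ t).x = (Γ 1).x) :
    ∀ t ≥ r, Γ t = Γ 1 := by
  let Γ₁ : C(I, Pr g) := ⟨fun t => Γ (max t r), by fun_prop⟩
  have e1 : ∀ t, (Γ₁ t).x = (Γ 1).x := fun t => h _ (le_max_right _ _)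
  have e2 := strip_unique hg Γ₁ (ContinuousMap.const I (Γ 1)) (fun t => by rw [e1]; rfl) (t₀ := 1)
    (by
      show (Γ (max 1 r)).y = (Γ 1).y
      rw [max_eq_left le_one'])
  intro t ht
  have e3 := e2 t
  change (Γ (max t r)).y = (Γ 1).y at e3
  rw [max_eq_left ht] at e3
  exact Pr.ext (h t ht) e3

theorem const_lo (hg : LP g c) (Γ : C(I, Pr g)) (r : I) (h : ∀ t ≤ r, (Γ t).x = (Γ 0).x) :
    ∀ t ≤ r, Γ t = Γ 0 := by
  let Γ₁ : C(I, Pr g) := ⟨fun t => Γ (min t r), by fun_prop⟩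
  have e1 : ∀ t, (Γ₁ t).x = (Γ 0).x := fun t => h _ (min_le_right _ _)
  have e2 := strip_unique hg Γ₁ (ContinuousMap.const I (Γ 0)) (fun t => by rw [e1]; rfl) (t₀ := 0)
    (by
      show (Γ (min 0 r)).y = (Γ 0).y
      rw [min_eq_left nonneg'])
  intro t ht
  have e3 := e2 t
  change (Γ (min t r)).y = (Γ 0).y at e3
  rw [min_eq_left ht] at e3
  exact Pr.ext (h t ht) e3

end

theorem sA6 : SA6.{u} := by
  intro X _ _ g c hg ρ δ ms mu hR hU hRect a s h υ h0
  obtain ⟨δ', hδ', hU'⟩ := hU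
  have hu := CompactSpace.uniformContinuous_of_continuous υ.continuous
  rw [Metric.uniformContinuous_iff] at hu
  obtain ⟨κ, hκ, hκ1⟩ := hu δ' hδ'
  have hκ2 : ∀ t t' : I, dist t t' < κ → SR g.symm δ' (υ t).val (υ t').val := fun t t' ht =>
    (SM.dist_le _ _ hδ'.le).1 (hκ1 ht).le
  have key : ∀ r : I, ∃ Γ : C(I, Pr g), (Γ 0).y = s ∧ ∀ t, (Γ t).x = (υ (min t r)).val := by
    refine interval_induct (S := fun r => ∃ Γ : C(I, Pr g), (Γ 0).y = s ∧
      ∀ t, (Γ t).x = (υ (min t r)).val) hκ ?_ ?_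
    · refine ⟨ContinuousMap.const I ⟨a, s, h⟩, rfl, fun t => ?_⟩
      show a = _
      rw [min_eq_right nonneg', h0]
    · intro r hr r' hrr
      rcases le_total r' r with hle | hle
      · exact hr r' hle
      obtain ⟨Γ, e1, e2⟩ := hr r le_rfl
      have e3 : (Γ 1).x = (υ r).val := by rw [e2, min_eq_right le_one']
      let υ' : C(I, SM g.symm) := ⟨fun t => υ (max r (min t r')), by fun_prop⟩
      have hυ' : ∀ t, (υ' t).val = (υ (max r (min t r'))).val := fun t => rfl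
      have hυ0 : (υ' 0).val = (Γ 1).x := by
        rw [hυ', min_eq_left nonneg', max_eq_left nonneg', e3]
      obtain ⟨Γ', f1, f2⟩ := sA6_b hg hR hU' hRect (a := (Γ 1).x) (s := (Γ 1).y) (Γ 1).h υ' hυ0
        (fun t => by
          rw [e3]
          apply hκ2
          refine lt_of_le_of_lt ?_ hrr
          have g1 : r ≤ max r (min t r') := le_max_left _ _
          have g2 : max r (min t r') ≤ r' := max_le hle (min_le_right _ _)
          have g3 : ((r : I) : ℝ) ≤ (max r (min t r') : I) := g1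
          have g4 : ((max r (min t r') : I) : ℝ) ≤ r' := g2
          rw [Subtype.dist_eq, Subtype.dist_eq, Real.dist_eq, Real.dist_eq, abs_sub_comm,
            abs_of_nonneg (by linarith), abs_sub_comm, abs_of_nonneg (by linarith)]
          linarith)
      have c1 : Γ r = Γ 1 := by
        refine const_hi hg Γ r (fun t ht => ?_) r le_rfl
        rw [e2, e2, min_eq_right ht, min_eq_right le_one']
      have c2 : Γ' r = Γ' 0 := by
        refine const_lo hg Γ' r (fun t ht => ?_) r le_rfl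
        rw [f2, f2, hυ', hυ', min_eq_left (ht.trans hle), max_eq_left ht, min_eq_left nonneg',
          max_eq_left nonneg']
      have c3 : Γ' 0 = Γ 1 := Pr.ext (by rw [f2, hυ0]) f1
      have hcont : Continuous fun t : I => if t ≤ r then Γ t else Γ' t := by
        refine Continuous.if_le Γ.continuous Γ'.continuous continuous_id continuous_const ?_
        intro t ht
        have ht' : t = r := ht
        rw [ht', c1, c2, c3]
      refine ⟨⟨_, hcont⟩, ?_, fun t => ?_⟩
      · show (if (0 : I) ≤ r then Γ 0 else Γ' 0).y = s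
        rw [if_pos nonneg', e1]
      · show (if t ≤ r then Γ t else Γ' t).x = _
        split_ifs with ht
        · rw [e2, min_eq_left ht, min_eq_left (ht.trans hle)]
        · have ht' : r ≤ t := le_of_lt (not_le.1 ht)
          rw [f2, hυ', max_eq_right (le_min ht' hle)]
  obtain ⟨Γ, e1, e2⟩ := key 1
  exact ⟨(Γ 1).y, Γ, e1, rfl, fun t => by rw [e2, min_eq_left le_one']⟩

end Pool.Agent.Q192.PI
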