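import Pool.Agent.Q192.PI.Stm

/-!
# Project PI, `SA7`: assembly for hyperbolic systems
-/

set_option autoImplicit false
set_option linter.unusedSectionVars false

open Filter Topology Set Metric unitInterval

namespace Pool.Agent.Q192.PI

open Pool.Agent.H721R2 Pool.Agent.H789R2.AN Pool.Agent.H789R2.GP Pool.Agent.Y330.H
open Pool.Agent.TH289.K Pool.Agent.TH289.L Pool.Agent.TH304.K289

universe u v

theorem sA7 (h1 : SA1.{u}) (h4 : SA4.{u}) (h5 : SA5.{u, v}) (h6 : SA6.{u}) : SA7.{u, v} := by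
  intro X E _ _ _ _ _ S ds du ms mu α β hds hdu hα hβ hα2 hβ2 hms hmu hgr
  obtain ⟨c, hg⟩ := exists_LP S
  obtain ⟨ε₁, hε₁, hc1⟩ := S.contraction_iter α hα
  obtain ⟨ε₂, hε₂, hc2⟩ := S.symm.contraction_iter β hβ
  have hα0 : 0 ≤ α := S.a_nonneg.trans hα.le
  have hβ0 : 0 ≤ β := S.b_nonneg.trans hβ.le
  obtain ⟨εs, hεs0, hεs1, hεs2⟩ : ∃ εs > 0, εs ≤ ε₁ ∧ εs ≤ ε₂ :=
    ⟨min ε₁ ε₂, lt_min hε₁ hε₂, min_le_left _ _, min_le_right _ _⟩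
  obtain ⟨ρ, hρ⟩ : ∃ ρ, ρ = εs / 4 := ⟨_, rfl⟩
  have hρ0 : 0 < ρ := by rw [hρ]; positivity
  obtain ⟨δ, hδ, hLR⟩ := h1 X S.g c hg ρ hρ0
  have hC1 : Cn S.g εs α := fun x y hxy k => hc1 x y (fun j => (hxy j).trans hεs1) k
  have hC2 : Cn S.g.symm εs β := fun x y hxy k => hc2 x y (fun j => (hxy j).trans hεs2) k
  have hRect : Rect S.g ρ δ ms mu := by
    refine h4 X S.g c hg εs α β δ ρ ρ ms mu hα0 (by linarith) hβ0 (by linarith) hρ0 hρ0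
      (by rw [hρ]; linarith) hC1 hC2 hLR ?_
    intro N J
    obtain ⟨k, n, -, hkn, g1, g2⟩ := hgr (N * (⌈2 * ρ / δ⌉₊ + 1)) J
    refine ⟨k, n, hkn, ?_, ?_⟩
    · have e1 : 2 * ρ / δ ≤ ⌈2 * ρ / δ⌉₊ := Nat.le_ceil _
      have e2 : 2 * ρ ≤ δ * (⌈2 * ρ / δ⌉₊ + 1) := by
        rw [div_le_iff₀ hδ] at e1
        nlinarith
      push_cast at g1 ⊢
      have e3 : 0 ≤ (ms : ℝ) ^ k * N * α ^ n := by positivity
      calc (ms : ℝ) ^ k * N * (α ^ n * (2 * ρ)) = ((ms : ℝ) ^ k * N * α ^ n) * (2 * ρ) := by ring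
        _ ≤ ((ms : ℝ) ^ k * N * α ^ n) * (δ * (⌈2 * ρ / δ⌉₊ + 1)) := mul_le_mul_of_nonneg_left e2 e3
        _ = δ * (2 * ((ms : ℝ) ^ k * (N * (⌈2 * ρ / δ⌉₊ + 1))) * α ^ n) / 2 := by ring
        _ ≤ δ * 1 / 2 := by gcongr
        _ ≤ δ := by linarith
    · push_cast
      have e3 : 0 ≤ β ^ n * ((mu : ℝ) ^ (n - k) * J) := by positivity
      have e4 : β ^ n * ((mu : ℝ) ^ (n - k) * J) ≤ S.K * (β ^ n * ((mu : ℝ) ^ (n - k) * J)) :=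
        le_mul_of_one_le_left e3 S.one_le_K
      have e5 : 2 * (β ^ n * ((mu : ℝ) ^ (n - k) * J)) ≤ 1 := by nlinarith
      calc 2 * ((mu : ℝ) ^ (n - k) * J) * (β ^ n * ρ) =
          (2 * (β ^ n * ((mu : ℝ) ^ (n - k) * J))) * ρ := by ring
        _ ≤ 1 * ρ := mul_le_mul_of_nonneg_right e5 hρ0.le
        _ = ρ := one_mul _
  exact h6 X S.g c hg ρ δ ms mu (h5 X E S ds ms hds hms ρ hρ0)
    (h5 X E S.symm du mu hdu hmu δ hδ) hRect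

end Pool.Agent.Q192.PI
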