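import Pool.Agent.Q192.PI.A1
import Pool.Agent.Q192.PI.A2
import Pool.Agent.Q192.PI.A3
import Pool.Agent.Q192.PI.A4
import Pool.Agent.Q237.PI.A5
import Pool.Agent.Q192.PI.A6
import Pool.Agent.Q192.PI.A7
import Pool.Agent.Y330.H.P2
import Pool.Agent.H721R2.Riem

/-!
# Project PI, part A: the theorem on manifolds
-/

set_option autoImplicit false
set_option linter.unusedSectionVars false

open Filter Topology Set Metric
open scoped Manifold ContDiff

namespace Pool.Agent.Q192.PI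

open Pool.Agent.H721R2 Pool.Agent.H789R2.AN Pool.Agent.H789R2.GP Pool.Agent.TH304.K289
open Pool.Agent.TH289.L Pool.Agent.TH289 Pool.Agent.TH289.K

/-- The rank of the stable spaces is locally constant, hence constant. -/
theorem rank_const {X F : Type*} [MetricSpace X] [PreconnectedSpace X] [NormedAddCommGroup F]
    [InnerProductSpace ℝ F] [FiniteDimensional ℝ F] (S : HypSys X F) :
    ∃ d : ℕ, ∀ x, Module.finrank ℝ (S.Vs x) = d := by
  rcases isEmpty_or_nonempty X with h | ⟨⟨x₀⟩⟩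
  · exact ⟨0, fun x => (h.false x).elim⟩
  obtain ⟨r, hr, h3⟩ := S.A3 (1 / 2) (by norm_num)
  have key : ∀ x y, dist x y < r → Module.finrank ℝ (S.Vs x) ≤ Module.finrank ℝ (S.Vs y) := by
    intro x y hxy
    by_contra hlt
    push Not at hlt
    let P : S.Vs x →ₗ[ℝ] S.Vs y := ((S.Vs y).orthogonalProjectionOnto : F →ₗ[ℝ] S.Vs y).comp
      (S.Vs x).subtype
    have hker : LinearMap.ker P ≠ ⊥ := LinearMap.ker_ne_bot_of_finrank_lt hlt
    obtain ⟨s, hs, hs0⟩ := Submodule.exists_mem_ne_zero_of_ne_bot hker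
    have hs' : (S.Vs y).orthogonalProjectionOnto (s : F) = 0 := hs
    have hort : (s : F) ∈ (S.Vs y)ᗮ := Submodule.orthogonalProjectionOnto_eq_zero_iff.1 hs'
    obtain ⟨s', hs'm, hs'n⟩ := h3 x y hxy s s.2
    have h4 : ‖(s : F)‖ ^ 2 + ‖s'‖ ^ 2 = ‖(s : F) - s'‖ ^ 2 := by
      have h5 : inner ℝ (s : F) s' = 0 := by
        rw [real_inner_comm]
        exact hort s' hs'm
      rw [@norm_sub_sq_real, h5]
      ring
    have h6 : 0 < ‖(s : F)‖ := norm_pos_iff.2 (fun h => hs0 (Subtype.ext h))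
    have h7 : ‖(s : F) - s'‖ ^ 2 ≤ (1 / 2 * ‖(s : F)‖) ^ 2 :=
      pow_le_pow_left₀ (norm_nonneg _) hs'n 2
    nlinarith [sq_nonneg ‖s'‖]
  have hlc : IsLocallyConstant fun x => Module.finrank ℝ (S.Vs x) := by
    rw [IsLocallyConstant.iff_eventually_eq]
    intro x
    filter_upwards [Metric.ball_mem_nhds x hr] with y hy
    rw [mem_ball] at hy
    exact le_antisymm (key y x hy) (key x y (by rwa [dist_comm]))
  exact ⟨_, fun x => hlc.apply_eq_of_isPreconnected isPreconnected_univ (mem_univ x) (mem_univ x₀)⟩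

/-- The choice of the exponent. -/
theorem exists_rho {μ₁ μ₂ l₁ l₂ : ℝ} (h0 : 0 < μ₁) (h1 : μ₁ ≤ μ₂) (h2 : μ₂ < 1) (h3 : 1 < l₁)
    (h4 : l₁ ≤ l₂) (hp : 1 < Real.log l₁ / Real.log l₂ + Real.log μ₂ / Real.log μ₁) :
    ∃ ρ : ℝ, 1 ≤ ρ ∧ μ₁⁻¹ * μ₂ ^ ρ < 1 ∧ l₂ ^ (ρ - 1) * l₁⁻¹ ^ ρ < 1 := by
  have hμ2 : 0 < μ₂ := by linarith
  have hl1 : 0 < l₁ := by linarith
  have hl2 : 0 < l₂ := by linarith
  have a1 : Real.log μ₂ < 0 := Real.log_neg hμ2 h2
  have a2 : Real.log μ₁ ≤ Real.log μ₂ := Real.log_le_log h0 h1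
  have a3 : 0 < Real.log l₁ := Real.log_pos h3
  have a4 : Real.log l₁ ≤ Real.log l₂ := Real.log_le_log hl1 h4
  set p := -Real.log μ₁ with hpdef
  set q := -Real.log μ₂ with hqdef
  set u := Real.log l₁ with hu
  set w := Real.log l₂ with hw
  have hq0 : 0 < q := by linarith
  have hpq : q ≤ p := by linarith
  have hp0 : 0 < p := by linarith
  have hw0 : 0 < w := by linarith
  have hp' : 1 < u / w + q / p := by
    have : Real.log μ₂ / Real.log μ₁ = q / p := by rw [hqdef, hpdef, neg_div_neg_eq]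
    rwa [this] at hp
  have hprod : p * (w - u) < q * w := by
    have e : u / w + q / p = (u * p + q * w) / (w * p) := by field_simp
    rw [e, lt_div_iff₀ (by positivity)] at hp'
    linarith
  -- we need `p / q < ρ` and `(ρ - 1) * w < ρ * u`
  obtain ⟨ρ, hρ1, hρ2⟩ : ∃ ρ : ℝ, p / q < ρ ∧ ρ * (w - u) < w := by
    rcases eq_or_lt_of_le a4 with he | hlt
    · refine ⟨p / q + 1, by linarith, ?_⟩
      have : w - u = 0 := by linarith
      rw [this, mul_zero]
      exact hw0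
    · have hd : 0 < w - u := by linarith
      have h5 : p / q < w / (w - u) := by
        rw [div_lt_div_iff₀ hq0 hd]
        linarith
      obtain ⟨ρ, h6, h7⟩ := exists_between h5
      exact ⟨ρ, h6, by rwa [lt_div_iff₀ hd] at h7⟩
  have hpq1 : 1 ≤ p / q := by rw [le_div_iff₀ hq0]; linarith
  refine ⟨ρ, by linarith, ?_, ?_⟩
  · have h8 : 0 < μ₁⁻¹ * μ₂ ^ ρ := by positivity
    rw [← Real.log_neg_iff h8, Real.log_mul (by positivity) (by positivity), Real.log_inv,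
      Real.log_rpow hμ2]
    rw [div_lt_iff₀ hq0] at hρ1
    have : ρ * Real.log μ₂ = -(ρ * q) := by rw [hqdef]; ring
    rw [this]
    linarith
  · have h8 : 0 < l₂ ^ (ρ - 1) * l₁⁻¹ ^ ρ := by positivity
    rw [← Real.log_neg_iff h8, Real.log_mul (by positivity) (by positivity),
      Real.log_rpow hl2, Real.log_rpow (by positivity), Real.log_inv]
    have : (ρ - 1) * Real.log l₂ + ρ * -Real.log l₁ = ρ * (w - u) - w := by rw [hw, hu]; ring
    rw [this]
    linarith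

section manifold

variable {E : Type*} [NormedAddCommGroup E] [NormedSpace ℝ E] [FiniteDimensional ℝ E]
  {M : Type*} [TopologicalSpace M] [T2Space M] [CompactSpace M] [ConnectedSpace M]
  [ChartedSpace E M] [IsManifold 𝓘(ℝ, E) ∞ M]

/-- **Theorem A.** -/
theorem man_pinch (f : Diffeomorph 𝓘(ℝ, E) 𝓘(ℝ, E) M M 1)
    (Es Eu : ∀ x : M, Submodule ℝ (TangentSpace 𝓘(ℝ, E) x)) (hA : IsAnosov f Es Eu)
    (N : TangentBundle 𝓘(ℝ, E) M → ℝ) (hN : IsTangentNorm N) (C μ₁ μ₂ l₁ l₂ : ℝ)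
    (hf : AnosovRates f N Es Eu C μ₁ μ₂ l₁ l₂)
    (hp : 1 < Real.log l₁ / Real.log l₂ + Real.log μ₂ / Real.log μ₁) :
    TopTransitive f ∧ GPS f.toHomeomorph ∧ ∃ π : E → M, IsCoveringMap π ∧
        Function.Surjective π := by
  have hG : GPS f.toHomeomorph := by
    obtain ⟨m, ee, hee, hemb, hinje⟩ :=
      exists_embedding_euclidean_of_compact (I := 𝓘(ℝ, E)) (M := M)
    let _ : MetricSpace M := hemb.isEmbedding.comapMetricSpace ee
    have hiso : ∀ x y : M, dist x y = ‖ee x - ee y‖ := fun x y => dist_eq_norm (ee x) (ee y)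
    have he1 : ContMDiff 𝓘(ℝ, E) (𝓡 m) 1 ee := hee.of_le (by simp)
    obtain ⟨C', hE⟩ := eanosov_of_rates hN ee he1 hinje f.toHomeomorph f.contMDiff
      f.symm.contMDiff Es Eu C μ₁ μ₂ l₁ l₂ hf
    obtain ⟨K, hK, hang⟩ := hE.angle he1 hinje
    have hC := hE.C_pos
    have hC0 : 0 < C' := by linarith
    have ha0 := hE.a_pos
    have hb0 := hE.b_pos
    have hLs := hE.Ls_le
    have hLu := hE.Lu_le
    obtain ⟨ρ, hρ, h1, h2⟩ := exists_rho hf.mu_pos hf.mu_le hf.mu_lt hf.lam_gt hf.lam_le hp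
    obtain ⟨n, hn1, hKa, hKb, h3, h4, h5, h6⟩ := exists_good_N C' μ₂ l₁⁻¹ μ₁⁻¹ l₂ ρ K hC hE.a_pos
      hE.a_lt hE.b_pos hE.b_lt hE.Ls_le hE.Lu_le hρ h1 h2 hK
    obtain ⟨S, hg, hSa, hSb, hSLs, hSLu, hSK⟩ := exists_hypSys hiso he1 hinje hE K hK hang n hKa hKb
    have haN : 0 < C' * μ₂ ^ n := by positivity
    have hbN : 0 < C' * l₁⁻¹ ^ n := by positivity
    have hLsN : 1 ≤ C' * μ₁⁻¹ ^ n := by
      have := one_le_pow₀ hLs (n := n)
      nlinarith
    have hLuN : 1 ≤ C' * l₂ ^ n := by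
      have := one_le_pow₀ hLu (n := n)
      nlinarith
    set ms := ⌈4 * (C' * μ₁⁻¹ ^ n)⌉₊ with hms
    set mu := ⌈4 * (C' * l₂ ^ n)⌉₊ with hmu
    have hms1 : 4 * (C' * μ₁⁻¹ ^ n) ≤ ms := Nat.le_ceil _
    have hmu1 : 4 * (C' * l₂ ^ n) ≤ mu := Nat.le_ceil _
    have hms2 : (ms : ℝ) ≤ 5 * C' * μ₁⁻¹ ^ n := by
      have := Nat.ceil_lt_add_one (by positivity : 0 ≤ 4 * (C' * μ₁⁻¹ ^ n))
      linarith
    have hmu2 : (mu : ℝ) ≤ 5 * C' * l₂ ^ n := by
      have := Nat.ceil_lt_add_one (by positivity : 0 ≤ 4 * (C' * l₂ ^ n))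
      linarith
    have hgr := HypSys.growth_of_lt (2 * (C' * μ₂ ^ n)) (2 * (C' * l₁⁻¹ ^ n)) ms mu K ρ
      (by positivity) (by linarith) (by positivity) (by linarith) (by linarith) (by linarith)
      (by linarith) hρ
      (by
        refine lt_of_le_of_lt ?_ h5
        exact mul_le_mul_of_nonneg_right hms2 (by positivity))
      (by
        refine lt_of_le_of_lt ?_ h6
        apply mul_le_mul_of_nonneg_right _ (by positivity)
        exact Real.rpow_le_rpow (by positivity) hmu2 (by linarith))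
    obtain ⟨ds, hds⟩ := rank_const S
    obtain ⟨du, hdu⟩ := rank_const S.symm
    have hlf : ∀ a s, WS S.g a s → Lf S.g a s :=
      sA7 sA1 (sA4 (sA3 sA2)) Pool.Agent.Q237.PI.sA5 sA6 M _ S ds du ms mu
        (2 * (C' * μ₂ ^ n)) (2 * (C' * l₁⁻¹ ^ n)) hds hdu (by rw [hSa]; linarith)
        (by rw [hSb]; linarith) h3 h4 (by rw [hSLs]; exact hms1) (by rw [hSLu]; exact hmu1)
        (by rw [hSK]; exact hgr)
    have : ProperSpace E := FiniteDimensional.proper_real E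
    obtain ⟨c, hLP⟩ := exists_LP S
    rw [hg] at hLP hlf
    have hX : ULC M := ulc_of_charted (X := M) (E := E)
    obtain ⟨c₁, hc₁, ⟨T⟩⟩ := exists_IQS hLP hX hlf
    exact gps_of_iqs hn1 rfl hLP hc₁ T
  obtain ⟨k1, k2⟩ := man_self f Es Eu hA hG
  exact ⟨k1, hG, k2⟩

end manifold

end Pool.Agent.Q192.PI
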