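import Pool.Agent.Q192.PI.Stm

/-!
# Job PI-SA1 (project PI of helper192; written by helper98): small rectangles exist
-/

set_option autoImplicit false

open Filter Topology Set Metric unitInterval

namespace Pool.Agent.Q192.PI

open Pool.Agent.H721R2 Pool.Agent.H789R2.AN Pool.Agent.H789R2.GP Pool.Agent.Y330.H
open Pool.Agent.TH289.K

universe u

theorem sA1 : SA1.{u} := by
  intro X _ _ g c hg r hr
  obtain ⟨c₁, hc₁, hs⟩ := exists_sl hg
  obtain ⟨c₂, hc₂, hs'⟩ := exists_sl hg.symm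
  obtain ⟨η, hη, h1⟩ := hs r hr 0
  obtain ⟨η', hη', h2⟩ := hs' r hr 0
  refine ⟨min (min η η') (min c₁ c₂), lt_min (lt_min hη hη') (lt_min hc₁ hc₂), ?_⟩
  intro τ v h0 hτ hv
  have k1 : min (min η η') (min c₁ c₂) ≤ η := (min_le_left _ _).trans (min_le_left _ _)
  have k2 : min (min η η') (min c₁ c₂) ≤ η' := (min_le_left _ _).trans (min_le_right _ _)
  have k3 : min (min η η') (min c₁ c₂) ≤ c₁ := (min_le_right _ _).trans (min_le_left _ _)
  have k4 : min (min η η') (min c₁ c₂) ≤ c₂ := (min_le_right _ _).trans (min_le_right _ _)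
  have hF : ∀ s, ∃ Γ : C(I, Pr g), (Γ 0).y = (τ s).val ∧ (∀ t, (Γ t).x = (v t).val) ∧
      ∀ t, SR g r (v t).val (Γ t).y := by
    intro s
    obtain ⟨Γ, a1, a2, a3, -⟩ := h1 v (τ s).val (by rw [← h0]; exact (hτ s).mono k1)
      (fun t => (hv t).mono k3)
    exact ⟨Γ, a1, a2, a3⟩
  have hF' : ∀ t, ∃ Γ : C(I, Pr g.symm), (Γ 0).y = (v t).val ∧ (∀ s, (Γ s).x = (τ s).val) ∧
      ∀ s, SR g.symm r (τ s).val (Γ s).y := by
    intro t
    have e1 : SR g.symm η' (τ 0).val (v t).val := by rw [h0]; exact (hv t).mono k2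
    have e2 : ∀ s, SR g c₂ (τ 0).val (τ s).val := fun s => (hτ s).mono k4
    obtain ⟨Γ, a1, a2, a3, -⟩ := h2 τ (v t).val e1 e2
    exact ⟨Γ, a1, a2, a3⟩
  obtain ⟨R, hR, b1, b2⟩ := rc_of_strips hg hc₁ hs τ v h0
    (fun s => (hF s).imp fun Γ h => ⟨h.1, h.2.1⟩)
  refine ⟨R, hR, b1, b2, fun s t => ?_, fun s t => ?_⟩
  · obtain ⟨Γ, a1, a2, a3⟩ := hF s
    obtain ⟨Γ', d1, d2⟩ := hR.strip 0 s
    have e := strip_unique hg Γ' Γ (fun t => by rw [d1, a2, b2]) (t₀ := 0) (by rw [d2, a1, b1]) t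
    rw [d2] at e
    rw [e, b2]
    exact a3 t
  · obtain ⟨Γ, a1, a2, a3⟩ := hF' t
    obtain ⟨Γ', d1, d2⟩ := hR.tr.strip 0 t
    have f1 : ∀ s, (Γ' s).x = (Γ s).x := fun s => by rw [d1, a2, b1]
    have f2 : (Γ' 0).y = (Γ 0).y := by rw [d2, a1, b2]
    have e := strip_unique hg.symm Γ' Γ f1 f2 s
    rw [d2] at e
    rw [e, b1]
    exact a3 s

end Pool.Agent.Q192.PI
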