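import Pool.Agent.Q192.PI.HolT
import Pool.Agent.Q192.PI.Real
import Pool.Agent.Q192.PI.A8
import Pool.Agent.Q210.UQ.Loewner

/-!
# Project PI, part B: assembly
-/

set_option autoImplicit false
set_option linter.unusedSectionVars false

open Filter Topology Set Metric
open scoped Manifold ContDiff

namespace Pool.Agent.Q192.PI.B

open Pool.Agent.H721R2 Pool.Agent.H779R2.An Pool.Agent.Q130.UQ Pool.Agent.H789R2.AN
  Pool.Agent.H789R2.GP

universe u v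

/-- Unstable discs are infinite. -/
theorem inf_disc {X : Type u} {E : Type v} [MetricSpace X] [NormedAddCommGroup E]
    [NormedSpace ℝ E] {S : HypSys X E} {D : ℕ} {ε₀ R : ℝ} {ψ : X → V D → X} (hG : Geo S ε₀)
    (hC : Cht S D ε₀ R ψ) (hD : 1 ≤ D) : ∀ x : X, ∀ r > 0, {z | S.URel r x z}.Infinite := by
  intro x r hr
  obtain ⟨e, he⟩ : ∃ e : V D, ‖e‖ = 1 := by
    refine ⟨EuclideanSpace.single ⟨0, by omega⟩ 1, ?_⟩
    simp
  have hR := hC.pos
  set ρ := min R (r / 2) with hρ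
  have hρ0 : 0 < ρ := lt_min hR (by positivity)
  have hn : ∀ n : ℕ, ‖(ρ / ((n : ℝ) + 1)) • e‖ ≤ ρ := by
    intro n
    rw [norm_smul, he, mul_one, Real.norm_eq_abs, abs_of_pos (by positivity)]
    exact div_le_self hρ0.le (by linarith [(Nat.cast_nonneg n : (0 : ℝ) ≤ n)])
  refine Set.infinite_of_injective_forall_mem
    (f := fun n : ℕ => ψ x ((ρ / ((n : ℝ) + 1)) • e)) ?_ ?_
  · intro n m hnm
    have h1 := hC.ge x _ _ ((hn n).trans (min_le_left _ _)) ((hn m).trans (min_le_left _ _))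
    have h2 : ψ x ((ρ / ((n : ℝ) + 1)) • e) = ψ x ((ρ / ((m : ℝ) + 1)) • e) := hnm
    rw [h2, dist_self, mul_zero] at h1
    have h3 := norm_le_zero_iff.1 h1
    rw [← sub_smul] at h3
    rcases smul_eq_zero.1 h3 with h4 | h4
    · have h5 : ρ / ((n : ℝ) + 1) = ρ / ((m : ℝ) + 1) := sub_eq_zero.1 h4
      have hn0 : (0 : ℝ) < (n : ℝ) + 1 := by positivity
      have hm0 : (0 : ℝ) < (m : ℝ) + 1 := by positivity
      field_simp at h5
      have h6 : (n : ℝ) = m := by linarith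
      exact_mod_cast h6
    · rw [h4, norm_zero] at he
      exact absurd he (by norm_num)
  · intro n
    refine (hC.urel0 hG ((hn n).trans (min_le_left _ _))).mono ?_
    have h1 := (hn n).trans (min_le_right _ _)
    linarith

/-- **Abstract theorem B.** -/
theorem absB (h1 : SB1.{u, v}) (h2 : SB2) (h4 : SB4.{u, v}) (h6 : SB6.{u, v})
    (h7 : SB7.{u, v}) (h8 : SB8.{u, v}) (h9 : SB9.{u, v}) (h10 : SB10.{u, v})
    (h11 : SB11.{u, v}) (h12 : SB12.{u, v}) (h13 : SB13.{u, v}) (h14 : SB14)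
    {X : Type u} {E : Type v} [MetricSpace X] [CompactSpace X] [PreconnectedSpace X]
    [NormedAddCommGroup E] [InnerProductSpace ℝ E] [FiniteDimensional ℝ E]
    (S : HypSys X E) (D ms : ℕ) (α β K₁ K : ℝ) (hD : 2 ≤ D)
    (hfu : ∀ x, Module.finrank ℝ (S.Vu x) = D) (hα : S.a < α) (hβ : S.b < β) (hα1 : α ≤ 1 / 2)
    (hβ1 : β ≤ 1 / 2) (hK₁ : 1 ≤ K₁) (hK : K₁ < K)
    (hdist : ∀ x, ∀ v ∈ S.Vu x, ∀ w ∈ S.Vu x, ‖S.D x v‖ * ‖w‖ ≤ K₁ * (‖S.D x w‖ * ‖v‖))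
    (hms : 4 * S.Ls ≤ ms)
    (hgr : 2 * D * Real.log K * (Real.log ms - Real.log α⁻¹) < Real.log α⁻¹ * Real.log β⁻¹) :
    ∀ a s, WS S.g a s → Lf S.g a s := by
  intro a₀ s₀ has
  obtain ⟨ε₀, Q, L, R, ψ, hS, hC⟩ := h13 X E S D α β K₁ K hfu hα hβ hα1 hβ1 hK₁ hK hdist
  have hG := hS.geo
  have hε0 := hG.pos
  have hR := hC.pos
  have hQ := hS.Q1
  have hL := hS.L1
  have hQ0 : 0 < Q := by linarith
  have hL0 : 0 < L := by linarith
  obtain ⟨b, hb, hbR, hbε⟩ : ∃ b > 0, 64 * b ≤ R ∧ 64 * b ≤ ε₀ := by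
    refine ⟨min (R / 64) (ε₀ / 64), lt_min (by positivity) (by positivity), ?_, ?_⟩
    · have := min_le_left (R / 64) (ε₀ / 64)
      linarith
    · have := min_le_right (R / 64) (ε₀ / 64)
      linarith
  set σ := b / (65536 * Q * L) with hσ
  have hσ0 : 0 < σ := by positivity
  have hσb : 65536 * Q * L * σ = b := by rw [hσ]; field_simp
  set η := σ / (64 * Q) with hη
  have hη0 : 0 < η := by positivity
  have hησ : 64 * Q * η = σ := by rw [hη]; field_simp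
  have hsc : Scale ε₀ R Q L σ η b := ⟨hη0, hησ.le, hσb.le, hbR, hbε⟩
  obtain ⟨-, -, f1, f2, f3, f4⟩ := hsc.facts hQ hL
  have hLB : LB D := h2 D hD (Pool.Agent.Q210.UQ.loewner D hD)
  have hcell := h1 X E S ε₀ Q α β K L hS
  have hms1 : 1 ≤ ms := by
    have := S.one_le_Ls
    have h3 : (1 : ℝ) ≤ ms := by linarith
    exact_mod_cast h3
  have hnum := h14 α β K ms D hS.α0 (by linarith [hS.α1]) hS.β0 (by linarith [hS.β1]) hS.K1
    hms1 hgr
  have hTR : ∀ U : Set X, (∀ z ∈ U, S.g z ∈ U) → CB S σ η b U → TR S D σ η R ψ U := by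
    intro U hU hCB
    have hBx := h6 X E S D ε₀ Q α β K L R σ η b ψ U hD hS hC hsc hCB
    have hFn := h7 X E S D ε₀ Q α β K L R σ η b ψ (by omega) hS hC hsc hcell
    have hTL := h8 X E S D ε₀ Q α β K L R σ η b ψ U hD hS hC hsc hBx hFn hLB
    have hWL := h9 X E S D ε₀ Q α β K L R σ η b ψ U hD hS hC hsc hU hcell hTL
    exact h10 X E S D ε₀ Q α β K L R σ η b ψ U ms hS hC hsc (S.subdivide ms hms) hnum hWL
  have hun : USat S (Set.univ : Set X) := ⟨isClosed_univ, ⟨a₀, trivial⟩, fun _ _ => trivial,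
    fun _ _ => trivial, fun _ _ _ _ => trivial⟩
  obtain ⟨Λ, -, hΛ⟩ := Pool.Agent.Q182.UQ.minEx S _ hun
  have hCB : ∀ Λ, UMin S Λ → CB S σ η b (Ws S Λ) := fun Λ hΛ =>
    h4 X E S ε₀ σ η b hG (inf_disc hG hC (by omega)) hη0 (by linarith) (by linarith) hb
      (by linarith) Λ hΛ
  have hinv : ∀ Λ, UMin S Λ → ∀ z ∈ Ws S Λ, S.g z ∈ Ws S Λ := by
    rintro Λ hΛ z ⟨x, hx, hxz⟩
    exact ⟨S.g x, hΛ.map x hx, hxz.map⟩
  have hsat := h11 X E S D ε₀ R σ η ψ Λ hG hC (by linarith) hΛ (hTR _ (hinv Λ hΛ) (hCB Λ hΛ))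
  have hall : Λ = Set.univ := Pool.Agent.Q182.UQ.whole S hG Λ hΛ hsat
  subst hall
  have hW : Ws S (Set.univ : Set X) = Set.univ :=
    Set.eq_univ_of_forall fun y => ⟨y, trivial, SAsym.refl S y⟩
  have hT := hTR _ (hinv _ hΛ) (hCB _ hΛ)
  rw [hW] at hT
  obtain ⟨c, hLP⟩ := exists_LP S
  exact h12 X E S D ε₀ Q α β K L R σ η b c ψ hLP hS hC hsc hT a₀ s₀ has

end Pool.Agent.Q192.PI.B
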