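import Pool.Agent.Q192.PI.BMain
import Pool.Agent.Y330.H.P2
import Pool.Agent.H721R2.Riem

/-!
# Project PI, part B: the theorem on manifolds
-/

set_option autoImplicit false
set_option linter.unusedSectionVars false

open Filter Topology Set Metric
open scoped Manifold ContDiff

namespace Pool.Agent.Q192.PI.B

open Pool.Agent.H721R2 Pool.Agent.H779R2.An Pool.Agent.Q130.UQ Pool.Agent.H789R2.AN
  Pool.Agent.H789R2.GP Pool.Agent.TH304.K289 Pool.Agent.TH289.L Pool.Agent.TH289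
  Pool.Agent.TH289.K
open Pool.Agent.W740.TU (anosov_symm)

universe u v

/-- The choice of the iterate, numerically. -/
theorem ev_poly (k p q u c₁ c₂ c₃ : ℝ) (D : ℕ) (h : 2 * D * k * (p - q) < q * u) :
    ∀ᶠ n : ℕ in atTop,
      2 * D * (n * k + c₁) * (n * (p - q) + c₂) < (n * q - c₃) * (n * u - c₃) := by
  set δ := q * u - 2 * D * k * (p - q) with hδ
  have hδ0 : 0 < δ := by rw [hδ]; linarith
  set a₁ := -(c₃ * (q + u)) - 2 * D * (k * c₂ + c₁ * (p - q)) with ha₁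
  set a₀ := c₃ * c₃ - 2 * D * c₁ * c₂ with ha₀
  have h1 : ∀ᶠ n : ℕ in atTop, (|a₁| + |a₀|) / δ < n :=
    (tendsto_natCast_atTop_atTop (R := ℝ)).eventually_gt_atTop _
  filter_upwards [h1, eventually_ge_atTop 1] with n hn hn1
  have hn1' : (1 : ℝ) ≤ n := by exact_mod_cast hn1
  rw [div_lt_iff₀ hδ0] at hn
  have e : (n * q - c₃) * (n * u - c₃) - 2 * D * (n * k + c₁) * (n * (p - q) + c₂)
      = δ * n * n + a₁ * n + a₀ := by
    rw [hδ, ha₁, ha₀]; ring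
  have h2 : (|a₁| + |a₀|) * n < δ * n * n := by
    have : (|a₁| + |a₀|) * n < (n * δ) * n := mul_lt_mul_of_pos_right hn (by linarith)
    linarith
  have h3 : -(|a₁| * n) ≤ a₁ * n := by
    have := mul_le_mul_of_nonneg_right (neg_abs_le a₁) (by linarith : (0 : ℝ) ≤ n)
    linarith
  have h4 : -|a₀| ≤ a₀ := neg_abs_le a₀
  have h5 : |a₀| ≤ |a₀| * n := le_mul_of_one_le_right (abs_nonneg _) hn1'
  nlinarith

/-- All the lemmas of part B. -/
structure Lem : Prop where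
  h1 : SB1.{u, v}
  h2 : SB2
  h4 : SB4.{u, v}
  h6 : SB6.{u, v}
  h7 : SB7.{u, v}
  h8 : SB8.{u, v}
  h9 : SB9.{u, v}
  h10 : SB10.{u, v}
  h11 : SB11.{u, v}
  h12 : SB12.{u, v}
  h13 : SB13.{u, v}
  h14 : SB14

section embedded

variable {E₀ : Type*} [NormedAddCommGroup E₀] [NormedSpace ℝ E₀] [FiniteDimensional ℝ E₀]
  {M : Type u} [MetricSpace M] [CompactSpace M] [ConnectedSpace M] [ChartedSpace E₀ M]
  [IsManifold 𝓘(ℝ, E₀) ∞ M]
  {F : Type v} [NormedAddCommGroup F] [InnerProductSpace ℝ F] [FiniteDimensional ℝ F]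

/-- Theorem B for a manifold embedded in a Euclidean space. -/
theorem core (H : Lem.{u, v}) {e : M → F} (hiso : ∀ x y, dist x y = ‖e x - e y‖)
    (he : ContMDiff 𝓘(ℝ, E₀) 𝓘(ℝ, F) 1 e) (hinj : ∀ x, Function.Injective (dm E₀ e x))
    {f : M ≃ₜ M} {Es Eu : M → Submodule ℝ E₀} {C a b Ls Lu : ℝ}
    (h : EAnosov e f Es Eu C a b Ls Lu) (D : ℕ) (hD : 2 ≤ D)
    (hrk : ∀ x, Module.finrank ℝ (Eu x) = D) (C₂ κ : ℝ) (hC₂ : 1 ≤ C₂) (hκ : 1 ≤ κ)
    (hd : ∀ (n : ℕ) (x : M), ∀ v ∈ Eu x, ∀ w ∈ Eu x,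
      ‖dm E₀ e (f^[n] x) (dg E₀ (f^[n]) x v)‖ * ‖dm E₀ e x w‖ ≤
        C₂ * κ ^ n * (‖dm E₀ e (f^[n] x) (dg E₀ (f^[n]) x w)‖ * ‖dm E₀ e x v‖))
    (hp : 2 * D * Real.log κ * (Real.log Ls - Real.log a⁻¹) < Real.log a⁻¹ * Real.log b⁻¹) :
    GPS f := by
  obtain ⟨K, hK, hang⟩ := h.angle he hinj
  have hC := h.C_pos
  have hC0 : 0 < C := by linarith
  have ha0 := h.a_pos
  have hb0 := h.b_pos
  have hLs := h.Ls_le
  have hLs0 : 0 < Ls := by linarith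
  have hκ0 : 0 < κ := by linarith
  have hC₂0 : 0 < C₂ := by linarith
  have t1 : Tendsto (fun n : ℕ => K * (C * a ^ n)) atTop (𝓝 0) := by
    have := ((tendsto_pow_atTop_nhds_zero_of_lt_one h.a_pos.le h.a_lt).const_mul C).const_mul K
    simpa using this
  have t2 : Tendsto (fun n : ℕ => K * (C * b ^ n)) atTop (𝓝 0) := by
    have := ((tendsto_pow_atTop_nhds_zero_of_lt_one h.b_pos.le h.b_lt).const_mul C).const_mul K
    simpa using this
  obtain ⟨n, ⟨⟨hKa, hKb⟩, hn1⟩, hpoly⟩ := (((((tendsto_order.mp t1).2 (1 / 16) (by norm_num)).and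
    ((tendsto_order.mp t2).2 (1 / 16) (by norm_num))).and (eventually_ge_atTop 1)).and
    (ev_poly (Real.log κ) (Real.log Ls) (Real.log a⁻¹) (Real.log b⁻¹) (Real.log (2 * C₂))
      (Real.log (5 * C) + Real.log (2 * C)) (Real.log (2 * C)) D hp)).exists
  obtain ⟨S, hR, hSa, hSb, hSLs, hSLu, hSK⟩ := exists_real hiso he hinj h K hK hang n hKa.le hKb.le
  have haN : 0 < C * a ^ n := by positivity
  have hbN : 0 < C * b ^ n := by positivity
  have haN' : C * a ^ n ≤ 1 / 16 := by nlinarith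
  have hbN' : C * b ^ n ≤ 1 / 16 := by nlinarith
  have hLsN : 1 ≤ C * Ls ^ n := by
    have := one_le_pow₀ hLs (n := n)
    nlinarith
  have hκN : 1 ≤ C₂ * κ ^ n := by
    have := one_le_pow₀ hκ (n := n)
    nlinarith
  set ms := ⌈4 * (C * Ls ^ n)⌉₊ with hms
  have hms1 : 4 * (C * Ls ^ n) ≤ ms := Nat.le_ceil _
  have hms2 : (ms : ℝ) ≤ 5 * C * Ls ^ n := by
    have := Nat.ceil_lt_add_one (by positivity : 0 ≤ 4 * (C * Ls ^ n))
    linarith
  have hms0 : (0 : ℝ) < ms := by linarith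
  have hfu : ∀ x, Module.finrank ℝ (S.Vu x) = D := by
    intro x
    rw [hR.Vu_eq, ← hrk x]
    exact ((Submodule.equivMapOfInjective (dm E₀ e x).toLinearMap (hinj x) (Eu x)).finrank_eq).symm
  have hdist : ∀ x, ∀ v ∈ S.Vu x, ∀ w ∈ S.Vu x,
      ‖S.D x v‖ * ‖w‖ ≤ C₂ * κ ^ n * (‖S.D x w‖ * ‖v‖) := by
    intro x v hv w hw
    rw [hR.Vu_eq] at hv hw
    obtain ⟨v', hv', rfl⟩ := hv
    obtain ⟨w', hw', rfl⟩ := hw
    change ‖S.D x (dm E₀ e x v')‖ * ‖dm E₀ e x w'‖ ≤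
      C₂ * κ ^ n * (‖S.D x (dm E₀ e x w')‖ * ‖dm E₀ e x v'‖)
    rw [hR.D_eq, hR.D_eq]
    exact hd n x v' hv' w' hw'
  have e1 : Real.log (2 * (C * a ^ n))⁻¹ = n * Real.log a⁻¹ - Real.log (2 * C) := by
    rw [← mul_assoc, Real.log_inv, Real.log_mul (by positivity) (by positivity), Real.log_pow,
      Real.log_inv]
    ring
  have e2 : Real.log (2 * (C * b ^ n))⁻¹ = n * Real.log b⁻¹ - Real.log (2 * C) := by
    rw [← mul_assoc, Real.log_inv, Real.log_mul (by positivity) (by positivity), Real.log_pow,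
      Real.log_inv]
    ring
  have e3 : Real.log (2 * (C₂ * κ ^ n)) = n * Real.log κ + Real.log (2 * C₂) := by
    rw [← mul_assoc, Real.log_mul (by positivity) (by positivity), Real.log_pow]
    ring
  have e4 : Real.log ms ≤ Real.log (5 * C) + n * Real.log Ls := by
    rw [← Real.log_pow, ← Real.log_mul (by positivity) (by positivity)]
    exact Real.log_le_log hms0 hms2
  have e5 : 0 ≤ n * Real.log κ + Real.log (2 * C₂) := by
    rw [← e3]
    exact Real.log_nonneg (by linarith)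
  have hlf : ∀ a s, WS S.g a s → Lf S.g a s := by
    refine absB H.h1 H.h2 H.h4 H.h6 H.h7 H.h8 H.h9 H.h10 H.h11 H.h12 H.h13 H.h14 S D ms
      (2 * (C * a ^ n)) (2 * (C * b ^ n)) (C₂ * κ ^ n) (2 * (C₂ * κ ^ n)) hD hfu
      (by rw [hSa]; linarith) (by rw [hSb]; linarith) (by linarith) (by linarith) hκN
      (by linarith) hdist (by rw [hSLs]; exact hms1) ?_
    rw [e1, e2, e3]
    refine lt_of_le_of_lt ?_ hpoly
    apply mul_le_mul_of_nonneg_left _ (by positivity)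
    linarith
  have : ProperSpace E₀ := FiniteDimensional.proper_real E₀
  obtain ⟨c, hLP⟩ := exists_LP S
  rw [hR.g_eq] at hLP hlf
  have hX : ULC M := ulc_of_charted (X := M) (E := E₀)
  obtain ⟨c₁, hc₁, ⟨T⟩⟩ := exists_IQS hLP hX hlf
  exact gps_of_iqs hn1 rfl hLP hc₁ T

end embedded

section manifold

variable {E : Type*} [NormedAddCommGroup E] [NormedSpace ℝ E]
  {M : Type*} [TopologicalSpace M] [ChartedSpace E M]

/-- The distortion of `Dfⁿ` on the field of subspaces `V` is at most `C κⁿ`: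
`N(Dfⁿ v) / N(v) ≤ C κⁿ N(Dfⁿ w) / N(w)` for all `n ≥ 0` and `v, w ∈ V x` (written without
denominators). -/
def DistortionOn (f : M → M) (N : TangentBundle 𝓘(ℝ, E) M → ℝ)
    (V : ∀ x : M, Submodule ℝ (TangentSpace 𝓘(ℝ, E) x)) (C κ : ℝ) : Prop :=
  ∀ (n : ℕ) (x : M), ∀ v ∈ V x, ∀ w ∈ V x,
    N (tangentMap 𝓘(ℝ, E) 𝓘(ℝ, E) (f^[n]) ⟨x, v⟩) * N ⟨x, w⟩ ≤
      C * κ ^ n * (N (tangentMap 𝓘(ℝ, E) 𝓘(ℝ, E) (f^[n]) ⟨x, w⟩) * N ⟨x, v⟩)

end manifold

section metric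

variable {E : Type*} [NormedAddCommGroup E] [NormedSpace ℝ E] [FiniteDimensional ℝ E]
  {M : Type*} [MetricSpace M] [CompactSpace M] [ChartedSpace E M] [IsManifold 𝓘(ℝ, E) 1 M]

/-- Comparison of the distortions. -/
theorem dist_amb {F : Type*} [NormedAddCommGroup F] [NormedSpace ℝ F]
    {N : TangentBundle 𝓘(ℝ, E) M → ℝ} (hN : IsTangentNorm N) (e : M → F)
    (he : ContMDiff 𝓘(ℝ, E) 𝓘(ℝ, F) 1 e) (hinj : ∀ x, Function.Injective (dm E e x)) :
    ∃ R ≥ 1, ∀ (f : M → M) (V : ∀ x : M, Submodule ℝ (TangentSpace 𝓘(ℝ, E) x)) (C κ : ℝ),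
      0 ≤ κ → DistortionOn f N V C κ → ∀ (n : ℕ) (x : M), ∀ v ∈ V x, ∀ w ∈ V x,
      ‖dm E e (f^[n] x) (dg E (f^[n]) x v)‖ * ‖dm E e x w‖ ≤
        (R * max 1 C) * κ ^ n * (‖dm E e (f^[n] x) (dg E (f^[n]) x w)‖ * ‖dm E e x v‖) := by
  obtain ⟨R, hR, hcmp⟩ := tnm_compare hN e he hinj
  refine ⟨max 1 (R ^ 4), le_max_left _ _, fun f V C κ hκ hd n x v hv w hw => ?_⟩
  have h1 : tnm N (f^[n] x) (dg E (f^[n]) x v) * tnm N x w ≤
      C * κ ^ n * (tnm N (f^[n] x) (dg E (f^[n]) x w) * tnm N x v) := hd n x v hv w hw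
  have a1 := (hcmp (f^[n] x) (dg E (f^[n]) x v)).1
  have a2 := (hcmp x w).1
  have a3 := (hcmp (f^[n] x) (dg E (f^[n]) x w)).2
  have a4 := (hcmp x v).2
  have n1 : 0 ≤ tnm N (f^[n] x) (dg E (f^[n]) x v) := tnm_nonneg hN _ _
  have n2 : 0 ≤ tnm N x w := tnm_nonneg hN _ _
  have n3 : 0 ≤ tnm N (f^[n] x) (dg E (f^[n]) x w) := tnm_nonneg hN _ _
  have n4 : 0 ≤ tnm N x v := tnm_nonneg hN _ _
  have hκn : 0 ≤ κ ^ n := by positivity
  have hCm : C ≤ max 1 C := le_max_right _ _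
  have hC1 : 1 ≤ max 1 C := le_max_left _ _
  have hR4 : R ^ 4 ≤ max 1 (R ^ 4) := le_max_right _ _
  calc ‖dm E e (f^[n] x) (dg E (f^[n]) x v)‖ * ‖dm E e x w‖
      ≤ (R * tnm N (f^[n] x) (dg E (f^[n]) x v)) * (R * tnm N x w) :=
        mul_le_mul a1 a2 (norm_nonneg _) (by positivity)
    _ = R ^ 2 * (tnm N (f^[n] x) (dg E (f^[n]) x v) * tnm N x w) := by ring
    _ ≤ R ^ 2 * (C * κ ^ n * (tnm N (f^[n] x) (dg E (f^[n]) x w) * tnm N x v)) :=
        mul_le_mul_of_nonneg_left h1 (by positivity)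
    _ ≤ R ^ 2 * (max 1 C * κ ^ n * (tnm N (f^[n] x) (dg E (f^[n]) x w) * tnm N x v)) := by
        apply mul_le_mul_of_nonneg_left _ (by positivity)
        apply mul_le_mul_of_nonneg_right _ (by positivity)
        exact mul_le_mul_of_nonneg_right hCm hκn
    _ ≤ R ^ 2 * (max 1 C * κ ^ n * ((R * ‖dm E e (f^[n] x) (dg E (f^[n]) x w)‖) *
          (R * ‖dm E e x v‖))) := by
        apply mul_le_mul_of_nonneg_left _ (by positivity)
        apply mul_le_mul_of_nonneg_left _ (by positivity)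
        exact mul_le_mul a3 a4 n4 (by positivity)
    _ = R ^ 4 * (max 1 C * κ ^ n * (‖dm E e (f^[n] x) (dg E (f^[n]) x w)‖ *
          ‖dm E e x v‖)) := by ring
    _ ≤ max 1 (R ^ 4) * (max 1 C * κ ^ n * (‖dm E e (f^[n] x) (dg E (f^[n]) x w)‖ *
          ‖dm E e x v‖)) := mul_le_mul_of_nonneg_right hR4 (by positivity)
    _ = _ := by ring

end metric

section manifold

variable {E : Type*} [NormedAddCommGroup E] [NormedSpace ℝ E] [FiniteDimensional ℝ E]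
  {M : Type u} [TopologicalSpace M] [T2Space M] [CompactSpace M] [ConnectedSpace M]
  [ChartedSpace E M] [IsManifold 𝓘(ℝ, E) ∞ M]

/-- The ranks of the two bundles of an Anosov diffeomorphism are constant. -/
theorem man_rank (f : Diffeomorph 𝓘(ℝ, E) 𝓘(ℝ, E) M M 1)
    (Es Eu : ∀ x : M, Submodule ℝ (TangentSpace 𝓘(ℝ, E) x)) (hA : IsAnosov f Es Eu) :
    ∃ D : ℕ, ∀ x, Module.finrank ℝ (Eu x) = D := by
  obtain ⟨m, ee, hee, hemb, hinje⟩ :=
    exists_embedding_euclidean_of_compact (I := 𝓘(ℝ, E)) (M := M)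
  let _ : MetricSpace M := hemb.isEmbedding.comapMetricSpace ee
  have hiso : ∀ x y : M, dist x y = ‖ee x - ee y‖ := fun x y => dist_eq_norm (ee x) (ee y)
  have he1 : ContMDiff 𝓘(ℝ, E) (𝓡 m) 1 ee := hee.of_le (by simp)
  obtain ⟨N, S, hg, -, -, hu⟩ := (exists_sys_ev hiso he1 hinje f Es Eu hA).exists
  obtain ⟨D, hD⟩ := rank_const S.symm
  refine ⟨D, fun x => ?_⟩
  have h1 : Module.finrank ℝ (S.Vu x) = D := hD x
  rw [hu] at h1
  rw [← h1]
  let Eu' : M → Submodule ℝ E := Eu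
  exact (Submodule.equivMapOfInjective (dm E ee x).toLinearMap (hinje x) (Eu' x)).finrank_eq

/-- Subexponential distortion on the unstable bundle. -/
theorem man_sub (H : Lem.{u, 0}) (f : Diffeomorph 𝓘(ℝ, E) 𝓘(ℝ, E) M M 1)
    (Es Eu : ∀ x : M, Submodule ℝ (TangentSpace 𝓘(ℝ, E) x)) (hA : IsAnosov f Es Eu)
    (N : TangentBundle 𝓘(ℝ, E) M → ℝ) (hN : IsTangentNorm N)
    (hrk : ∀ x, 2 ≤ Module.finrank ℝ (Eu x))
    (hd : ∀ κ : ℝ, 1 < κ → ∃ C : ℝ, DistortionOn f N Eu C κ) : GPS f.toHomeomorph := by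
  obtain ⟨D, hD⟩ := man_rank f Es Eu hA
  obtain ⟨x₀⟩ : Nonempty M := inferInstance
  have hD2 : 2 ≤ D := by rw [← hD x₀]; exact hrk x₀
  obtain ⟨m, ee, hee, hemb, hinje⟩ :=
    exists_embedding_euclidean_of_compact (I := 𝓘(ℝ, E)) (M := M)
  let _ : MetricSpace M := hemb.isEmbedding.comapMetricSpace ee
  have hiso : ∀ x y : M, dist x y = ‖ee x - ee y‖ := fun x y => dist_eq_norm (ee x) (ee y)
  have he1 : ContMDiff 𝓘(ℝ, E) (𝓡 m) 1 ee := hee.of_le (by simp)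
  obtain ⟨C, a, b, Ls, Lu, hE⟩ := eanosov_of_isAnosov ee he1 hinje f Es Eu hA
  obtain ⟨R, hR, hRd⟩ := dist_amb hN ee he1 hinje
  have ha : 0 < Real.log a⁻¹ := by
    rw [Real.log_inv]
    linarith [Real.log_neg hE.a_pos hE.a_lt]
  have hb : 0 < Real.log b⁻¹ := by
    rw [Real.log_inv]
    linarith [Real.log_neg hE.b_pos hE.b_lt]
  -- the choice of `κ`
  set q := Real.log a⁻¹ with hq
  set w := Real.log b⁻¹ with hw
  set p := Real.log Ls with hpd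
  have hden : 0 < 2 * (D : ℝ) * (|p - q| + 1) := by
    have : (0 : ℝ) < D := by
      have : (2 : ℝ) ≤ D := by exact_mod_cast hD2
      linarith
    positivity
  set t := q * w / (2 * (D : ℝ) * (|p - q| + 1)) with ht
  have ht0 : 0 < t := by positivity
  obtain ⟨C₁, hC₁⟩ := hd (Real.exp t) (Real.one_lt_exp_iff.2 ht0)
  refine core H hiso he1 hinje hE D hD2 hD (R * max 1 C₁) (Real.exp t) ?_
    (Real.one_lt_exp_iff.2 ht0).le (hRd f Eu C₁ (Real.exp t) (Real.exp_pos t).le hC₁) ?_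
  · have : 1 ≤ max 1 C₁ := le_max_left _ _
    nlinarith
  · rw [Real.log_exp]
    have h1 : 2 * (D : ℝ) * t * (p - q) ≤ 2 * (D : ℝ) * t * |p - q| :=
      mul_le_mul_of_nonneg_left (le_abs_self _) (by positivity)
    have h2 : t * (2 * (D : ℝ) * (|p - q| + 1)) = q * w := by
      rw [ht]
      exact div_mul_cancel₀ _ hden.ne'
    have h3 : 0 < 2 * (D : ℝ) * t := by
      have : (2 : ℝ) ≤ D := by exact_mod_cast hD2
      have : (0 : ℝ) < D := by linarith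
      positivity
    nlinarith

/-- The quantitative form. -/
theorem man_quant (H : Lem.{u, 0}) (f : Diffeomorph 𝓘(ℝ, E) 𝓘(ℝ, E) M M 1)
    (Es Eu : ∀ x : M, Submodule ℝ (TangentSpace 𝓘(ℝ, E) x))
    (N : TangentBundle 𝓘(ℝ, E) M → ℝ) (hN : IsTangentNorm N) (C μ₁ μ₂ l₁ l₂ C₁ κ : ℝ)
    (hf : AnosovRates f N Es Eu C μ₁ μ₂ l₁ l₂) (D : ℕ) (hD : 2 ≤ D)
    (hrk : ∀ x, Module.finrank ℝ (Eu x) = D) (hκ : 1 ≤ κ) (hd : DistortionOn f N Eu C₁ κ)
    (hp : 2 * D * Real.log κ * (Real.log μ₂ - Real.log μ₁) <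
      -Real.log μ₂ * Real.log l₁) : GPS f.toHomeomorph := by
  obtain ⟨m, ee, hee, hemb, hinje⟩ :=
    exists_embedding_euclidean_of_compact (I := 𝓘(ℝ, E)) (M := M)
  let _ : MetricSpace M := hemb.isEmbedding.comapMetricSpace ee
  have hiso : ∀ x y : M, dist x y = ‖ee x - ee y‖ := fun x y => dist_eq_norm (ee x) (ee y)
  have he1 : ContMDiff 𝓘(ℝ, E) (𝓡 m) 1 ee := hee.of_le (by simp)
  obtain ⟨C', hE⟩ := eanosov_of_rates hN ee he1 hinje f.toHomeomorph f.contMDiff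
    f.symm.contMDiff Es Eu C μ₁ μ₂ l₁ l₂ hf
  obtain ⟨R, hR, hRd⟩ := dist_amb hN ee he1 hinje
  refine core H hiso he1 hinje hE D hD hrk (R * max 1 C₁) κ ?_ hκ
    (hRd f Eu C₁ κ (by linarith) hd) ?_
  · have : 1 ≤ max 1 C₁ := le_max_left _ _
    nlinarith
  · rw [inv_inv, Real.log_inv, Real.log_inv]
    have : -Real.log μ₁ - -Real.log μ₂ = Real.log μ₂ - Real.log μ₁ := by ring
    rw [this]
    exact hp

end manifold

end Pool.Agent.Q192.PI.B
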