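import Pool.Agent.Y330.H.P2
import Pool.Agent.H779R2.An.CChart
import Pool.Agent.H721R2.Setup

/-!
# Project PI, part A: pinched Anosov diffeomorphisms, exact statements of the lemmas

Every lemma is a `Prop` here (named `SA1`, ..., `SA7`). Prove `theorem sA1 : SA1` etc. in the file
named in the job. A lemma may use the other ones as hypotheses only where this is written.
-/

set_option autoImplicit false

open Filter Topology Set Metric unitInterval
open scoped Manifold ContDiff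

namespace Pool.Agent.Q192.PI

open Pool.Agent.H721R2 Pool.Agent.H789R2.AN Pool.Agent.H789R2.GP Pool.Agent.Y330.H
open Pool.Agent.TH289.K

universe u v

/-- The path `p` splits into `m` pieces of stable size `δ`. -/
def Pieces {X : Type u} [MetricSpace X] (g : X ≃ₜ X) (δ : ℝ) (m : ℕ) (p : I → X) : Prop :=
  ∃ θ : ℕ → I, Monotone θ ∧ θ 0 = 0 ∧ θ m = 1 ∧ ∀ i < m, ∀ t t' : I, θ i ≤ t → t ≤ θ (i + 1) →
    θ i ≤ t' → t' ≤ θ (i + 1) → SR g δ (p t) (p t')

/-- At time `-k` the path `p` splits into `m ^ k * N` pieces of stable size `δ`, for all `k`. -/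
def Nice {X : Type u} [MetricSpace X] (g : X ≃ₜ X) (δ : ℝ) (m N : ℕ) (p : I → X) : Prop :=
  ∀ k : ℕ, Pieces g δ (m ^ k * N) (fun t => g.symm^[k] (p t))

/-- Stable displacements of size `ε` are contracted by the factor `α`. -/
def Cn {X : Type u} [MetricSpace X] (g : X ≃ₜ X) (ε α : ℝ) : Prop :=
  ∀ x y, SR g ε x y → ∀ k : ℕ, dist (g^[k] x) (g^[k] y) ≤ α ^ k * dist x y

/-- A stable path and an unstable path of size `δ` with the same origin span a rectangle of
size `r`. -/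
def LR {X : Type u} [MetricSpace X] [CompactSpace X] (g : X ≃ₜ X) (δ r : ℝ) : Prop :=
  ∀ (τ : C(I, SM g)) (v : C(I, SM g.symm)), (τ 0).val = (v 0).val →
    (∀ s, SR g δ (τ 0).val (τ s).val) → (∀ t, SR g.symm δ (v 0).val (v t).val) →
    ∃ R : I → I → X, Rc g R ∧ (∀ s, R s 0 = (τ s).val) ∧ (∀ t, R 0 t = (v t).val) ∧
      (∀ s t, SR g r (R 0 t) (R s t)) ∧ ∀ s t, SR g.symm r (R s 0) (R s t)

/-- Radial structure of small stable plaques: every path `υ` in a small stable plaque of `a` is the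
end of a family of nice paths from `a`. -/
def Rad {X : Type u} [MetricSpace X] [CompactSpace X] (g : X ≃ₜ X) (δ : ℝ) (m : ℕ) : Prop :=
  ∃ δ' > 0, ∀ (a : X) (υ : C(I, SM g)), (∀ t, SR g δ' a (υ t).val) →
    ∃ H : C(I × I, SM g), (∀ t, (H (0, t)).val = a) ∧ (∀ t, (H (1, t)).val = (υ t).val) ∧
      (∀ r t, (υ t).val = a → (H (r, t)).val = a) ∧
      ∀ t, Nice g δ m 1 (fun r => (H (r, t)).val)

/-- Rectangles over nice paths. -/
def Rect {X : Type u} [MetricSpace X] [CompactSpace X] (g : X ≃ₜ X) (ρ δ : ℝ) (ms mu : ℕ) : Prop :=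
  ∀ (N J : ℕ) (τ : C(I, SM g)) (v : C(I, SM g.symm)), (τ 0).val = (v 0).val →
    Nice g ρ ms N (fun s => (τ s).val) → Nice g.symm δ mu J (fun t => (v t).val) →
    ∃ R : I → I → X, Rc g R ∧ (∀ s, R s 0 = (τ s).val) ∧ ∀ t, R 0 t = (v t).val

/-- **SA1** (small rectangles exist).
Proof. Let `c₁`, `c₂` be given by `exists_sl hg` and `exists_sl hg.symm` (file Y330/H/B1). Take
`η`, `η'` from `Sl g c c₁` and `Sl g.symm c c₂` with `e := r` and `j := 0`, and
`δ = min (min η η') (min c₁ c₂)`. For `τ`, `v` as in `LR` and each `s`, `Sl` gives a strip over `v`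
starting at `τ s` with `SR g r (v t) (Γ t).y`; `rc_of_strips` (Y330/H/B2) gives `R`. By uniqueness
(`Rc.strip` with `0`, `s`, and `strip_unique`) `SR g r (R 0 t) (R s t)`. For the other bound use in
the same way `Sl g.symm c c₂` for the path `τ` (as an unstable path of `g.symm`; note that
`g.symm.symm = g` holds by `rfl`), and `h.tr.strip`, `strip_unique hg.symm`. -/
def SA1 : Prop := ∀ (X : Type u) [MetricSpace X] [CompactSpace X] (g : X ≃ₜ X) (c : ℝ), LP g c →
  ∀ r > 0, ∃ δ > 0, LR g δ r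

/-- **SA2** (one push). Here `p` is a stable path which splits into `N` pieces of size `ρ`, and
`g^n p` is small; it is pushed along the small unstable path `v` at time `n`.
Proof. For `s` in the piece number `i` the points `p 0 = p (θ 0)`, `p (θ 1)`, ..., `p (θ i)`, `p s`
form a chain with `i + 1 ≤ N` steps `SR g ρ`, and `ρ ≤ εs`, so by `Cn g εs α`, for all `j`,
`dist (g^(n+j) (p 0)) (g^(n+j) (p s)) ≤ N * α^(n+j) * ρ ≤ δ`. So `LR` applies to the stable path
`s ↦ g^n (p s)` (continuous in `SM g`, see `path_iter`) and `v` and gives `R`. Put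
`p' s = g.symm^[n] (R s 1)` (a path in `SM g`: `Rc.pathS` for `(h.iter' n)` at `t = 1`). Let `t`,
`t'` be in one piece. For `j ≤ n`: `dist (g^j (p' t)) (g^j (p t)) = dist (g.symm^[n-j] (R t 1))
(g.symm^[n-j] (R t 0)) ≤ β^(n-j) * r` by `Cn g.symm εs β` (here `r ≤ εs`), so
`dist (g^j (p' t)) (g^j (p' t')) ≤ ρ + 2 r ≤ εs`; for `j ≥ n` it is at most `2 r ≤ εs` by
`SR g r (R 0 1) (R t 1)`. Hence `SR g εs (p' t) (p' t')` and, by `Cn g εs α` with `α ≤ 1`, all
forward distances are at most `dist (p' t) (p' t') ≤ ρ + 2 * β^n * r`. -/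
def SA2 : Prop := ∀ (X : Type u) [MetricSpace X] [CompactSpace X] (g : X ≃ₜ X)
  (εs α β δ r ρ : ℝ) (n N : ℕ), 0 ≤ α → α ≤ 1 → 0 ≤ β → β ≤ 1 → 0 < r → 0 < ρ → ρ + 2 * r ≤ εs →
  Cn g εs α → Cn g.symm εs β → LR g δ r → N * (α ^ n * ρ) ≤ δ →
  ∀ p : C(I, SM g), Pieces g ρ N (fun t => (p t).val) →
  ∀ v : C(I, SM g.symm), (v 0).val = g^[n] (p 0).val → (∀ t, SR g.symm δ (v 0).val (v t).val) →
  ∃ R : I → I → X, Rc g R ∧ (∀ s, R s 0 = g^[n] (p s).val) ∧ (∀ t, R 0 t = (v t).val) ∧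
    ∃ p' : C(I, SM g), (∀ s, g^[n] (p' s).val = R s 1) ∧
      Pieces g (ρ + 2 * (β ^ n * r)) N (fun t => (p' t).val)

/-- **SA3** (many pushes), from `SA2`.
Proof. Let `v` split into `J` pieces at the times `θ i`, and `v_i t = v (min t (θ i))`. By induction
on `i ≤ J`: there are a rectangle `R_i` over `s ↦ g^n (p s)` and `v_i`, and a path `p_i` with
`g^n (p_i s) = R_i s 1` and `Pieces g (ρ + 2 i β^n r) N p_i`. Step: `SA2` for `p_i` (with
`ρ_i = ρ + 2 i β^n r ≤ 2 ρ`, as `2 J β^n r ≤ ρ`) and the unstable path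
`w t = v (clamp t)`, `clamp t = max (θ i) (min t (θ (i+1)))`, which has size `δ`, gives `R'` and
`p_(i+1)`. The rectangle is `R_(i+1) s t = if t ≤ θ i then R_i s t else R' s t`: it is
continuous since `R' s t = R' s 0` for `t ≤ θ i` and `R_i s t = R_i s 1` for `t ≥ θ i` (over an
interval where the left side is constant the strip is constant: use `Rc.unique` with the
reparametrised rectangles `(s, t) ↦ R' s (min t (θ i))` and `(s, t) ↦ R' s 0`, and similarly for
`R_i`). `Con` for both families of sides holds because it holds on both parts (`Con.trans'`,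
`Con.reidx`). -/
def SA3 : Prop := ∀ (X : Type u) [MetricSpace X] [CompactSpace X] (g : X ≃ₜ X) (c : ℝ), LP g c →
  ∀ (εs α β δ r ρ : ℝ) (n N J : ℕ), 0 ≤ α → α ≤ 1 → 0 ≤ β → β ≤ 1 → 0 < r → 0 < ρ →
  2 * ρ + 2 * r ≤ εs → Cn g εs α → Cn g.symm εs β → LR g δ r → N * (α ^ n * (2 * ρ)) ≤ δ →
  2 * J * (β ^ n * r) ≤ ρ →
  ∀ p : C(I, SM g), Pieces g ρ N (fun t => (p t).val) →
  ∀ v : C(I, SM g.symm), (v 0).val = g^[n] (p 0).val → Pieces g.symm δ J (fun t => (v t).val) →
  ∃ R : I → I → X, Rc g R ∧ (∀ s, R s 0 = g^[n] (p s).val) ∧ ∀ t, R 0 t = (v t).val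

/-- **SA4** (rectangles over nice paths), from `SA3`.
Proof. Given `N`, `J`, `τ`, `v`, take `k ≤ n` from the growth hypothesis. Put `p = g^(-k) τ` (which
splits into `ms^k N` pieces of size `ρ`, by `Nice` at `k`) and `w = g^(n-k) v` (which splits into
`mu^(n-k) J` pieces of size `δ`, by `Nice g.symm` at `n - k`; `g.symm.symm^[n-k] = g^[n-k]`). Then
`w 0 = g^(n-k) (τ 0) = g^n (p 0)`. `SA3` gives a rectangle `R` over `g^n p = g^(n-k) τ` and `w`;
`(s, t) ↦ g.symm^[n-k] (R s t)` (`Rc.iter'`) is the rectangle. Paths: `path_iter`. -/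
def SA4 : Prop := ∀ (X : Type u) [MetricSpace X] [CompactSpace X] (g : X ≃ₜ X) (c : ℝ), LP g c →
  ∀ (εs α β δ r ρ : ℝ) (ms mu : ℕ), 0 ≤ α → α ≤ 1 → 0 ≤ β → β ≤ 1 → 0 < r → 0 < ρ →
  2 * ρ + 2 * r ≤ εs → Cn g εs α → Cn g.symm εs β → LR g δ r →
  (∀ N J : ℕ, ∃ k n : ℕ, k ≤ n ∧ ((ms ^ k * N : ℕ) : ℝ) * (α ^ n * (2 * ρ)) ≤ δ ∧
    2 * ((mu ^ (n - k) * J : ℕ) : ℝ) * (β ^ n * r) ≤ ρ) → Rect g ρ δ ms mu

/-- **SA5** (radial structure of stable plaques of a hyperbolic system).
Proof. First: there is `r₀ > 0` such that `S.SRel r₀ x y` implies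
`dist (S.g.symm x) (S.g.symm y) ≤ 4 * S.Ls * dist x y` (see the proof of `HypSys.subdivide` in
H721R2/Subdiv, or directly: by the cone lemma (H721R2/Cone, `coneS`) for `SRel`-related points the
unstable part `u` of `e y - e x ≈ s + u` has norm at most `η * dist x y`, and `A1'`, `boundS`,
`contrU` bound `e (g⁻¹ y) - e (g⁻¹ x)`). Let `ρ` be small with respect to `δ`, `r₀` and the `ε₁` of
`S.contraction_iter` (for `SRel ε₁` the forward distances are decreasing), and take `ρ₁`, `ρ'` from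
`chart_prop S d hd ρ` (where we may assume `ρ₁ ≤ ρ`, or argue with `2 ρ`: all points `ψ w`,
`‖w‖ ≤ ρ₁` are `SRel ρ` related to `a`, so they are `SRel (2 ρ)` related to each other and the
distance in `SM S.g` of two of them is their distance). `δ' = ρ'`: for each `t` there is exactly one
`w t` with `‖w t‖ ≤ ρ₁ / 4` and `ψ (w t) = υ t`, and `‖w t - w t'‖ ≤ 2 dist (υ t) (υ t')`, so `w` is
continuous. `H (r, t) = ψ (r • w t)`. If `υ t = a = ψ 0` then `w t = 0`. Nice: let `t`, `k` be given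
and let `r`, `r'` be in the same interval `[i / ms^k, (i+1) / ms^k]`. Then
`dist (ψ (r • w)) (ψ (r' • w)) ≤ 2 ‖w‖ |r - r'| ≤ (ρ₁ / 2) / ms^k`, and by induction on `j ≤ k` the
points at time `-j` are at distance at most `(4 S.Ls)^j (ρ₁ / 2) / ms^k ≤ (ρ₁ / 2) ms^(j-k)`, and
they are `SRel` related with the maximum of the sizes so far, in particular with
`min r₀ δ` if `ρ₁ / 2` and `2 ρ` are at most that. -/
def SA5 : Prop := ∀ (X : Type u) (E : Type v) [MetricSpace X] [CompactSpace X]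
  [NormedAddCommGroup E] [NormedSpace ℝ E] [FiniteDimensional ℝ E] (S : HypSys X E) (d ms : ℕ),
  (∀ x, Module.finrank ℝ (S.Vs x) = d) → 4 * S.Ls ≤ ms → ∀ δ > 0, Rad S.g δ ms

/-- **SA6** (all unstable paths lift).
Proof. Let `δ'` be the smaller one of the radii of the two `Rad` hypotheses (for `g` and
`g.symm`).
(a) If `WS g a s`, there is a stable path `τ` from `a` to `s` with `Nice g ρ ms N τ` for some `N`:
choose `m` with `SR g δ' (g^m a) (g^m s)` (`WS` and `LP`: the distances tend to zero, use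
`WS.eventually_lt`, all later distances are small), apply `Rad g` to the constant path at `g^m s`
and take `τ' r = H (r, 0)`, `Nice g ρ ms 1 τ'`; then `τ = g^(-m) τ'` has `Nice g ρ ms (ms^m) τ`
(`g^(-k) τ = g^(-(k+m)) τ'`).
(b) Small paths: if `WS g a s` and `υ` is an unstable path with `υ 0 = a` and
`SR g.symm δ' a (υ t)` for all `t`, then `LO υ s x` for some `x`. Take `H : C(I × I, SM g.symm)`
from `Rad g.symm`. For each `t` the path `r ↦ H (r, t)` is nice and starts at `a`, so `Rect` gives a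
rectangle over `τ` and it, and `Rc.strip 0 1` a strip `Γ_t : C(I, Pr g)` with
`(Γ_t r).x = H (r, t)`, `(Γ_t 0).y = s`. The map `(r, t) ↦ Γ_t r` is a lift of `H` by
`Pr.fst : Pr g → SM g.symm`, a local homeomorphism (`fst_isLocalHomeomorph hg`), continuous in `r`
and constant for `r = 0`; by `IsLocalHomeomorph.continuous_lift` of Mathlib
(Topology/Homotopy/Lifting) it is continuous. So `Γ t = Γ_t 1` is a strip over `υ`. For `t = 0`:
`υ 0 = a`, so `H (r, 0) = a` for all `r`, and `Γ_0` is constant by uniqueness (`strip_unique`, or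
uniqueness of lifts), so `(Γ 0).y = s`.
(c) General `υ` with `υ 0 = a`: let `S r` be the statement that there is `Γ : C(I, Pr g)` with
`(Γ 0).y = s` and `(Γ t).x = υ (min t r)` for all `t`. `S 0` holds by the constant strip
(`strip_const`, moved: the strip with constant pair `(a, s)`). There is `κ > 0` with
`SR g.symm δ' (υ t) (υ t')` for `|t - t'| < κ`. If `S r` and `r ≤ r'' < r + κ` then apply (b) with
`a := υ r`, `s := (Γ 1).y` and the path `t ↦ υ (max r (min t r''))`, to get `Γ'`; then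
`t ↦ if t ≤ r then Γ t else Γ' t` is continuous (at `t = r` both are the pair `(υ r, (Γ 1).y)`, by
uniqueness of lifts over the constant parts). So `S 1` (`interval_induct` in Y330/H/B8, or induction
on `i` for `r = i / n`). -/
def SA6 : Prop := ∀ (X : Type u) [MetricSpace X] [CompactSpace X] (g : X ≃ₜ X) (c : ℝ), LP g c →
  ∀ (ρ δ : ℝ) (ms mu : ℕ), Rad g ρ ms → Rad g.symm δ mu → Rect g ρ δ ms mu →
  ∀ a s, WS g a s → Lf g a s

/-- **SA7** (the theorem for hyperbolic systems), from `SA1`, `SA4`, `SA5`, `SA6`.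
Proof. `exists_LP S` gives `c` with `LP S.g c`; `S.contraction_iter α` and
`S.symm.contraction_iter β` give `ε₁`, `ε₂` (`SRel` and `SR` are the same by unfolding); put
`εs = min ε₁ ε₂`, `r = ρ = εs / 4`, `δ` from `SA1`. Growth: apply the hypothesis to
`N * (⌈2 ρ / δ⌉₊ + 1)` and `J * (⌈r / ρ⌉₊ + 1)` (note `1 ≤ S.K`). `SA5` for `S` and `S.symm`
(`S.symm.Ls = S.Lu`) gives `Rad S.g ρ ms`, `Rad S.g.symm δ mu`, `SA4` gives `Rect`, `SA6` the
result. -/
def SA7 : Prop := ∀ (X : Type u) (E : Type v) [MetricSpace X] [CompactSpace X]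
  [NormedAddCommGroup E] [NormedSpace ℝ E] [FiniteDimensional ℝ E] (S : HypSys X E)
  (ds du ms mu : ℕ) (α β : ℝ),
  (∀ x, Module.finrank ℝ (S.Vs x) = ds) → (∀ x, Module.finrank ℝ (S.Vu x) = du) →
  S.a < α → S.b < β → α ≤ 1 / 2 → β ≤ 1 / 2 → 4 * S.Ls ≤ ms → 4 * S.Lu ≤ mu →
  (∀ N J : ℕ, ∃ k n : ℕ, 1 ≤ k ∧ k ≤ n ∧ 2 * ((ms : ℝ) ^ k * N) * α ^ n ≤ 1 ∧
    36 * S.K * β ^ n * ((mu : ℝ) ^ (n - k) * J) ≤ 1) →
  ∀ a s, WS S.g a s → Lf S.g a s

end Pool.Agent.Q192.PI
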