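import Pool.Agent.Q192.PI.Stm
import Pool.Agent.Q130.UQ.Defs
import Pool.Agent.Q130.UQ.Hol
import Pool.Agent.Q182.UQ.Min
import Pool.Agent.Q182.UQ.Whole

/-!
# Project PI, part B: small distortion on one bundle, exact statements of the lemmas

Every lemma is a `Prop` here (`SB1`, ..., `SB12`). Prove `theorem sB1 : SB1` etc. in the file named
in the job. A lemma may use the other ones as hypotheses only where this is written.
Notation in the docstrings: `g = S.g`, `W c x = {z | S.URel c x z}`, `g^-n = S.g.symm^[n]`.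
-/

set_option autoImplicit false

open Filter Topology Set Metric

namespace Pool.Agent.Q192.PI.B

open Pool.Agent.H721R2 Pool.Agent.H779R2.An Pool.Agent.Q130.UQ Pool.Agent.H789R2.AN
  Pool.Agent.H789R2.GP

universe u v

variable {X : Type u} {E : Type v} [MetricSpace X] [NormedAddCommGroup E] [NormedSpace ℝ E]

/-- Quantitative hyperbolicity at the scale `ε₀`; `K` is the metric distortion of `g` on unstable
plaques. -/
structure Sc (S : HypSys X E) (ε₀ Q α β K L : ℝ) : Prop where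
  geo : Geo S ε₀
  Q1 : 1 ≤ Q
  α0 : 0 < α
  α1 : α ≤ 1 / 2
  β0 : 0 < β
  β1 : β ≤ 1 / 2
  K1 : 1 ≤ K
  L1 : 1 ≤ L
  br : ∀ x y, dist x y ≤ ε₀ → ∃ w, S.SRel (Q * dist x y) x w ∧ S.URel (Q * dist x y) w y
  sc : ∀ x y, S.SRel ε₀ x y → ∀ k : ℕ, dist (S.g^[k] x) (S.g^[k] y) ≤ α ^ k * dist x y
  uc : ∀ x y, S.URel ε₀ x y → ∀ k : ℕ,
    dist (S.g.symm^[k] x) (S.g.symm^[k] y) ≤ β ^ k * dist x y
  lip : ∀ x y, dist (S.g x) (S.g y) ≤ L * dist x y
  md : ∀ x z z', S.URel ε₀ (S.g x) (S.g z) → S.URel ε₀ (S.g x) (S.g z') →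
    dist (S.g x) (S.g z) * dist x z' ≤ K * (dist (S.g x) (S.g z') * dist x z)

/-- Bi-Lipschitz charts of the unstable plaques. -/
structure Cht (S : HypSys X E) (D : ℕ) (ε₀ R : ℝ) (ψ : X → V D → X) : Prop where
  pos : 0 < R
  zero : ∀ x, ψ x 0 = x
  rel : ∀ x a a', ‖a‖ ≤ R → ‖a'‖ ≤ R → S.URel ε₀ (ψ x a) (ψ x a')
  le : ∀ x a a', ‖a‖ ≤ R → ‖a'‖ ≤ R → dist (ψ x a) (ψ x a') ≤ 2 * ‖a - a'‖
  ge : ∀ x a a', ‖a‖ ≤ R → ‖a'‖ ≤ R → ‖a - a'‖ ≤ 2 * dist (ψ x a) (ψ x a')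
  surj : ∀ x z, S.URel (R / 2) x z → ∃ a, ‖a‖ ≤ R ∧ ψ x a = z

/-- The hierarchy of scales: `b` is the size of the discs, `σ` the size of the cells, `η` the
stable distance of the two leaves at the time `T`. -/
structure Scale (ε₀ R Q L σ η b : ℝ) : Prop where
  η0 : 0 < η
  ησ : 64 * Q * η ≤ σ
  σb : 65536 * Q * L * σ ≤ b
  bR : 64 * b ≤ R
  bε : 64 * b ≤ ε₀

/-- A (long range) stable holonomy `φ` from a set `A` contained in one unstable leaf into another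
unstable leaf, with time `T`. -/
structure HolT (S : HypSys X E) (σ η : ℝ) (T : ℕ) (A : Set X) (φ : X → X) : Prop where
  ua : ∀ a ∈ A, ∀ a' ∈ A, UAsym S a a'
  uu : ∀ a ∈ A, ∀ a' ∈ A, UAsym S (φ a) (φ a')
  inj : Set.InjOn φ A
  rel : ∀ a ∈ A, S.SRel η (S.g^[T] a) (S.g^[T] (φ a))
  loc : ∀ a ∈ A, ∀ a' ∈ A, S.URel σ (S.g^[T] a) (S.g^[T] a') →
    S.URel (2 * σ) (S.g^[T] (φ a)) (S.g^[T] (φ a'))

/-- The image of a disc in `U` under a holonomy contains no disc of level `k₀`. -/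
def CB (S : HypSys X E) (σ η b : ℝ) (U : Set X) : Prop :=
  ∃ k₀ : ℕ, ∀ x, (∀ z, S.URel b x z → z ∈ U) → ∀ (T : ℕ) (φ : X → X),
    HolT S σ η T {z | S.URel (b / 2) x z} φ → ∀ a, S.URel (b / 2) x a →
    ∃ w, S.URel σ (S.g.symm^[k₀] (φ a)) (S.g.symm^[k₀] w) ∧ w ∉ φ '' {z | S.URel (b / 2) x z}

/-- Long images cross many disjoint boxes. -/
def Bx (S : HypSys X E) (D : ℕ) (σ η b β R : ℝ) (ψ : X → V D → X) (U : Set X) : Prop :=
  ∃ k₁ : ℕ, ∃ τ > 0, 16 * σ ≤ τ ∧ 64 * τ ≤ R ∧ 64 * τ ≤ b ∧ ∃ c > 0, ∀ x, (∀ z, S.URel b x z → z ∈ U) →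
    ∀ (T : ℕ) (φ : X → X), HolT S σ η T {z | S.URel (b / 2) x z} φ → ∀ z, S.URel (b / 256) x z →
    ∀ n : ℕ, ¬ S.URel b (S.g.symm^[n] (φ x)) (S.g.symm^[n] (φ z)) →
    ∃ (J : ℕ) (d : Fin J → X), c ≤ ((J : ℝ) + 1) * β ^ n ∧
      (∀ i j, i ≠ j → ∀ w w', ‖w‖ ≤ 5 * τ → ‖w'‖ ≤ 5 * τ → ¬ S.URel τ (ψ (d i) w) (ψ (d j) w')) ∧
      ∀ j, ∀ s ∈ Icc τ (2 * τ),
        (∃ w, ‖w‖ = s ∧ ∃ a, S.URel (b / 64) x a ∧ φ a = S.g^[k₁] (ψ (d j) w)) ∧
        ∃ w, ‖w‖ = s ∧ ∀ a, S.URel (b / 16) x a → φ a ≠ S.g^[k₁] (ψ (d j) w)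

/-- The transported cut-off function at the time `T`. -/
def Fn (S : HypSys X E) (D : ℕ) (σ η b K : ℝ) : Prop :=
  ∃ C > 0, ∀ x, ∀ (T : ℕ) (φ : X → X), HolT S σ η T {z | S.URel (b / 2) x z} φ →
    ∃ (f : X → ℝ) (m : ℕ) (q : Fin m → X) (l : Fin m → ℝ), (∀ i, 0 ≤ l i) ∧
      ∑ i, l i ^ D ≤ C * K ^ (D * T) ∧
      (∀ a, S.URel (b / 64) x a → f (S.g^[T] (φ a)) = 1) ∧
      (∀ p, (∀ a, S.URel (b / 16) x a → S.g^[T] (φ a) ≠ p) → f p = 0) ∧
      ∀ p, (∀ p', S.URel σ p p' → f p' = f p) ∨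
        ∃ i, S.URel (4 * σ) (q i) p ∧ ∀ p', S.URel σ p p' → |f p' - f p| ≤ l i * dist p p'

/-- Tentacle lemma. -/
def TL (S : HypSys X E) (D : ℕ) (σ η b β K : ℝ) (U : Set X) : Prop :=
  ∃ C > 0, ∀ x, (∀ z, S.URel b x z → z ∈ U) → ∀ (T : ℕ) (φ : X → X),
    HolT S σ η T {z | S.URel (b / 2) x z} φ → ∀ z, S.URel (b / 256) x z → ∀ n : ℕ,
    ¬ S.URel b (S.g.symm^[n] (φ x)) (S.g.symm^[n] (φ z)) → 1 ≤ C * K ^ (2 * D * T) * β ^ n

/-- Bounds for the images of balls. -/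
def WL (S : HypSys X E) (D : ℕ) (σ η β K R : ℝ) (ψ : X → V D → X) (U : Set X) : Prop :=
  ∀ e > 0, ∃ C > 0, ∀ y r, 0 < r → r ≤ R / 8 → (∀ w, ‖w‖ < r → ψ y w ∈ U) →
    ∀ (T : ℕ) (φ : X → X), HolT S σ η T (ψ y '' ball 0 r) φ →
    ∀ n : ℕ, C * K ^ (2 * D * T) * β ^ n ≤ 1 →
    ∀ w, ‖w‖ < r → S.URel e (S.g.symm^[n] (φ y)) (S.g.symm^[n] (φ (ψ y w)))

/-- Transport of balls in `U` along whole stable leaves. -/
def TR (S : HypSys X E) (D : ℕ) (σ η R : ℝ) (ψ : X → V D → X) (U : Set X) : Prop :=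
  ∀ y ∈ U, ∀ P, SAsym S y P → ∀ r, 0 < r → r ≤ R / 8 → (∀ w, ‖w‖ < r → ψ y w ∈ U) →
    ∃ (T : ℕ) (φ : X → X), HolT S σ η T (ψ y '' ball 0 r) φ ∧ φ y = P

/-- Loewner type inequality for transported functions. -/
def LB (D : ℕ) : Prop :=
  ∃ η > 0, ∀ (n : ℕ) (c : Fin n → V D) (ρ l : Fin n → ℝ) (u : V D → ℝ), (∀ i, 0 ≤ ρ i) →
    (∀ i, 0 ≤ l i) →
    (∀ w, ‖w‖ < 5 → (∀ᶠ w' in 𝓝 w, u w' = u w) ∨
      ∃ i, ‖w - c i‖ ≤ ρ i ∧ ∀ᶠ w' in 𝓝 w, |u w' - u w| ≤ l i * ‖w' - w‖) →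
    (∀ t ∈ Icc (1 : ℝ) 2, (∃ a, ‖a‖ = t ∧ u a = 0) ∧ ∃ b, ‖b‖ = t ∧ u b = 1) →
    η ≤ ∑ i, (l i * ρ i) ^ D

/-- **SB1** (cells are almost round).
Proof. We may assume `σ ≤ ε₀ / L` (`¬ URel σ` implies `¬ URel (min σ (ε₀ / L))`). Take
`C = L * ε₀ / σ`. Let `k ≤ m + 1` be minimal with `¬ URel σ (g^k a) (g^k z)`.
If `k = 0`: by `Geo.URel_dist`, `URel (dist a z) a z`, so `dist a z > σ`, and
`dist a z' ≤ ε₀` (go back from time `m`: `iter_symm_iter`). If `k ≥ 1`: `URel σ` at time `k - 1`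
and `lip` give `URel (L σ)`, hence `URel ε₀`, at time `k` and, by `URel_dist`,
`dist (g^k a) (g^k z) > σ`; so with `j = min k m` we have `dist (g^j a) (g^j z) ≥ σ / L`. Iterating
`md` (`URel ε₀` at time `j` implies `URel ε₀` at all earlier times):
`dist (g^j a) (g^j z) * dist a z' ≤ K^j * (dist (g^j a) (g^j z') * dist a z)`, and
`dist (g^j a) (g^j z') ≤ ε₀`. -/
def SB1 : Prop := ∀ (X : Type u) (E : Type v) [MetricSpace X] [NormedAddCommGroup E]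
  [NormedSpace ℝ E] (S : HypSys X E) (ε₀ Q α β K L : ℝ), Sc S ε₀ Q α β K L →
  ∀ σ > 0, ∃ C > 0, ∀ (a z z' : X) (m : ℕ), S.URel ε₀ a z →
    ¬ S.URel σ (S.g^[m + 1] a) (S.g^[m + 1] z) → S.URel ε₀ (S.g^[m] a) (S.g^[m] z') →
    dist a z' ≤ C * K ^ m * dist a z

/-- **SB2** (Euclidean; from the Loewner estimate `SLoewner D`, which is proved in Q210/UQ).
Proof. `u` is Lipschitz on `‖w‖ < 5` with constant `Λ = ∑ l i` (a function on a convex open set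
with pointwise Lipschitz constants `≤ Λ` is `Λ`-Lipschitz). Moreover (★) if `w₁, w₂` are in the ball
`B (w, ε)`, `‖w‖ ≤ 4`, `ε < 1`, then `|u w₁ - u w₂| ≤ Λ_w * ‖w₁ - w₂‖` where `Λ_w` is the
maximum of `0` and the `l i` with `‖w - c i‖ ≤ ρ i + ε`. Extend `u` from the open ball of radius
`5` to a Lipschitz function on the space (`LipschitzOnWith.extend_real`), let `u_ε` be its
convolution with a smooth normed bump function supported in the ball of radius `ε`; then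
`|u_ε - u| ≤ Λ ε` for `‖w‖ ≤ 2` and, by (★) with `2 ε`,
`‖fderiv u_ε w‖ ^ D ≤ ∑ (i with ‖w - c i‖ ≤ ρ i + 2 ε), l i ^ D` for `‖w‖ < 4`. Let `F` be a
smooth step, `F = 0` on `(-∞, 1/4]`, `F = 1` on `[3/4, ∞)`, `|F'| ≤ C_F`. For `Λ ε ≤ 1/4` the function
`F ∘ u_ε` satisfies the hypothesis of `SLoewner`, so
`η₀ ≤ C_F^D ∑ l i ^ D * vol (ball (c i) (ρ i + 2 ε)) = C_F^D ω_D ∑ (l i (ρ i + 2 ε))^D`
(`EuclideanSpace.volume_ball` or `Measure.addHaar_ball`). Let `ε → 0`. -/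
def SB2 : Prop := ∀ D : ℕ, 2 ≤ D → SLoewner D → LB D

/-- **SB3** (compactness).
Proof (compare `enter` in Q182/UQ/Min). Use `isCompact_univ.induction_on` over the points `z`, the
property being monotone in `t₁` (if `SRel e (g^t z) q`, `q ∈ Λ`, then also
`SRel e (g^(t+1) z) (g q)`). Let `z₀` be given. Case `z₀ ∈ Ws S Λ`: take `p ∈ Λ` with `SAsym p z₀`,
`δ` from `exists_bracket S e`, and `t` with `SRel (δ / 2) (g^t p) (g^t z₀)`; for `z` close to `z₀`,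
`dist (g^t z) (g^t p) ≤ δ`, the bracket `q` has `SRel e (g^t z) q` and `URel e q (g^t p)`, so
`q ∈ Λ` by saturation (replace `e` by `min e ε₀` to have `Geo.uasym`). Case `z₀ ∉ Ws S Λ`: let `δ` be
the bracket radius for `min (b / 4) ε₀`; for `dist z z₀ ≤ δ` there is `w` with
`SRel (b/4) z₀ w`, `URel (b/4) w z`; if `URel (b/2) x z` then `URel b x w`, so `w ∈ Ws S Λ` and
`z₀ ∈ Ws S Λ`, a contradiction. So there is no such `x` at all. -/
def SB3 : Prop := ∀ (X : Type u) (E : Type v) [MetricSpace X] [CompactSpace X]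
  [NormedAddCommGroup E] [NormedSpace ℝ E] (S : HypSys X E) (ε₀ : ℝ), Geo S ε₀ →
  ∀ Λ, UMin S Λ → ∀ b > 0, ∀ e > 0, ∃ t₁ : ℕ, ∀ x, (∀ z, S.URel b x z → z ∈ Ws S Λ) →
    ∀ z, S.URel (b / 2) x z → ∃ q ∈ Λ, S.SRel e (S.g^[t₁] z) q

/-- **SB4** (counting argument), from `SB3`; `SEnter`, `SReach` are proved in Q182/UQ/Min (`enter`,
`reach`, `minEx`). It is a variant of `Pool.Agent.Q6.UQ.claimB` (Q6/UQ/ClaimB.lean: please reuse
`PP`, `PP.mono`, `PP.exists_time`, `PP.bounded`, `LP'`, `URel_contr`, `unif_iter`, ...).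
Proof. Fix `x₀ ∈ Λ`. As in `claimB`: `δ₃` (bracket radius for `σ / 2`), `r = min (δ₃/2) (5σ/2)`,
`t₀` from `SEnter` with `(σ/2, δ₃/2)`. Source side constants: `e₅ = σ / 8`, `δ₄` = bracket radius for
`e₅`, `e₄ = min (δ₄ / 4) (σ / 8)`, `t₁` from `SB3` with `e₄` (and the given `b`), `δ₅ > 0` such that
`dist a a' < δ₅` implies `dist (g^j a) (g^j a') ≤ min (δ₄/4) (σ/8)` for `j ≤ t₁` (`unif_iter`),
a finite cover of `X` by `M₁` sets of diameter `< δ₅`; `M₁` distinct points `x_k` with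
`URel (r/2) x₀ x_k` (discs are infinite), all in `Λ`, with mutual distances `≥ s > 0`; `p` with
`(1/8)^p e₅ ≤ s / 8`, `(1/8)^p e₅ ≤ r/4`; `δ₇` such that `dist a a' ≤ δ₇` implies
`dist (g^p a) (g^p a') ≤ δ₄ / 4`; `s₀` = maximum over `k` of the numbers given by `SReach` with base
point `x_k`, `ε = min (s/8) (r/4)`, `ε₁ = δ₇`. Put `k₀ = t₀ + s₀ + p + 3`.
Suppose that for some `x`, `T`, `φ`, `a` every `w` with `URel σ (g^-k₀ (φ a)) (g^-k₀ w)` is in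
`φ '' A`, `A = W (b/2) x`. Claim: for large `N`, `PP S σ r x₀ N m → PP S σ r x₀ (N-1) m`.
As in `claimB` one finds `z`, `t ≤ t₀`, and for the `m` given points `f i` points `w i` with
`SRel (σ/2) (f i) (w i)`, `URel (σ/2) (w i) (g^t z)` and `a i ∈ A` with
`φ (a i) = g^k₀ (g^-t (w i))`, and, since `HolT` with time `T` gives
`URel σ (g^N' a) (g^N' a') → URel (2σ) (g^N' (φ a)) (g^N' (φ a'))` for `N' ≥ T` (lemma
`HolT.loc'` in PI/HolT.lean), `¬ URel σ (g^N' (a i)) (g^N' (a j))` for `i ≠ j`, `N' = N + t - k₀`.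
`SB3` gives `q i ∈ Λ` with `SRel e₄ (g^t₁ (a i)) (q i)`. Put `a i` in the class `k` if it is in the
`k`-th set of the cover; for every nonempty class let `λ k = q i` for one of its members and apply
`SReach` to the point `g^-p (λ k) ∈ Λ`: `z k`, `s k ≤ s₀` with `URel ε (x k) (z k)`,
`dist (g^(s k) (z k)) (g^-p (λ k)) ≤ δ₇`, so with `S k = s k + p`:
`dist (g^(S k) (z k)) (λ k) ≤ δ₄/4`. For `i` in the class `k`:
`dist (g^t₁ (a i)) (g^(S k) (z k)) ≤ δ₄`, bracket `v i`: `SRel e₅ (g^t₁ (a i)) (v i)`,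
`URel e₅ (v i) (g^(S k) (z k))`; `f' i = g^-(S k) (v i)` satisfies `URel ((1/8)^p e₅) (f' i) (z k)`,
so `URel r x₀ (f' i)`. Same class: by `LP'` and the contraction (two more steps),
`¬ URel (5σ)` at time `N' - t₁ + S k + 2 ≤ N - 1`. Different classes: `dist (f' i) (f' j) ≥ s / 4`,
so `¬ URel (5σ)` at time `N - 1` for large `N`. Then finish as in `claimB` (`PP.bounded`,
`PP.exists_time`). -/
def SB4 : Prop := ∀ (X : Type u) (E : Type v) [MetricSpace X] [CompactSpace X]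
  [NormedAddCommGroup E] [NormedSpace ℝ E] (S : HypSys X E) (ε₀ σ η b : ℝ), Geo S ε₀ →
  (∀ x : X, ∀ r > 0, {z | S.URel r x z}.Infinite) → 0 < η → 16 * η ≤ σ → 16 * σ ≤ ε₀ →
  0 < b → 2 * b ≤ ε₀ →
  ∀ Λ, UMin S Λ → CB S σ η b (Ws S Λ)

/-- **SB6** (boxes).
Proof. Let `k₀` be given by `CB`. `τ = b / 4096` (then `16 σ ≤ τ`, `64 τ ≤ R`, `64 τ ≤ b`). Take `k₂` with
`β^k₂ σ ≤ τ / 8`, `k₁ = k₀ + k₂`. Let `x, T, φ, z, n` be given. `A = W (b/2) x`,
`Φ w = g^-k₁ (φ (ψ x w))` for `‖w‖ ≤ 3 b / 16` (note `ψ x w ∈ W (3b/8) x ⊆ A`), a continuous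
injective map into `SM S.g.symm` (the leaf topology, `HolT.cont` in PI/HolT.lean). If `n < k₁` or
`b ≤ 100 τ β^(n - k₁)` take `J = 0` (then `c ≤ β^n` if `c` is small). Otherwise let
`κ = 40 τ β^(n-k₁)` and `J = ⌊b / κ⌋ ≥ 2`. By the chart `z = ψ x w₁`, `‖w₁‖ ≤ b / 128`; the path
`t ↦ a t = ψ x (t w₁)` is in `W (b/64) x`. The function
`t ↦ dist_SM (g^-n (φ x)) (g^-n (φ (a t)))` is continuous, `0` at `t = 0` and `> b` at `t = 1`, so it
takes the values `j κ`, `j < J`, at `t_j`; `d j = g^-k₁ (φ (a t_j))`. Separation: if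
`URel τ (ψ (d i) w) (ψ (d j) w')` then `URel (21 τ) (d i) (d j)` hence (`uc`, `21 τ ≤ ε₀`) at time
`-n` the points are `URel (21 τ β^(n-k₁))`-close, but their `dist_SM` is `≥ κ`.
Openness: `ψ d '' ball 0 s` is open in `SM` for `s ≤ R / 8` (if `URel δ (ψ d w) p` with small `δ` then
`p = ψ d w'` by `surj` and `‖w - w'‖ ≤ 2 δ`), and `Ω = Φ '' ball 0 (3b/16)` is open (`HolT.open` in
PI/HolT.lean), with frontier in `Φ '' sphere 0 (3b/16)`.
First part of the last claim: `V = ψ (d j) '' ball 0 s` is open, its closure is in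
`ψ (d j) '' closedBall 0 s`, so its frontier is in `ψ (d j) '' sphere 0 s`. The connected set
`{g^-k₁ (φ (a t))}` contains `d j ∈ V` and (for some `i ≠ j`) `d i ∉ V`, so it meets the frontier
(`Pool.Agent.Q210.UQ.meets_frontier`).
Second part: by `CB` for `a t_j` there is `w*` with `URel σ (g^-k₀ (φ (a t_j))) (g^-k₀ w*)`,
`w* ∉ φ '' A`; then `g^-k₁ w* = ψ (d j) v`, `‖v‖ ≤ τ / 2`. The connected set
`ψ (d j) '' (segment 0 v)` joins `d j ∈ Ω` to a point not in `Ω`, so there is a point of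
`S' = Φ '' sphere 0 (3b/16)` in `ψ (d j) '' ball 0 τ`, for every `j`. As `S'` is connected
(`isPreconnected_sphere`, `2 ≤ D`), `J ≥ 2`, and `ψ (d i) '' ball 0 τ` is disjoint from
`ψ (d j) '' closedBall 0 s`, `S'` meets the frontier of `V`: there is `w`, `‖w‖ = s`, with
`ψ (d j) w = Φ w₀`, `‖w₀‖ = 3b/16`. If also `φ a = g^k₁ (ψ (d j) w)` with `URel (b/16) x a` then
`a = ψ x w₀` by injectivity, but `‖w₀‖ ≤ 2 dist x a ≤ b / 8`. -/
def SB6 : Prop := ∀ (X : Type u) (E : Type v) [MetricSpace X] [CompactSpace X]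
  [NormedAddCommGroup E] [NormedSpace ℝ E] (S : HypSys X E) (D : ℕ) (ε₀ Q α β K L R σ η b : ℝ)
  (ψ : X → V D → X) (U : Set X), 2 ≤ D → Sc S ε₀ Q α β K L → Cht S D ε₀ R ψ →
  Scale ε₀ R Q L σ η b → CB S σ η b U → Bx S D σ η b β R ψ U

/-- **SB7** (the transported function), from `SB1`. The leaf distance is the distance of
`SM S.g.symm` (`SM.dist_le`: `dist ⟨p⟩ ⟨q⟩ ≤ c ↔ URel c p q` for `0 ≤ c`); write `δ(p, q)`; it is equal to
`dist p q` if `URel ε₀ p q`.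
Proof. Let `A = W (b/2) x`, `A₂ = W (b/20) x`. Points of `A₂` that are pairwise not `URel σ` related
at time `T` are at most `N(T)` many (in `W (b/2) x` small distance at time `0` implies `URel σ` at
time `T`; `X` is compact), so there is a finite maximal family `a i ∈ A₂`, `i < m`, with
`¬ URel σ (g^T (a i)) (g^T (a j))` for `i ≠ j`; every `a ∈ A₂` has an `i` with
`URel σ (g^T a) (g^T (a i))`. Put `q i = g^T (φ (a i))`, `ζ i = min 1 (max 0 (3 - 96/b * dist x (a i)))`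
(`= 1` if `dist x (a i) ≤ b/48`, `= 0` if `≥ b/32`, Lipschitz constant `96/b`),
`χ i p = min 1 (max 0 (3 - δ(p, q i)/σ))` (`= 1` if `δ ≤ 2σ`, `= 0` if `≥ 3σ`, Lipschitz constant
`1/σ` in `δ`), `W p = ∑ χ i p`, `f p = (∑ ζ i * χ i p) / max 1 (W p)`.
(a) If `URel (6σ) (q i) p` then there is `a` with `g^T (φ a) = p`,
`URel (8 Q σ) (g^T (a i)) (g^T a)` (`HolT.surj` in PI/HolT.lean). If moreover `ζ i > 0` then
`dist x a ≤ b/32 + 8 Q σ ≤ b/20`, so there is `j` with `URel σ (g^T a) (g^T (a j))`,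
`URel (2σ) p (q j)`, and `W p ≥ 1`; also `URel (b/16) x a`.
(b) If `URel (6σ) (q i) p` and `URel (6σ) (q j) p` then the two points `a` of (a) are equal by
injectivity, so `URel (16 Q σ) (g^T (a i)) (g^T (a j))`.
(c) The number of `j` with `URel (6σ) (q j) p` is at most `N₀`, where `N₀` is the number of sets of
diameter `< σ` needed to cover `X` (points `g^T (a j)` are pairwise `URel (16 Q σ)` related, so with
distance `≤ σ` they would be `URel σ` related).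
(d) `f (g^T (φ a)) = 1` if `URel (b/64) x a`: every `i` with `χ i > 0` has
`dist x (a i) ≤ b/64 + 8 Q σ ≤ b/48`, so `ζ i = 1`, and `W ≥ 1` by (a). If `f p ≠ 0` then
`ζ i χ i p ≠ 0` for some `i`, so `p = g^T (φ a)` with `URel (b/16) x a`.
(e) Let `λ i` be the maximum of `dist (a i) (a j)` over the `j` with
`URel (16 Q σ) (g^T (a i)) (g^T (a j))`, and `l i = N₀ (N₀+1)/σ * 96/b * 2 * λ i`. Given `p`: if no
`i` with `ζ i > 0` has `URel (4σ) (q i) p` then `f = 0` at `p` and at all `p'` with `URel σ p p'`.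
Otherwise fix such an `i`; for `URel σ p p'`, `W p, W p' ≥ 1` and
`f p' - f p = ∑_j (ζ j - ζ i) (χ j p' / W p' - χ j p / W p)` where only the `≤ N₀` indices `j` with
`URel (5σ) (q j) p` contribute, `|ζ j - ζ i| ≤ 96/b * λ i` by (b), and
`|χ j p' / W p' - χ j p / W p| ≤ (N₀ + 1)/σ * dist p p'`.
(f) `∑ (λ i)^D ≤ C K^(D T)`: let `C₁` be the constant of `SB1` for `σ/3`. In the chart `a i = ψ x (w i)`,
the balls `ball (w i) (λ i / (4 C₁ K^T))` are pairwise disjoint (if `w` is in two of them then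
`dist (a i) (ψ x w) < λ i / (C₁ K^T)`, so by `SB1` (with `z' = a j`, `m = T`)
`URel (σ/3) (g^T (a i)) (g^T (ψ x w))`, same for the other one, so the two centres are
`URel (2σ/3)` related at time `T`), and they are contained in the ball of radius `b`; compare
volumes (`Measure.addHaar_ball`). -/
def SB7 : Prop := ∀ (X : Type u) (E : Type v) [MetricSpace X] [CompactSpace X]
  [NormedAddCommGroup E] [NormedSpace ℝ E] (S : HypSys X E) (D : ℕ) (ε₀ Q α β K L R σ η b : ℝ)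
  (ψ : X → V D → X), 1 ≤ D → Sc S ε₀ Q α β K L → Cht S D ε₀ R ψ → Scale ε₀ R Q L σ η b →
  (∀ s > 0, ∃ C > 0, ∀ (a z z' : X) (m : ℕ), S.URel ε₀ a z →
    ¬ S.URel s (S.g^[m + 1] a) (S.g^[m + 1] z) → S.URel ε₀ (S.g^[m] a) (S.g^[m] z') →
    dist a z' ≤ C * K ^ m * dist a z) → Fn S D σ η b K

/-- **SB8** (tentacle lemma), from `Bx`, `Fn`, `LB`.
Proof. Let `k₁, τ, c` be given by `Bx`, `C` by `Fn`, `η₀` by `LB`. Let `x, T, φ, z, n` be given,
`J, d` from `Bx`, `f, m, q, l` from `Fn`, `M = T + k₁`. For each `j` let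
`P w = g^M (ψ (d j) (τ w))`, `u w = 1 - f (P w)`. On spheres of radius `t ∈ [1, 2]`, `u` takes the
values `0` and `1` (apply `Bx` to `s = τ t`; `g^M = g^T ∘ g^k₁`, `g^T` is injective).
Let `I j` be the set of `i` such that `URel (4σ) (q i) (P w)` for some `‖w‖ < 5`; the `I j` are
disjoint (if `URel (8σ) (P_j w) (P_j' w')` then the points `ψ (d j) (τ w)`, `ψ (d j') (τ w')` are
`URel (8σ)`, hence `URel τ` related, as `16 σ ≤ τ`). For `i ∈ I j` choose such a `w`, call it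
`c i`, and let `ρ i` be the supremum of `‖w - c i‖` over `‖w‖ < 5` with `URel (5σ) (q i) (P w)`
(positive: `P` is continuous for the leaf distance and `1 ≤ D`). Let `‖w‖ < 5` and
`URel (4σ) (q i) (P w)`. There is `w'` with `URel (5σ) (q i) (P w')`, `‖w' - w‖ ≥ ρ i / 4`. By iterated
`md` (the points `P w`, `P w'`, `P w''` are `URel (9σ)` related for `w''` near `w`)
`dist (P w) (P w'') * dist (ψ (τ w)) (ψ (τ w')) ≤ K^M * dist (P w) (P w') * dist (ψ (τ w)) (ψ (τ w''))`, so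
`dist (P w) (P w'') ≤ K^M * 9 σ * (2 τ ‖w - w''‖) / (τ ρ i / 8) = 144 σ K^M / ρ i * ‖w - w''‖`, and
`u` satisfies the hypothesis of `LB` with the constants `144 σ K^M l i / ρ i` for `i ∈ I j` (and `0`,
`ρ = 0`, for the other `i`). So `η₀ ≤ (144 σ K^M)^D ∑_(i ∈ I j) l i ^ D`. Sum over `j`:
`J η₀ ≤ (144 σ)^D K^(D M) C K^(D T)`, and `c ≤ (J + 1) β^n`. -/
def SB8 : Prop := ∀ (X : Type u) (E : Type v) [MetricSpace X] [CompactSpace X]
  [NormedAddCommGroup E] [NormedSpace ℝ E] (S : HypSys X E) (D : ℕ) (ε₀ Q α β K L R σ η b : ℝ)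
  (ψ : X → V D → X) (U : Set X), 2 ≤ D → Sc S ε₀ Q α β K L → Cht S D ε₀ R ψ →
  Scale ε₀ R Q L σ η b → Bx S D σ η b β R ψ U → Fn S D σ η b K → LB D → TL S D σ η b β K U

/-- **SB9** (Whitney chain), from `SB1` and `TL`.
Proof. Let `C₀` be the constant of `TL`, `C₁` the constant of the cell hypothesis for `s = b/256`.
Let `y, r, T, φ, n` be given, `d w = r - ‖w‖`, and `D w = d w + δ`, `δ = b / (8 L^T)`. For `‖w‖ < r` and
`a = ψ y w` let `j ≤ T` be minimal such that `j = T` or: every `z'` with `URel b (g^j a) (g^j z')` has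
`dist a z' ≤ d w / 4`.
(1) If `dist a z ≤ D w / (C₂ K^j)` (`z` in the plaque, `C₂` large) then
`URel (b/256) (g^j a) (g^j z)`. For `j = 0`: clear. For `j ≥ 1`: by minimality there is `z'` with
`URel b (g^(j-1) a) (g^(j-1) z')` and `dist a z' > d w / 4`, and there is also one with
`dist a z' ≥ b / (4 L^(j-1))` (a point of the chart at `a`), so one with `dist a z' ≥ D w / 16`;
use the cell hypothesis (`m = j - 1`).
(2) Let `z = ψ y w'`, `‖w'‖ < r`, and `URel (b/256) (g^j a) (g^j z_s)` for all points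
`z_s = ψ y (w + s (w' - w))`, `0 ≤ s ≤ 1`. Then
`URel s (g^-n (φ a)) (g^-n (φ z))` with `s = C₃ (K^(2DT) β^n) (β / K^(2D))^j`, provided
`C₄ K^(2DT) β^n ≤ 1`. If `j = T`: the `z_s` give a chain of `σ`-steps at time `T` from `a` to `z`
inside the ball and inside `W (b/256)` at time `T`, so (`HolT.chain` in PI/HolT.lean)
`URel b (g^T (φ a)) (g^T (φ z))` and `uc` gives
`URel (β^(n+T) b)` at time `-n`. If `j < T`: every `z'` with `URel b (g^j a) (g^j z')` is in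
`ψ y '' ball 0 r`, so `W b (g^j a) ⊆ U` (`U` is invariant) and by
`HolT.shift` (PI/HolT.lean) `g^j φ g^-j` is a holonomy with time `T - j` on `W b (g^j a)`; by `TL`
`URel b (g^-n' (g^j (φ a))) (g^-n' (g^j (φ z)))` for every `n'` with
`C₀ K^(2D(T-j)) β^n' < 1`; take the smallest one, then `β^(-n') ≤ (C₀ + 1) K^(2D(T-j)) / β`, and
`n ≥ n'`; at time `-n` the points are `URel (β^(n + j - n') b)` related.
(3) Let `‖w‖ < r`. Define `t₀ = 0`, `t_(i+1) = t_i + D (t_i w) / (2 C₂ K^(j_i) (‖w‖ + 1))`, as long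
as `t_i < 1` (`C₂` also so large that `D (t_(i+1) w) ≥ D (t_i w) / 2`); the steps are bounded below,
so finitely many steps reach `1` (cut the last one). By (1), (2)
`URel (∑ s_i) (g^-n (φ y)) (g^-n (φ (ψ y w)))` with
`s_i = C₃ (K^(2DT) β^n) (β / K^(2D))^(j_i)`, and (except for the last step, which adds at most `C₃ K^(2DT) β^n`)
`(β / K^(2D))^(j_i) = q^(j_i) / K^(j_i) ≤ C q^(j_i) (D_i - D_(i+1)) / D_i`, `q = β K^(1-2D) < 1`
(note `‖t_(i+1) w‖ - ‖t_i w‖ = D_i - D_(i+1)`; if `‖w‖` is small compared to the step one step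
suffices). Finally `b / (8 L^(j_i)) ≤ C D_i`: for `j_i = T` by definition of `D`, for `j_i < T` because
there is a point `z'` with `URel b (g^(j_i) a) (g^(j_i) z')` and `dist a z' ≥ b / (8 L^(j_i))`. So
`q^(j_i) ≤ C D_i^κ` with `κ > 0` such that `q ≤ L^(-κ)`, `κ ≤ 1`, and
`∑ s_i ≤ C K^(2DT) β^n (1 + ∑ (D_i - D_(i+1)) D_i^(κ-1)) ≤ C K^(2DT) β^n (1 + D_0^κ / κ)`. -/
def SB9 : Prop := ∀ (X : Type u) (E : Type v) [MetricSpace X] [CompactSpace X]
  [NormedAddCommGroup E] [NormedSpace ℝ E] (S : HypSys X E) (D : ℕ) (ε₀ Q α β K L R σ η b : ℝ)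
  (ψ : X → V D → X) (U : Set X), 2 ≤ D → Sc S ε₀ Q α β K L → Cht S D ε₀ R ψ →
  Scale ε₀ R Q L σ η b → (∀ z ∈ U, S.g z ∈ U) →
  (∀ s > 0, ∃ C > 0, ∀ (a z z' : X) (m : ℕ), S.URel ε₀ a z →
    ¬ S.URel s (S.g^[m + 1] a) (S.g^[m + 1] z) → S.URel ε₀ (S.g^[m] a) (S.g^[m] z') →
    dist a z' ≤ C * K ^ m * dist a z) →
  TL S D σ η b β K U → WL S D σ η β K R ψ U

/-- **SB10** (transport), from `WL`; compare `Hol.step` (Q130/UQ/Hol.lean) and `transport`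
(Q130/UQ/Fin.lean).
Proof. `e₁ = η / (8 Q)` (and at most the `δ₁` of the subdivision hypothesis), `e₂ = 2 Q e₁ ≤ η / 4`.
Let `C` be the constant of `WL` for `e = e₁`. Let `M` be such that
`SRel e₁ (g^M y) (g^M P)` (`SAsym.eventually`). The subdivision hypothesis, applied `n + M` times,
gives a chain `c 0 = y, ..., c p = P`, `p = ms^(n+M)`, with `SRel e₁ (g^-n (c i)) (g^-n (c (i+1)))`.
Choose `n`, `T` from the growth hypothesis with a large constant: `p e₂ α^(T+n) ≤ η` and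
`C K^(2DT) β^n ≤ 1`. By induction on `i ≤ p` there is `φ` with `HolT S σ η T A φ`, `A = ψ y '' ball 0 r`,
`φ y = c i`, and `dist (g^k (g^-n a)) (g^k (g^-n (φ a))) ≤ i e₂ α^k` for all `k` and `a ∈ A`.
Step: by `WL`, `URel e₁ (g^-n (c i)) (g^-n (φ a))` for `a ∈ A`; `Sc.br` gives the corner `W a`:
`URel e₂ (g^-n (c (i+1))) (W a)`, `SRel e₂ (g^-n (φ a)) (W a)`; the new map is `a ↦ g^n (W a)`. Its
properties are proved as in `Hol.step` (`loc`: use `lp` and `Geo.URel_dist` with the bound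
`dist (g^T a) (g^T a') + 2 η ≤ 2 σ`). -/
def SB10 : Prop := ∀ (X : Type u) (E : Type v) [MetricSpace X] [CompactSpace X]
  [NormedAddCommGroup E] [NormedSpace ℝ E] (S : HypSys X E) (D : ℕ) (ε₀ Q α β K L R σ η b : ℝ)
  (ψ : X → V D → X) (U : Set X) (ms : ℕ), Sc S ε₀ Q α β K L → Cht S D ε₀ R ψ →
  Scale ε₀ R Q L σ η b →
  (∃ δ₁ > 0, ∀ δ, 0 < δ → δ ≤ δ₁ → ∀ x y : X, S.SRel δ x y →
      ∃ c : ℕ → X, c 0 = S.g.symm x ∧ c ms = S.g.symm y ∧
        ∀ i < ms, S.SRel δ (c i) (c (i + 1))) →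
  (∀ C : ℝ, ∃ n T : ℕ, C * (ms : ℝ) ^ n * α ^ (T + n) ≤ 1 ∧ C * K ^ (2 * D * T) * β ^ n ≤ 1) →
  WL S D σ η β K R ψ U → TR S D σ η R ψ U

/-- **SB11** (the stable set of a minimal set is saturated).
Proof. Let `y ∈ U = Ws S Λ`, `UAsym S y y'`, `y' ∉ U`. Replacing both by `g^-k` of them (`U` is
invariant) we may assume `URel (R / 32) y y'`; so `y' = ψ y w'`, `‖w'‖ ≤ R / 16`. The set
`{w ∈ closedBall 0 (R/16) | ψ y w ∉ U}` is closed (`U` is open: `exists_bracket`, see the proof of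
`whole` in Q182/UQ/Whole) and nonempty; let `w*` be a point of minimal norm `r > 0`. Then
`ψ y w ∈ U` for `‖w‖ < r`. Let `P ∈ Λ` with `SAsym S P y`; `TR` gives `T`, `φ` with `φ y = P`. For
`a ∈ ψ y '' ball 0 r`: `φ a ∈ Λ` (`uu` and saturation). Let `a_k = ψ y ((1 - 1/(k+1)) • w*) → z = ψ y w*`;
a subsequence of `φ (a_k)` converges to `q ∈ Λ`, and `SRel η (g^T z) (g^T q)` (closed condition), so
`z ∈ Ws S Λ`, a contradiction. -/
def SB11 : Prop := ∀ (X : Type u) (E : Type v) [MetricSpace X] [CompactSpace X]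
  [NormedAddCommGroup E] [NormedSpace ℝ E] (S : HypSys X E) (D : ℕ) (ε₀ R σ η : ℝ)
  (ψ : X → V D → X) (Λ : Set X), Geo S ε₀ → Cht S D ε₀ R ψ → η ≤ ε₀ → UMin S Λ →
  TR S D σ η R ψ (Ws S Λ) → ∀ y ∈ Ws S Λ, ∀ y', UAsym S y y' → y' ∈ Ws S Λ

/-- **SB12** (all unstable paths lift).
Proof. As parts (b), (c) of `SA6` (Stm.lean). Let `κ > 0` be such that `URel (R / 32) (υ t) (υ t')`
for `|t - t'| ≤ κ`. It suffices to lift a path `υ` with `υ 0 = a` and `URel (R/32) a (υ t)` for all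
`t`, starting with `s`, `SAsym a s`. By `TR` with `U = univ`, `y = a`, `P = s`, `r = R / 8`: there
are `T`, `φ` with `φ a = s`. `Γ t = (υ t, φ (υ t))` is a strip: `υ t = ψ a w`, `‖w‖ ≤ R / 16`;
`WS g (υ t) (φ (υ t))` by `rel`; continuity in `Pr S.g` (`Pr.continuous_iff`): first entry clear,
second entry by `HolT.cont` (PI/HolT.lean), third condition by `rel`, `Sc.sc`. -/
def SB12 : Prop := ∀ (X : Type u) (E : Type v) [MetricSpace X] [CompactSpace X]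
  [NormedAddCommGroup E] [NormedSpace ℝ E] (S : HypSys X E) (D : ℕ) (ε₀ Q α β K L R σ η b c : ℝ)
  (ψ : X → V D → X), LP S.g c → Sc S ε₀ Q α β K L → Cht S D ε₀ R ψ → Scale ε₀ R Q L σ η b →
  TR S D σ η R ψ Set.univ → ∀ a s, WS S.g a s → Lf S.g a s

/-- **SB13** (quantitative data of a hyperbolic system).
Proof. `exists_geo`, `local_product` (constant `9 K`), `contraction_iter` for `S` and `S.symm`,
`local_lip` in H721R2/Box.lean (local Lipschitz bound of `g`; globally by compactness),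
`chart_prop S.symm D` (`R = min ρ₁ ρ'`, `ρ = ε₀ / 2`). For `md`: by the cone lemma (`coneS'` for
`S.symm`) there is `u ∈ Vu x` with `‖e z - e x - u‖ ≤ 2 η dist x z`, `A1` gives
`‖e (g z) - e (g x) - D x (s + u₁)‖ ≤ η dist x z` with `s`, `u₁ - u` small (`S.angle`), so
`‖e (g z) - e (g x) - D x u‖ ≤ C η dist x z`, and `‖D x u‖ ≥ ‖u‖ / S.b ≥ 16 ‖u‖`; the same for `z'`;
the distortion hypothesis for `u`, `u'` gives `md` with `K > K₁` if `η` is small. -/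
def SB13 : Prop := ∀ (X : Type u) (E : Type v) [MetricSpace X] [CompactSpace X]
  [NormedAddCommGroup E] [InnerProductSpace ℝ E] [FiniteDimensional ℝ E] (S : HypSys X E) (D : ℕ)
  (α β K₁ K : ℝ), (∀ x, Module.finrank ℝ (S.Vu x) = D) → S.a < α → S.b < β → α ≤ 1 / 2 →
  β ≤ 1 / 2 → 1 ≤ K₁ → K₁ < K →
  (∀ x, ∀ v ∈ S.Vu x, ∀ w ∈ S.Vu x, ‖S.D x v‖ * ‖w‖ ≤ K₁ * (‖S.D x w‖ * ‖v‖)) →
  ∃ ε₀ Q L R : ℝ, ∃ ψ : X → V D → X, Sc S ε₀ Q α β K L ∧ Cht S D ε₀ R ψ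

/-- **SB14** (numerical). Proof: logarithms; `n` large and `T` the smallest number with
`C ms^n α^(T+n) ≤ 1`, so `T ≤ n (log ms / log (1/α) - 1) + C'` (or `T = 0`). -/
def SB14 : Prop := ∀ (α β K : ℝ) (ms D : ℕ), 0 < α → α < 1 → 0 < β → β < 1 → 1 ≤ K → 1 ≤ ms →
  2 * D * Real.log K * (Real.log ms - Real.log α⁻¹) < Real.log α⁻¹ * Real.log β⁻¹ →
  ∀ C : ℝ, ∃ n T : ℕ, C * (ms : ℝ) ^ n * α ^ (T + n) ≤ 1 ∧ C * K ^ (2 * D * T) * β ^ n ≤ 1

end Pool.Agent.Q192.PI.B
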